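import Pool.Agent.Lib.MZDim.ZMain

/-! MP_c511df_nt (Zagier's identity `a_k = D_k - D_(k-2)`): definitions in the form of the frozen
statement S18415 and comparison with `Zk`. -/

namespace Pool.MZDim

/-- the real multiple zeta values of weight `k`, as in the frozen statement S18415 -/
def mzvSet (k : ℕ) : Set ℝ :=
  {x : ℝ | ∃ r : ℕ, ∃ kk : Fin r → ℕ,
    (∀ i, 1 ≤ kk i) ∧ (∑ i, kk i = k) ∧ (∀ h : 0 < r, 2 ≤ kk ⟨0, h⟩) ∧
    x = ∑' m : {m : Fin r → ℕ // StrictAnti m ∧ ∀ i, 0 < m i},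
          ∏ i, (((m.1 i : ℕ) : ℝ) ^ kk i)⁻¹}

/-- `D_k`, the dimension of the space of multiple zeta values of weight `k` -/
noncomputable def dimD (k : ℕ) : ℕ := Module.finrank ℚ (Submodule.span ℚ (mzvSet k))

theorem mzvSet_eq (k : ℕ) : mzvSet k = mzv '' wd k := by
  ext x
  constructor
  · rintro ⟨r, kk, h1, h2, h3, rfl⟩
    refine ⟨List.ofFn kk, ⟨?_, ?_, ?_⟩, ?_⟩
    · intro a ha
      obtain ⟨i, rfl⟩ := List.mem_ofFn.1 ha
      exact h1 i
    · intro a ha
      rcases r with _ | r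
      · simp at ha
      · simp only [List.ofFn_succ, List.head?_cons, Option.mem_def, Option.some.injEq] at ha
        rw [← ha]
        exact h3 (Nat.succ_pos r)
    · rw [List.sum_ofFn, h2]
    · have key : ∀ (s : List ℕ) (h : s.length = r), (∀ i : Fin r, kk i = s.get (i.cast h.symm)) →
          mzv s = ∑' m : {m : Fin r → ℕ // StrictAnti m ∧ ∀ i, 0 < m i},
            ∏ i, (((m.1 i : ℕ) : ℝ) ^ kk i)⁻¹ := by
        intro s h hs
        subst h
        unfold mzv
        refine tsum_congr fun m => Finset.prod_congr rfl fun i _ => ?_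
        rw [hs i]
        rfl
      refine key (List.ofFn kk) List.length_ofFn fun i => ?_
      simp
  · rintro ⟨s, ⟨h1, h2, h3⟩, rfl⟩
    refine ⟨s.length, s.get, fun i => h1 _ (List.get_mem s i), ?_, ?_, rfl⟩
    · rw [← h3]
      conv_rhs => rw [← List.ofFn_get s, List.sum_ofFn]
    · intro h
      rcases s with _ | ⟨a, s⟩
      · simp at h
      · exact h2 a rfl

theorem dimD_eq (k : ℕ) : dimD k = Module.finrank ℚ (Zk k) := by
  unfold dimD Zk
  rw [mzvSet_eq]

end Pool.MZDim
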