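import Mathlib

/-! MODULE Smp (about 70 lines, ONLY MATHLIB). MP_301213_nt, dim Z_k → ∞. The dyadic sample points.

PROOFS. card_smp: card of a union ≤ sum of the cards; Icc 1 (2P-1) has 2P-1 ≤ 2P elements; for each a ∈ Icc 1 A0 the image has ≤ P
elements: total ≤ 2P + A0 P. smp_pos: elements are ≥ 1 (P ≥ 1).
smp_cover: let 1 ≤ s < 2^(A0+1) P. If s ≤ 2P - 1 then s ∈ smp. Otherwise 2P ≤ s; let a be the largest number with 2^a P ≤ s
(Nat.findGreatest, or a = Nat.log 2 (s / P)): 1 ≤ a ≤ A0 and s < 2^(a+1) P. -/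

open Finset

namespace Pool.MZDim

/-- the sample points -/
def smp (P A0 : ℕ) : Finset ℕ :=
  Icc 1 (2 * P - 1) ∪ (Icc 1 A0).biUnion fun a => (Ico P (2 * P)).image fun m => 2 ^ a * m

theorem card_smp (P A0 : ℕ) : (smp P A0).card ≤ (A0 + 2) * P := by
  unfold smp
  have h1 : (Icc 1 (2 * P - 1)).card ≤ 2 * P := by
    rw [Nat.card_Icc]
    omega
  have h2 : ((Icc 1 A0).biUnion fun a => (Ico P (2 * P)).image fun m => 2 ^ a * m).card ≤
      A0 * P := by
    refine (Finset.card_biUnion_le_card_mul _ _ P fun a _ => ?_).trans ?_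
    · refine Finset.card_image_le.trans ?_
      rw [Nat.card_Ico]
      omega
    · rw [Nat.card_Icc]
      exact Nat.mul_le_mul_right P (by omega)
  calc _ ≤ _ := Finset.card_union_le _ _
    _ ≤ 2 * P + A0 * P := Nat.add_le_add h1 h2
    _ = (A0 + 2) * P := by ring

theorem smp_pos {P A0 s : ℕ} (hP : 1 ≤ P) (hs : s ∈ smp P A0) : 1 ≤ s := by
  unfold smp at hs
  rw [Finset.mem_union, Finset.mem_biUnion] at hs
  rcases hs with hs | ⟨a, _, ha⟩
  · exact (Finset.mem_Icc.mp hs).1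
  · obtain ⟨m, hm, rfl⟩ := Finset.mem_image.mp ha
    have h1 := (Finset.mem_Ico.mp hm).1
    have h2 : 0 < 2 ^ a * m := Nat.mul_pos (by positivity) (by omega)
    omega

theorem smp_cover {P A0 s : ℕ} (hP : 1 ≤ P) (h1 : 1 ≤ s) (h2 : s < 2 ^ (A0 + 1) * P) :
    s ∈ smp P A0 ∨ ∃ a, 1 ≤ a ∧ a ≤ A0 ∧ 2 ^ a * P ≤ s ∧ s ≤ 2 * (2 ^ a * P) ∧
      ∀ m ∈ Ico P (2 * P), 2 ^ a * m ∈ smp P A0 := by
  by_cases hs : s ≤ 2 * P - 1
  · left
    unfold smp
    exact Finset.mem_union_left _ (Finset.mem_Icc.mpr ⟨h1, hs⟩)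
  · right
    have h3 : 2 * P ≤ s := by omega
    have h4 : 2 ≤ s / P := (Nat.le_div_iff_mul_le (by omega)).mpr h3
    have h5 : 2 ^ Nat.log 2 (s / P) ≤ s / P := Nat.pow_log_le_self 2 (by omega)
    have h6 : s / P < 2 ^ (Nat.log 2 (s / P) + 1) := Nat.lt_pow_succ_log_self (by norm_num) _
    have h7 : s / P < 2 ^ (A0 + 1) := (Nat.div_lt_iff_lt_mul (by omega)).mpr h2
    have h8 : 1 ≤ Nat.log 2 (s / P) := by
      by_contra h
      have h0 : Nat.log 2 (s / P) = 0 := by omega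
      rw [h0] at h6
      omega
    have h9 : Nat.log 2 (s / P) < A0 + 1 :=
      (Nat.pow_lt_pow_iff_right (by norm_num)).mp (lt_of_le_of_lt h5 h7)
    have h10 : s / P * P ≤ s := Nat.div_mul_le_self s P
    have h11 : s < 2 ^ (Nat.log 2 (s / P) + 1) * P := (Nat.div_lt_iff_lt_mul (by omega)).mp h6
    refine ⟨Nat.log 2 (s / P), h8, by omega, ?_, ?_, ?_⟩
    · exact (Nat.mul_le_mul_right P h5).trans h10
    · rw [pow_succ] at h11
      have e : 2 ^ Nat.log 2 (s / P) * 2 * P = 2 * (2 ^ Nat.log 2 (s / P) * P) := by ring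
      rw [e] at h11
      exact h11.le
    · intro m hm
      unfold smp
      refine Finset.mem_union_right _ (Finset.mem_biUnion.mpr ⟨Nat.log 2 (s / P),
        Finset.mem_Icc.mpr ⟨h8, by omega⟩, Finset.mem_image.mpr ⟨m, hm, rfl⟩⟩)

end Pool.MZDim
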