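import Pool.Agent.Lib.MP_301213_nt.Main

/-! MP_301213_nt, `dim Z_k → ∞` (paper store `MP_301213_nt_paper63.md`): definitions.

Words are lists of letters `≥ 2` (`HofPers.Adm l`), the HEAD of the list is the exponent of the
LARGEST summation variable. `HofPers.sR l M = ∑_{0 < m_r < ... < m_1 ≤ M} ∏ m_i ^ (-l_i)`; in the
paper `h_l(t) = sR l (t - 1)`, and all sums over `t ≥ 1` are sums over `M : ℕ` with `t = M + 1`. -/

open HofPers Finset

namespace Pool.MZDim

/-- the multiple zeta value of the word `l` (the head is the exponent of the largest variable) -/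
noncomputable def zv (l : List ℕ) : ℝ := HofPers.T l.reverse 0

/-- the span of the multiple zeta values of weight `k` all of whose letters are at least `2` -/
noncomputable def Yk (k : ℕ) : Submodule ℚ ℝ :=
  Submodule.span ℚ {x : ℝ | ∃ l : List ℕ, Adm l ∧ l.sum = k ∧ zv l = x}

/-- `x` is a rational combination of the values of words of weight at most `k`, the coefficients
have common denominator `(lcm (1..n)) ^ k`, the sum of their absolute values is at most `B` -/
def Rep (n k : ℕ) (B x : ℝ) : Prop :=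
  ∃ b : List ℕ →₀ ℚ, (∀ l ∈ b.support, Adm l ∧ l.sum ≤ k) ∧
    (∀ l, ∃ z : ℤ, ((Nat.lcmUpto n : ℕ) : ℚ) ^ k * b l = z) ∧
    ∑ l ∈ b.support, |((b l : ℚ) : ℝ)| ≤ B ∧
    ∑ l ∈ b.support, ((b l : ℚ) : ℝ) * zv l = x

/-- `β_i(M + 1) = N! / ((M + 1 + i) (M + 2 + i) ⋯ (M + 1 + N + i))` -/
noncomputable def beta (N i M : ℕ) : ℝ :=
  (N.factorial : ℝ) / ∏ j ∈ range (N + 1), ((M : ℝ) + 1 + i + j)

/-- the function `f_y` at `t = M + 1` -/
noncomputable def fy (A : Finset (List ℕ)) (N : ℕ) (y : ℕ → List ℕ → ℤ) (M : ℕ) : ℝ :=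
  ∑ i ∈ range (N + 1), ∑ l ∈ A, (y i l : ℝ) * (beta N i M * sR l M)

/-- small linear forms in the multiple zeta values of weight at most `K`, for all large `N` -/
def Forms (K : ℕ) (c lam : ℝ) : Prop :=
  ∀ᶠ N : ℕ in Filter.atTop, ∃ b : List ℕ →₀ ℤ, (∀ l ∈ b.support, Adm l ∧ l.sum ≤ K) ∧
    (∀ l, |((b l : ℤ) : ℝ)| ≤ Real.exp (c * N)) ∧
    0 < |∑ l ∈ b.support, ((b l : ℤ) : ℝ) * zv l| ∧
    |∑ l ∈ b.support, ((b l : ℤ) : ℝ) * zv l| ≤ Real.exp (-(lam * N))

end Pool.MZDim
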