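import Pool.Agent.Lib.MZDim.Defs

/-! MODULE RExp (about 110 lines). MP_301213_nt, dim Z_k → ∞. Partial fractions of `beta`, expansion of `fy`.

PROOFS. beta_pf: real identity, for x > 0: N! / ∏_{j ≤ N} (x + j) = ∑_{j ≤ N} (-1)^j choose N j (x+j)⁻¹, by induction on N for all x: the left side b_N(x) satisfies
b_N(x) - b_N(x+1) = b_{N+1}(x) (Finset.prod_range_succ, prod_range_succ'), the right side too (Pascal: Finset.sum_range_succ, sum_range_succ', Nat.choose_succ_succ).
Apply with x = M + 1 + i.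
fy_expand: put e u l = ∑_{i ≤ N} ∑_{j ≤ N} if i + j = u then y i l * (-1)^j * choose N j else 0 (an integer); |e u l| ≤ ∑_{j ≤ N} choose N j Y = 2^N Y (for each j
at most one i). fy A N y M = ∑_i ∑_l y i l ∑_j (-1)^j choose N j (M+1+i+j)⁻¹ sR l M = ∑_{u ≤ 2N} ∑_{l∈A} e u l (sR l M (M+1+u)⁻¹) (insert ∑_{u ≤ 2N} [u = i+j]; sum_comm). -/

open HofPers Finset

namespace Pool.MZDim

private theorem rexp_pf (N : ℕ) : ∀ x : ℝ, 0 < x →
    (N.factorial : ℝ) / ∏ j ∈ range (N + 1), (x + j) =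
      ∑ j ∈ range (N + 1), (-1) ^ j * (N.choose j : ℝ) * (x + j)⁻¹ := by
  induction N with
  | zero =>
    intro x _
    simp
  | succ N ih =>
    intro x hx
    have h1 := ih x hx
    have h2 := ih (x + 1) (by linarith)
    have hpos : ∀ (y : ℝ), 0 < y → ∀ n : ℕ, (∏ j ∈ range n, (y + j)) ≠ 0 := by
      intro y hy n
      refine Finset.prod_ne_zero_iff.2 fun j _ => ?_
      positivity
    have e1 : ∏ j ∈ range (N + 1 + 1), (x + j) =
        (∏ j ∈ range (N + 1), (x + j)) * (x + (N + 1 : ℕ)) := Finset.prod_range_succ _ _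
    have e2 : ∏ j ∈ range (N + 1 + 1), (x + j) =
        (∏ j ∈ range (N + 1), (x + 1 + j)) * x := by
      rw [Finset.prod_range_succ']
      congr 1
      · refine Finset.prod_congr rfl fun j _ => ?_
        push_cast
        ring
      · simp
    have e3 : ((N + 1).factorial : ℝ) / ∏ j ∈ range (N + 1 + 1), (x + j) =
        (N.factorial : ℝ) / ∏ j ∈ range (N + 1), (x + j) -
          (N.factorial : ℝ) / ∏ j ∈ range (N + 1), (x + 1 + j) := by
      have p1 := hpos x hx (N + 1)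
      have p2 := hpos (x + 1) (by linarith) (N + 1)
      have p3 := hpos x hx (N + 1 + 1)
      have q1 : (N.factorial : ℝ) / ∏ j ∈ range (N + 1), (x + j) =
          (N.factorial : ℝ) * (x + (N + 1 : ℕ)) / ∏ j ∈ range (N + 1 + 1), (x + j) := by
        rw [e1, mul_div_mul_right]
        positivity
      have q2 : (N.factorial : ℝ) / ∏ j ∈ range (N + 1), (x + 1 + j) =
          (N.factorial : ℝ) * x / ∏ j ∈ range (N + 1 + 1), (x + j) := by
        rw [e2, mul_div_mul_right _ _ hx.ne']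
      rw [q1, q2, ← sub_div, Nat.factorial_succ]
      congr 1
      push_cast
      ring
    rw [e3, h1, h2, Finset.sum_range_succ' _ (N + 1)]
    have e4 : ∑ j ∈ range (N + 1), (-1 : ℝ) ^ j * (N.choose j : ℝ) * (x + j)⁻¹ =
        ∑ j ∈ range (N + 1), (-1 : ℝ) ^ (j + 1) * (N.choose (j + 1) : ℝ) * (x + (j + 1 : ℕ))⁻¹ +
          (-1 : ℝ) ^ 0 * (N.choose 0 : ℝ) * (x + (0 : ℕ))⁻¹ := by
      rw [← Finset.sum_range_succ' (fun j => (-1 : ℝ) ^ j * (N.choose j : ℝ) * (x + j)⁻¹) (N + 1),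
        Finset.sum_range_succ _ (N + 1), Nat.choose_succ_self]
      simp
    have e5 : ∑ j ∈ range (N + 1), (-1 : ℝ) ^ (j + 1) * ((N + 1).choose (j + 1) : ℝ) *
          (x + (j + 1 : ℕ))⁻¹ =
        ∑ j ∈ range (N + 1), (-1 : ℝ) ^ (j + 1) * (N.choose (j + 1) : ℝ) * (x + (j + 1 : ℕ))⁻¹ -
          ∑ j ∈ range (N + 1), (-1 : ℝ) ^ j * (N.choose j : ℝ) * (x + 1 + j)⁻¹ := by
      rw [← Finset.sum_sub_distrib]
      refine Finset.sum_congr rfl fun j _ => ?_
      have e6 : x + 1 + (j : ℝ) = x + (j + 1 : ℕ) := by push_cast; ring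
      rw [Nat.choose_succ_succ, e6]
      push_cast
      ring
    rw [e4, e5]
    simp only [Nat.choose_zero_right, pow_zero, Nat.cast_one]
    ring

theorem beta_pf (N i M : ℕ) :
    beta N i M = ∑ j ∈ range (N + 1), (-1) ^ j * (N.choose j : ℝ) * ((M : ℝ) + 1 + i + j)⁻¹ :=
  rexp_pf N ((M : ℝ) + 1 + i) (by positivity)

private theorem rexp_ite (n j u : ℕ) (c : ℝ) (hc : 0 ≤ c) :
    ∑ i ∈ range n, (if i + j = u then c else 0) ≤ c := by
  by_cases hj : j ≤ u
  · have h1 : ∀ i ∈ range n, (if i + j = u then c else 0) = if i = u - j then c else 0 := by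
      intro i _
      have : (i + j = u) ↔ (i = u - j) := by omega
      simp only [this]
    rw [Finset.sum_congr rfl h1, Finset.sum_ite_eq']
    split_ifs
    · exact le_rfl
    · exact hc
  · rw [Finset.sum_eq_zero fun i _ => if_neg (by omega)]
    exact hc

theorem fy_expand (A : Finset (List ℕ)) (N : ℕ) (y : ℕ → List ℕ → ℤ) {Y : ℝ} (hY : 0 ≤ Y)
    (hy : ∀ i l, |(y i l : ℝ)| ≤ Y) :
    ∃ e : ℕ → List ℕ → ℤ, (∀ u l, |(e u l : ℝ)| ≤ 2 ^ N * Y) ∧
      ∀ M : ℕ, fy A N y M =
        ∑ u ∈ range (2 * N + 1), ∑ l ∈ A, (e u l : ℝ) * (sR l M * ((M : ℝ) + 1 + u)⁻¹) := by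
  refine ⟨fun u l => ∑ j ∈ range (N + 1), ∑ i ∈ range (N + 1),
    if i + j = u then y i l * ((-1) ^ j * (N.choose j : ℤ)) else 0, ?_, ?_⟩
  · intro u l
    push_cast
    refine (Finset.abs_sum_le_sum_abs _ _).trans ?_
    have h1 : ∀ j ∈ range (N + 1), |∑ i ∈ range (N + 1),
        (if i + j = u then (y i l : ℝ) * ((-1) ^ j * (N.choose j : ℝ)) else 0)| ≤
          (N.choose j : ℝ) * Y := by
      intro j _
      refine (Finset.abs_sum_le_sum_abs _ _).trans ?_
      refine le_trans (Finset.sum_le_sum fun i _ => ?_)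
        (rexp_ite (N + 1) j u ((N.choose j : ℝ) * Y) (by positivity))
      split_ifs
      · rw [abs_mul, abs_mul, abs_pow, abs_neg, abs_one, one_pow, one_mul, Nat.abs_cast, mul_comm]
        exact mul_le_mul_of_nonneg_left (hy i l) (by positivity)
      · rw [abs_zero]
    refine (Finset.sum_le_sum h1).trans ?_
    rw [← Finset.sum_mul]
    have h2 : ∑ j ∈ range (N + 1), (N.choose j : ℝ) = 2 ^ N := by
      have := Nat.sum_range_choose N
      exact_mod_cast this
    rw [h2]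
  · intro M
    have h1 : ∀ u ∈ range (2 * N + 1), ∑ l ∈ A,
        (((∑ j ∈ range (N + 1), ∑ i ∈ range (N + 1),
          if i + j = u then y i l * ((-1) ^ j * (N.choose j : ℤ)) else 0 : ℤ)) : ℝ) *
            (sR l M * ((M : ℝ) + 1 + u)⁻¹) =
        ∑ l ∈ A, ∑ j ∈ range (N + 1), ∑ i ∈ range (N + 1),
          if u = i + j then (y i l : ℝ) * ((-1) ^ j * (N.choose j : ℝ)) *
            (sR l M * ((M : ℝ) + 1 + u)⁻¹) else 0 := by
      intro u _
      refine Finset.sum_congr rfl fun l _ => ?_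
      push_cast
      rw [Finset.sum_mul]
      refine Finset.sum_congr rfl fun j _ => ?_
      rw [Finset.sum_mul]
      refine Finset.sum_congr rfl fun i _ => ?_
      rw [ite_mul, zero_mul]
      simp only [eq_comm (a := u)]
    rw [Finset.sum_congr rfl h1, Finset.sum_comm]
    unfold fy
    rw [Finset.sum_comm]
    refine Finset.sum_congr rfl fun l _ => ?_
    rw [Finset.sum_comm]
    have h2 : ∀ j ∈ range (N + 1), ∑ u ∈ range (2 * N + 1), ∑ i ∈ range (N + 1),
        (if u = i + j then (y i l : ℝ) * ((-1) ^ j * (N.choose j : ℝ)) *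
            (sR l M * ((M : ℝ) + 1 + u)⁻¹) else 0) =
        ∑ i ∈ range (N + 1), (y i l : ℝ) * ((-1) ^ j * (N.choose j : ℝ)) *
            (sR l M * ((M : ℝ) + 1 + (i + j : ℕ))⁻¹) := by
      intro j hj
      rw [Finset.sum_comm]
      refine Finset.sum_congr rfl fun i hi => ?_
      rw [Finset.sum_ite_eq', if_pos]
      rw [Finset.mem_range] at hi hj ⊢
      omega
    rw [Finset.sum_congr rfl h2, Finset.sum_comm]
    refine Finset.sum_congr rfl fun i _ => ?_
    rw [beta_pf, Finset.sum_mul, Finset.mul_sum]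
    refine Finset.sum_congr rfl fun j _ => ?_
    push_cast
    rw [← add_assoc]
    ring

end Pool.MZDim
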