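import Pool.Agent.Lib.MZDim.YFin

/-! MODULE AkD (about 140 lines). MP_301213_nt, dim Z_k → ∞. The spaces A_k = ∑_{j ≤ k} π^{-j} Y_j.

PROOFS.
* Ak_fin: the words with Adm l and l.sum ≤ k form a finite set (union of words_finite j over j ≤ k; Set.Finite.biUnion), span of a finite set.
* Ak_zero: an Adm word of sum 0 is [] and zv [] / π^0 = 1.
* Ak_mono: subset. Ak_mul: Submodule.span_induction / span_mul_span: (zv l / π^a)(zv l' / π^b) = ∑_{g ∈ L} zv g / π^(a+b), a = l.sum, b = l'.sum (zv_mul), all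
  g.sum = a + b ≤ k + m.
* Ak_le: for k ≥ 1, A_k ≤ π^{-k} Y_k ⊔ π^{-(k-1)} Y_{k-1}: a generator zv l / π^j, j = l.sum ≤ k: if k - j = 2a then
  zv l / π^j = π^{-k} (π^{2a} zv l) with π^{2a} zv l ∈ Y_k (pi_sq_mem_Yk, Yk_mul, induction on a); if k - 1 - j = 2a the same with k-1. So
  finrank A_k ≤ finrank Y_k + finrank Y_{k-1} (Submodule.map of multiplication by a constant: Submodule.finrank_map_le;
  Submodule.finrank_add_le_finrank_add_finrank). -/

open HofPers Finset

namespace Pool.MZDim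

/-- the normalised values of weight at most `k` -/
noncomputable def Ak (k : ℕ) : Submodule ℚ ℝ :=
  Submodule.span ℚ {x : ℝ | ∃ l : List ℕ, Adm l ∧ l.sum ≤ k ∧ zv l / Real.pi ^ l.sum = x}

theorem Ak_fin (k : ℕ) : Module.Finite ℚ (Ak k) := by
  have h0 : {l : List ℕ | Adm l ∧ l.sum ≤ k}.Finite := by
    have h1 : (⋃ j ∈ Finset.range (k + 1), {l : List ℕ | Adm l ∧ l.sum = j}).Finite :=
      Set.Finite.biUnion (Finset.finite_toSet _) fun j _ => words_finite j
    refine h1.subset ?_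
    rintro l ⟨ha, hs⟩
    rw [Set.mem_iUnion₂]
    exact ⟨l.sum, Finset.mem_range.2 (by omega), ha, rfl⟩
  have h : {x : ℝ | ∃ l : List ℕ, Adm l ∧ l.sum ≤ k ∧ zv l / Real.pi ^ l.sum = x}.Finite := by
    refine (h0.image fun l => zv l / Real.pi ^ l.sum).subset ?_
    rintro x ⟨l, h1, h2, h3⟩
    exact ⟨l, ⟨h1, h2⟩, h3⟩
  exact FiniteDimensional.span_of_finite ℚ h

theorem Ak_zero : Ak 0 = Submodule.span ℚ {(1 : ℝ)} := by
  unfold Ak
  congr 1
  ext x
  constructor
  · rintro ⟨l, h1, h2, h3⟩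
    have hl : l = [] := by
      cases l with
      | nil => rfl
      | cons a l =>
        have h4 := h1 a (List.mem_cons_self ..)
        rw [List.sum_cons] at h2
        omega
    subst hl
    rw [zv_nil] at h3
    rw [← h3]
    simp
  · intro hx
    have hx' : x = 1 := hx
    subst hx'
    refine ⟨[], ?_, by simp, ?_⟩
    · intro a ha
      simp at ha
    · rw [zv_nil]
      simp

theorem Ak_mono (k : ℕ) : Ak k ≤ Ak (k + 1) := by
  refine Submodule.span_mono ?_
  rintro x ⟨l, h1, h2, h3⟩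
  exact ⟨l, h1, by omega, h3⟩

private theorem ak_list {k j : ℕ} (hj : j ≤ k) (L : List (List ℕ))
    (h : ∀ g ∈ L, Adm g ∧ g.sum = j) : (L.map zv).sum / Real.pi ^ j ∈ Ak k := by
  induction L with
  | nil =>
    rw [List.map_nil, List.sum_nil, zero_div]
    exact zero_mem _
  | cons g L ih =>
    rw [List.map_cons, List.sum_cons, add_div]
    have hg := h g (List.mem_cons_self)
    refine add_mem (Submodule.subset_span ⟨g, hg.1, by omega, ?_⟩)
      (ih fun g' hg' => h g' (List.mem_cons_of_mem _ hg'))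
    rw [hg.2]

theorem Ak_mul (k m : ℕ) : ∀ x ∈ Ak k, ∀ y ∈ Ak m, x * y ∈ Ak (k + m) := by
  intro x hx y hy
  unfold Ak at hx hy
  induction hx using Submodule.span_induction with
  | mem x h =>
    obtain ⟨l, hl, hs, rfl⟩ := h
    induction hy using Submodule.span_induction with
    | mem y h' =>
      obtain ⟨l', hl', hs', rfl⟩ := h'
      obtain ⟨L, hL1, hL2⟩ := zv_mul l l' hl hl'
      rw [div_mul_div_comm, ← pow_add, hL2]
      exact ak_list (by omega) L hL1
    | zero => rw [mul_zero]; exact zero_mem _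
    | add a b _ _ h1 h2 => rw [mul_add]; exact add_mem h1 h2
    | smul c a _ h1 => rw [mul_smul_comm]; exact Submodule.smul_mem _ _ h1
  | zero => rw [zero_mul]; exact zero_mem _
  | add a b _ _ h1 h2 => rw [add_mul]; exact add_mem h1 h2
  | smul c a _ h1 => rw [smul_mul_assoc]; exact Submodule.smul_mem _ _ h1

private theorem ak_even {j : ℕ} {x : ℝ} (hx : x ∈ Yk j) (a : ℕ) :
    x * Real.pi ^ (2 * a) ∈ Yk (j + 2 * a) := by
  induction a with
  | zero => simpa using hx
  | succ a ih =>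
    have h1 := Yk_mul ih pi_sq_mem_Yk
    have h2 : x * Real.pi ^ (2 * (a + 1)) = x * Real.pi ^ (2 * a) * Real.pi ^ 2 := by ring
    rw [h2]
    exact h1

private theorem ak_gen {l : List ℕ} (hl : Adm l) {n a : ℕ} (h : n = l.sum + 2 * a) :
    zv l / Real.pi ^ l.sum ∈ (Yk n).map (LinearMap.mulRight ℚ (Real.pi ^ n)⁻¹) := by
  have hpi : Real.pi ≠ 0 := Real.pi_ne_zero
  subst h
  refine ⟨zv l * Real.pi ^ (2 * a), ak_even (zv_mem_Yk hl) a, ?_⟩
  rw [LinearMap.mulRight_apply, pow_add]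
  field_simp

private theorem ak_le (k : ℕ) : Ak (k + 1) ≤
    (Yk (k + 1)).map (LinearMap.mulRight ℚ (Real.pi ^ (k + 1))⁻¹) ⊔
      (Yk k).map (LinearMap.mulRight ℚ (Real.pi ^ k)⁻¹) := by
  unfold Ak
  rw [Submodule.span_le]
  rintro x ⟨l, hl, hs, rfl⟩
  rcases Nat.even_or_odd' (k + 1 - l.sum) with ⟨a, ha | ha⟩
  · exact Submodule.mem_sup_left (ak_gen hl (a := a) (by omega))
  · exact Submodule.mem_sup_right (ak_gen hl (a := a) (by omega))

theorem Ak_finrank_le (k : ℕ) : Module.finrank ℚ (Ak (k + 1)) ≤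
    Module.finrank ℚ (Yk (k + 1)) + Module.finrank ℚ (Yk k) := by
  refine (Submodule.finrank_mono (ak_le k)).trans ?_
  refine (Submodule.finrank_add_le_finrank_add_finrank _ _).trans ?_
  exact Nat.add_le_add (Submodule.finrank_map_le _ _) (Submodule.finrank_map_le _ _)

end Pool.MZDim
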