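import Pool.Agent.Lib.MZDim.Defs

/-! MODULE BBound (about 140 lines). MP_301213_nt, dim Z_k → ∞. Bounds for `beta` and its complex extension.

beta N i M = N! / ∏_{j ≤ N} (M + 1 + i + j).
PROOFS.
* beta_nonneg: all factors positive. beta_le_one: the product is ≥ ∏_{j ≤ N} (1 + j) = (N+1)! ≥ N!
  (Finset.prod_le_prod, Finset.prod_range_add_one_eq_factorial).
* beta_tail: the product is ≥ (M+1)^(N+1), and N! ≤ N^N (Nat.factorial_le_pow), so
  beta ≤ N^N / (M+1)^(N+1) = (N/(M+1))^N / (M+1).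
* betaC_norm: for Re z ≥ 1/2, ‖z + i + j‖ ≥ Re (z + i + j) ≥ j + 1/2 (Complex.abs_re_le_norm), and
  ∏_{j ≤ N} (j + 1/2) = (1/2) ∏_{j=1}^{N} (j + 1/2) ≥ (1/2) N! (Finset.prod_range_succ', compare with ∏ (j+1) = N!).
* betaC_diff: quotient, the denominator has no zero for Re z > 0.
* betaC_nat: evaluation (push_cast). -/

open HofPers Finset Filter Topology

namespace Pool.MZDim

/-- complex extension of `beta` -/
noncomputable def betaC (N i : ℕ) (z : ℂ) : ℂ :=
  (N.factorial : ℂ) / ∏ j ∈ range (N + 1), (z + i + j)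

theorem beta_nonneg (N i M : ℕ) : 0 ≤ beta N i M := by
  unfold beta
  exact div_nonneg (Nat.cast_nonneg _) (Finset.prod_nonneg fun j _ => by positivity)

theorem beta_le_one (N i M : ℕ) : beta N i M ≤ 1 := by
  unfold beta
  have hpos : (0 : ℝ) < ∏ j ∈ range (N + 1), ((M : ℝ) + 1 + i + j) :=
    Finset.prod_pos fun j _ => by positivity
  rw [div_le_one hpos]
  have h1 : ((N.factorial : ℕ) : ℝ) ≤ ((N + 1).factorial : ℕ) := by
    exact_mod_cast Nat.factorial_le (Nat.le_succ N)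
  refine h1.trans ?_
  rw [← Finset.prod_range_add_one_eq_factorial]
  push_cast
  refine Finset.prod_le_prod (fun j _ => by positivity) fun j _ => ?_
  have h2 : (0 : ℝ) ≤ M := Nat.cast_nonneg _
  have h3 : (0 : ℝ) ≤ i := Nat.cast_nonneg _
  linarith

theorem beta_tail (N i M : ℕ) :
    beta N i M ≤ ((N : ℝ) / ((M : ℝ) + 1)) ^ N / ((M : ℝ) + 1) := by
  unfold beta
  have hM : (0 : ℝ) < (M : ℝ) + 1 := by positivity
  have h1 : ((M : ℝ) + 1) ^ (N + 1) ≤ ∏ j ∈ range (N + 1), ((M : ℝ) + 1 + i + j) := by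
    have h2 : ((M : ℝ) + 1) ^ (N + 1) = ∏ _j ∈ range (N + 1), ((M : ℝ) + 1) := by
      rw [Finset.prod_const, Finset.card_range]
    rw [h2]
    refine Finset.prod_le_prod (fun j _ => hM.le) fun j _ => ?_
    have h3 : (0 : ℝ) ≤ i := Nat.cast_nonneg _
    have h4 : (0 : ℝ) ≤ j := Nat.cast_nonneg _
    linarith
  have h5 : ((N.factorial : ℕ) : ℝ) ≤ (N : ℝ) ^ N := by
    exact_mod_cast Nat.factorial_le_pow N
  have h6 : ((N : ℝ) / ((M : ℝ) + 1)) ^ N / ((M : ℝ) + 1) =
      (N : ℝ) ^ N / ((M : ℝ) + 1) ^ (N + 1) := by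
    rw [div_pow, div_div, pow_succ]
  rw [h6]
  exact div_le_div₀ (by positivity) h5 (by positivity) h1

private theorem bb_prod (N : ℕ) :
    (N.factorial : ℝ) ≤ 2 * ∏ j ∈ range (N + 1), ((j : ℝ) + 1 / 2) := by
  induction N with
  | zero => simp
  | succ N ih =>
    rw [Finset.prod_range_succ, Nat.factorial_succ]
    push_cast
    have h1 : (0 : ℝ) ≤ N.factorial := Nat.cast_nonneg _
    have h2 : (0 : ℝ) ≤ (N : ℝ) + 1 + 1 / 2 := by positivity
    have h3 := mul_le_mul_of_nonneg_right ih h2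
    nlinarith

theorem betaC_norm (N i : ℕ) {z : ℂ} (hz : 1 / 2 ≤ z.re) : ‖betaC N i z‖ ≤ 2 := by
  unfold betaC
  rw [norm_div, norm_prod]
  have h1 : ∀ j ∈ range (N + 1), (j : ℝ) + 1 / 2 ≤ ‖z + i + j‖ := by
    intro j _
    refine le_trans ?_ ((le_abs_self _).trans (Complex.abs_re_le_norm _))
    rw [Complex.add_re, Complex.add_re, Complex.natCast_re, Complex.natCast_re]
    have h3 : (0 : ℝ) ≤ i := Nat.cast_nonneg _
    linarith
  have h2 : ∏ j ∈ range (N + 1), ((j : ℝ) + 1 / 2) ≤ ∏ j ∈ range (N + 1), ‖z + i + j‖ :=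
    Finset.prod_le_prod (fun j _ => by positivity) h1
  have h3 : (0 : ℝ) < ∏ j ∈ range (N + 1), ((j : ℝ) + 1 / 2) :=
    Finset.prod_pos fun j _ => by positivity
  rw [div_le_iff₀ (lt_of_lt_of_le h3 h2)]
  have h4 : ‖(N.factorial : ℂ)‖ = N.factorial := Complex.norm_natCast _
  rw [h4]
  exact (bb_prod N).trans (mul_le_mul_of_nonneg_left h2 (by norm_num))

theorem betaC_diff (N i : ℕ) : DifferentiableOn ℂ (betaC N i) {z : ℂ | 0 < z.re} := by
  unfold betaC
  refine DifferentiableOn.div (differentiableOn_const _) ?_ ?_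
  · refine DifferentiableOn.fun_finsetProd fun j _ => ?_
    exact (differentiableOn_id.add_const _).add_const _
  · intro z hz
    rw [Finset.prod_ne_zero_iff]
    intro j _ h
    have h1 := congrArg Complex.re h
    rw [Complex.add_re, Complex.add_re, Complex.natCast_re, Complex.natCast_re,
      Complex.zero_re] at h1
    have h2 : 0 < z.re := hz
    have h3 : (0 : ℝ) ≤ i := Nat.cast_nonneg _
    have h4 : (0 : ℝ) ≤ j := Nat.cast_nonneg _
    linarith

theorem betaC_nat (N i M : ℕ) : betaC N i ((M : ℂ) + 1) = ((beta N i M : ℝ) : ℂ) := by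
  unfold betaC beta
  push_cast
  rfl

end Pool.MZDim
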