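import Mathlib

/-! MODULE Lag (about 130 lines, ONLY MATHLIB). MP_301213_nt, dim Z_k → ∞. The Lagrange polynomial at the nodes
`q m`, `P ≤ m < 2 P`.

PROOF. Q = Lagrange.interpolate (Ico P (2*P)) (fun m => (q*m : ℂ)) v (nodes injective since q ≥ 1), Q(q m) = v m
(Lagrange.eval_interpolate_at_node). Q(z) = ∑_m v m * ∏_{m' ≠ m} (z - q m') / (q m - q m') (Lagrange.interpolate_apply, eval of
basis = ∏ over the erased set of eval of basisDivisor). Bounds: ‖z - q m'‖ ≤ 2 q P by hypothesis, so the numerator is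
≤ (2qP)^(P-1); the denominator ∏_{m' ≠ m} |q m - q m'| = q^(P-1) (m-P)! (2P-1-m)! (split the product at m: the m' < m give
(m-P)!, the m' > m give (2P-1-m)!), and (m-P)! (2P-1-m)! * choose (P-1) (m-P) = (P-1)! with choose ≤ 2^(P-1), so the denominator is
≥ q^(P-1) (P-1)! / 2^(P-1). Hence |Q(z)| ≤ ε P (4P)^(P-1) / (P-1)!. Finally P (4P)^(P-1) / (P-1)! = 4^(P-1) P^(P+1) / P! ≤
4^(P-1) P e^P (P^P / P! ≤ e^P: one term of the exponential series, `Real.pow_div_factorial_le_exp`, or by induction) ≤ 16^P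
because e < 3 and P 12^P ≤ 4 * 16^P, i.e. P ≤ 4 (4/3)^P (Bernoulli: (4/3)^P ≥ 1 + P/3). -/

open Finset Filter Topology

namespace Pool.MZDim

private lemma prodA (a : ℕ) : ∏ j ∈ range a, ((a : ℝ) - j) = a.factorial := by
  induction a with
  | zero => simp
  | succ a ih =>
    rw [Finset.prod_range_succ', Nat.factorial_succ]
    have h : ∏ k ∈ range a, (((a + 1 : ℕ) : ℝ) - ((k + 1 : ℕ) : ℝ)) = ∏ k ∈ range a, ((a : ℝ) - k) := by
      refine Finset.prod_congr rfl fun k _ => ?_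
      push_cast
      ring
    rw [h, ih]
    push_cast
    ring

private lemma prodE (n a : ℕ) (ha : a ≤ n) :
    ∏ j ∈ (range (n + 1)).erase a, |(a : ℝ) - j| =
      (a.factorial : ℝ) * ((n - a).factorial : ℝ) := by
  have hs : (range (n + 1)).erase a = range a ∪ Ico (a + 1) (n + 1) := by
    ext j
    simp only [mem_erase, mem_range, mem_union, mem_Ico]
    omega
  have hd : Disjoint (range a) (Ico (a + 1) (n + 1)) := by
    rw [Finset.disjoint_left]
    intro j h1 h2
    rw [mem_range] at h1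
    rw [mem_Ico] at h2
    omega
  rw [hs, Finset.prod_union hd]
  congr 1
  · rw [← prodA]
    refine Finset.prod_congr rfl fun j hj => ?_
    rw [mem_range] at hj
    have : (j : ℝ) < a := by exact_mod_cast hj
    rw [abs_of_pos (by linarith)]
  · rw [Finset.prod_Ico_eq_prod_range, show n + 1 - (a + 1) = n - a by omega,
      ← Finset.prod_range_add_one_eq_factorial]
    push_cast
    refine Finset.prod_congr rfl fun j _ => ?_
    have h0 : (0 : ℝ) ≤ j := Nat.cast_nonneg j
    rw [show (a : ℝ) - (a + 1 + j) = -((j : ℝ) + 1) by ring, abs_neg, abs_of_nonneg (by linarith)]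

private lemma sum_inv (n : ℕ) :
    ∑ a ∈ range (n + 1), (1 : ℝ) / ((a.factorial : ℝ) * ((n - a).factorial : ℝ)) =
      2 ^ n / (n.factorial : ℝ) := by
  have h : ∀ a ∈ range (n + 1), (1 : ℝ) / ((a.factorial : ℝ) * ((n - a).factorial : ℝ)) =
      (n.choose a : ℝ) / (n.factorial : ℝ) := by
    intro a ha
    rw [mem_range] at ha
    have h1 := Nat.choose_mul_factorial_mul_factorial (n := n) (k := a) (by omega)
    have h2 : (n.choose a : ℝ) * (a.factorial : ℝ) * ((n - a).factorial : ℝ) =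
        (n.factorial : ℝ) := by exact_mod_cast h1
    have p1 : (0 : ℝ) < (a.factorial : ℝ) := by exact_mod_cast a.factorial_pos
    have p2 : (0 : ℝ) < ((n - a).factorial : ℝ) := by exact_mod_cast (n - a).factorial_pos
    have p3 : (0 : ℝ) < (n.factorial : ℝ) := by exact_mod_cast n.factorial_pos
    rw [div_eq_div_iff (by positivity) (by positivity)]
    rw [← h2]
    ring
  rw [Finset.sum_congr rfl h, ← Finset.sum_div]
  congr 1
  exact_mod_cast Nat.sum_range_choose n

private lemma num_bd (n : ℕ) {ε : ℝ} (hε : 0 ≤ ε) :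
    ε * (2 * ((n : ℝ) + 1)) ^ n * (2 ^ n / (n.factorial : ℝ)) ≤ 16 ^ (n + 1) * ε := by
  have hf : (0 : ℝ) < (n.factorial : ℝ) := by exact_mod_cast n.factorial_pos
  have h1 : ((n : ℝ) + 1) ^ n / (n.factorial : ℝ) ≤ Real.exp ((n : ℝ) + 1) :=
    Real.pow_div_factorial_le_exp _ (by positivity) n
  have h2 : Real.exp ((n : ℝ) + 1) ≤ 4 ^ (n + 1) := by
    have h3 : Real.exp ((n : ℝ) + 1) = Real.exp 1 ^ (n + 1) := by
      rw [← Real.exp_nat_mul]
      push_cast
      ring_nf
    rw [h3]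
    refine pow_le_pow_left₀ (Real.exp_pos 1).le ?_ _
    have := Real.exp_one_lt_d9
    linarith
  have h4 : (2 * ((n : ℝ) + 1)) ^ n * (2 ^ n / (n.factorial : ℝ)) =
      4 ^ n * (((n : ℝ) + 1) ^ n / (n.factorial : ℝ)) := by
    rw [mul_pow, show (4 : ℝ) = 2 * 2 by norm_num, mul_pow]
    ring
  have h5 : (4 : ℝ) ^ n * (((n : ℝ) + 1) ^ n / (n.factorial : ℝ)) ≤ 16 ^ (n + 1) := by
    calc (4 : ℝ) ^ n * (((n : ℝ) + 1) ^ n / (n.factorial : ℝ)) ≤ 4 ^ n * 4 ^ (n + 1) :=
          mul_le_mul_of_nonneg_left (h1.trans h2) (by positivity)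
      _ ≤ 4 ^ (n + 1) * 4 ^ (n + 1) := by
          refine mul_le_mul_of_nonneg_right ?_ (by positivity)
          exact pow_le_pow_right₀ (by norm_num) (Nat.le_succ n)
      _ = 16 ^ (n + 1) := by
          rw [← mul_pow]
          norm_num
  calc ε * (2 * ((n : ℝ) + 1)) ^ n * (2 ^ n / (n.factorial : ℝ))
      = ε * ((2 * ((n : ℝ) + 1)) ^ n * (2 ^ n / (n.factorial : ℝ))) := by ring
    _ ≤ ε * 16 ^ (n + 1) := by
        rw [h4]
        exact mul_le_mul_of_nonneg_left h5 hε
    _ = 16 ^ (n + 1) * ε := by ring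

theorem lagrange_bound (P q : ℕ) (hP : 1 ≤ P) (hq : 1 ≤ q) (v : ℕ → ℂ) {ε : ℝ}
    (hv : ∀ m ∈ Ico P (2 * P), ‖v m‖ ≤ ε) :
    ∃ Q : Polynomial ℂ, (∀ m ∈ Ico P (2 * P), Q.eval ((q : ℂ) * m) = v m) ∧
      ∀ z : ℂ, (∀ m ∈ Ico P (2 * P), ‖z - (q : ℂ) * m‖ ≤ 2 * q * P) → ‖Q.eval z‖ ≤ 16 ^ P * ε := by
  classical
  obtain ⟨n, rfl⟩ : ∃ n, P = n + 1 := ⟨P - 1, by omega⟩
  have hq0 : (q : ℂ) ≠ 0 := by
    exact_mod_cast (by omega : q ≠ 0)
  have hqR : (0 : ℝ) < q := by exact_mod_cast hq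
  have hmem : ∀ a ∈ range (n + 1), n + 1 + a ∈ Ico (n + 1) (2 * (n + 1)) := by
    intro a ha
    rw [mem_range] at ha
    rw [mem_Ico]
    omega
  have hε : 0 ≤ ε := (norm_nonneg _).trans (hv (n + 1 + 0) (hmem 0 (by simp)))
  set w : ℕ → ℂ := fun a => (q : ℂ) * ((n + 1 + a : ℕ) : ℂ) with hw
  have hinj : Set.InjOn w (range (n + 1) : Finset ℕ) := by
    intro a _ b _ hab
    have h1 : (q : ℂ) * ((n + 1 + a : ℕ) : ℂ) = (q : ℂ) * ((n + 1 + b : ℕ) : ℂ) := hab
    have h2 : n + 1 + a = n + 1 + b := by exact_mod_cast mul_left_cancel₀ hq0 h1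
    omega
  refine ⟨Lagrange.interpolate (range (n + 1)) w (fun a => v (n + 1 + a)), ?_, ?_⟩
  · intro m hm
    rw [mem_Ico] at hm
    obtain ⟨a, rfl⟩ : ∃ a, m = n + 1 + a := ⟨m - (n + 1), by omega⟩
    exact Lagrange.eval_interpolate_at_node (r := fun a => v (n + 1 + a)) hinj
      (mem_range.2 (by omega))
  · intro z hz
    rw [Lagrange.interpolate_apply, Polynomial.eval_finsetSum]
    have hterm : ∀ a ∈ range (n + 1),
        ‖Polynomial.eval z (Polynomial.C (v (n + 1 + a)) *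
          Lagrange.basis (range (n + 1)) w a)‖ ≤
        ε * (2 * ((n : ℝ) + 1)) ^ n *
          (1 / ((a.factorial : ℝ) * ((n - a).factorial : ℝ))) := by
      intro a ha
      have ha' := mem_range.1 ha
      rw [Polynomial.eval_mul, Polynomial.eval_C, norm_mul, Lagrange.basis,
        Polynomial.eval_prod, norm_prod]
      have h1 : ∏ j ∈ (range (n + 1)).erase a,
          ‖Polynomial.eval z (Lagrange.basisDivisor (w a) (w j))‖ ≤
          ∏ j ∈ (range (n + 1)).erase a, (2 * ((n : ℝ) + 1) / |(a : ℝ) - j|) := by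
        refine Finset.prod_le_prod (fun _ _ => norm_nonneg _) fun j hj => ?_
        have hj' := mem_erase.1 hj
        have hne : (a : ℝ) - j ≠ 0 := by
          rw [sub_ne_zero]
          exact_mod_cast hj'.1.symm
        have hwz : ‖z - w j‖ ≤ 2 * q * ((n + 1 : ℕ) : ℝ) := hz _ (hmem j hj'.2)
        have hww : ‖w a - w j‖ = q * |(a : ℝ) - j| := by
          have e1 : w a - w j = (((q : ℝ) * ((a : ℝ) - j) : ℝ) : ℂ) := by
            rw [hw]
            push_cast
            ring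
          rw [e1, Complex.norm_real, Real.norm_eq_abs, abs_mul, abs_of_pos hqR]
        rw [Lagrange.basisDivisor, Polynomial.eval_mul, Polynomial.eval_C, Polynomial.eval_sub,
          Polynomial.eval_X, Polynomial.eval_C, norm_mul, norm_inv, hww]
        have hpos : 0 < |(a : ℝ) - j| := abs_pos.2 hne
        calc (q * |(a : ℝ) - j|)⁻¹ * ‖z - w j‖
            ≤ (q * |(a : ℝ) - j|)⁻¹ * (2 * q * ((n + 1 : ℕ) : ℝ)) :=
              mul_le_mul_of_nonneg_left hwz (by positivity)
          _ = 2 * ((n : ℝ) + 1) / |(a : ℝ) - j| := by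
              push_cast
              field_simp
      have h2 : ∏ j ∈ (range (n + 1)).erase a, (2 * ((n : ℝ) + 1) / |(a : ℝ) - j|) =
          (2 * ((n : ℝ) + 1)) ^ n * (1 / ((a.factorial : ℝ) * ((n - a).factorial : ℝ))) := by
        rw [Finset.prod_div_distrib, Finset.prod_const, card_erase_of_mem ha, card_range,
          Nat.add_sub_cancel, prodE n a (by omega)]
        ring
      rw [h2] at h1
      have h3 := mul_le_mul (hv _ (hmem a ha)) h1
        (Finset.prod_nonneg fun _ _ => norm_nonneg _) hε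
      rw [← mul_assoc] at h3
      exact h3
    refine (norm_sum_le _ _).trans ((Finset.sum_le_sum hterm).trans ?_)
    rw [← Finset.mul_sum, sum_inv]
    exact num_bd n hε

end Pool.MZDim
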