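import Pool.Agent.Lib.MZDim.Zer
import Pool.Agent.Lib.MZDim.Lag

/-! MODULE Blk (about 170 lines). MP_301213_nt, dim Z_k → ∞. The block lemma (paper (3.3)).

PROOF. prod_abs_le (private): for a natural number s with q P ≤ s ≤ 2 q P: ∏_{m ∈ Ico P (2P)} |s - q m| ≤ q^P P!. Put τ = s / q
(real), i with i ≤ τ < i + 1, i = min ⌊τ⌋ (2P-1) (so i ≤ τ ≤ i + 1, P ≤ i ≤ 2P-1): |τ - m| ≤ i + 1 - m for m ≤ i and
|τ - m| = m - τ ≤ m - i for m > i; so the product is ≤ (i+1-P)! (2P-1-i)! ≤ P! (Nat.factorial_mul_factorial_dvd_factorial_add or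
Nat.factorial_mul_factorial_le: a! b! ≤ (a+b)!).
Main: c = 3qP/2, R = c - 1/2 > 0; closedBall c R ⊆ {Re z > 0} (Re z ≥ c - R = 1/2), and on it Re z ≥ 1/2, so ‖g‖ ≤ B.
v m = g (q m), Q from lagrange_bound (on closedBall c R and on the segment: ‖z - q m‖ ≤ R + |c - q m| ≤ R + qP/2 ≤ 2qP).
Apply schwarz_zeros to g - Q with U = {Re z > 0}, S = the image of Ico P (2P) under m ↦ q m (P elements, in the ball since
|q m - c| ≤ qP/2 < R when qP ≥ 1: R - qP/2 = qP - 1/2 > 0), bound B + 16^P ε on the sphere, r = qP - 1/2 (‖z - qm‖ ≥ R - qP/2):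
‖g(s) - Q(s)‖ ≤ (B + 16^P ε) q^P P! / (qP - 1/2)^P, and (qP)^P / (qP - 1/2)^P = (1 - 1/(2qP))^(-P) ≤ 2 (Bernoulli:
(1 - 1/(2qP))^P ≥ 1 - P/(2qP) ≥ 1/2), so this is ≤ (B + 16^P ε) * (2 P! / P^P). Add ‖Q(s)‖ ≤ 16^P ε. -/

open Finset Filter Topology

namespace Pool.MZDim

private theorem prod_desc (a b : ℕ) : ∏ m ∈ Ico a b, (b - m) = (b - a).factorial := by
  rw [Finset.prod_Ico_eq_prod_range, ← Nat.descFactorial_self (b - a), Nat.descFactorial_eq_prod_range]
  refine Finset.prod_congr rfl fun k _ => ?_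
  omega

private theorem prod_asc (i b : ℕ) : ∏ m ∈ Ico (i + 1) b, (m - i) = (b - (i + 1)).factorial := by
  rw [Finset.prod_Ico_eq_prod_range, ← Finset.prod_range_add_one_eq_factorial]
  refine Finset.prod_congr rfl fun k _ => ?_
  omega

private theorem prod_w (P i : ℕ) (hi1 : P ≤ i) (hi2 : i + 1 ≤ 2 * P) :
    ∏ m ∈ Ico P (2 * P), (if m ≤ i then i + 1 - m else m - i) ≤ P.factorial := by
  rw [← Finset.prod_Ico_consecutive _ (show P ≤ i + 1 by omega) hi2]
  have h1 : ∏ m ∈ Ico P (i + 1), (if m ≤ i then i + 1 - m else m - i) = (i + 1 - P).factorial := by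
    rw [← prod_desc]
    refine Finset.prod_congr rfl fun k hk => ?_
    rw [Finset.mem_Ico] at hk
    rw [if_pos (by omega)]
  have h2 : ∏ m ∈ Ico (i + 1) (2 * P), (if m ≤ i then i + 1 - m else m - i)
      = (2 * P - (i + 1)).factorial := by
    rw [← prod_asc]
    refine Finset.prod_congr rfl fun k hk => ?_
    rw [Finset.mem_Ico] at hk
    rw [if_neg (by omega)]
  rw [h1, h2]
  have h3 := Nat.factorial_mul_factorial_dvd_factorial_add (i + 1 - P) (2 * P - (i + 1))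
  have h4 : i + 1 - P + (2 * P - (i + 1)) = P := by omega
  rw [h4] at h3
  exact Nat.le_of_dvd (Nat.factorial_pos _) h3

private theorem prod_abs_le (P q : ℕ) (hP : 1 ≤ P) (hq : 1 ≤ q) (s : ℕ) (hs1 : q * P ≤ s)
    (hs2 : s ≤ 2 * (q * P)) :
    ∏ m ∈ Ico P (2 * P), ‖(s : ℂ) - (q : ℂ) * m‖ ≤ (q : ℝ) ^ P * P.factorial := by
  obtain ⟨i, hi1, hi2, hi3, hi4⟩ : ∃ i, P ≤ i ∧ i + 1 ≤ 2 * P ∧ q * i ≤ s ∧ s ≤ q * (i + 1) := by
    by_cases h : s < 2 * (q * P)
    · refine ⟨s / q, ?_, ?_, Nat.mul_div_le s q, ?_⟩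
      · rw [Nat.le_div_iff_mul_le (by omega)]
        linarith [Nat.mul_comm q P]
      · have : s / q < 2 * P := by
          rw [Nat.div_lt_iff_lt_mul (by omega)]
          calc s < 2 * (q * P) := h
            _ = 2 * P * q := by ring
        omega
      · exact (Nat.lt_mul_div_succ s (by omega)).le
    · refine ⟨2 * P - 1, by omega, by omega, ?_, ?_⟩
      · calc q * (2 * P - 1) ≤ q * (2 * P) := Nat.mul_le_mul_left _ (by omega)
          _ = 2 * (q * P) := by ring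
          _ ≤ s := by omega
      · have : 2 * P - 1 + 1 = 2 * P := by omega
        rw [this]
        calc s ≤ 2 * (q * P) := hs2
          _ = q * (2 * P) := by ring
  have hw : ∀ m ∈ Ico P (2 * P), ‖(s : ℂ) - (q : ℂ) * m‖ ≤
      (q : ℝ) * ((if m ≤ i then i + 1 - m else m - i : ℕ) : ℝ) := by
    intro m hm
    have e1 : (s : ℂ) - (q : ℂ) * m = (((s : ℝ) - (q : ℝ) * m : ℝ) : ℂ) := by push_cast; ring
    rw [e1, Complex.norm_real, Real.norm_eq_abs, abs_le]
    have h3 : (q : ℝ) * i ≤ s := by exact_mod_cast hi3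
    have h4 : (s : ℝ) ≤ q * (i + 1) := by exact_mod_cast hi4
    have hq0 : (0 : ℝ) ≤ q := Nat.cast_nonneg q
    by_cases h : m ≤ i
    · rw [if_pos h, Nat.cast_sub (by omega)]
      have hmi : (m : ℝ) ≤ i := by exact_mod_cast h
      have := mul_le_mul_of_nonneg_left hmi hq0
      push_cast
      constructor <;> nlinarith
    · rw [if_neg h, Nat.cast_sub (by omega)]
      have hmi : (i : ℝ) + 1 ≤ m := by
        have : i + 1 ≤ m := by omega
        exact_mod_cast this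
      have := mul_le_mul_of_nonneg_left hmi hq0
      constructor <;> nlinarith
  calc ∏ m ∈ Ico P (2 * P), ‖(s : ℂ) - (q : ℂ) * m‖
      ≤ ∏ m ∈ Ico P (2 * P), (q : ℝ) * ((if m ≤ i then i + 1 - m else m - i : ℕ) : ℝ) :=
        Finset.prod_le_prod (fun m _ => norm_nonneg _) hw
    _ = (q : ℝ) ^ P * ((∏ m ∈ Ico P (2 * P), (if m ≤ i then i + 1 - m else m - i) : ℕ) : ℝ) := by
        rw [Finset.prod_mul_distrib, Finset.prod_const, Nat.card_Ico, Nat.cast_prod]
        congr 2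
        omega
    _ ≤ (q : ℝ) ^ P * P.factorial := by
        refine mul_le_mul_of_nonneg_left ?_ (by positivity)
        exact_mod_cast prod_w P i hi1 hi2

theorem block (P q : ℕ) (hP : 1 ≤ P) (hq : 1 ≤ q) {g : ℂ → ℂ}
    (hg : DifferentiableOn ℂ g {z : ℂ | 0 < z.re}) {B ε : ℝ} (hε : 0 ≤ ε)
    (hB : ∀ z : ℂ, 1 / 2 ≤ z.re → ‖g z‖ ≤ B)
    (hv : ∀ m ∈ Ico P (2 * P), ‖g ((q : ℂ) * m)‖ ≤ ε)
    (s : ℕ) (hs1 : q * P ≤ s) (hs2 : s ≤ 2 * (q * P)) :
    ‖g s‖ ≤ 16 ^ P * ε + (B + 16 ^ P * ε) * (2 * (P.factorial : ℝ) / (P : ℝ) ^ P) := by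
  have hB0 : 0 ≤ B := (norm_nonneg _).trans (hB 1 (by norm_num))
  have hPr : (1 : ℝ) ≤ P := by exact_mod_cast hP
  have hqr : (1 : ℝ) ≤ q := by exact_mod_cast hq
  have hqP : (1 : ℝ) ≤ (q : ℝ) * P := by nlinarith
  obtain ⟨Q, hQ1, hQ2⟩ := lagrange_bound P q hP hq (fun m => g ((q : ℂ) * m)) hv
  obtain ⟨X, hX⟩ : ∃ X : ℝ, X = (q : ℝ) * P := ⟨_, rfl⟩
  rw [← hX] at hqP
  have hc : ∃ c : ℝ, c = 3 * X / 2 := ⟨_, rfl⟩
  obtain ⟨c, hc⟩ := hc
  have hR : 0 < c - 1 / 2 := by rw [hc]; linarith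
  -- distance of the nodes from the centre
  have hnode : ∀ m ∈ Ico P (2 * P), ‖(q : ℂ) * m - (c : ℂ)‖ ≤ X / 2 := by
    intro m hm
    rw [Finset.mem_Ico] at hm
    have e1 : (q : ℂ) * m - (c : ℂ) = (((q : ℝ) * m - c : ℝ) : ℂ) := by push_cast; ring
    rw [e1, Complex.norm_real, Real.norm_eq_abs, abs_le]
    have h1 : (P : ℝ) ≤ m := by exact_mod_cast hm.1
    have h2 : (m : ℝ) ≤ 2 * P := by exact_mod_cast hm.2.le
    have h3 := mul_le_mul_of_nonneg_left h1 (by linarith : (0 : ℝ) ≤ q)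
    have h4 := mul_le_mul_of_nonneg_left h2 (by linarith : (0 : ℝ) ≤ q)
    constructor <;> nlinarith
  have hsc : ‖(s : ℂ) - (c : ℂ)‖ ≤ X / 2 := by
    have e1 : (s : ℂ) - (c : ℂ) = (((s : ℝ) - c : ℝ) : ℂ) := by push_cast; ring
    rw [e1, Complex.norm_real, Real.norm_eq_abs, abs_le]
    have h1 : X ≤ s := by rw [hX]; exact_mod_cast hs1
    have h2 : (s : ℝ) ≤ 2 * X := by rw [hX]; exact_mod_cast hs2
    constructor <;> linarith
  have hre : ∀ z ∈ Metric.closedBall (c : ℂ) (c - 1 / 2), 1 / 2 ≤ z.re := by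
    intro z hz
    rw [Metric.mem_closedBall, dist_eq_norm] at hz
    have h1 := (Complex.abs_re_le_norm (z - c)).trans hz
    rw [Complex.sub_re, Complex.ofReal_re, abs_le] at h1
    linarith [h1.1]
  have hQb : ∀ z ∈ Metric.closedBall (c : ℂ) (c - 1 / 2), ‖Q.eval z‖ ≤ 16 ^ P * ε := by
    intro z hz
    refine hQ2 z fun m hm => ?_
    rw [Metric.mem_closedBall, dist_eq_norm] at hz
    have h1 : ‖z - (q : ℂ) * m‖ ≤ ‖z - c‖ + ‖(q : ℂ) * m - (c : ℂ)‖ := by
      have : z - (q : ℂ) * m = (z - c) - ((q : ℂ) * m - (c : ℂ)) := by ring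
      rw [this]
      exact norm_sub_le _ _
    have h2 := hnode m hm
    have : 2 * (q : ℝ) * P = 2 * X := by rw [hX]; ring
    rw [this]
    linarith
  have hsin : (s : ℂ) ∈ Metric.closedBall (c : ℂ) (c - 1 / 2) := by
    rw [Metric.mem_closedBall, dist_eq_norm]
    linarith
  -- the set of zeros
  have hinj : Set.InjOn (fun m : ℕ => (q : ℂ) * m) (Ico P (2 * P)) := by
    intro a _ b _ h
    have hq0 : (q : ℂ) ≠ 0 := by
      have : q ≠ 0 := by omega
      exact_mod_cast this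
    exact_mod_cast mul_left_cancel₀ hq0 h
  set S : Finset ℂ := (Ico P (2 * P)).image (fun m : ℕ => (q : ℂ) * m) with hS
  have hcard : S.card = P := by
    rw [hS, Finset.card_image_of_injOn hinj, Nat.card_Ico]; omega
  have hopen : IsOpen {z : ℂ | 0 < z.re} := isOpen_lt continuous_const Complex.continuous_re
  have key := schwarz_zeros (c := (c : ℂ)) hR hopen
    (fun z hz => lt_of_lt_of_le (by norm_num) (hre z hz) : Metric.closedBall (c : ℂ) (c - 1 / 2) ⊆ _)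
    (g := fun z => g z - Q.eval z) (hg.sub Q.differentiable.differentiableOn) S
    (by
      intro x hx
      rw [hS, Finset.mem_image] at hx
      obtain ⟨m, hm, rfl⟩ := hx
      rw [Metric.mem_ball, dist_eq_norm]
      have := hnode m hm
      linarith)
    (by
      intro x hx
      rw [hS, Finset.mem_image] at hx
      obtain ⟨m, hm, rfl⟩ := hx
      simp [hQ1 m hm])
    (B := B + 16 ^ P * ε) (r := X - 1 / 2) (by linarith)
    (by
      intro z hz
      have hz' := Metric.sphere_subset_closedBall hz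
      exact (norm_sub_le _ _).trans (add_le_add (hB z (hre z hz')) (hQb z hz')))
    (by
      intro x hx z hz
      rw [hS, Finset.mem_image] at hx
      obtain ⟨m, hm, rfl⟩ := hx
      rw [mem_sphere_iff_norm] at hz
      have h1 : ‖z - c‖ ≤ ‖z - (q : ℂ) * m‖ + ‖(q : ℂ) * m - (c : ℂ)‖ := by
        have : z - c = (z - (q : ℂ) * m) + ((q : ℂ) * m - (c : ℂ)) := by ring
        rw [this]
        exact norm_add_le _ _
      have h2 := hnode m hm
      linarith)
    hsin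
  rw [hcard, hS, Finset.prod_image hinj] at key
  have hprod := prod_abs_le P q hP hq s hs1 hs2
  have hX0 : 0 < X - 1 / 2 := by linarith
  have hbern : X ^ P ≤ 2 * (X - 1 / 2) ^ P := by
    have h1 := one_add_mul_le_pow (a := -(1 / (2 * X))) (by
      have : 1 / (2 * X) ≤ 1 := by
        rw [div_le_one (by linarith)]
        linarith
      linarith) P
    have h2 : (P : ℝ) * (1 / (2 * X)) ≤ 1 / 2 := by
      rw [hX]
      rw [mul_one_div, div_le_div_iff₀ (by positivity) (by norm_num)]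
      nlinarith
    have h3 : 1 / 2 ≤ (1 + -(1 / (2 * X))) ^ P := by linarith
    have h4 : X - 1 / 2 = X * (1 + -(1 / (2 * X))) := by
      have : X ≠ 0 := by linarith
      field_simp
      ring
    have h5 : 0 ≤ X ^ P := by positivity
    calc X ^ P = 2 * (X ^ P * (1 / 2)) := by ring
      _ ≤ 2 * (X ^ P * (1 + -(1 / (2 * X))) ^ P) := by
          linarith [mul_le_mul_of_nonneg_left h3 h5]
      _ = 2 * (X - 1 / 2) ^ P := by rw [h4, mul_pow]
  have hfac : (q : ℝ) ^ P * P.factorial / (X - 1 / 2) ^ P ≤ 2 * (P.factorial : ℝ) / (P : ℝ) ^ P := by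
    rw [div_le_div_iff₀ (by positivity) (by positivity)]
    calc (q : ℝ) ^ P * P.factorial * (P : ℝ) ^ P = X ^ P * P.factorial := by
          rw [hX, mul_pow]; ring
      _ ≤ 2 * (X - 1 / 2) ^ P * P.factorial := by
          exact mul_le_mul_of_nonneg_right hbern (by positivity)
      _ = 2 * (P.factorial : ℝ) * (X - 1 / 2) ^ P := by ring
  have hB1 : 0 ≤ B + 16 ^ P * ε := by positivity
  have hdiff : ‖g s - Q.eval (s : ℂ)‖ ≤ (B + 16 ^ P * ε) * (2 * (P.factorial : ℝ) / (P : ℝ) ^ P) := by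
    refine key.trans ?_
    calc (B + 16 ^ P * ε) / (X - 1 / 2) ^ P * ∏ m ∈ Ico P (2 * P), ‖(s : ℂ) - (q : ℂ) * m‖
        ≤ (B + 16 ^ P * ε) / (X - 1 / 2) ^ P * ((q : ℝ) ^ P * P.factorial) :=
          mul_le_mul_of_nonneg_left hprod (by positivity)
      _ = (B + 16 ^ P * ε) * ((q : ℝ) ^ P * P.factorial / (X - 1 / 2) ^ P) := by ring
      _ ≤ _ := mul_le_mul_of_nonneg_left hfac hB1
  calc ‖g s‖ = ‖Q.eval (s : ℂ) + (g s - Q.eval (s : ℂ))‖ := by congr 1; ring
    _ ≤ ‖Q.eval (s : ℂ)‖ + ‖g s - Q.eval (s : ℂ)‖ := norm_add_le _ _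
    _ ≤ _ := add_le_add (hQb s hsin) hdiff

end Pool.MZDim
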