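import Mathlib

/-! MODULE Box (about 110 lines, ONLY MATHLIB). MP_301213_nt, dim Z_k → ∞. Dirichlet's box principle.

PROOF. For y : ι → Fin (X+1) (there are (X+1)^|ι| of them) and k ∈ S the number L_k(y) = ∑ i, y i * a i k lies in [0, |ι| X M0].
Put the box index ⌊L_k(y) / ε⌋₊ ∈ {0, ..., ⌊|ι| X M0 / ε⌋₊}, so the map y ↦ (k ↦ ⌊L_k(y)/ε⌋₊) goes to the functions S → Fin (Q+1),
Q = ⌊|ι| X M0 / ε⌋₊, of which there are (Q+1)^|S| ≤ (|ι| X M0 / ε + 1)^|S| < (X+1)^|ι|. Two different y', y'' have the same image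
(Fintype.exists_ne_map_eq_of_card_lt); y = y' - y'' ≠ 0, |y i| ≤ X, and two reals with the same floor after division by ε differ by at
most ε (Nat.floor_le, Nat.lt_floor_add_one). -/

open Finset

namespace Pool.MZDim

theorem box {ι κ : Type*} [Fintype ι] [DecidableEq κ] (S : Finset κ) (a : ι → κ → ℝ) (X : ℕ)
    {M0 ε : ℝ} (hM0 : 0 ≤ M0) (hε : 0 < ε) (ha0 : ∀ i, ∀ k ∈ S, 0 ≤ a i k) (ha : ∀ i, ∀ k ∈ S, a i k ≤ M0)
    (hcount : ((Fintype.card ι : ℝ) * X * M0 / ε + 1) ^ S.card < ((X : ℝ) + 1) ^ Fintype.card ι) :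
    ∃ y : ι → ℤ, y ≠ 0 ∧ (∀ i, |(y i : ℝ)| ≤ X) ∧ ∀ k ∈ S, |∑ i, (y i : ℝ) * a i k| ≤ ε := by
  classical
  set Q : ℕ := ⌊(Fintype.card ι : ℝ) * X * M0 / ε⌋₊ with hQ
  have hq0 : 0 ≤ (Fintype.card ι : ℝ) * X * M0 / ε := by positivity
  set L : (ι → Fin (X + 1)) → κ → ℝ := fun y k => ∑ i, ((y i : ℕ) : ℝ) * a i k with hL
  have hL0 : ∀ y, ∀ k ∈ S, 0 ≤ L y k := fun y k hk =>
    Finset.sum_nonneg fun i _ => mul_nonneg (Nat.cast_nonneg _) (ha0 i k hk)
  have hL1 : ∀ y, ∀ k ∈ S, L y k ≤ (Fintype.card ι : ℝ) * X * M0 := by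
    intro y k hk
    have h1 : ∀ i ∈ (univ : Finset ι), ((y i : ℕ) : ℝ) * a i k ≤ (X : ℝ) * M0 := by
      intro i _
      have h2 : ((y i : ℕ) : ℝ) ≤ X := by
        have := (y i).2
        exact_mod_cast Nat.lt_succ_iff.1 this
      exact mul_le_mul h2 (ha i k hk) (ha0 i k hk) (Nat.cast_nonneg _)
    have h3 := Finset.sum_le_sum h1
    rw [Finset.sum_const, card_univ, nsmul_eq_mul] at h3
    calc L y k ≤ (Fintype.card ι : ℝ) * ((X : ℝ) * M0) := h3
      _ = _ := by ring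
  have hfl : ∀ y, ∀ k ∈ S, ⌊L y k / ε⌋₊ < Q + 1 := by
    intro y k hk
    refine Nat.lt_succ_of_le (Nat.floor_le_floor ?_)
    exact div_le_div_of_nonneg_right (hL1 y k hk) hε.le
  set g : (ι → Fin (X + 1)) → (S → Fin (Q + 1)) := fun y k =>
    ⟨⌊L y k / ε⌋₊, hfl y k k.2⟩ with hg
  have hcard : Fintype.card (S → Fin (Q + 1)) < Fintype.card (ι → Fin (X + 1)) := by
    rw [Fintype.card_fun, Fintype.card_fun, Fintype.card_fin, Fintype.card_fin,
      Fintype.card_coe]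
    have h1 : ((Q : ℝ) + 1) ^ S.card ≤
        ((Fintype.card ι : ℝ) * X * M0 / ε + 1) ^ S.card := by
      refine pow_le_pow_left₀ (by positivity) ?_ _
      have := Nat.floor_le hq0
      linarith
    have h2 := lt_of_le_of_lt h1 hcount
    exact_mod_cast h2
  obtain ⟨y', y'', hne, heq⟩ := Fintype.exists_ne_map_eq_of_card_lt g hcard
  refine ⟨fun i => ((y' i : ℕ) : ℤ) - ((y'' i : ℕ) : ℤ), ?_, ?_, ?_⟩
  · intro h
    apply hne
    funext i
    have h1 := congrFun h i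
    apply Fin.ext
    have h2 : ((y' i : ℕ) : ℤ) - ((y'' i : ℕ) : ℤ) = 0 := h1
    omega
  · intro i
    push_cast
    have h1 : ((y' i : ℕ) : ℝ) ≤ X := by
      have := (y' i).2
      exact_mod_cast Nat.lt_succ_iff.1 this
    have h2 : ((y'' i : ℕ) : ℝ) ≤ X := by
      have := (y'' i).2
      exact_mod_cast Nat.lt_succ_iff.1 this
    have h3 : (0 : ℝ) ≤ ((y' i : ℕ) : ℝ) := Nat.cast_nonneg _
    have h4 : (0 : ℝ) ≤ ((y'' i : ℕ) : ℝ) := Nat.cast_nonneg _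
    rw [abs_le]
    constructor <;> linarith
  · intro k hk
    have h1 : ∑ i, ((((y' i : ℕ) : ℤ) - ((y'' i : ℕ) : ℤ) : ℤ) : ℝ) * a i k = L y' k - L y'' k := by
      rw [hL]
      push_cast
      simp only [sub_mul, Finset.sum_sub_distrib]
    rw [h1]
    have h2 : ⌊L y' k / ε⌋₊ = ⌊L y'' k / ε⌋₊ := by
      have h3 := congrFun heq ⟨k, hk⟩
      rw [hg] at h3
      exact congrArg Fin.val h3
    have h4 := Nat.floor_le (div_nonneg (hL0 y' k hk) hε.le)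
    have h5 := Nat.floor_le (div_nonneg (hL0 y'' k hk) hε.le)
    have h6 := Nat.lt_floor_add_one (L y' k / ε)
    have h7 := Nat.lt_floor_add_one (L y'' k / ε)
    rw [h2] at h4 h6
    have h8 : |L y' k / ε - L y'' k / ε| ≤ 1 := by
      rw [abs_le]
      constructor <;> linarith
    rw [← sub_div, abs_div, abs_of_pos hε, div_le_one hε] at h8
    exact h8

end Pool.MZDim
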