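import Mathlib

/-! MODULE DBd (about 30 lines, ONLY MATHLIB). MP_301213_nt, dim Z_k → ∞. `lcm(1..2N) ≤ exp(12 N)`.

PROOF. Chebyshev.psi_eq_log_lcmUpto and Chebyshev.psi_le_const_mul_self (ψ x ≤ (log 4 + 4) x), log 4 = 2 log 2 ≤ 1.4
(Real.log_two_lt_d9), so log (lcmUpto (2N)) ≤ 5.4 * 2N ≤ 12 N; exp and lcmUpto_pos. -/

namespace Pool.MZDim

theorem lcmUpto_le (N : ℕ) : ((Nat.lcmUpto (2 * N) : ℕ) : ℝ) ≤ Real.exp (12 * N) := by
  have hpos : (0 : ℝ) < ((Nat.lcmUpto (2 * N) : ℕ) : ℝ) := by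
    exact_mod_cast Nat.lcmUpto_pos (2 * N)
  rw [← Real.log_le_iff_le_exp hpos, ← Chebyshev.psi_eq_log_lcmUpto]
  have h := Chebyshev.psi_le_const_mul_self (x := ((2 * N : ℕ) : ℝ)) (Nat.cast_nonneg _)
  have h4 : Real.log 4 = 2 * Real.log 2 := by
    rw [show (4 : ℝ) = 2 ^ 2 by norm_num, Real.log_pow]
    norm_num
  have h2 := Real.log_two_lt_d9
  have hN : (0 : ℝ) ≤ (N : ℝ) := Nat.cast_nonneg N
  refine h.trans ?_
  push_cast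
  rw [h4]
  nlinarith

end Pool.MZDim
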