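import Pool.Agent.Lib.MZDim.Fct

/-! MODULE Evn (about 130 lines, ONLY MATHLIB and Fct). MP_301213_nt, dim Z_k → ∞. Numerical estimates for large N.
Here `Dl = Δ`, P = (Δ+2) N.

PROOFS. General tool: for constants C and a > 0, C (N+1)^2 ≤ exp(a N) for large N (polynomial against exponential:
`tendsto_pow_mul_exp_neg_atTop_nhds_zero`, or exp(aN) ≥ (aN)^3/6).
* ev1: 16 = exp(log 16) and log 16 = 4 log 2 ≤ 2.8 (Real.log_two_lt_d9), so 16^((Δ+2)N) exp(-(4Δ+6)N) ≤ exp((2.8(Δ+2) - 4Δ - 6) N) ≤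
  exp(-(Δ + 0.4) N), and exp(-0.4 N) ≤ 1/4 for N ≥ 4.
* ev2: with fact_div for P = (Δ+2)N ≥ 1 (N ≥ 1): C (N+1) e^N * 2 e P e^(-P) = 2 e C (Δ+2) (N+1) N e^(-(Δ+1)N) ≤ e^(-ΔN)/4 as soon as
  8 e C (Δ+2) (N+1)^2 ≤ e^N.
* ev3: 2^(-(2Δ+5)N) = exp(-(2Δ+5) N log 2) ≤ exp(-(1.38 Δ + 3.45) N) (Real.log_two_gt_d9: log 2 > 0.69), so the left side is
  ≤ C (N+1) exp(N - ΔN - 3.45 N) ≤ exp(-ΔN) once C (N+1) ≤ exp(2 N).
* ev4: 2^(2Δ+5) (Δ+2) N + 2 ≤ exp N for large N. -/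

open Finset Filter Topology

namespace Pool.MZDim

private theorem evn_poly (C a : ℝ) (ha : 0 < a) :
    ∀ᶠ N : ℕ in atTop, C * ((N : ℝ) + 1) ^ 2 ≤ Real.exp (a * N) := by
  filter_upwards [eventually_ge_atTop (max 1 ⌈24 * |C| / a ^ 3⌉₊)] with N hN
  have h1 : (1 : ℝ) ≤ N := by
    exact_mod_cast le_trans (le_max_left _ _) hN
  have h2 : 24 * |C| / a ^ 3 ≤ N :=
    le_trans (Nat.le_ceil _) (by exact_mod_cast le_trans (le_max_right _ _) hN)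
  have ha3 : 0 < a ^ 3 := pow_pos ha 3
  rw [div_le_iff₀ ha3] at h2
  have h3 : (a * N) ^ 3 / (Nat.factorial 3 : ℝ) ≤ Real.exp (a * N) :=
    Real.pow_div_factorial_le_exp _ (by positivity) 3
  have h4 : ((Nat.factorial 3 : ℕ) : ℝ) = 6 := by norm_num [Nat.factorial]
  rw [h4] at h3
  have hC := abs_nonneg C
  have h5 : C * ((N : ℝ) + 1) ^ 2 ≤ |C| * ((N : ℝ) + 1) ^ 2 :=
    mul_le_mul_of_nonneg_right (le_abs_self C) (by positivity)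
  have h6 : |C| * ((N : ℝ) + 1) ^ 2 ≤ |C| * (4 * (N : ℝ) ^ 2) := by
    apply mul_le_mul_of_nonneg_left _ hC
    nlinarith
  have h7 : |C| * (4 * (N : ℝ) ^ 2) ≤ (a * N) ^ 3 / 6 := by
    have h8 : 24 * |C| * (N : ℝ) ^ 2 ≤ (N : ℝ) * a ^ 3 * (N : ℝ) ^ 2 :=
      mul_le_mul_of_nonneg_right h2 (by positivity)
    have h9 : (a * (N : ℝ)) ^ 3 = (N : ℝ) * a ^ 3 * (N : ℝ) ^ 2 := by ring
    rw [h9]
    linarith
  linarith

private theorem evn_two : Real.exp (Real.log 2) = 2 := Real.exp_log (by norm_num)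

theorem ev1 (Dl : ℕ) : ∀ᶠ N : ℕ in atTop,
    (16 : ℝ) ^ ((Dl + 2) * N) * Real.exp (-(((4 * Dl + 6 : ℕ) : ℝ) * N)) ≤
      Real.exp (-((Dl : ℝ) * N)) / 4 := by
  filter_upwards [evn_poly 4 (2 / 5) (by norm_num)] with N hN
  have h16 : (16 : ℝ) = Real.exp (4 * Real.log 2) := by
    have h1 : Real.exp (4 * Real.log 2) = Real.exp (Real.log 2) ^ 4 := by
      rw [← Real.exp_nat_mul]
      norm_num
    rw [h1, evn_two]
    norm_num
  have hN0 : (0 : ℝ) ≤ N := Nat.cast_nonneg N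
  have hD0 : (0 : ℝ) ≤ Dl := Nat.cast_nonneg Dl
  have h4 : (4 : ℝ) ≤ Real.exp (2 / 5 * N) := by
    refine le_trans ?_ hN
    nlinarith
  rw [h16, ← Real.exp_nat_mul, ← Real.exp_add]
  push_cast
  have hL := Real.log_two_lt_d9
  have hx : ((Dl : ℝ) + 2) * N * (4 * Real.log 2) + -((4 * (Dl : ℝ) + 6) * N) ≤
      -((Dl : ℝ) * N) + -(2 / 5 * N) := by
    have hDN : 0 ≤ (Dl : ℝ) * N := mul_nonneg hD0 hN0
    have h5 : ((Dl : ℝ) + 2) * N * (4 * Real.log 2) ≤ ((Dl : ℝ) + 2) * N * (14 / 5) := by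
      apply mul_le_mul_of_nonneg_left _ (by positivity)
      linarith
    nlinarith
  calc Real.exp (((Dl : ℝ) + 2) * N * (4 * Real.log 2) + -((4 * (Dl : ℝ) + 6) * N))
      ≤ Real.exp (-((Dl : ℝ) * N) + -(2 / 5 * N)) := Real.exp_le_exp.2 hx
    _ = Real.exp (-((Dl : ℝ) * N)) / Real.exp (2 / 5 * N) := by
        rw [Real.exp_add, Real.exp_neg (2 / 5 * (N : ℝ))]
        exact (div_eq_mul_inv _ _).symm
    _ ≤ Real.exp (-((Dl : ℝ) * N)) / 4 :=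
        div_le_div_of_nonneg_left (Real.exp_pos _).le (by norm_num) h4

theorem ev2 (Dl : ℕ) (C : ℝ) (hC : 0 ≤ C) : ∀ᶠ N : ℕ in atTop,
    C * (N + 1) * Real.exp N *
      (2 * (((Dl + 2) * N).factorial : ℝ) / (((Dl + 2) * N : ℕ) : ℝ) ^ ((Dl + 2) * N)) ≤
      Real.exp (-((Dl : ℝ) * N)) / 4 := by
  filter_upwards [evn_poly (8 * Real.exp 1 * C * (Dl + 2)) 1 one_pos, eventually_ge_atTop 1]
    with N hN h1
  have hN0 : (0 : ℝ) ≤ N := Nat.cast_nonneg N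
  have hD0 : (0 : ℝ) ≤ Dl := Nat.cast_nonneg Dl
  have hP : 1 ≤ (Dl + 2) * N := Nat.mul_pos (by omega) h1
  have h2 := fact_div hP
  have e1 := Real.exp_pos 1
  rw [one_mul] at hN
  have h3 : C * (N + 1) * Real.exp N *
      (2 * (((Dl + 2) * N).factorial : ℝ) / (((Dl + 2) * N : ℕ) : ℝ) ^ ((Dl + 2) * N)) ≤
      C * (N + 1) * Real.exp N * (2 * (Real.exp 1 * (((Dl + 2) * N : ℕ) : ℝ) *
        Real.exp (-(((Dl + 2) * N : ℕ) : ℝ)))) := by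
    apply mul_le_mul_of_nonneg_left _ (by positivity)
    rw [mul_div_assoc]
    exact mul_le_mul_of_nonneg_left h2 (by norm_num)
  refine le_trans h3 ?_
  have h4 : (((Dl + 2) * N : ℕ) : ℝ) = (Dl + 2) * N := by push_cast; ring
  rw [h4]
  have h5 : Real.exp N * Real.exp (-(((Dl : ℝ) + 2) * N)) =
      Real.exp (-((Dl : ℝ) * N)) * Real.exp (-(N : ℝ)) := by
    rw [← Real.exp_add, ← Real.exp_add]
    congr 1
    ring
  have h6 : C * ((N : ℝ) + 1) * Real.exp N * (2 * (Real.exp 1 * (((Dl : ℝ) + 2) * N) *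
        Real.exp (-(((Dl : ℝ) + 2) * N)))) =
      (2 * Real.exp 1 * C * (Dl + 2) * ((N + 1) * N)) *
        (Real.exp N * Real.exp (-(((Dl : ℝ) + 2) * N))) := by ring
  rw [h6, h5]
  have h7 : 2 * Real.exp 1 * C * ((Dl : ℝ) + 2) * (((N : ℝ) + 1) * N) ≤ Real.exp N / 4 := by
    have h8 : 2 * Real.exp 1 * C * ((Dl : ℝ) + 2) * (((N : ℝ) + 1) * N) ≤
        2 * Real.exp 1 * C * ((Dl : ℝ) + 2) * ((N : ℝ) + 1) ^ 2 := by
      apply mul_le_mul_of_nonneg_left _ (by positivity)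
      nlinarith
    linarith
  calc 2 * Real.exp 1 * C * ((Dl : ℝ) + 2) * (((N : ℝ) + 1) * N) *
        (Real.exp (-((Dl : ℝ) * N)) * Real.exp (-(N : ℝ)))
      ≤ Real.exp N / 4 * (Real.exp (-((Dl : ℝ) * N)) * Real.exp (-(N : ℝ))) :=
        mul_le_mul_of_nonneg_right h7 (mul_nonneg (Real.exp_pos _).le (Real.exp_pos _).le)
    _ = Real.exp (-((Dl : ℝ) * N)) / 4 := by
        rw [Real.exp_neg (N : ℝ)]
        have := (Real.exp_pos (N : ℝ)).ne'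
        field_simp

theorem ev3 (Dl : ℕ) (C : ℝ) (hC : 0 ≤ C) : ∀ᶠ N : ℕ in atTop,
    C * (N + 1) * Real.exp N * ((1 / 2 : ℝ) ^ (2 * Dl + 5)) ^ N ≤ Real.exp (-((Dl : ℝ) * N)) := by
  filter_upwards [evn_poly C 2 (by norm_num)] with N hN
  have hN0 : (0 : ℝ) ≤ N := Nat.cast_nonneg N
  have hD0 : (0 : ℝ) ≤ Dl := Nat.cast_nonneg Dl
  have hhalf : (1 / 2 : ℝ) = Real.exp (-Real.log 2) := by
    rw [Real.exp_neg, evn_two]
    norm_num
  rw [hhalf, ← Real.exp_nat_mul, ← Real.exp_nat_mul]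
  have hL := Real.log_two_gt_d9
  have h1 : (N : ℝ) * (((2 * Dl + 5 : ℕ) : ℝ) * -Real.log 2) ≤
      -((Dl : ℝ) * N) + -(2 * N) + -(N : ℝ) := by
    push_cast
    have hDN : 0 ≤ (Dl : ℝ) * N := mul_nonneg hD0 hN0
    have h2 : (N : ℝ) * (2 * (Dl : ℝ) + 5) * (69 / 100) ≤ (N : ℝ) * (2 * (Dl : ℝ) + 5) * Real.log 2 := by
      apply mul_le_mul_of_nonneg_left _ (by positivity)
      linarith
    nlinarith
  have h3 : C * ((N : ℝ) + 1) ≤ Real.exp (2 * N) := by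
    refine le_trans ?_ hN
    apply mul_le_mul_of_nonneg_left _ hC
    nlinarith
  calc C * ((N : ℝ) + 1) * Real.exp N * Real.exp ((N : ℝ) * (((2 * Dl + 5 : ℕ) : ℝ) * -Real.log 2))
      ≤ Real.exp (2 * N) * Real.exp N * Real.exp (-((Dl : ℝ) * N) + -(2 * N) + -(N : ℝ)) := by
        apply mul_le_mul _ (Real.exp_le_exp.2 h1) (Real.exp_pos _).le
          (mul_nonneg (Real.exp_pos _).le (Real.exp_pos _).le)
        exact mul_le_mul_of_nonneg_right h3 (Real.exp_pos _).le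
    _ = Real.exp (-((Dl : ℝ) * N)) := by
        rw [← Real.exp_add, ← Real.exp_add]
        congr 1
        ring

theorem ev4 (Dl : ℕ) : ∀ᶠ N : ℕ in atTop,
    (2 : ℝ) ^ (2 * Dl + 4 + 1) * ((Dl + 2 : ℕ) * N) + 2 ≤ Real.exp N := by
  filter_upwards [evn_poly ((2 : ℝ) ^ (2 * Dl + 4 + 1) * ((Dl + 2 : ℕ) : ℝ) + 2) 1 one_pos]
    with N hN
  rw [one_mul] at hN
  refine le_trans ?_ hN
  have hN0 : (0 : ℝ) ≤ N := Nat.cast_nonneg N
  have h1 : 0 ≤ (2 : ℝ) ^ (2 * Dl + 4 + 1) * ((Dl + 2 : ℕ) : ℝ) := by positivity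
  have h2 : (N : ℝ) ≤ ((N : ℝ) + 1) ^ 2 := by nlinarith
  have h3 : (1 : ℝ) ≤ ((N : ℝ) + 1) ^ 2 := by nlinarith
  rw [← mul_assoc, add_mul]
  have h4 := mul_le_mul_of_nonneg_left h2 h1
  linarith

end Pool.MZDim
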