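import Pool.Agent.Lib.MZDim.Defs

/-! MODULE FNe (about 170 lines). MP_301213_nt, dim Z_k → ∞. `f_y` is not identically zero.

PROOF. Suppose fy A N y M = 0 for all M, and y i0 l0 ≠ 0 with i0 ≤ N, l0 ∈ A; for this l0 take the LEAST such i0 (Nat.find or
Finset.exists_min). For l ∈ A let (polynomials over ℝ)
  q_l = ∑_{i ≤ N} y i l * N! * ∏_{k ∈ range (2N+1) \ {i,...,i+N}} (X + 1 + k)
(the product over the k ≤ 2N with k < i or k > i + N). Multiplying by ∏_{k ≤ 2N} (M + 1 + k) ≠ 0: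
  ∏_{k ≤ 2N} (M+1+k) * beta N i M = N! * ∏_{k ∉ [i,i+N]} (M+1+k)
(the product over j ≤ N of (M+1+i+j) is the product over k ∈ [i, i+N] of (M+1+k): Finset.prod_sdiff, image/shift), so
  ∑_{l ∈ A} q_l.eval M * sR l M = 0 for all M.
Let p : List ℕ →₀ ℝ[X] be q_l on A and 0 outside (Finsupp.onFinset, or ∑_{l ∈ A} Finsupp.single l q_l). p ≠ 0: q_{l0} evaluated at
X = -(1 + i0): the summands with i < i0 vanish because y i l0 = 0 (minimality), those with i > i0 contain the factor k = i0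
(i0 < i), which is zero, and the summand i = i0 is y i0 l0 * N! * ∏_{k ∉ [i0,i0+N]} (k - i0) ≠ 0. So q_{l0} ≠ 0.
HofPers.main_sign HofPers.sys_sR (ℓ = the maximal length, n = the number of words of that length; κ = 1: all letters ≥ 1 by Adm):
EvSign (ev sR p), and EvSign.ne_zero gives ev sR p M ≠ 0 for large M; but ev sR p M = ∑_{l∈A} q_l.eval M * sR l M = 0. -/

open HofPers Finset Filter Topology Polynomial

namespace Pool.MZDim

private noncomputable def fneR (N i : ℕ) : Finset ℕ := (range (2 * N + 1)).filter fun k => ¬ (i ≤ k ∧ k ≤ i + N)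

private noncomputable def fneQ (N : ℕ) (y : ℕ → List ℕ → ℤ) (l : List ℕ) : ℝ[X] :=
  ∑ i ∈ range (N + 1), C ((y i l : ℝ) * (N.factorial : ℝ)) * ∏ k ∈ fneR N i, (X + C (1 + (k : ℝ)))

private theorem fneQ_eval (N : ℕ) (y : ℕ → List ℕ → ℤ) (l : List ℕ) (x : ℝ) :
    (fneQ N y l).eval x = ∑ i ∈ range (N + 1), (y i l : ℝ) * (N.factorial : ℝ) *
      ∏ k ∈ fneR N i, (x + (1 + (k : ℝ))) := by
  unfold fneQ
  rw [eval_finsetSum]
  refine Finset.sum_congr rfl fun i _ => ?_
  rw [eval_mul, eval_C, eval_prod]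
  congr 1
  refine Finset.prod_congr rfl fun k _ => ?_
  rw [eval_add, eval_X, eval_C]

private theorem fne_beta (N i M : ℕ) (hi : i ≤ N) :
    (∏ k ∈ range (2 * N + 1), ((M : ℝ) + (1 + (k : ℝ)))) * beta N i M =
      (N.factorial : ℝ) * ∏ k ∈ fneR N i, ((M : ℝ) + (1 + (k : ℝ))) := by
  have h1 : (range (2 * N + 1)).filter (fun k => i ≤ k ∧ k ≤ i + N) = Ico i (i + (N + 1)) := by
    ext k
    simp only [Finset.mem_filter, Finset.mem_range, Finset.mem_Ico]
    omega
  have h2 : ∏ j ∈ range (N + 1), ((M : ℝ) + 1 + i + j) = ∏ k ∈ Ico i (i + (N + 1)), ((M : ℝ) + (1 + (k : ℝ))) := by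
    rw [Finset.prod_Ico_eq_prod_range, Nat.add_sub_cancel_left]
    refine Finset.prod_congr rfl fun j _ => ?_
    push_cast
    ring
  have h3 : ∏ k ∈ Ico i (i + (N + 1)), ((M : ℝ) + (1 + (k : ℝ))) ≠ 0 := by
    refine Finset.prod_ne_zero_iff.2 fun k _ => ?_
    positivity
  rw [← Finset.prod_filter_mul_prod_filter_not (range (2 * N + 1)) (fun k => i ≤ k ∧ k ≤ i + N), h1]
  unfold beta
  rw [h2]
  unfold fneR
  field_simp

theorem fy_ne_zero (A : Finset (List ℕ)) (hA : ∀ l ∈ A, Adm l) (N : ℕ) (y : ℕ → List ℕ → ℤ)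
    (hy : ∃ i ≤ N, ∃ l ∈ A, y i l ≠ 0) : ∃ M : ℕ, fy A N y M ≠ 0 := by
  classical
  obtain ⟨i1, hi1, l0, hl0, hne⟩ := hy
  have hex : ∃ i, i ≤ N ∧ y i l0 ≠ 0 := ⟨i1, hi1, hne⟩
  set i0 := Nat.find hex with hi0
  obtain ⟨h1, h2⟩ := Nat.find_spec hex
  rw [← hi0] at h1 h2
  have hmin : ∀ i < i0, y i l0 = 0 := by
    intro i hi
    by_contra h
    exact Nat.find_min hex (hi0 ▸ hi) ⟨by omega, h⟩
  have hq : fneQ N y l0 ≠ 0 := by
    intro h0
    have h3 := fneQ_eval N y l0 (-(1 + (i0 : ℝ)))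
    rw [h0, eval_zero, Finset.sum_eq_single_of_mem i0 (Finset.mem_range.2 (by omega))] at h3
    · have h4 : ∏ k ∈ fneR N i0, (-(1 + (i0 : ℝ)) + (1 + (k : ℝ))) ≠ 0 := by
        refine Finset.prod_ne_zero_iff.2 fun k hk => ?_
        have hk' : ¬ (i0 ≤ k ∧ k ≤ i0 + N) := (Finset.mem_filter.1 hk).2
        intro h5
        have h6 : (k : ℝ) = i0 := by linarith
        have h7 : k = i0 := by exact_mod_cast h6
        exact hk' (by omega)
      have h5 : (y i0 l0 : ℝ) ≠ 0 := by exact_mod_cast h2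
      have h6 : (N.factorial : ℝ) ≠ 0 := by exact_mod_cast N.factorial_ne_zero
      exact mul_ne_zero (mul_ne_zero h5 h6) h4 h3.symm
    · intro i hi hne
      rw [Finset.mem_range] at hi
      rcases Nat.lt_or_gt_of_ne hne with hlt | hgt
      · rw [hmin i hlt]
        simp
      · have hmem : i0 ∈ fneR N i := by
          unfold fneR
          rw [Finset.mem_filter, Finset.mem_range]
          omega
        rw [Finset.prod_eq_zero hmem (by ring), mul_zero]
  set p : List ℕ →₀ ℝ[X] := Finsupp.onFinset A (fun l => if l ∈ A then fneQ N y l else 0) (by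
    intro l hl
    by_contra h
    rw [if_neg h] at hl
    exact hl rfl) with hp
  have hpl : ∀ l ∈ A, p l = fneQ N y l := by
    intro l hl
    rw [hp, Finsupp.onFinset_apply, if_pos hl]
  have hp0 : p ≠ 0 := by
    intro h
    apply hq
    rw [← hpl l0 hl0, h, Finsupp.zero_apply]
  have hsup : ∀ w ∈ p.support, w ∈ A := by
    intro w hw
    exact Finsupp.support_onFinset_subset hw
  have hsign := HofPers.main_sign HofPers.sys_sR (p.support.sup List.length) _ p
    (fun w hw => Finset.le_sup (f := List.length) hw) le_rfl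
    (fun w hw a ha => le_trans (by norm_num) (hA w (hsup w hw) a ha)) hp0
  obtain ⟨M, hM⟩ := hsign.ne_zero.exists
  refine ⟨M, fun h0 => hM ?_⟩
  have hev : ev sR p M = ∑ l ∈ A, (fneQ N y l).eval (M : ℝ) * sR l M := by
    unfold ev
    rw [Finsupp.sum_of_support_subset p (fun w hw => hsup w hw) _ (fun w _ => by simp)]
    refine Finset.sum_congr rfl fun l hl => ?_
    rw [hpl l hl]
  have hfy : (∏ k ∈ range (2 * N + 1), ((M : ℝ) + (1 + (k : ℝ)))) * fy A N y M =
      ∑ l ∈ A, (fneQ N y l).eval (M : ℝ) * sR l M := by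
    unfold fy
    rw [Finset.mul_sum]
    simp only [fneQ_eval, Finset.sum_mul]
    rw [Finset.sum_comm]
    refine Finset.sum_congr rfl fun i hi => ?_
    rw [Finset.mul_sum]
    refine Finset.sum_congr rfl fun l _ => ?_
    have hb := fne_beta N i M (by rw [Finset.mem_range] at hi; omega)
    calc (∏ k ∈ range (2 * N + 1), ((M : ℝ) + (1 + (k : ℝ)))) * ((y i l : ℝ) * (beta N i M * sR l M))
        = (y i l : ℝ) * sR l M * ((∏ k ∈ range (2 * N + 1), ((M : ℝ) + (1 + (k : ℝ)))) * beta N i M) := by ring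
      _ = (y i l : ℝ) * (N.factorial : ℝ) * (∏ k ∈ fneR N i, ((M : ℝ) + (1 + (k : ℝ)))) * sR l M := by
        rw [hb]
        ring
  rw [hev, ← hfy, h0, mul_zero]

end Pool.MZDim
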