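import Mathlib

/-! MODULE Fct (about 60 lines, ONLY MATHLIB). MP_301213_nt, dim Z_k → ∞. `P! / P^P ≤ e P e^{-P}`.

PROOF of fact_le: n! e^n ≤ e n n^n for n ≥ 1, by induction (Nat.le_induction). n = 1: equality. Step:
(n+1)! e^(n+1) = (n+1) e (n! e^n) ≤ (n+1) e e n^(n+1) and e n^(n+1) ≤ (n+1)^(n+1), because (n+1) log((n+1)/n) ≥ 1
(`Real.one_sub_inv_le_log_of_pos` with x = (n+1)/n: 1 - n/(n+1) = 1/(n+1) ≤ log x). fact_div: divide. fact_div_le_one: n! ≤ n^n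
(Nat.factorial_le_pow). -/

open Finset Filter Topology

namespace Pool.MZDim

private theorem fct_step {n : ℕ} (hn : 1 ≤ n) :
    Real.exp 1 * (n : ℝ) ^ (n + 1) ≤ ((n : ℝ) + 1) ^ (n + 1) := by
  have hn0 : (0 : ℝ) < n := by exact_mod_cast hn
  have h1 := Real.one_sub_inv_le_log_of_pos (x := ((n : ℝ) + 1) / n) (by positivity)
  have h2 : 1 - (((n : ℝ) + 1) / n)⁻¹ = 1 / ((n : ℝ) + 1) := by
    rw [inv_div]
    field_simp
    ring
  rw [h2] at h1
  have h3 : Real.exp 1 ≤ (((n : ℝ) + 1) / n) ^ (n + 1) := by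
    rw [← Real.exp_log (show (0 : ℝ) < ((n : ℝ) + 1) / n by positivity), ← Real.exp_nat_mul,
      Real.exp_le_exp]
    have h4 : (((n + 1 : ℕ) : ℝ)) * (1 / ((n : ℝ) + 1)) = 1 := by
      push_cast
      field_simp
    have h5 : (((n + 1 : ℕ) : ℝ)) * (1 / ((n : ℝ) + 1)) ≤
        ((n + 1 : ℕ) : ℝ) * Real.log (((n : ℝ) + 1) / n) :=
      mul_le_mul_of_nonneg_left h1 (by positivity)
    rwa [h4] at h5
  calc Real.exp 1 * (n : ℝ) ^ (n + 1) ≤ (((n : ℝ) + 1) / n) ^ (n + 1) * (n : ℝ) ^ (n + 1) :=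
        mul_le_mul_of_nonneg_right h3 (by positivity)
    _ = ((n : ℝ) + 1) ^ (n + 1) := by
        rw [← mul_pow, div_mul_cancel₀ _ hn0.ne']

private theorem fct_main {n : ℕ} (hn : 1 ≤ n) :
    (n.factorial : ℝ) * Real.exp n ≤ Real.exp 1 * n * (n : ℝ) ^ n := by
  induction n, hn using Nat.le_induction with
  | base => simp
  | succ n hn ih =>
    have h1 := fct_step hn
    calc ((n + 1).factorial : ℝ) * Real.exp ((n + 1 : ℕ) : ℝ)
        = ((n : ℝ) + 1) * Real.exp 1 * ((n.factorial : ℝ) * Real.exp n) := by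
          rw [Nat.factorial_succ]
          push_cast
          rw [Real.exp_add]
          ring
      _ ≤ ((n : ℝ) + 1) * Real.exp 1 * (Real.exp 1 * n * (n : ℝ) ^ n) :=
          mul_le_mul_of_nonneg_left ih (by positivity)
      _ = ((n : ℝ) + 1) * Real.exp 1 * (Real.exp 1 * (n : ℝ) ^ (n + 1)) := by ring
      _ ≤ ((n : ℝ) + 1) * Real.exp 1 * (((n : ℝ) + 1) ^ (n + 1)) :=
          mul_le_mul_of_nonneg_left h1 (by positivity)
      _ = Real.exp 1 * ((n + 1 : ℕ) : ℝ) * ((n + 1 : ℕ) : ℝ) ^ (n + 1) := by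
          push_cast
          ring

theorem fact_div {n : ℕ} (hn : 1 ≤ n) :
    (n.factorial : ℝ) / (n : ℝ) ^ n ≤ Real.exp 1 * n * Real.exp (-n) := by
  have hn0 : (0 : ℝ) < n := by exact_mod_cast hn
  rw [div_le_iff₀ (by positivity), Real.exp_neg]
  have h1 := fct_main hn
  have h2 := Real.exp_pos (n : ℝ)
  rw [show Real.exp 1 * (n : ℝ) * (Real.exp n)⁻¹ * (n : ℝ) ^ n =
    (Real.exp 1 * n * (n : ℝ) ^ n) / Real.exp n by ring, le_div_iff₀ h2]
  exact h1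

theorem fact_div_le_one {n : ℕ} (hn : 1 ≤ n) : (n.factorial : ℝ) / (n : ℝ) ^ n ≤ 1 := by
  have hn0 : (0 : ℝ) < n := by exact_mod_cast hn
  rw [div_le_one (by positivity)]
  exact_mod_cast Nat.factorial_le_pow n

end Pool.MZDim
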