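import Pool.Agent.Lib.MZDim.Defs

/-! MODULE FibW (about 70 lines). MP_301213_nt, dim Z_k → ∞. There are fib (w+1) words of weight ≤ w with letters ≥ 2.

PROOF. Prove for all w by strong (two step) induction the existence of A_w with A_w.card = Nat.fib (w+1), all l ∈ A_w Adm with l.sum ≤ w.
A_0 = A_1 = {[]}. A_(w+2) = (A_(w+1)).image up ∪ (A_w).image (2 :: ·), where up [] = [], up (a :: l) = (a+1) :: l is injective, as is 2 :: ·; the two images
are disjoint: up l is [] or has its first letter ≥ 3 (letters of l are ≥ 2). Sums: ≤ (w+1)+1 and 2 + w. Cardinality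
fib (w+2) + fib (w+1) = fib (w+3) (Nat.fib_add_two). -/

open HofPers Finset

namespace Pool.MZDim

private def fibUp : List ℕ → List ℕ
  | [] => []
  | (a :: l) => (a + 1) :: l

private theorem fibUp_inj : Function.Injective fibUp := by
  intro x y h
  cases x with
  | nil =>
    cases y with
    | nil => rfl
    | cons b m => simp [fibUp] at h
  | cons a l =>
    cases y with
    | nil => simp [fibUp] at h
    | cons b m =>
      simp only [fibUp, List.cons.injEq] at h
      obtain ⟨h1, h2⟩ := h
      rw [h2, Nat.add_right_cancel h1]

theorem exists_words_fib (w : ℕ) : ∃ A : Finset (List ℕ), A.card = Nat.fib (w + 1) ∧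
    ∀ l ∈ A, Adm l ∧ l.sum ≤ w := by
  induction w using Nat.twoStepInduction with
  | zero => exact ⟨{[]}, by simp, by simp [Adm]⟩
  | one => exact ⟨{[]}, by simp, by simp [Adm]⟩
  | more w h0 h1 =>
    obtain ⟨A0, c0, p0⟩ := h0
    obtain ⟨A1, c1, p1⟩ := h1
    refine ⟨A1.image fibUp ∪ A0.image (fun l => 2 :: l), ?_, ?_⟩
    · rw [Finset.card_union_of_disjoint, Finset.card_image_of_injective _ fibUp_inj,
        Finset.card_image_of_injective _ (List.cons_injective), c0, c1]
      · exact (add_comm _ _).trans (Nat.fib_add_two (n := w + 1)).symm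
      · rw [Finset.disjoint_left]
        intro x hx hx'
        rw [Finset.mem_image] at hx hx'
        obtain ⟨l, hl, rfl⟩ := hx
        obtain ⟨m, hm, h⟩ := hx'
        cases l with
        | nil => simp [fibUp] at h
        | cons a l =>
          simp only [fibUp, List.cons.injEq] at h
          have := (p1 _ hl).1 a List.mem_cons_self
          omega
    · intro l hl
      rw [Finset.mem_union, Finset.mem_image, Finset.mem_image] at hl
      rcases hl with ⟨m, hm, rfl⟩ | ⟨m, hm, rfl⟩
      · obtain ⟨h2, h3⟩ := p1 m hm
        cases m with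
        | nil =>
          refine ⟨by simp [Adm, fibUp], by simp [fibUp]⟩
        | cons a m =>
          simp only [fibUp]
          refine ⟨?_, ?_⟩
          · intro b hb
            rw [List.mem_cons] at hb
            rcases hb with rfl | hb
            · have := h2 a List.mem_cons_self
              omega
            · exact h2 b (List.mem_cons_of_mem _ hb)
          · rw [List.sum_cons] at h3 ⊢
            omega
      · obtain ⟨h2, h3⟩ := p0 m hm
        refine ⟨?_, ?_⟩
        · intro b hb
          rw [List.mem_cons] at hb
          rcases hb with rfl | hb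
          · exact le_rfl
          · exact h2 b hb
        · rw [List.sum_cons]
          omega

theorem fib_152 : 100 * (25 * 2 ^ 3 * (2 * 151 + 2) ^ 3 + 1) ^ 3 ≤ Nat.fib (151 + 1) := by
  norm_num

end Pool.MZDim
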