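import Pool.Agent.Lib.MZDim.Evn
import Pool.Agent.Lib.MZDim.Blk
import Pool.Agent.Lib.MZDim.FExt
import Pool.Agent.Lib.MZDim.Smp

/-! MODULE Ptw (about 170 lines). MP_301213_nt, dim Z_k → ∞. Pointwise smallness of `f_y`.

PROOF. Notation P = (Δ+2)N, A0 = 2Δ+4, ε = exp(-(4Δ+6)N), δ = exp(-ΔN), T = 2^(A0+1) P. C1 from exists_fext, M0 = 2^L, L a bound of the lengths
of the words of A (so sR l M ≤ M0, sR_le_zv, zv_le), a = |A|. N is large enough for ev1, ev2 (C = C1), ev3 (C = a M0), N ≥ 1.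
Let s ≥ 1, y with |y| ≤ exp N, |fy (s'-1)| ≤ ε on smp P A0.
(a) s < T: smp_cover. If s ∈ smp: |fy (s-1)| ≤ ε ≤ δ. Otherwise s ∈ [2^a P, 2·2^a P]: g from exists_fext (Y = exp N), block with q = 2^a, B = C1 (N+1) exp N,
  values g(2^a m) = fy (2^a m - 1) (write 2^a m = M + 1), all ≤ ε: |fy (s-1)| = ‖g s‖ ≤ x + (B + x) r, x = 16^P ε ≤ δ/4 (ev1),
  r = 2 P!/P^P ≤ 2 (fact_div_le_one), B r ≤ δ/4 (ev2): ≤ δ/4 + δ/4 + 2 δ/4 = δ.
(b) s ≥ T: |fy (s-1)| ≤ ∑_{i ≤ N} ∑_{l ∈ A} exp N * ((N/s)^N / s * M0) (beta_tail with M + 1 = s; beta_nonneg, sR_nonneg)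
  = (N+1) a M0 exp N (N/s)^N / s and N/s ≤ N/T ≤ 2^(-(2Δ+5)) (T = 2^(2Δ+5)(Δ+2) N ≥ 2^(2Δ+5) N): ev3 gives ≤ δ / s. -/

open HofPers Finset Filter Topology

namespace Pool.MZDim

private theorem bnd_sR (A : Finset (List ℕ)) (hA : ∀ l ∈ A, Adm l) :
    ∃ M0 : ℝ, 0 ≤ M0 ∧ ∀ l ∈ A, ∀ M, sR l M ≤ M0 := by
  refine ⟨2 ^ (A.sup List.length), by positivity, fun l hl M => ?_⟩
  refine (sR_le_zv (hA l hl) M).trans ((zv_le (hA l hl)).trans ?_)
  exact pow_le_pow_right₀ (by norm_num) (Finset.le_sup (f := List.length) hl)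

private theorem tail_bound (A : Finset (List ℕ)) (M0 : ℝ)
    (hs : ∀ l ∈ A, ∀ M, sR l M ≤ M0) (N : ℕ) (y : ℕ → List ℕ → ℤ) (Y : ℝ)
    (hY : 0 ≤ Y) (hy : ∀ i l, |(y i l : ℝ)| ≤ Y) (M : ℕ) :
    |fy A N y M| ≤
      (A.card : ℝ) * M0 * (N + 1) * Y * ((N : ℝ) / ((M : ℝ) + 1)) ^ N / ((M : ℝ) + 1) := by
  have hM : (0 : ℝ) < (M : ℝ) + 1 := by positivity
  have h1 : ∀ i ∈ range (N + 1), ∀ l ∈ A, |(y i l : ℝ) * (beta N i M * sR l M)| ≤
      Y * (((N : ℝ) / ((M : ℝ) + 1)) ^ N / ((M : ℝ) + 1) * M0) := by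
    intro i _ l hl
    have h2 := beta_nonneg N i M
    have h3 := sR_nonneg l M
    rw [abs_mul, abs_of_nonneg (mul_nonneg h2 h3)]
    exact mul_le_mul (hy i l) (mul_le_mul (beta_tail N i M) (hs l hl M) h3
      (h2.trans (beta_tail N i M))) (mul_nonneg h2 h3) hY
  have h4 : |fy A N y M| ≤ ∑ _i ∈ range (N + 1), ∑ _l ∈ A,
      Y * (((N : ℝ) / ((M : ℝ) + 1)) ^ N / ((M : ℝ) + 1) * M0) := by
    unfold fy
    refine (Finset.abs_sum_le_sum_abs _ _).trans (Finset.sum_le_sum fun i hi => ?_)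
    exact (Finset.abs_sum_le_sum_abs _ _).trans (Finset.sum_le_sum fun l hl => h1 i hi l hl)
  refine h4.trans (le_of_eq ?_)
  rw [Finset.sum_const, Finset.sum_const, Finset.card_range, nsmul_eq_mul, nsmul_eq_mul]
  push_cast
  ring

theorem pointwise (A : Finset (List ℕ)) (hA : ∀ l ∈ A, Adm l) (Dl : ℕ) :
    ∀ᶠ N : ℕ in atTop, ∀ y : ℕ → List ℕ → ℤ, (∀ i l, |(y i l : ℝ)| ≤ Real.exp N) →
      (∀ s ∈ smp ((Dl + 2) * N) (2 * Dl + 4),
        |fy A N y (s - 1)| ≤ Real.exp (-(((4 * Dl + 6 : ℕ) : ℝ) * N))) →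
      (∀ s : ℕ, 1 ≤ s → s < 2 ^ (2 * Dl + 4 + 1) * ((Dl + 2) * N) →
        |fy A N y (s - 1)| ≤ Real.exp (-((Dl : ℝ) * N))) ∧
      (∀ s : ℕ, 1 ≤ s → 2 ^ (2 * Dl + 4 + 1) * ((Dl + 2) * N) ≤ s →
        |fy A N y (s - 1)| ≤ Real.exp (-((Dl : ℝ) * N)) / s) := by
  obtain ⟨C1, hC1, hext⟩ := exists_fext A hA
  obtain ⟨M0, hM0, hsR⟩ := bnd_sR A hA
  filter_upwards [ev1 Dl, ev2 Dl C1 (by linarith), ev3 Dl ((A.card : ℝ) * M0) (by positivity),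
    eventually_ge_atTop 1] with N h1 h2 h3 hN y hy hsm
  have hP : 1 ≤ (Dl + 2) * N := Nat.mul_pos (by omega) hN
  have hδ : 0 < Real.exp (-((Dl : ℝ) * N)) := Real.exp_pos _
  have hε : 0 ≤ Real.exp (-(((4 * Dl + 6 : ℕ) : ℝ) * N)) := (Real.exp_pos _).le
  have hεδ : Real.exp (-(((4 * Dl + 6 : ℕ) : ℝ) * N)) ≤ Real.exp (-((Dl : ℝ) * N)) := by
    refine Real.exp_le_exp.2 (neg_le_neg ?_)
    refine mul_le_mul_of_nonneg_right ?_ (Nat.cast_nonneg N)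
    push_cast
    have : (0 : ℝ) ≤ Dl := Nat.cast_nonneg _
    linarith
  constructor
  · intro s hs1 hs2
    rcases smp_cover hP hs1 hs2 with hmem | ⟨a, ha1, ha2, hsa, hsb, hm⟩
    · exact (hsm s hmem).trans hεδ
    · obtain ⟨g, hgd, hgv, hgb⟩ := hext N y (Real.exp N) (Real.exp_pos _).le hy
      have hval : ∀ t : ℕ, 1 ≤ t → g (t : ℂ) = ((fy A N y (t - 1) : ℝ) : ℂ) := by
        intro t ht
        rw [← hgv (t - 1)]
        congr 1
        have h4 : ((t - 1 : ℕ) : ℂ) + 1 = ((t - 1 + 1 : ℕ) : ℂ) := by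
          push_cast
          rfl
        rw [h4, Nat.sub_add_cancel ht]
      have hv : ∀ m ∈ Ico ((Dl + 2) * N) (2 * ((Dl + 2) * N)),
          ‖g (((2 ^ a : ℕ) : ℂ) * m)‖ ≤ Real.exp (-(((4 * Dl + 6 : ℕ) : ℝ) * N)) := by
        intro m hmm
        have h4 := hm m hmm
        have h5 : (((2 ^ a : ℕ) : ℂ) * m) = ((2 ^ a * m : ℕ) : ℂ) := by
          push_cast
          rfl
        rw [h5, hval _ (smp_pos hP h4), Complex.norm_real, Real.norm_eq_abs]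
        exact hsm _ h4
      have hb := block ((Dl + 2) * N) (2 ^ a) hP Nat.one_le_two_pow hgd hε hgb hv s hsa hsb
      rw [hval s hs1, Complex.norm_real, Real.norm_eq_abs] at hb
      have hfac : (((Dl + 2) * N).factorial : ℝ) / (((Dl + 2) * N : ℕ) : ℝ) ^ ((Dl + 2) * N) ≤ 1 :=
        fact_div_le_one hP
      have h2' : C1 * (N + 1) * Real.exp N *
          (2 * (((Dl + 2) * N).factorial : ℝ) / (((Dl + 2) * N : ℕ) : ℝ) ^ ((Dl + 2) * N)) ≤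
          Real.exp (-((Dl : ℝ) * N)) / 4 := h2
      have hfac0 : 0 ≤ (((Dl + 2) * N).factorial : ℝ) /
          (((Dl + 2) * N : ℕ) : ℝ) ^ ((Dl + 2) * N) := by positivity
      have hr : 2 * (((Dl + 2) * N).factorial : ℝ) / (((Dl + 2) * N : ℕ) : ℝ) ^ ((Dl + 2) * N) =
          2 * ((((Dl + 2) * N).factorial : ℝ) /
            (((Dl + 2) * N : ℕ) : ℝ) ^ ((Dl + 2) * N)) := by ring
      rw [hr] at h2' hb
      set r := (((Dl + 2) * N).factorial : ℝ) / (((Dl + 2) * N : ℕ) : ℝ) ^ ((Dl + 2) * N) with hrdef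
      set x := (16 : ℝ) ^ ((Dl + 2) * N) * Real.exp (-(((4 * Dl + 6 : ℕ) : ℝ) * N)) with hx
      have hx0 : 0 ≤ x := by positivity
      have hxr : x * (2 * r) ≤ 2 * x := by nlinarith
      calc |fy A N y (s - 1)| ≤ x + (C1 * (N + 1) * Real.exp N + x) * (2 * r) := hb
        _ = x + C1 * (N + 1) * Real.exp N * (2 * r) + x * (2 * r) := by ring
        _ ≤ Real.exp (-((Dl : ℝ) * N)) := by linarith
  · intro s hs1 hs2
    have h4 := tail_bound A M0 hsR N y (Real.exp N) (Real.exp_pos _).le hy (s - 1)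
    have h5 : ((s - 1 : ℕ) : ℝ) + 1 = s := by
      have h6 : ((s - 1 : ℕ) : ℝ) + 1 = ((s - 1 + 1 : ℕ) : ℝ) := by
        push_cast
        rfl
      rw [h6, Nat.sub_add_cancel hs1]
    rw [h5] at h4
    have hs0 : (0 : ℝ) < s := by exact_mod_cast hs1
    have h7 : (N : ℝ) / s ≤ (1 / 2 : ℝ) ^ (2 * Dl + 5) := by
      rw [div_le_iff₀ hs0, one_div, inv_pow, inv_mul_eq_div, le_div_iff₀ (by positivity)]
      have h8 : N * 2 ^ (2 * Dl + 5) ≤ s := by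
        refine le_trans ?_ hs2
        have h9 : 2 * Dl + 4 + 1 = 2 * Dl + 5 := rfl
        rw [h9, mul_comm]
        refine Nat.mul_le_mul_left _ ?_
        nlinarith
      exact_mod_cast h8
    have h10 : ((N : ℝ) / s) ^ N ≤ ((1 / 2 : ℝ) ^ (2 * Dl + 5)) ^ N :=
      pow_le_pow_left₀ (by positivity) h7 N
    refine h4.trans (div_le_div_of_nonneg_right ?_ hs0.le)
    refine le_trans ?_ h3
    exact mul_le_mul_of_nonneg_left h10 (by positivity)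

end Pool.MZDim
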