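import Pool.Agent.Lib.MZDim.Defs

/-! MODULE Stuf (about 110 lines). MP_301213_nt, dim Z_k → ∞. The stuffle product of nested sums.

PROOF of `stuffle`: induction on n = l.length + l'.length (statement for all l, l').
If l = [] take L = [l'] (sR_nil = 1); if l' = [] take L = [l]. Let l = a :: u, l' = b :: v. By the
induction hypothesis there are lists L1 for (a :: u, v), L2 for (u, b :: v), L3 for (u, v). Take
  L = (L1.map (b :: ·)) ++ (L2.map (a :: ·)) ++ (L3.map ((a + b) :: ·)).
Letters: b, a, a + b ≥ 2; sums: (a+u+v)+b etc. The identity
  sR (a::u) M * sR (b::v) M = (L.map (sR · M)).sum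
is proved by induction on M. M = 0: sR (c :: g) 0 = 0 (sum over range 1 of aR (c::g) 0 = (0^c)⁻¹ * 0 = 0), so both
sides are 0 (all words of L are nonempty). Step: with s = ((M+1)^a)⁻¹, t = ((M+1)^b)⁻¹ and
HofPers.sR_cons: sR (c :: g) (M+1) = sR (c :: g) M + ((M+1)^c)⁻¹ * sR g M,
  (F + s f)(G + t g) = F G + t (F g) + s (f G) + (s t)(f g),
F = sR (a::u) M, f = sR u M, G = sR (b::v) M, g = sR v M; F g, f G, f g are the sums over L1, L2, L3 and
s t = ((M+1)^(a+b))⁻¹; List.map_map, List.sum_map_add, List.sum_map_mul_left. -/

open HofPers Finset

namespace Pool.MZDim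

private lemma stuf_zero (c : ℕ) (l : List ℕ) : sR (c :: l) 0 = 0 := by
  simp [sR, aR]

private lemma stuf_sum_map_mul (L : List (List ℕ)) (f : List ℕ → List ℕ) (_ c : ℕ)
    (hf : ∀ g, f g = c :: g) (M : ℕ) :
    ((L.map f).map fun g => sR g (M + 1)).sum = ((L.map f).map fun g => sR g M).sum +
      (((M : ℝ) + 1) ^ c)⁻¹ * (L.map fun g => sR g M).sum := by
  induction L with
  | nil => simp
  | cons g L ih =>
    simp only [List.map_cons, List.sum_cons]
    rw [ih, hf, sR_cons]
    ring

private lemma stuf_zero_sum (L : List (List ℕ)) (c : ℕ) :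
    ((L.map fun g => c :: g).map fun g => sR g 0).sum = 0 := by
  induction L with
  | nil => simp
  | cons g L ih =>
    simp only [List.map_cons, List.sum_cons]
    rw [ih, stuf_zero, add_zero]

private lemma stuf_aux (n : ℕ) : ∀ l l' : List ℕ, l.length + l'.length = n → Adm l → Adm l' →
    ∃ L : List (List ℕ), (∀ g ∈ L, Adm g ∧ g.sum = l.sum + l'.sum) ∧
      ∀ M : ℕ, sR l M * sR l' M = (L.map fun g => sR g M).sum := by
  induction n using Nat.strong_induction_on with
  | _ n ih =>
    intro l l' hn hl hl'
    cases l with
    | nil =>
      refine ⟨[l'], ?_, ?_⟩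
      · intro g hg
        rw [List.mem_singleton] at hg
        subst hg
        exact ⟨hl', by simp⟩
      · intro M
        simp [sR_nil]
    | cons a u =>
      cases l' with
      | nil =>
        refine ⟨[a :: u], ?_, ?_⟩
        · intro g hg
          rw [List.mem_singleton] at hg
          subst hg
          exact ⟨hl, by simp⟩
        · intro M
          simp [sR_nil]
      | cons b v =>
        simp only [List.length_cons] at hn
        have ha : 2 ≤ a := hl a List.mem_cons_self
        have hb : 2 ≤ b := hl' b List.mem_cons_self
        have hu : Adm u := fun x hx => hl x (List.mem_cons_of_mem _ hx)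
        have hv : Adm v := fun x hx => hl' x (List.mem_cons_of_mem _ hx)
        obtain ⟨L1, h1, e1⟩ := ih ((a :: u).length + v.length) (by simp only [List.length_cons]; omega)
          (a :: u) v rfl hl hv
        obtain ⟨L2, h2, e2⟩ := ih (u.length + (b :: v).length) (by simp only [List.length_cons]; omega)
          u (b :: v) rfl hu hl'
        obtain ⟨L3, h3, e3⟩ := ih (u.length + v.length) (by omega) u v rfl hu hv
        refine ⟨(L1.map fun g => b :: g) ++ (L2.map fun g => a :: g) ++
          (L3.map fun g => (a + b) :: g), ?_, ?_⟩
        · intro g hg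
          rw [List.mem_append, List.mem_append, List.mem_map, List.mem_map, List.mem_map] at hg
          rcases hg with (⟨q, hq, rfl⟩ | ⟨q, hq, rfl⟩) | ⟨q, hq, rfl⟩
          · refine ⟨fun x hx => ?_, ?_⟩
            · rcases List.mem_cons.1 hx with rfl | hx
              · exact hb
              · exact (h1 q hq).1 x hx
            · have := (h1 q hq).2
              simp only [List.sum_cons] at this ⊢
              omega
          · refine ⟨fun x hx => ?_, ?_⟩
            · rcases List.mem_cons.1 hx with rfl | hx
              · exact ha
              · exact (h2 q hq).1 x hx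
            · have := (h2 q hq).2
              simp only [List.sum_cons] at this ⊢
              omega
          · refine ⟨fun x hx => ?_, ?_⟩
            · rcases List.mem_cons.1 hx with rfl | hx
              · omega
              · exact (h3 q hq).1 x hx
            · have := (h3 q hq).2
              simp only [List.sum_cons] at this ⊢
              omega
        · intro M
          simp only [List.map_append, List.sum_append]
          induction M with
          | zero =>
            rw [stuf_zero_sum, stuf_zero_sum, stuf_zero_sum, stuf_zero, stuf_zero]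
            ring
          | succ M ihM =>
            rw [stuf_sum_map_mul L1 _ 0 b (fun _ => rfl) M,
              stuf_sum_map_mul L2 _ 0 a (fun _ => rfl) M,
              stuf_sum_map_mul L3 _ 0 (a + b) (fun _ => rfl) M, ← e1, ← e2, ← e3,
              sR_cons, sR_cons]
            have e4 : ((((M : ℝ) + 1) ^ (a + b))⁻¹) =
                (((M : ℝ) + 1) ^ a)⁻¹ * (((M : ℝ) + 1) ^ b)⁻¹ := by
              rw [pow_add, mul_inv]
            rw [e4]
            linear_combination ihM

theorem stuffle (l l' : List ℕ) (hl : Adm l) (hl' : Adm l') :
    ∃ L : List (List ℕ), (∀ g ∈ L, Adm g ∧ g.sum = l.sum + l'.sum) ∧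
      ∀ M : ℕ, sR l M * sR l' M = (L.map fun g => sR g M).sum :=
  stuf_aux _ l l' rfl hl hl'

end Pool.MZDim
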