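import Pool.Agent.Lib.MZDim.RKer
import Pool.Agent.Lib.MZDim.RExp
import Pool.Agent.Lib.MZDim.Stuf

/-! MODULE RFin (about 170 lines). MP_301213_nt, dim Z_k → ∞. The arithmetic of `∑ f_y(M)^2` (paper (2.5)).

PROOF. For l, l' ∈ A choose L(l,l') from `stuffle` (choice; all g ∈ L Adm, g.sum = l.sum + l'.sum ≤ 2w); let Lm be a bound of the lengths of all L(l,l'), l, l' ∈ A.
fy_expand: f M = ∑_{u ≤ 2N} ∑_{l∈A} e u l (sR l M (M+1+u)⁻¹), |e| ≤ 2^N Y. Squaring (Finset.sum_mul_sum, or sq, sum_mul, mul_sum):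
f M ^2 = ∑_{u,u'} ∑_{l,l'} e u l e u' l' ∑_{g ∈ L(l,l')} sR g M ((M+1+u)⁻¹ (M+1+u')⁻¹). Sum over M (Summable.tsum_finsetSum, tsum_mul_left, summable_ker; for the list sum: induction or
convert the list to a finite sum over Fin L.length), giving ∑_{u,u'} ∑_{l,l'} e e' ∑_{g∈L} ker(g,u,u'). rep_ker with n = 2N: in Rep (2N) (g.sum + 2) (2 Bl (2N) g), and
g.sum + 2 ≤ 2w + 2 (rep_mono). g.length ≤ g.sum ≤ 2w (letters ≥ 1), so Bl (2N) g ≤ ((2N+2)(2w+3)^2)^(2w+1) =: B0 (base ≥ 1). With rep_zmul, rep_sum: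
bound ≤ (2N+1)^2 |A|^2 (2^N Y)^2 Lm 2 B0 ≤ 4^N Y^2 * (4 (N+1)^2 |A|^2 Lm 2 (2 (2w+3)^2)^(2w+1) (N+1)^(2w+1)) ≤ 4^N Y^2 (C (N+1)^C) with
C = 8 |A|^2 Lm (2 (2w+3)^2)^(2w+1) + 2w + 3. -/

open HofPers Finset

namespace Pool.MZDim

private lemma rfin_len {g : List ℕ} (hg : Adm g) : g.length ≤ g.sum := by
  induction g with
  | nil => simp
  | cons a g ih =>
    have h1 : 2 ≤ a := hg a List.mem_cons_self
    have h2 := ih fun x hx => hg x (List.mem_cons_of_mem _ hx)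
    rw [List.length_cons, List.sum_cons]
    omega

private lemma rfin_Bl {g : List ℕ} (hg : Adm g) {w : ℕ} (hs : g.sum ≤ 2 * w) (N : ℕ) :
    Bl (2 * N) g ≤ ((2 * ((N : ℝ) + 1)) * ((2 * w : ℝ) + 3) ^ 2) ^ (2 * w + 1) := by
  have h1 := rfin_len hg
  have hN : (0 : ℝ) ≤ N := Nat.cast_nonneg N
  have hw : (0 : ℝ) ≤ w := Nat.cast_nonneg w
  have hs' : (g.sum : ℝ) ≤ 2 * w := by exact_mod_cast hs
  have hg0 : (0 : ℝ) ≤ g.sum := Nat.cast_nonneg _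
  rw [Bl]
  have e : ((2 * N : ℕ) : ℝ) + 2 = 2 * ((N : ℝ) + 1) := by
    push_cast
    ring
  rw [e]
  have hb : (2 * ((N : ℝ) + 1)) * ((g.sum : ℝ) + 3) ^ 2 ≤
      (2 * ((N : ℝ) + 1)) * ((2 * w : ℝ) + 3) ^ 2 := by
    apply mul_le_mul_of_nonneg_left _ (by positivity)
    exact pow_le_pow_left₀ (by positivity) (by linarith) 2
  have hb1 : (1 : ℝ) ≤ (2 * ((N : ℝ) + 1)) * ((2 * w : ℝ) + 3) ^ 2 := by
    have h3 : (1 : ℝ) ≤ 2 * ((N : ℝ) + 1) := by linarith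
    have h4 : (1 : ℝ) ≤ ((2 * w : ℝ) + 3) ^ 2 := by nlinarith
    calc (1 : ℝ) = 1 * 1 := by ring
      _ ≤ _ := mul_le_mul h3 h4 zero_le_one (by linarith)
  calc ((2 * ((N : ℝ) + 1)) * ((g.sum : ℝ) + 3) ^ 2) ^ (g.length + 1)
      ≤ ((2 * ((N : ℝ) + 1)) * ((2 * w : ℝ) + 3) ^ 2) ^ (g.length + 1) :=
        pow_le_pow_left₀ (by positivity) hb _
    _ ≤ _ := pow_le_pow_right₀ hb1 (by omega)

private lemma rfin_list (n K u u' : ℕ) (hu : u ≤ n) (hu' : u' ≤ n) (B0 : ℝ)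
    (L : List (List ℕ)) (hL : ∀ g ∈ L, Adm g ∧ g.sum + 2 ≤ K ∧ Bl n g ≤ B0) :
    (Summable fun M : ℕ => (L.map fun g => sR g M).sum *
      (((M : ℝ) + 1 + u)⁻¹ * ((M : ℝ) + 1 + u')⁻¹)) ∧
    Rep n K (L.length * (2 * B0)) (∑' M : ℕ, (L.map fun g => sR g M).sum *
      (((M : ℝ) + 1 + u)⁻¹ * ((M : ℝ) + 1 + u')⁻¹)) := by
  induction L with
  | nil =>
    constructor
    · simp [summable_zero]
    · simpa using rep_zero n K
  | cons g L ih =>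
    obtain ⟨h1, h2⟩ := ih fun q hq => hL q (List.mem_cons_of_mem _ hq)
    obtain ⟨h3, h4, h5⟩ := hL g List.mem_cons_self
    have hs := summable_ker h3 u u'
    have e : ∀ M : ℕ, ((g :: L).map fun g => sR g M).sum *
        (((M : ℝ) + 1 + u)⁻¹ * ((M : ℝ) + 1 + u')⁻¹) =
        sR g M * (((M : ℝ) + 1 + u)⁻¹ * ((M : ℝ) + 1 + u')⁻¹) +
          (L.map fun g => sR g M).sum * (((M : ℝ) + 1 + u)⁻¹ * ((M : ℝ) + 1 + u')⁻¹) := by
      intro M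
      rw [List.map_cons, List.sum_cons]
      ring
    simp only [e]
    refine ⟨hs.add h1, ?_⟩
    rw [hs.tsum_add h1]
    have h6 := rep_mono (rep_ker n g h3 u u' hu hu') h4 (show 2 * Bl n g ≤ 2 * B0 by linarith)
    have h7 := rep_add h6 h2
    refine rep_mono h7 le_rfl (le_of_eq ?_)
    rw [List.length_cons]
    push_cast
    ring

theorem F_rep (A : Finset (List ℕ)) (w : ℕ) (hA : ∀ l ∈ A, Adm l ∧ l.sum ≤ w) :
    ∃ C : ℕ, ∀ N : ℕ, 1 ≤ N → ∀ (y : ℕ → List ℕ → ℤ) (Y : ℝ), 1 ≤ Y →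
      (∀ i l, |(y i l : ℝ)| ≤ Y) →
      Rep (2 * N) (2 * w + 2) (4 ^ N * Y ^ 2 * (C * ((N : ℝ) + 1) ^ C))
        (∑' M : ℕ, fy A N y M ^ 2) := by
  classical
  choose! L hL1 hL2 using stuffle
  set Lm : ℕ := ∑ l ∈ A, ∑ l' ∈ A, (L l l').length with hLm
  have hLle : ∀ l ∈ A, ∀ l' ∈ A, (L l l').length ≤ Lm := by
    intro l hl l' hl'
    calc (L l l').length ≤ ∑ l' ∈ A, (L l l').length :=
          Finset.single_le_sum (f := fun l' => (L l l').length) (fun _ _ => Nat.zero_le _) hl'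
      _ ≤ Lm := Finset.single_le_sum (f := fun l => ∑ l' ∈ A, (L l l').length)
          (fun _ _ => Nat.zero_le _) hl
  set E : ℕ := 8 * A.card ^ 2 * Lm * (2 * (2 * w + 3) ^ 2) ^ (2 * w + 1) with hE
  refine ⟨E + (2 * w + 3), fun N hN y Y hY hy => ?_⟩
  obtain ⟨e, he1, he2⟩ := fy_expand A N y (by linarith) hy
  set B0 : ℝ := ((2 * ((N : ℝ) + 1)) * ((2 * w : ℝ) + 3) ^ 2) ^ (2 * w + 1) with hB0
  have hN0 : (0 : ℝ) ≤ N := Nat.cast_nonneg N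
  have hw0 : (0 : ℝ) ≤ w := Nat.cast_nonneg w
  have hB0nn : 0 ≤ B0 := by rw [hB0]; positivity
  set I : Finset (ℕ × List ℕ) := range (2 * N + 1) ×ˢ A with hI
  have hmem : ∀ x ∈ I, x.1 ≤ 2 * N ∧ x.2 ∈ A := by
    intro x hx
    rw [hI, Finset.mem_product, Finset.mem_range] at hx
    exact ⟨by omega, hx.2⟩
  have hf : ∀ M : ℕ, fy A N y M = ∑ x ∈ I, (e x.1 x.2 : ℝ) * (sR x.2 M * ((M : ℝ) + 1 + x.1)⁻¹) := by
    intro M
    rw [he2, hI, Finset.sum_product]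
  have hsq : ∀ M : ℕ, fy A N y M ^ 2 = ∑ z ∈ I ×ˢ I, ((e z.1.1 z.1.2 * e z.2.1 z.2.2 : ℤ) : ℝ) *
      (((L z.1.2 z.2.2).map fun g => sR g M).sum *
        (((M : ℝ) + 1 + z.1.1)⁻¹ * ((M : ℝ) + 1 + z.2.1)⁻¹)) := by
    intro M
    rw [sq, hf, Finset.sum_mul_sum]
    conv_rhs => rw [Finset.sum_product]
    refine Finset.sum_congr rfl fun x hx => ?_
    refine Finset.sum_congr rfl fun x' hx' => ?_
    have h1 := hA _ (hmem x hx).2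
    have h2 := hA _ (hmem x' hx').2
    rw [← hL2 x.2 x'.2 h1.1 h2.1 M]
    push_cast
    ring
  have hlist : ∀ z ∈ I ×ˢ I, (Summable fun M : ℕ => ((L z.1.2 z.2.2).map fun g => sR g M).sum *
        (((M : ℝ) + 1 + z.1.1)⁻¹ * ((M : ℝ) + 1 + z.2.1)⁻¹)) ∧
      Rep (2 * N) (2 * w + 2) ((L z.1.2 z.2.2).length * (2 * B0))
        (∑' M : ℕ, ((L z.1.2 z.2.2).map fun g => sR g M).sum *
          (((M : ℝ) + 1 + z.1.1)⁻¹ * ((M : ℝ) + 1 + z.2.1)⁻¹)) := by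
    intro z hz
    rw [Finset.mem_product] at hz
    have h1 := hmem _ hz.1
    have h2 := hmem _ hz.2
    have h3 := hA _ h1.2
    have h4 := hA _ h2.2
    refine rfin_list (2 * N) (2 * w + 2) z.1.1 z.2.1 h1.1 h2.1 B0 _ fun g hg => ?_
    obtain ⟨h5, h6⟩ := hL1 z.1.2 z.2.2 h3.1 h4.1 g hg
    have h7 : g.sum ≤ 2 * w := by
      rw [h6]
      omega
    exact ⟨h5, by omega, rfin_Bl h5 h7 N⟩
  have htsum : ∑' M : ℕ, fy A N y M ^ 2 = ∑ z ∈ I ×ˢ I,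
      ((e z.1.1 z.1.2 * e z.2.1 z.2.2 : ℤ) : ℝ) *
        ∑' M : ℕ, (((L z.1.2 z.2.2).map fun g => sR g M).sum *
          (((M : ℝ) + 1 + z.1.1)⁻¹ * ((M : ℝ) + 1 + z.2.1)⁻¹)) := by
    simp only [hsq]
    rw [Summable.tsum_finsetSum (s := I ×ˢ I)
      (f := fun (z : (ℕ × List ℕ) × ℕ × List ℕ) (M : ℕ) =>
        ((e z.1.1 z.1.2 * e z.2.1 z.2.2 : ℤ) : ℝ) *
          (((L z.1.2 z.2.2).map fun g => sR g M).sum *
            (((M : ℝ) + 1 + z.1.1)⁻¹ * ((M : ℝ) + 1 + z.2.1)⁻¹)))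
      fun z hz => (hlist z hz).1.mul_left _]
    refine Finset.sum_congr rfl fun z _ => ?_
    rw [tsum_mul_left]
  rw [htsum]
  have hD : ∀ z ∈ I ×ˢ I, Rep (2 * N) (2 * w + 2) ((2 ^ N * Y) ^ 2 * (Lm * (2 * B0)))
      (((e z.1.1 z.1.2 * e z.2.1 z.2.2 : ℤ) : ℝ) *
        ∑' M : ℕ, (((L z.1.2 z.2.2).map fun g => sR g M).sum *
          (((M : ℝ) + 1 + z.1.1)⁻¹ * ((M : ℝ) + 1 + z.2.1)⁻¹))) := by
    intro z hz
    refine rep_mono (rep_zmul (hlist z hz).2 _) le_rfl ?_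
    rw [Finset.mem_product] at hz
    have h1 : |((e z.1.1 z.1.2 * e z.2.1 z.2.2 : ℤ) : ℝ)| ≤ (2 ^ N * Y) ^ 2 := by
      push_cast
      rw [abs_mul, sq]
      exact mul_le_mul (he1 _ _) (he1 _ _) (abs_nonneg _) (by positivity)
    have h2 : ((L z.1.2 z.2.2).length : ℝ) ≤ Lm := by
      exact_mod_cast hLle _ (hmem _ hz.1).2 _ (hmem _ hz.2).2
    exact mul_le_mul h1 (mul_le_mul_of_nonneg_right h2 (by positivity)) (by positivity)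
      (by positivity)
  refine rep_mono (rep_sum _ _ _ hD) le_rfl ?_
  rw [Finset.sum_const, nsmul_eq_mul, Finset.card_product, hI, Finset.card_product,
    Finset.card_range]
  have hB0' : B0 = (2 * ((2 * w : ℝ) + 3) ^ 2) ^ (2 * w + 1) * ((N : ℝ) + 1) ^ (2 * w + 1) := by
    rw [hB0, ← mul_pow]
    congr 1
    ring
  have hpow : (2 : ℝ) ^ N * (2 : ℝ) ^ N = 4 ^ N := by
    rw [← mul_pow]
    norm_num
  have hEr : (E : ℝ) = 8 * (A.card : ℝ) ^ 2 * Lm * (2 * ((2 * w : ℝ) + 3) ^ 2) ^ (2 * w + 1) := by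
    rw [hE]
    push_cast
    ring
  have hx1 : (1 : ℝ) ≤ (N : ℝ) + 1 := by linarith
  have key : (2 * (N : ℝ) + 1) ^ 2 ≤ 4 * ((N : ℝ) + 1) ^ 2 := by nlinarith
  push_cast
  calc (2 * (N : ℝ) + 1) * (A.card : ℝ) * ((2 * (N : ℝ) + 1) * (A.card : ℝ)) *
        ((2 ^ N * Y) ^ 2 * (Lm * (2 * B0)))
      = (2 * (N : ℝ) + 1) ^ 2 * ((A.card : ℝ) ^ 2 * ((2 ^ N * Y) ^ 2 * (Lm * (2 * B0)))) := by ring
    _ ≤ (4 * ((N : ℝ) + 1) ^ 2) * ((A.card : ℝ) ^ 2 * ((2 ^ N * Y) ^ 2 * (Lm * (2 * B0)))) :=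
        mul_le_mul_of_nonneg_right key (by positivity)
    _ = 4 ^ N * Y ^ 2 * (E * ((N : ℝ) + 1) ^ (2 * w + 3)) := by
        rw [hEr, hB0', ← hpow]
        ring
    _ ≤ 4 ^ N * Y ^ 2 * (((E : ℝ) + (2 * w + 3)) * ((N : ℝ) + 1) ^ (E + (2 * w + 3))) := by
        apply mul_le_mul_of_nonneg_left _ (by positivity)
        apply mul_le_mul _ _ (by positivity) (by positivity)
        · linarith
        · exact pow_le_pow_right₀ hx1 (by omega)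

end Pool.MZDim
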