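import Mathlib

/-! MODULE Sqs (about 70 lines, ONLY MATHLIB). MP_301213_nt, dim Z_k → ∞. Sum of squares.

PROOF. f M ^ 2 ≤ δ^2 for M + 1 < T and ≤ δ^2 / (M+1)^2 for M + 1 ≥ T. Dominate by u M = (if M + 1 < T then δ^2 else 0) + δ^2 / (M+1)^2 (summable; the
first part is finitely supported: sum ≤ T δ^2). ∑ 1/(M+1)^2 ≤ 2: = π^2/6 ≤ 2 (hasSum_zeta_two, π < 3.15). Summable.of_nonneg_of_le,
Summable.tsum_le_tsum. Positivity: Summable.tsum_pos with the index where f M ≠ 0. -/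

open Finset Filter Topology

namespace Pool.MZDim

private lemma hasSum_sq : HasSum (fun M : ℕ => 1 / ((M : ℝ) + 1) ^ 2) (Real.pi ^ 2 / 6) := by
  have h := (hasSum_nat_add_iff' 1).mpr hasSum_zeta_two
  simp only [Finset.sum_range_one, Nat.cast_zero, Nat.cast_add, Nat.cast_one] at h
  simpa using h

theorem sum_sq_bound (f : ℕ → ℝ) (T : ℕ) {δ : ℝ} (hδ : 0 ≤ δ)
    (h1 : ∀ M : ℕ, M + 1 < T → |f M| ≤ δ) (h2 : ∀ M : ℕ, T ≤ M + 1 → |f M| ≤ δ / ((M : ℝ) + 1)) :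
    Summable (fun M => f M ^ 2) ∧ ∑' M, f M ^ 2 ≤ ((T : ℝ) + 2) * δ ^ 2 := by
  have ha : HasSum (fun M : ℕ => if M + 1 < T then δ ^ 2 else 0)
      (∑ M ∈ range T, if M + 1 < T then δ ^ 2 else 0) := by
    refine hasSum_sum_of_ne_finset_zero fun M hM => ?_
    rw [mem_range] at hM
    rw [if_neg (by omega)]
  have hb : HasSum (fun M : ℕ => δ ^ 2 * (1 / ((M : ℝ) + 1) ^ 2)) (δ ^ 2 * (Real.pi ^ 2 / 6)) :=
    hasSum_sq.mul_left _
  have hab := ha.add hb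
  have hle : ∀ M, f M ^ 2 ≤
      (if M + 1 < T then δ ^ 2 else 0) + δ ^ 2 * (1 / ((M : ℝ) + 1) ^ 2) := by
    intro M
    have hp : 0 ≤ δ ^ 2 * (1 / ((M : ℝ) + 1) ^ 2) := by positivity
    by_cases h : M + 1 < T
    · rw [if_pos h]
      have h3 : f M ^ 2 ≤ δ ^ 2 := by
        rw [← sq_abs (f M)]
        exact pow_le_pow_left₀ (abs_nonneg _) (h1 M h) 2
      linarith
    · rw [if_neg h, zero_add]
      have h3 : f M ^ 2 ≤ (δ / ((M : ℝ) + 1)) ^ 2 := by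
        rw [← sq_abs (f M)]
        exact pow_le_pow_left₀ (abs_nonneg _) (h2 M (by omega)) 2
      have h4 : (δ / ((M : ℝ) + 1)) ^ 2 = δ ^ 2 * (1 / ((M : ℝ) + 1) ^ 2) := by
        rw [div_pow]
        ring
      rw [← h4]
      exact h3
  have hs : Summable (fun M => f M ^ 2) :=
    Summable.of_nonneg_of_le (fun M => sq_nonneg _) hle hab.summable
  refine ⟨hs, ?_⟩
  have h5 := hs.tsum_le_tsum hle hab.summable
  rw [hab.tsum_eq] at h5
  refine h5.trans ?_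
  have h6 : (∑ M ∈ range T, if M + 1 < T then δ ^ 2 else 0) ≤ (T : ℝ) * δ ^ 2 := by
    have h7 : ∀ M ∈ range T, (if M + 1 < T then δ ^ 2 else 0) ≤ δ ^ 2 := by
      intro M _
      split_ifs
      · exact le_rfl
      · positivity
    have h8 := Finset.sum_le_sum h7
    rwa [Finset.sum_const, card_range, nsmul_eq_mul] at h8
  have h9 : Real.pi ^ 2 / 6 ≤ 2 := by
    have h10 := Real.pi_lt_d2
    have h11 := Real.pi_pos
    nlinarith
  have h12 : δ ^ 2 * (Real.pi ^ 2 / 6) ≤ δ ^ 2 * 2 :=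
    mul_le_mul_of_nonneg_left h9 (sq_nonneg _)
  linarith

theorem sum_sq_pos (f : ℕ → ℝ) (hs : Summable fun M => f M ^ 2) (h : ∃ M, f M ≠ 0) :
    0 < ∑' M, f M ^ 2 := by
  obtain ⟨M, hM⟩ := h
  exact hs.tsum_pos (fun _ => sq_nonneg _) M (by positivity)

end Pool.MZDim
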