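import Pool.Agent.Lib.MZDim.Pick
import Pool.Agent.Lib.MZDim.Ptw
import Pool.Agent.Lib.MZDim.Sqs
import Pool.Agent.Lib.MZDim.FNe
import Pool.Agent.Lib.MZDim.DBd
import Pool.Agent.Lib.MZDim.RFin

/-! MODULE FormsA (about 170 lines). MP_301213_nt, dim Z_k → ∞. The small linear forms (paper (3.5)).

PROOF. K = 2w + 2, p = Δ+2, A0 = 2Δ+4, dl = 4Δ+6. Card condition of exists_pick:
(2Δ+6)(Δ+2)(1+4Δ+6) + 1 ≤ 100 (Δ+1)^3 ≤ |A| (nlinarith after expanding: 8Δ^3+54Δ^2+118Δ+84+1 ≤ 100Δ^3+300Δ^2+300Δ+100).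
Take N large for exists_pick, pointwise, ev4, N ≥ 1 and the numerical conditions (i), (ii) below. y from exists_pick, f = fy A N y, δ = exp(-ΔN),
T = 2^(2Δ+5)(Δ+2)N. pointwise with s = M + 1 gives the hypotheses of sum_sq_bound, so F := ∑' f^2 ≤ (T+2) δ^2 ≤ exp(N) exp(-2ΔN) (ev4), and
0 < F (fy_ne_zero, sum_sq_pos). F_rep with Y = exp N ≥ 1: F = ∑ b_l zv l with b : List ℕ →₀ ℚ, D := lcmUpto(2N), D^K b_l integral, ∑ |b_l| ≤
4^N exp(2N) C (N+1)^C. Let b' : List ℕ →₀ ℤ be the integers z_l = D^K b_l (Finsupp.onFinset b.support, z by choice; z_l = 0 iff b_l = 0 as D ≠ 0, so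
b'.support = b.support; or b' = b.mapRange with ⌊D^K x⌋ / Int.floor). Then ∑ b'_l zv l = D^K F,
|b'_l| ≤ D^K ∑|b| ≤ exp(12N)^K * 4^N exp(2N) C (N+1)^C ≤ exp((12K+4) N) by (i): 4^N C (N+1)^C ≤ exp(2N) for large N (4 = exp(1.3863..), log 4 < 1.5,
and C (N+1)^C ≤ exp(N/2) eventually), 0 < D^K F ≤ exp(12KN) exp(N - 2ΔN) ≤ exp(-((2Δ - 12K - 2)N)). -/

/-! MODULE FormsA (about 170 lines). MP_301213_nt, dim Z_k → ∞. The small linear forms (paper (3.5)).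

PROOF. K = 2w + 2, p = Δ+2, A0 = 2Δ+4, dl = 4Δ+6. Card condition of exists_pick:
(2Δ+6)(Δ+2)(1+4Δ+6) + 1 ≤ 100 (Δ+1)^3 ≤ |A| (nlinarith after expanding: 8Δ^3+54Δ^2+118Δ+84+1 ≤ 100Δ^3+300Δ^2+300Δ+100).
Take N large for exists_pick, pointwise, ev4, N ≥ 1 and the numerical conditions (i), (ii) below. y from exists_pick, f = fy A N y, δ = exp(-ΔN),
T = 2^(2Δ+5)(Δ+2)N. pointwise with s = M + 1 gives the hypotheses of sum_sq_bound, so F := ∑' f^2 ≤ (T+2) δ^2 ≤ exp(N) exp(-2ΔN) (ev4), and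
0 < F (fy_ne_zero, sum_sq_pos). F_rep with Y = exp N ≥ 1: F = ∑ b_l zv l with b : List ℕ →₀ ℚ, D := lcmUpto(2N), D^K b_l integral, ∑ |b_l| ≤
4^N exp(2N) C (N+1)^C. Let b' : List ℕ →₀ ℤ be the integers z_l = D^K b_l (Finsupp.onFinset b.support, z by choice; z_l = 0 iff b_l = 0 as D ≠ 0, so
b'.support = b.support; or b' = b.mapRange with ⌊D^K x⌋ / Int.floor). Then ∑ b'_l zv l = D^K F,
|b'_l| ≤ D^K ∑|b| ≤ exp(12N)^K * 4^N exp(2N) C (N+1)^C ≤ exp((12K+4) N) by (i): 4^N C (N+1)^C ≤ exp(2N) for large N (4 = exp(1.3863..), log 4 < 1.5,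
and C (N+1)^C ≤ exp(N/2) eventually), 0 < D^K F ≤ exp(12KN) exp(N - 2ΔN) ≤ exp(-((2Δ - 12K - 2)N)). -/

open HofPers Finset Filter Topology

namespace Pool.MZDim

private theorem formsA_ev (C : ℕ) : ∀ᶠ N : ℕ in atTop,
    (4 : ℝ) ^ N * ((C : ℝ) * ((N : ℝ) + 1) ^ C) ≤ Real.exp (2 * N) := by
  have h1 : ∀ᶠ x : ℝ in atTop, ‖x ^ C‖ ≤ 1 / (2 * ((C : ℝ) + 1)) * ‖Real.exp (1 / 2 * x)‖ :=
    (isLittleO_pow_exp_pos_mul_atTop (k := C) (show (0 : ℝ) < 1 / 2 by norm_num)).bound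
      (by positivity)
  have h2 : Tendsto (fun N : ℕ => (N : ℝ) + 1) atTop atTop :=
    tendsto_atTop_add_const_right _ _ tendsto_natCast_atTop_atTop
  filter_upwards [h2.eventually h1] with N hN
  have hN0 : (0 : ℝ) ≤ N := Nat.cast_nonneg N
  rw [Real.norm_eq_abs, Real.norm_eq_abs, abs_of_nonneg (by positivity),
    abs_of_pos (Real.exp_pos _)] at hN
  have h3 : Real.exp (1 / 2 * ((N : ℝ) + 1)) ≤ 2 * Real.exp (1 / 2 * N) := by
    have e1 : (1 / 2 : ℝ) * ((N : ℝ) + 1) = 1 / 2 * N + 1 / 2 := by ring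
    rw [e1, Real.exp_add, mul_comm]
    refine mul_le_mul_of_nonneg_right ?_ (Real.exp_pos _).le
    have e2 : Real.exp (1 / 2) ^ 2 = Real.exp 1 := by
      rw [← Real.exp_nat_mul]
      norm_num
    have e3 := Real.exp_one_lt_d9
    have e4 := Real.exp_pos (1 / 2)
    by_contra hcon
    push Not at hcon
    nlinarith
  have h4 : (C : ℝ) * ((N : ℝ) + 1) ^ C ≤ Real.exp (1 / 2 * N) := by
    have hC : (0 : ℝ) ≤ C := Nat.cast_nonneg C
    calc (C : ℝ) * ((N : ℝ) + 1) ^ C ≤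
        C * (1 / (2 * ((C : ℝ) + 1)) * (2 * Real.exp (1 / 2 * N))) :=
          mul_le_mul_of_nonneg_left (hN.trans (mul_le_mul_of_nonneg_left h3 (by positivity))) hC
      _ = (C : ℝ) / (C + 1) * Real.exp (1 / 2 * N) := by field_simp
      _ ≤ 1 * Real.exp (1 / 2 * N) := by
          refine mul_le_mul_of_nonneg_right ?_ (Real.exp_pos _).le
          rw [div_le_one (by positivity)]
          linarith
      _ = Real.exp (1 / 2 * N) := one_mul _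
  have h5 : (4 : ℝ) ^ N ≤ Real.exp (3 / 2 * N) := by
    have e1 : (4 : ℝ) ≤ Real.exp (3 / 2) := by
      rw [← Real.log_le_iff_le_exp (by norm_num)]
      have : Real.log 4 = 2 * Real.log 2 := by
        rw [show (4 : ℝ) = 2 ^ 2 by norm_num, Real.log_pow]
        norm_num
      rw [this]
      have := Real.log_two_lt_d9
      linarith
    calc (4 : ℝ) ^ N ≤ Real.exp (3 / 2) ^ N := pow_le_pow_left₀ (by norm_num) e1 N
      _ = Real.exp (3 / 2 * N) := by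
          rw [← Real.exp_nat_mul]
          congr 1
          ring
  calc (4 : ℝ) ^ N * ((C : ℝ) * ((N : ℝ) + 1) ^ C) ≤
      Real.exp (3 / 2 * N) * Real.exp (1 / 2 * N) :=
        mul_le_mul h5 h4 (by positivity) (Real.exp_pos _).le
    _ = Real.exp (2 * N) := by
        rw [← Real.exp_add]
        congr 1
        ring

private theorem formsA_int (b : List ℕ →₀ ℚ) (D K : ℕ) (hD : 0 < D)
    (hb : ∀ l, ∃ z : ℤ, ((D : ℕ) : ℚ) ^ K * b l = z) :
    ∃ b' : List ℕ →₀ ℤ, b'.support ⊆ b.support ∧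
      (∀ l, ((b' l : ℤ) : ℝ) = (D : ℝ) ^ K * ((b l : ℚ) : ℝ)) ∧
      ∑ l ∈ b'.support, ((b' l : ℤ) : ℝ) * zv l =
        (D : ℝ) ^ K * ∑ l ∈ b.support, ((b l : ℚ) : ℝ) * zv l := by
  classical
  choose z hz using hb
  have hzr : ∀ l, ((z l : ℤ) : ℝ) = (D : ℝ) ^ K * ((b l : ℚ) : ℝ) := by
    intro l
    have h1 := congrArg (fun q : ℚ => (q : ℝ)) (hz l)

    push_cast at h1
    exact h1.symm
  have hz0 : ∀ l, z l ≠ 0 → l ∈ b.support := by
    intro l hl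
    rw [Finsupp.mem_support_iff]
    intro h0
    apply hl
    have h1 := hz l
    rw [h0, mul_zero] at h1
    exact_mod_cast h1.symm
  have hsub : (Finsupp.onFinset b.support z hz0).support ⊆ b.support :=
    Finsupp.support_onFinset_subset
  refine ⟨Finsupp.onFinset b.support z hz0, hsub, fun l => hzr l, ?_⟩
  rw [Finset.sum_subset hsub, Finset.mul_sum]
  · refine Finset.sum_congr rfl fun l _ => ?_
    rw [Finsupp.onFinset_apply, hzr]
    ring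
  · intro l _ hl
    rw [Finsupp.notMem_support_iff.1 hl, Int.cast_zero, zero_mul]

theorem forms (A : Finset (List ℕ)) (w Dl : ℕ) (hA : ∀ l ∈ A, Adm l ∧ l.sum ≤ w)
    (h : 100 * (Dl + 1) ^ 3 ≤ A.card) :
    Forms (2 * w + 2) (12 * ((2 * w + 2 : ℕ) : ℝ) + 4)
      (2 * (Dl : ℝ) - 12 * ((2 * w + 2 : ℕ) : ℝ) - 2) := by
  have hA' : ∀ l ∈ A, Adm l := fun l hl => (hA l hl).1
  obtain ⟨C, hC⟩ := F_rep A w hA
  have hcard : (2 * Dl + 4 + 2) * (Dl + 2) * (1 + (4 * Dl + 6)) + 1 ≤ A.card := by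
    refine le_trans ?_ h
    have e1 : (2 * Dl + 4 + 2) * (Dl + 2) * (1 + (4 * Dl + 6)) + 1 =
        8 * Dl ^ 3 + 54 * Dl ^ 2 + 118 * Dl + 85 := by ring
    have e2 : 100 * (Dl + 1) ^ 3 = 100 * Dl ^ 3 + 300 * Dl ^ 2 + 300 * Dl + 100 := by ring
    rw [e1, e2]
    omega
  unfold Forms
  filter_upwards [exists_pick A hA' (Dl + 2) (2 * Dl + 4) (4 * Dl + 6) (by omega) hcard,
    pointwise A hA' Dl, ev4 Dl, formsA_ev C, eventually_ge_atTop 1] with N hpick hpt h4 h5 hN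
  obtain ⟨y, hy0, hyX, hyS⟩ := hpick
  obtain ⟨p1, p2⟩ := hpt y hyX hyS
  have hδ : 0 < Real.exp (-((Dl : ℝ) * N)) := Real.exp_pos _
  obtain ⟨hsum, hle⟩ := sum_sq_bound (fy A N y) (2 ^ (2 * Dl + 4 + 1) * ((Dl + 2) * N)) hδ.le
    (fun M hM => p1 (M + 1) (by omega) hM) (fun M hM => by
      have := p2 (M + 1) (by omega) hM
      push_cast at this
      exact this)
  obtain ⟨M1, hM1⟩ := fy_ne_zero A hA' N y hy0
  have hpos : 0 < ∑' M, fy A N y M ^ 2 := sum_sq_pos _ hsum ⟨M1, hM1⟩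
  have hN0 : (0 : ℝ) ≤ N := Nat.cast_nonneg N
  obtain ⟨b, hb1, hb2, hb3, hb4⟩ := hC N hN y (Real.exp N) (Real.one_le_exp hN0) hyX
  obtain ⟨b', hb'1, hb'2, hb'3⟩ := formsA_int b (Nat.lcmUpto (2 * N)) (2 * w + 2)
    (Nat.lcmUpto_pos _) hb2
  rw [hb4] at hb'3
  have hD0 : (0 : ℝ) < ((Nat.lcmUpto (2 * N) : ℕ) : ℝ) := by
    exact_mod_cast Nat.lcmUpto_pos (2 * N)
  have hDK : ((Nat.lcmUpto (2 * N) : ℕ) : ℝ) ^ (2 * w + 2) ≤
      Real.exp (12 * ((2 * w + 2 : ℕ) : ℝ) * N) := by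
    calc ((Nat.lcmUpto (2 * N) : ℕ) : ℝ) ^ (2 * w + 2) ≤ Real.exp (12 * N) ^ (2 * w + 2) :=
        pow_le_pow_left₀ hD0.le (lcmUpto_le N) _
      _ = Real.exp (12 * ((2 * w + 2 : ℕ) : ℝ) * N) := by
        rw [← Real.exp_nat_mul]
        congr 1
        ring
  have hDK0 : (0 : ℝ) < ((Nat.lcmUpto (2 * N) : ℕ) : ℝ) ^ (2 * w + 2) := by positivity
  refine ⟨b', fun l hl => hb1 l (hb'1 hl), fun l => ?_, ?_, ?_⟩
  · rw [hb'2, abs_mul, abs_of_pos hDK0]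
    have e1 : |((b l : ℚ) : ℝ)| ≤ 4 ^ N * Real.exp N ^ 2 * (C * ((N : ℝ) + 1) ^ C) := by
      refine le_trans ?_ hb3
      by_cases hl : l ∈ b.support
      · exact Finset.single_le_sum (f := fun l => |((b l : ℚ) : ℝ)|) (fun _ _ => abs_nonneg _) hl
      · rw [Finsupp.notMem_support_iff.1 hl, Rat.cast_zero, abs_zero]
        exact Finset.sum_nonneg fun _ _ => abs_nonneg _
    have e2 : 4 ^ N * Real.exp N ^ 2 * (C * ((N : ℝ) + 1) ^ C) ≤ Real.exp (4 * N) := by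
      calc 4 ^ N * Real.exp N ^ 2 * (C * ((N : ℝ) + 1) ^ C) =
          Real.exp N ^ 2 * (4 ^ N * (C * ((N : ℝ) + 1) ^ C)) := by ring
        _ ≤ Real.exp N ^ 2 * Real.exp (2 * N) :=
            mul_le_mul_of_nonneg_left h5 (by positivity)
        _ = Real.exp (4 * N) := by
            rw [← Real.exp_nat_mul, ← Real.exp_add]
            congr 1
            push_cast
            ring
    calc ((Nat.lcmUpto (2 * N) : ℕ) : ℝ) ^ (2 * w + 2) * |((b l : ℚ) : ℝ)| ≤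
        Real.exp (12 * ((2 * w + 2 : ℕ) : ℝ) * N) * Real.exp (4 * N) :=
          mul_le_mul hDK (e1.trans e2) (abs_nonneg _) (Real.exp_pos _).le
      _ = Real.exp ((12 * ((2 * w + 2 : ℕ) : ℝ) + 4) * N) := by
          rw [← Real.exp_add]
          congr 1
          ring
  · rw [hb'3]
    exact abs_pos.2 (mul_pos hDK0 hpos).ne'
  · rw [hb'3, abs_of_pos (mul_pos hDK0 hpos)]
    have e1 : ∑' M, fy A N y M ^ 2 ≤ Real.exp N * Real.exp (-((Dl : ℝ) * N)) ^ 2 := by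
      refine hle.trans (mul_le_mul_of_nonneg_right ?_ (by positivity))
      push_cast at h4 ⊢
      exact h4
    calc ((Nat.lcmUpto (2 * N) : ℕ) : ℝ) ^ (2 * w + 2) * ∑' M, fy A N y M ^ 2 ≤
        Real.exp (12 * ((2 * w + 2 : ℕ) : ℝ) * N) *
          (Real.exp N * Real.exp (-((Dl : ℝ) * N)) ^ 2) :=
          mul_le_mul hDK e1 hpos.le (Real.exp_pos _).le
      _ = Real.exp (12 * ((2 * w + 2 : ℕ) : ℝ) * N + (N + 2 * (-((Dl : ℝ) * N)))) := by
          rw [← Real.exp_nat_mul, ← Real.exp_add, ← Real.exp_add]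
          norm_num
      _ ≤ Real.exp (-((2 * (Dl : ℝ) - 12 * ((2 * w + 2 : ℕ) : ℝ) - 2) * N)) := by
          rw [Real.exp_le_exp]
          nlinarith

end Pool.MZDim
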