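import Mathlib

/-! MP_301213_nt, growth of `dim Z_k` (store `MP_301213_nt_paper63.md`), module `GAdj`.

Adjoining an algebraic number to a finite dimensional subalgebra of `ℝ`. -/

namespace Pool.MZDim

open Polynomial

theorem exists_adjoin (E : Subalgebra ℚ ℝ) (hE : FiniteDimensional ℚ E) (θ : ℝ) (q : ℤ[X])
    (g : ℕ) (hq : q ≠ 0) (hg : q.natDegree ≤ g) (h0 : aeval θ q = 0) :
    ∃ E' : Subalgebra ℚ ℝ, FiniteDimensional ℚ E' ∧
      Module.finrank ℚ E' ≤ Module.finrank ℚ E * g ∧ E ≤ E' ∧ θ ∈ E' := by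
  set q' : ℚ[X] := q.map (Int.castRingHom ℚ) with hq'
  have hq'0 : q' ≠ 0 := (Polynomial.map_ne_zero_iff (Int.cast_injective)).2 hq
  have h0' : aeval θ q' = 0 := by
    rw [hq']
    have : aeval θ (q.map (algebraMap ℤ ℚ)) = aeval θ q := aeval_map_algebraMap ℚ θ q
    have e : Int.castRingHom ℚ = algebraMap ℤ ℚ := rfl
    rw [e, this, h0]
  have halg : IsAlgebraic ℚ θ := ⟨q', hq'0, h0'⟩
  have hint : IsIntegral ℚ θ := halg.isIntegral
  have hdeg : (minpoly ℚ θ).natDegree ≤ g := by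
    have h1 : (minpoly ℚ θ).natDegree ≤ q'.natDegree :=
      Polynomial.natDegree_le_of_dvd (minpoly.dvd ℚ θ h0') hq'0
    exact h1.trans ((Polynomial.natDegree_map_le).trans hg)
  set B : Subalgebra ℚ ℝ := Algebra.adjoin ℚ {θ} with hB
  have hBfr : Module.finrank ℚ B = (minpoly ℚ θ).natDegree := by
    rw [hB, PowerBasis.finrank (Algebra.adjoin.powerBasis hint),
      Algebra.adjoin.powerBasis_dim hint]
  have hBfin : FiniteDimensional ℚ B := (Algebra.adjoin.powerBasis hint).finite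
  refine ⟨E ⊔ B, Subalgebra.finite_sup E B, ?_, le_sup_left, ?_⟩
  · have h1 := Subalgebra.finrank_sup_le_of_free E B
    refine h1.trans ?_
    rw [hBfr]
    exact Nat.mul_le_mul_left _ hdeg
  · exact (le_sup_right : B ≤ E ⊔ B) (Algebra.subset_adjoin (Set.mem_singleton θ))

end Pool.MZDim
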