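import Mathlib

/-! MP_301213_nt, growth of `dim Z_k` (store `MP_301213_nt_paper63.md`), module `GDet` (150).

ONLY MATHLIB. PROOF. Put `n = Fintype.card ι`.
(1) For every `i j : |A.adjugate j i| ≤ n! * B ^ (n - 1)`: `Matrix.adjugate_apply` gives
`A.adjugate j i = (A.updateRow i (Pi.single j 1)).det`, expand with `Matrix.det_apply'`
(`∑ σ, sign σ * ∏ k, M (σ k) k`), triangle inequality; for each `σ` the factor with `σ k = i` is
`Pi.single j 1 k`, of absolute value `≤ 1`, the other `n - 1` factors are entries of `A`, `≤ B`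
(split off `k = σ⁻¹ i` with `Finset.mul_prod_erase`, `Finset.prod_le_pow_card`); there are `n!`
permutations (`Fintype.card_perm`).
(2) `(t ᵥ* A) ᵥ* A.adjugate = t ᵥ* (A * A.adjugate) = t ᵥ* (A.det • 1) = A.det • t`
(`Matrix.vecMul_vecMul`, `Matrix.mul_adjugate`), so `A.det * t i = ∑ j, (t ᵥ* A) j * A.adjugate j i`
and `|A.det| * |t i| ≤ ∑ j, ε * (n! * B ^ (n - 1)) = n * n! * B ^ (n - 1) * ε`. -/

namespace Pool.MZDim

open Matrix

theorem abs_adjugate_le {ι : Type*} [Fintype ι] [DecidableEq ι] (A : Matrix ι ι ℝ) (B : ℝ)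
    (hB : 0 ≤ B) (hA : ∀ i j, |A i j| ≤ B) (i j : ι) :
    |A.adjugate j i| ≤ (Fintype.card ι).factorial * B ^ (Fintype.card ι - 1) := by
  have hterm : ∀ σ : Equiv.Perm ι,
      |((Equiv.Perm.sign σ : ℤ) : ℝ) * ∏ k, (A.updateRow i (Pi.single j 1)) (σ k) k| ≤
        B ^ (Fintype.card ι - 1) := by
    intro σ
    have hs : |((Equiv.Perm.sign σ : ℤ) : ℝ)| = 1 := by
      rcases Int.units_eq_one_or (Equiv.Perm.sign σ) with h | h
      · rw [h]
        norm_num
      · rw [h]
        norm_num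
    rw [abs_mul, hs, one_mul, Finset.abs_prod,
      ← Finset.mul_prod_erase Finset.univ _ (Finset.mem_univ (σ.symm i))]
    have h1 : |(A.updateRow i (Pi.single j 1)) (σ (σ.symm i)) (σ.symm i)| ≤ 1 := by
      rw [Equiv.apply_symm_apply, Matrix.updateRow_self]
      by_cases hj : σ.symm i = j
      · rw [hj, Pi.single_eq_same]
        norm_num
      · rw [Pi.single_eq_of_ne hj]
        norm_num
    have h2 : ∏ k ∈ Finset.univ.erase (σ.symm i),
        |(A.updateRow i (Pi.single j 1)) (σ k) k| ≤ B ^ (Fintype.card ι - 1) := by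
      have h3 : B ^ (Fintype.card ι - 1) = ∏ _k ∈ Finset.univ.erase (σ.symm i), B := by
        rw [Finset.prod_const, Finset.card_erase_of_mem (Finset.mem_univ _), Finset.card_univ]
      rw [h3]
      refine Finset.prod_le_prod (fun k _ => abs_nonneg _) fun k hk => ?_
      have h4 : σ k ≠ i := by
        intro h5
        apply Finset.ne_of_mem_erase hk
        rw [← h5, Equiv.symm_apply_apply]
      rw [Matrix.updateRow_ne h4]
      exact hA _ _
    calc _ ≤ 1 * B ^ (Fintype.card ι - 1) :=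
          mul_le_mul h1 h2 (Finset.prod_nonneg fun k _ => abs_nonneg _) zero_le_one
      _ = B ^ (Fintype.card ι - 1) := one_mul _
  rw [Matrix.adjugate_apply, Matrix.det_apply']
  calc |∑ σ : Equiv.Perm ι,
        ((Equiv.Perm.sign σ : ℤ) : ℝ) * ∏ k, (A.updateRow i (Pi.single j 1)) (σ k) k|
      ≤ ∑ σ : Equiv.Perm ι,
        |((Equiv.Perm.sign σ : ℤ) : ℝ) * ∏ k, (A.updateRow i (Pi.single j 1)) (σ k) k| :=
        Finset.abs_sum_le_sum_abs _ _
    _ ≤ ∑ _σ : Equiv.Perm ι, B ^ (Fintype.card ι - 1) :=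
        Finset.sum_le_sum fun σ _ => hterm σ
    _ = (Fintype.card ι).factorial * B ^ (Fintype.card ι - 1) := by
        rw [Finset.sum_const, Finset.card_univ, Fintype.card_perm, nsmul_eq_mul]

theorem abs_det_mul_le {ι : Type*} [Fintype ι] [DecidableEq ι] (A : Matrix ι ι ℝ) (t : ι → ℝ)
    (B ε : ℝ) (hB : 0 ≤ B) (hA : ∀ i j, |A i j| ≤ B) (ht : ∀ j, |(t ᵥ* A) j| ≤ ε) (i : ι) :
    |A.det| * |t i| ≤
      (Fintype.card ι : ℝ) * (Fintype.card ι).factorial * B ^ (Fintype.card ι - 1) * ε := by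
  have h1 : A.det * t i = ∑ j, (t ᵥ* A) j * A.adjugate j i := by
    have h2 : (t ᵥ* A) ᵥ* A.adjugate = A.det • t := by
      rw [Matrix.vecMul_vecMul, Matrix.mul_adjugate, Matrix.vecMul_smul, Matrix.vecMul_one]
    have h3 := congrFun h2 i
    rw [Pi.smul_apply, smul_eq_mul] at h3
    rw [← h3]
    rfl
  rw [← abs_mul, h1]
  calc |∑ j, (t ᵥ* A) j * A.adjugate j i| ≤ ∑ j, |(t ᵥ* A) j * A.adjugate j i| :=
        Finset.abs_sum_le_sum_abs _ _
    _ ≤ ∑ _j : ι, ε * ((Fintype.card ι).factorial * B ^ (Fintype.card ι - 1)) := by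
        refine Finset.sum_le_sum fun j _ => ?_
        rw [abs_mul]
        exact mul_le_mul (ht j) (abs_adjugate_le A B hB hA i j) (abs_nonneg _)
          ((abs_nonneg _).trans (ht j))
    _ = (Fintype.card ι : ℝ) * (Fintype.card ι).factorial * B ^ (Fintype.card ι - 1) * ε := by
        rw [Finset.sum_const, Finset.card_univ, nsmul_eq_mul]
        ring

end Pool.MZDim
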