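import Pool.Agent.Lib.MZDim.GLin

/-! MP_301213_nt, growth of `dim Z_k` (store `MP_301213_nt_paper63.md`, lead's linear version),
module `GFilt` (170).

PURE ALGEBRA (only Mathlib and `linear_growth` of GLin). From a graded family to a filtration.
PROOF. `A n = ⨆ j ∈ Finset.range (n+1), U j` (a `Submodule ℚ ℝ`).
(1) `A 0 = U 0 = 1` (`simp`), `A` is monotone (`Finset.range_mono`, `biSup_mono`), each `A n` is
finite dimensional (`Submodule.finiteDimensional_finset_sup`, or `Submodule.finite_iSup`-like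
instances; `Finset.sup` and `⨆ j ∈ s` agree by `Finset.sup_eq_iSup`).
(2) `A a * A b ≤ A (a+b)`: `Submodule.mul_le`, then `Submodule.iSup_induction` twice, or
`Submodule.iSup_mul`, `Submodule.mul_iSup` and `iSup_le`: `U i * U j ≤ U (i+j) ≤ A (a+b)`.
(3) `U j ≤ U (j + 2*i)` (induction on `i`, `h2`), so for `n ≥ 1`: `A n ≤ U n ⊔ U (n-1)` (`j ≤ n` has
the parity of `n` or of `n-1`), hence
`finrank (A n) ≤ finrank (U n) + finrank (U (n-1))`
(`Submodule.finrank_mono`, `Submodule.finrank_add_le_finrank_add_finrank`).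
(4) `linear_growth A _ _ _ _ B hB _ (2*d)`: the hypothesis `hT` for `A K ≤ toSubmodule E` follows
from `hT` here (`U j ≤ A K` for `j ≤ K`). It gives `k ≤ 2*B*(2*d) = 4*B*d` with
`2*d < finrank (A k)`. If `k = 0`, `finrank (A 0) = finrank (1 : Submodule) = 1` (or `≤ 1`:
`Submodule.one_eq_span`, `finrank_span_singleton`) contradicts `2*d ≥ 2`. If `k ≥ 1`,
`finrank (U k) > d` or `finrank (U (k-1)) > d`. -/

namespace Pool.MZDim

private theorem up_two (U : ℕ → Submodule ℚ ℝ) (h2 : ∀ k, U k ≤ U (k + 2)) (j i : ℕ) :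
    U j ≤ U (j + 2 * i) := by
  induction i with
  | zero => exact le_rfl
  | succ i ih => exact ih.trans (h2 _)

private theorem sup_le_two (U : ℕ → Submodule ℚ ℝ) (h2 : ∀ k, U k ≤ U (k + 2)) (n : ℕ) :
    (Finset.range (n + 1)).sup U ≤ U n ⊔ U (n - 1) := by
  refine Finset.sup_le fun j hj => ?_
  rw [Finset.mem_range] at hj
  rcases Nat.even_or_odd' (n - j) with ⟨i, hi | hi⟩
  · have h1 := up_two U h2 j i
    rw [show j + 2 * i = n by omega] at h1
    exact h1.trans le_sup_left
  · have h1 := up_two U h2 j i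
    rw [show j + 2 * i = n - 1 by omega] at h1
    exact h1.trans le_sup_right

private theorem sup_mul (U : ℕ → Submodule ℚ ℝ)
    (hmul : ∀ j k x y, x ∈ U j → y ∈ U k → x * y ∈ U (j + k)) (a b : ℕ) :
    (Finset.range (a + 1)).sup U * (Finset.range (b + 1)).sup U ≤
      (Finset.range (a + b + 1)).sup U := by
  have h1 : ∀ j, j ≤ b → ∀ y ∈ U j, ∀ x ∈ (Finset.range (a + 1)).sup U,
      x * y ∈ (Finset.range (a + b + 1)).sup U := by
    intro j hj y hy
    have h2 : (Finset.range (a + 1)).sup U ≤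
        ((Finset.range (a + b + 1)).sup U).comap (LinearMap.mulRight ℚ y) := by
      refine Finset.sup_le fun i hi x hx => ?_
      rw [Finset.mem_range] at hi
      rw [Submodule.mem_comap, LinearMap.mulRight_apply]
      exact (Finset.le_sup (f := U) (Finset.mem_range.mpr (by omega))) (hmul i j x y hx hy)
    intro x hx
    exact h2 hx
  rw [Submodule.mul_le]
  intro x hx y hy
  have h3 : (Finset.range (b + 1)).sup U ≤
      ((Finset.range (a + b + 1)).sup U).comap (LinearMap.mulLeft ℚ x) := by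
    refine Finset.sup_le fun j hj y hy => ?_
    rw [Finset.mem_range] at hj
    rw [Submodule.mem_comap, LinearMap.mulLeft_apply]
    exact h1 j (by omega) y hy x hx
  exact h3 hy

theorem filt_growth (U : ℕ → Submodule ℚ ℝ) (hfin : ∀ k, FiniteDimensional ℚ (U k))
    (h0 : U 0 = 1) (hmul : ∀ j k x y, x ∈ U j → y ∈ U k → x * y ∈ U (j + k))
    (h2 : ∀ k, U k ≤ U (k + 2)) (B : ℕ) (hB : 1 ≤ B)
    (hT : ∀ (K : ℕ) (E : Subalgebra ℚ ℝ), FiniteDimensional ℚ E →
      (∀ j ≤ K, ∀ x ∈ U j, x ∈ E) → K + 1 ≤ B * Module.finrank ℚ E) (d : ℕ) (hd : 1 ≤ d) :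
    ∃ k, k ≤ 4 * B * d ∧ d < Module.finrank ℚ (U k) := by
  have hA0 : (Finset.range (0 + 1)).sup U = 1 := by
    rw [Finset.range_one, Finset.sup_singleton, h0]
  have hmono : Monotone fun n => (Finset.range (n + 1)).sup U := by
    intro m n hmn
    exact Finset.sup_mono (Finset.range_mono (Nat.succ_le_succ hmn))
  have hAfin : ∀ k, FiniteDimensional ℚ ((Finset.range (k + 1)).sup U : Submodule ℚ ℝ) := by
    intro k
    exact Module.Finite.iff_fg.mpr
      (Submodule.fg_finset_sup _ _ fun i _ => Module.Finite.iff_fg.mp (hfin i))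
  obtain ⟨k, hk, hkd⟩ := linear_growth (fun n => (Finset.range (n + 1)).sup U) hAfin hA0 hmono
    (fun a b => sup_mul U hmul a b) B hB (fun K E hE hKE => hT K E hE fun j hj x hx =>
      hKE ((Finset.le_sup (f := U) (Finset.mem_range.mpr (by omega))) hx)) (2 * d)
  have hk4 : k ≤ 4 * B * d := by
    calc k ≤ 2 * B * (2 * d) := hk
      _ = 4 * B * d := by ring
  rcases Nat.eq_zero_or_pos k with hk0 | hk0
  · exfalso
    subst hk0
    beta_reduce at hkd
    rw [hA0] at hkd
    have h1 : Module.finrank ℚ (1 : Submodule ℚ ℝ) ≤ 1 := by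
      rw [Submodule.one_eq_span]
      exact (finrank_span_singleton (K := ℚ) (one_ne_zero (α := ℝ))).le
    omega
  · have := hfin k
    have := hfin (k - 1)
    have h1 : Module.finrank ℚ ((Finset.range (k + 1)).sup U : Submodule ℚ ℝ) ≤
        Module.finrank ℚ (U k ⊔ U (k - 1) : Submodule ℚ ℝ) :=
      Submodule.finrank_mono (sup_le_two U h2 k)
    have h3 := Submodule.finrank_add_le_finrank_add_finrank (U k) (U (k - 1))
    beta_reduce at hkd
    by_cases h4 : d < Module.finrank ℚ (U k)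
    · exact ⟨k, hk4, h4⟩
    · exact ⟨k - 1, by omega, by omega⟩

end Pool.MZDim
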