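import Pool.Agent.Lib.MZDim.YMul

/-! MODULE YFin (about 130 lines). MP_301213_nt, dim Z_k → ∞. `Y_k` is finite dimensional, contains the expected
elements, and the dimensions are essentially monotone.

PROOFS.
* one_mem_Yk: zv_nil, the empty word. zv_mem_Yk: subset_span.
* pi_sq_mem_Yk: zv_cons with a = 2, l = []: zv [2] = ∑' M, 1/(M+1)^2 = π^2/6 (hasSum_zeta_two, shift by one: the term n = 0 is 0),
  so π^2 = 6 • zv [2].
* finite: the generating set {x | ∃ l, Adm l ∧ l.sum = k ∧ zv l = x} is the image under zv of the set of words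
  {l | Adm l ∧ l.sum = k}, which is finite: all letters are ≤ k and the length is ≤ k (each letter is ≥ 1), so it is
  contained in the finite set of lists of length ≤ k over {0..k} (List.finite_length_le (Fin (k+1)) or
  `Set.Finite.subset` of the union over n ≤ k of {l | l.length = n, entries ≤ k}; another way: words of sum k with
  positive letters are compositions, `Composition k` is a Fintype and l = c.blocks).
  Then `FiniteDimensional.span_of_finite` (Module.Finite.span_of_finite).
* finrank_add_two: x ↦ π^2 * x is an injective ℚ-linear map from Yk k to Yk (k+2) (Yk_mul, pi_sq_mem_Yk, π ≠ 0):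
  LinearMap.finrank_le_finrank_of_injective. finrank_add_three: x ↦ zv [3] * x, zv_pos.
* finrank_mono: if k + 2 ≤ m then m - k = 2a + 3b (a, b natural numbers: if m - k is even b = 0, if it is odd it is
  ≥ 3, b = 1): iterate. -/

open HofPers Finset Filter Topology

namespace Pool.MZDim

private theorem adm_nil : Adm [] := by
  intro a ha
  simp at ha

theorem zv_mem_Yk {l : List ℕ} (h : Adm l) : zv l ∈ Yk l.sum :=
  Submodule.subset_span ⟨l, h, rfl, rfl⟩

theorem one_mem_Yk : (1 : ℝ) ∈ Yk 0 := by
  have h := zv_mem_Yk adm_nil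
  rw [zv_nil] at h
  simpa using h

private theorem adm_single {a : ℕ} (h : 2 ≤ a) : Adm [a] := by
  intro b hb
  rw [List.mem_singleton] at hb
  omega

private theorem zv_two : Real.pi ^ 2 = (6 : ℚ) • zv [2] := by
  obtain ⟨_, h2⟩ := zv_cons (adm_single (le_refl 2))
  have hz := hasSum_zeta_two
  have h4 := hz.summable.tsum_eq_zero_add
  rw [hz.tsum_eq] at h4
  have h5 : zv [2] = Real.pi ^ 2 / 6 := by
    rw [h2, h4]
    simp [sR_nil]
  rw [h5, Rat.smul_def]
  push_cast
  ring

theorem pi_sq_mem_Yk : Real.pi ^ 2 ∈ Yk 2 := by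
  rw [zv_two]
  refine Submodule.smul_mem _ _ ?_
  have h := zv_mem_Yk (adm_single (le_refl 2))
  simpa using h

private theorem length_le_sum : ∀ {l : List ℕ}, Adm l → l.length ≤ l.sum
  | [], _ => by simp
  | (a :: l), h => by
    have h1 := length_le_sum (h.tail)
    have h2 : 2 ≤ a := h a (List.mem_cons_self ..)
    simp only [List.length_cons, List.sum_cons]
    omega

theorem words_finite (k : ℕ) : {l : List ℕ | Adm l ∧ l.sum = k}.Finite := by
  have h1 : ((List.map (fun i : Fin (k + 1) => (i : ℕ))) ''
      {l : List (Fin (k + 1)) | l.length ≤ k}).Finite :=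
    (List.finite_length_le (Fin (k + 1)) k).image _
  refine h1.subset ?_
  rintro l ⟨ha, hs⟩
  have hlt : ∀ a ∈ l, a < k + 1 := by
    intro a hal
    have := List.le_sum_of_mem hal
    omega
  refine ⟨l.pmap (fun a h => (⟨a, h⟩ : Fin (k + 1))) hlt, ?_, ?_⟩
  · simp only [Set.mem_ofPred_eq, List.length_pmap]
    have := length_le_sum ha
    omega
  · simp [List.map_pmap]

instance finite_Yk (k : ℕ) : Module.Finite ℚ (Yk k) := by
  have h : {x : ℝ | ∃ l : List ℕ, Adm l ∧ l.sum = k ∧ zv l = x}.Finite := by
    refine ((words_finite k).image zv).subset ?_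
    rintro x ⟨l, h1, h2, h3⟩
    exact ⟨l, ⟨h1, h2⟩, h3⟩
  exact FiniteDimensional.span_of_finite ℚ h

private theorem finrank_add {k m : ℕ} {c : ℝ} (hc : c ∈ Yk m) (hc0 : c ≠ 0) :
    Module.finrank ℚ (Yk k) ≤ Module.finrank ℚ (Yk (k + m)) := by
  let f : ℝ →ₗ[ℚ] ℝ := LinearMap.mulRight ℚ c
  have hf : ∀ x ∈ Yk k, f x ∈ Yk (k + m) := fun x hx => Yk_mul hx hc
  refine LinearMap.finrank_le_finrank_of_injective (f := f.restrict hf) ?_
  intro x y hxy
  have h1 := congrArg Subtype.val hxy
  simp only [LinearMap.restrict_apply, f, LinearMap.mulRight_apply] at h1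
  exact Subtype.ext (mul_right_cancel₀ hc0 h1)

private theorem finrank_add_two (k : ℕ) :
    Module.finrank ℚ (Yk k) ≤ Module.finrank ℚ (Yk (k + 2)) :=
  finrank_add pi_sq_mem_Yk (by positivity)

private theorem finrank_add_three (k : ℕ) :
    Module.finrank ℚ (Yk k) ≤ Module.finrank ℚ (Yk (k + 3)) := by
  have ha : Adm [3] := adm_single (by norm_num)
  have h := zv_mem_Yk ha
  exact finrank_add (by simpa using h) (zv_pos ha).ne'

private theorem finrank_add_even (k j : ℕ) :
    Module.finrank ℚ (Yk k) ≤ Module.finrank ℚ (Yk (k + 2 * j)) := by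
  induction j with
  | zero => simp
  | succ j ih => exact ih.trans (finrank_add_two _)

theorem finrank_mono {k m : ℕ} (h : k + 2 ≤ m) :
    Module.finrank ℚ (Yk k) ≤ Module.finrank ℚ (Yk m) := by
  rcases Nat.even_or_odd' (m - k) with ⟨j, hj | hj⟩
  · have : m = k + 2 * j := by omega
    rw [this]
    exact finrank_add_even k j
  · have : m = k + 3 + 2 * (j - 1) := by omega
    rw [this]
    exact (finrank_add_three k).trans (finrank_add_even (k + 3) (j - 1))

end Pool.MZDim
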