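import Pool.Agent.Lib.MZDim.GTp
import Pool.Agent.Lib.MZDim.GFilt
import Pool.Agent.Lib.MZDim.YFin

/-! MP_301213_nt, growth of `dim Z_k` (store `MP_301213_nt_paper63.md`, lead's linear version),
module `GDim` (180): explicit linear growth.

PROOF. (1) `exists_dim`: `filt_growth` (GFilt) with `B = 692` and
`U k = (Yk k).map (LinearMap.mulLeft ℚ ((Real.pi ^ k)⁻¹))`:
`x ∈ U k ↔ ∃ y ∈ Yk k, (π^k)⁻¹ * y = x` (`Submodule.mem_map`, `LinearMap.mulLeft_apply`). Finite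
dimensional: image of a finite dimensional space. `finrank (U k) ≤ finrank (Yk k)`
(`Submodule.finrank_map_le`). `U 0 = 1`: `π^0 = 1`, and `Yk 0 = 1` because the only word of sum `0`
with all letters `≥ 2` is `[]` and `zv [] = 1` (`Submodule.one_eq_span`). Products:
`(π^j)⁻¹ y * (π^k)⁻¹ y' = (π^(j+k))⁻¹ (y y')`, `Yk_mul`.
`U k ≤ U (k+2)`: `(π^k)⁻¹ y = (π^(k+2))⁻¹ (y * π^2)` with `y * π^2 ∈ Yk (k+2)` (`Yk_mul`,
`pi_sq_mem_Yk`). `hT`: for `Adm l`, `l.sum ≤ K`: `zv l ∈ Yk l.sum` (`zv_mem_Yk`), so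
`zv l / π^(l.sum) ∈ U l.sum ⊆ E`, and `finrank_field_ge` (GTp).
(2) `lt_finrank`: `d = k/2770`. If `d = 0`: `k < 2770`, and `finrank (Yk k) ≥ 1` as
`zv [k] ∈ Yk k` is nonzero (`zv_pos`, `Adm [k]`). If `d ≥ 1`: `exists_dim` gives `k' ≤ 2768*d`,
`k' + 2 ≤ 2770*d ≤ k`, `finrank_mono`: `d + 1 ≤ finrank (Yk k)`, `k < 2770*(d+1)`. -/

open HofPers Polynomial

namespace Pool.MZDim

private theorem GDim_pi (k : ℕ) : (Real.pi ^ k) ≠ 0 := pow_ne_zero _ Real.pi_ne_zero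

private theorem GDim_Y0 : Yk 0 = 1 := by
  rw [Submodule.one_eq_span]
  apply le_antisymm
  · refine Submodule.span_le.2 ?_
    rintro x ⟨l, hl, hs, rfl⟩
    have hnil : l = [] := by
      cases l with
      | nil => rfl
      | cons a l =>
        have h2 : 2 ≤ a := hl a (List.mem_cons_self ..)
        rw [List.sum_cons] at hs
        omega
    rw [hnil, zv_nil]
    exact Submodule.subset_span rfl
  · refine Submodule.span_le.2 ?_
    rintro x hx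
    rw [Set.mem_singleton_iff] at hx
    rw [hx]
    exact one_mem_Yk

private noncomputable def GDimU (k : ℕ) : Submodule ℚ ℝ :=
  (Yk k).map (LinearMap.mulLeft ℚ ((Real.pi ^ k)⁻¹))

private theorem GDim_mem {k : ℕ} {x : ℝ} : x ∈ GDimU k ↔ ∃ y ∈ Yk k, (Real.pi ^ k)⁻¹ * y = x := by
  unfold GDimU
  rw [Submodule.mem_map]
  rfl

theorem exists_dim
    (hForms : ∀ n Δ : ℕ, 100 * (Δ + 1) ^ 3 ≤ 2 ^ n →
      Forms (6 * n + 2) (12 * ((6 * n + 2 : ℕ) : ℝ) + 4)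
        (2 * (Δ : ℝ) - 12 * ((6 * n + 2 : ℕ) : ℝ) - 2))
    (d : ℕ) (hd : 1 ≤ d) : ∃ k, k ≤ 2768 * d ∧ d < Module.finrank ℚ (Yk k) := by
  have hfin : ∀ k, FiniteDimensional ℚ (GDimU k) := by
    intro k
    unfold GDimU
    infer_instance
  have h0 : GDimU 0 = 1 := by
    have h1 : LinearMap.mulLeft ℚ ((Real.pi ^ 0)⁻¹ : ℝ) = LinearMap.id := by
      ext x
      simp
    unfold GDimU
    rw [h1, Submodule.map_id, GDim_Y0]
  have hmul : ∀ j k x y, x ∈ GDimU j → y ∈ GDimU k → x * y ∈ GDimU (j + k) := by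
    intro j k x y hx hy
    obtain ⟨a, ha, rfl⟩ := GDim_mem.1 hx
    obtain ⟨b, hb, rfl⟩ := GDim_mem.1 hy
    refine GDim_mem.2 ⟨a * b, Yk_mul ha hb, ?_⟩
    rw [pow_add, mul_inv]
    ring
  have h2 : ∀ k, GDimU k ≤ GDimU (k + 2) := by
    intro k x hx
    obtain ⟨a, ha, rfl⟩ := GDim_mem.1 hx
    refine GDim_mem.2 ⟨a * Real.pi ^ 2, Yk_mul ha pi_sq_mem_Yk, ?_⟩
    have := GDim_pi k
    have h3 := GDim_pi 2
    rw [pow_add]
    field_simp
  have hT : ∀ (K : ℕ) (E : Subalgebra ℚ ℝ), FiniteDimensional ℚ E →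
      (∀ j ≤ K, ∀ x ∈ GDimU j, x ∈ E) → K + 1 ≤ 692 * Module.finrank ℚ E := by
    intro K E hE hU
    refine finrank_field_ge hForms K E hE fun l hl hs => ?_
    refine hU l.sum hs _ (GDim_mem.2 ⟨zv l, zv_mem_Yk hl, ?_⟩)
    rw [div_eq_inv_mul]
  obtain ⟨k, hk1, hk2⟩ := filt_growth GDimU hfin h0 hmul h2 692 (by norm_num) hT d hd
  refine ⟨k, by omega, lt_of_lt_of_le hk2 ?_⟩
  unfold GDimU
  exact Submodule.finrank_map_le _ _

theorem lt_finrank
    (hForms : ∀ n Δ : ℕ, 100 * (Δ + 1) ^ 3 ≤ 2 ^ n →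
      Forms (6 * n + 2) (12 * ((6 * n + 2 : ℕ) : ℝ) + 4)
        (2 * (Δ : ℝ) - 12 * ((6 * n + 2 : ℕ) : ℝ) - 2))
    (k : ℕ) (hk : 2 ≤ k) : k < 2770 * Module.finrank ℚ (Yk k) := by
  rcases Nat.eq_zero_or_pos (k / 2770) with hd | hd
  · have h1 : k < 2770 := by omega
    have hA : Adm [k] := by
      intro b hb
      rw [List.mem_singleton] at hb
      omega
    have h2 : zv [k] ∈ Yk k := by
      have := zv_mem_Yk hA
      simpa using this
    have h3 : 0 < Module.finrank ℚ (Yk k) := by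
      rw [Module.finrank_pos_iff_exists_ne_zero]
      exact ⟨⟨zv [k], h2⟩, fun h => (zv_pos hA).ne' (congrArg Subtype.val h)⟩
    omega
  · obtain ⟨k', hk1, hk2⟩ := exists_dim hForms (k / 2770) hd
    have h1 : k' + 2 ≤ k := by omega
    have h2 := finrank_mono h1
    omega

end Pool.MZDim
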