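import Pool.Agent.Lib.MZDim.WBasic

/-! MODULE GExt (about 200 lines). MP_301213_nt, dim Z_k → ∞. Analytic extension of the nested sums to Re z > 0.

PROOF of `exists_ext` by induction on l. l = []: G = 1 (sR_nil). Step a :: l, a ≥ 2, with G for l (bound C):
  H(z) = zv (a :: l) - ∑' m : ℕ, G (z + m) / (z + m)^a .
(1) H is differentiable on {Re z > 0}: it suffices on each open half plane {Re z > r}, r > 0 (open sets, local property), hmm: G is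
  only bounded on Re ≥ 1/2, so write the series as (the term m = 0) + (the terms m ≥ 1, where Re (z+m) ≥ 1 > 1/2 for Re z > 0):
  the term m = 0 is differentiable on {Re z > 0}; the series over m ≥ 1 is a sum of functions differentiable on the OPEN set
  {Re z > 0} with ‖G (z+m) / (z+m)^a‖ ≤ C / ‖z+m‖^a ≤ C / m^2 there (‖z + m‖ ≥ Re ≥ m ≥ 1 and a ≥ 2), summable:
  `differentiableOn_tsum_of_summable_norm` (with the open set {Re z > 0}).
(2) value at M + 1: ∑'_m G(M+1+m) / (M+1+m)^a = ∑'_m sR l (M+m) / (M+m+1)^a = (tail of the series of zv_cons) =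
  zv (a::l) - ∑_{m < M} sR l m / (m+1)^a (Summable.sum_add_tsum_nat_add), and the finite sum is sR (a::l) M
  (induction on M with sR_cons, sR (a::l) 0 = 0).
(3) bound for Re z ≥ 1/2: ‖H z‖ ≤ zv + ∑' C / (m + 1/2)^2 =: C' (‖z+m‖ ≥ m + 1/2; (m+1/2)^a ≥ (m+1/2)^2 fails for m = 0:
  use ‖(z+m)^a‖⁻¹ ≤ 2^a for m = 0 and ≤ m^(-2) for m ≥ 1): C' = zv + C 2^a + C ∑_{m ≥ 1} m^(-2), finite, enlarge to be ≥ 1. -/

open HofPers Finset Filter Topology

namespace Pool.MZDim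

private theorem openU : IsOpen {z : ℂ | 0 < z.re} :=
  isOpen_lt continuous_const Complex.continuous_re

private theorem sR_zero (a : ℕ) (l : List ℕ) : sR (a :: l) 0 = 0 := by
  simp [sR, aR]

private theorem sR_eq_sum (a : ℕ) (l : List ℕ) (M : ℕ) :
    sR (a :: l) M = ∑ j ∈ range M, sR l j / ((j : ℝ) + 1) ^ a := by
  induction M with
  | zero => rw [sR_zero, sum_range_zero]
  | succ M ih =>
    rw [sR_cons, ih, sum_range_succ]
    congr 1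
    rw [div_eq_inv_mul]

private theorem norm_shift (z : ℂ) (m : ℕ) (hz : 0 < z.re) :
    (m : ℝ) + 1 ≤ ‖z + ((m + 1 : ℕ) : ℂ)‖ := by
  have h1 : (z + ((m + 1 : ℕ) : ℂ)).re = z.re + ((m : ℝ) + 1) := by
    rw [Complex.add_re, Complex.natCast_re]
    push_cast
    ring
  have h2 := Complex.abs_re_le_norm (z + ((m + 1 : ℕ) : ℂ))
  rw [h1] at h2
  have h3 := le_abs_self (z.re + ((m : ℝ) + 1))
  linarith

private theorem re_shift (z : ℂ) (m : ℕ) :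
    (z + ((m + 1 : ℕ) : ℂ)).re = z.re + ((m : ℝ) + 1) := by
  rw [Complex.add_re, Complex.natCast_re]
  push_cast
  ring

private theorem summ_sq (C : ℝ) : Summable fun m : ℕ => C / ((m : ℝ) + 1) ^ 2 := by
  have h1 : Summable fun m : ℕ => ((m : ℝ) ^ 2)⁻¹ := Real.summable_nat_pow_inv.2 (by norm_num)
  have h2 := ((summable_nat_add_iff 1).2 h1).mul_left C
  refine h2.congr fun m => ?_
  push_cast
  rw [div_eq_mul_inv]

private theorem term_bound {G : ℂ → ℂ} {C : ℝ} (hC : 1 ≤ C)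
    (hb : ∀ z : ℂ, 1 / 2 ≤ z.re → ‖G z‖ ≤ C) {a : ℕ} (ha : 2 ≤ a) (m : ℕ) (z : ℂ)
    (hz : 0 < z.re) :
    ‖G (z + ((m + 1 : ℕ) : ℂ)) / (z + ((m + 1 : ℕ) : ℂ)) ^ a‖ ≤ C / ((m : ℝ) + 1) ^ 2 := by
  have h1 : (0 : ℝ) ≤ m := Nat.cast_nonneg m
  have h2 : ‖G (z + ((m + 1 : ℕ) : ℂ))‖ ≤ C := by
    refine hb _ ?_
    rw [re_shift]
    linarith
  have h3 := norm_shift z m hz
  have h4 : ((m : ℝ) + 1) ^ 2 ≤ ‖z + ((m + 1 : ℕ) : ℂ)‖ ^ a :=
    calc ((m : ℝ) + 1) ^ 2 ≤ ((m : ℝ) + 1) ^ a := pow_le_pow_right₀ (by linarith) ha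
      _ ≤ _ := pow_le_pow_left₀ (by linarith) h3 a
  rw [norm_div, norm_pow]
  exact div_le_div₀ (by linarith) h2 (by positivity) h4

private theorem step {a : ℕ} {l : List ℕ} (h : Adm (a :: l)) {G : ℂ → ℂ} {C : ℝ} (hC : 1 ≤ C)
    (hd : DifferentiableOn ℂ G {z : ℂ | 0 < z.re})
    (hv : ∀ M : ℕ, G ((M : ℂ) + 1) = ((sR l M : ℝ) : ℂ))
    (hb : ∀ z : ℂ, 1 / 2 ≤ z.re → ‖G z‖ ≤ C) :
    ∃ (G' : ℂ → ℂ) (C' : ℝ), 1 ≤ C' ∧ DifferentiableOn ℂ G' {z : ℂ | 0 < z.re} ∧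
      (∀ M : ℕ, G' ((M : ℂ) + 1) = ((sR (a :: l) M : ℝ) : ℂ)) ∧
      ∀ z : ℂ, 1 / 2 ≤ z.re → ‖G' z‖ ≤ C' := by
  have ha : 2 ≤ a := h a List.mem_cons_self
  obtain ⟨hs, hz⟩ := zv_cons h
  have hne : ∀ z : ℂ, 0 < z.re → z ≠ 0 := by
    rintro z hz1 rfl
    simp at hz1
  refine ⟨fun z => ((zv (a :: l) : ℝ) : ℂ) - (G z / z ^ a +
    ∑' m : ℕ, G (z + ((m + 1 : ℕ) : ℂ)) / (z + ((m + 1 : ℕ) : ℂ)) ^ a),
    1 + |zv (a :: l)| + C * 2 ^ a + ∑' m : ℕ, C / ((m : ℝ) + 1) ^ 2, ?_, ?_, ?_, ?_⟩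
  · have h1 : 0 ≤ ∑' m : ℕ, C / ((m : ℝ) + 1) ^ 2 := tsum_nonneg fun m => by positivity
    have h2 : 0 ≤ C * 2 ^ a := by positivity
    have h3 := abs_nonneg (zv (a :: l))
    linarith
  · refine (differentiableOn_const _).sub (DifferentiableOn.add ?_ ?_)
    · refine hd.div (differentiableOn_pow a) ?_
      intro z hz1
      exact pow_ne_zero a (hne z hz1)
    · refine Complex.differentiableOn_tsum_of_summable_norm (summ_sq C) (fun m => ?_) openU ?_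
      · have hmaps : Set.MapsTo (fun z : ℂ => z + ((m + 1 : ℕ) : ℂ)) {z : ℂ | 0 < z.re}
            {z : ℂ | 0 < z.re} := by
          intro z hz1
          have h1 : (0 : ℝ) ≤ m := Nat.cast_nonneg m
          have h2 : 0 < z.re := hz1
          show 0 < (z + ((m + 1 : ℕ) : ℂ)).re
          rw [re_shift]
          linarith
        have hdd : DifferentiableOn ℂ (fun z : ℂ => z + ((m + 1 : ℕ) : ℂ)) {z : ℂ | 0 < z.re} :=
          (differentiable_id.add_const _).differentiableOn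
        refine (hd.comp hdd hmaps).div (hdd.pow a) ?_
        intro z hz1
        exact pow_ne_zero a (hne _ (hmaps hz1))
      · intro m z hz1
        exact term_bound hC hb ha m z hz1
  · intro M
    set f : ℕ → ℝ := fun j => sR l j / ((j : ℝ) + 1) ^ a with hf
    have h1 : G ((M : ℂ) + 1) / ((M : ℂ) + 1) ^ a = ((f M : ℝ) : ℂ) := by
      rw [hv, hf]
      push_cast
      rfl
    have h2 : ∀ m : ℕ, G ((M : ℂ) + 1 + ((m + 1 : ℕ) : ℂ)) /
        ((M : ℂ) + 1 + ((m + 1 : ℕ) : ℂ)) ^ a = ((f (m + 1 + M) : ℝ) : ℂ) := by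
      intro m
      have h3 : (M : ℂ) + 1 + ((m + 1 : ℕ) : ℂ) = ((m + 1 + M : ℕ) : ℂ) + 1 := by
        push_cast
        ring
      rw [h3, hv, hf]
      push_cast
      rfl
    have h4 := hs.sum_add_tsum_nat_add M
    have h5 : ∑' i : ℕ, f (i + M) = f M + ∑' i : ℕ, f (i + 1 + M) := by
      have h6 := ((summable_nat_add_iff M).2 hs).tsum_eq_zero_add
      rw [zero_add] at h6
      exact h6
    have h7 : zv (a :: l) = ∑ j ∈ range M, f j + (f M + ∑' i : ℕ, f (i + 1 + M)) := by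
      rw [hz, ← h4, ← h5]
    show ((zv (a :: l) : ℝ) : ℂ) - (G ((M : ℂ) + 1) / ((M : ℂ) + 1) ^ a +
      ∑' m : ℕ, G ((M : ℂ) + 1 + ((m + 1 : ℕ) : ℂ)) /
        ((M : ℂ) + 1 + ((m + 1 : ℕ) : ℂ)) ^ a) = _
    rw [h1, tsum_congr h2, ← Complex.ofReal_tsum, h7, sR_eq_sum, ← Complex.ofReal_add,
      ← Complex.ofReal_sub, add_sub_cancel_right]
  · intro z hz1
    have hz2 : 0 < z.re := by linarith
    have h1 : ‖G z / z ^ a‖ ≤ C * 2 ^ a := by
      have h2 : (1 : ℝ) / 2 ≤ ‖z‖ := by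
        have h3 := Complex.abs_re_le_norm z
        have h4 := le_abs_self z.re
        linarith
      have h5 : ((1 : ℝ) / 2) ^ a ≤ ‖z‖ ^ a := pow_le_pow_left₀ (by norm_num) h2 a
      rw [norm_div, norm_pow]
      calc ‖G z‖ / ‖z‖ ^ a ≤ C / ((1 : ℝ) / 2) ^ a :=
            div_le_div₀ (by linarith) (hb z hz1) (by positivity) h5
        _ = C * 2 ^ a := by
            rw [div_pow, one_pow, div_div_eq_mul_div, div_one]
    have h2 : ‖∑' m : ℕ, G (z + ((m + 1 : ℕ) : ℂ)) / (z + ((m + 1 : ℕ) : ℂ)) ^ a‖ ≤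
        ∑' m : ℕ, C / ((m : ℝ) + 1) ^ 2 :=
      tsum_of_norm_bounded (summ_sq C).hasSum fun m => term_bound hC hb ha m z hz2
    have h3 : ‖((zv (a :: l) : ℝ) : ℂ)‖ = |zv (a :: l)| := by
      rw [Complex.norm_real, Real.norm_eq_abs]
    have h4 := norm_sub_le ((zv (a :: l) : ℝ) : ℂ) (G z / z ^ a +
      ∑' m : ℕ, G (z + ((m + 1 : ℕ) : ℂ)) / (z + ((m + 1 : ℕ) : ℂ)) ^ a)
    have h5 := norm_add_le (G z / z ^ a)
      (∑' m : ℕ, G (z + ((m + 1 : ℕ) : ℂ)) / (z + ((m + 1 : ℕ) : ℂ)) ^ a)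
    show ‖((zv (a :: l) : ℝ) : ℂ) - (G z / z ^ a +
      ∑' m : ℕ, G (z + ((m + 1 : ℕ) : ℂ)) / (z + ((m + 1 : ℕ) : ℂ)) ^ a)‖ ≤ _
    linarith

theorem exists_ext (l : List ℕ) (hl : Adm l) :
    ∃ (G : ℂ → ℂ) (C : ℝ), 1 ≤ C ∧ DifferentiableOn ℂ G {z : ℂ | 0 < z.re} ∧
      (∀ M : ℕ, G ((M : ℂ) + 1) = ((sR l M : ℝ) : ℂ)) ∧
      ∀ z : ℂ, 1 / 2 ≤ z.re → ‖G z‖ ≤ C := by
  induction l with
  | nil =>
    refine ⟨fun _ => 1, 1, le_rfl, differentiableOn_const _, fun M => ?_, fun z _ => ?_⟩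
    · rw [sR_nil, Complex.ofReal_one]
    · rw [norm_one]
  | cons a l ih =>
    obtain ⟨G, C, hC, hd, hv, hb⟩ := ih hl.tail
    exact step hl hC hd hv hb

end Pool.MZDim
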