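import Mathlib

/-! MP_301213_nt, growth of `dim Z_k` (store `MP_301213_nt_paper63.md`), module `GFac` (150).

ONLY MATHLIB. A small integer polynomial value gives a small value of an irreducible factor.
PROOF. Induction on the factorisation: `UniqueFactorizationMonoid.induction_on_prime` or
`WfDvdMonoid.exists_factors R hR : ∃ f : Multiset ℤ[X], (∀ b ∈ f, Irreducible b) ∧
Associated f.prod R`. Claim (induction on the multiset `f` of irreducible polynomials): if every
`b ∈ f` has `ε ≤ |aeval θ b|` then `ε ^ f.prod.natDegree ≤ |aeval θ f.prod|`. Step `b ::ₘ f`: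
`natDegree (b * g) = natDegree b + natDegree g` (`b, g ≠ 0`); if `natDegree b = 0` then `b = C a`,
`a ≠ 0` integer, `1 ≤ |aeval θ b|`; if `natDegree b ≥ 1` then
`ε ^ natDegree b ≤ ε ≤ |aeval θ b|` because `0 < ε ≤ 1`. The associated polynomial `R` has the same
degree and the same absolute value (units of `ℤ[X]` are `C 1, C (-1)`:
`Polynomial.isUnit_iff`, `Int.isUnit_iff`, or: a unit of `ℤ[X]` is `C u`, `u = 1 ∨ u = -1`).
If no irreducible factor had `|aeval θ Q| < ε` we would get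
`ε ^ m ≤ ε ^ R.natDegree ≤ |aeval θ R|`, contradiction. Divisibility: `Multiset.dvd_prod` and
`Associated.dvd`. -/

namespace Pool.MZDim

open Polynomial

private theorem aux_pow_le (θ : ℝ) (ε : ℝ) (h0 : 0 < ε) (h1 : ε ≤ 1) (b : ℤ[X]) (hb : b ≠ 0)
    (h : ε ≤ |aeval θ b|) : ε ^ b.natDegree ≤ |aeval θ b| := by
  rcases Nat.eq_zero_or_pos b.natDegree with h2 | h2
  · obtain ⟨a, rfl⟩ : ∃ a, b = C a := ⟨b.coeff 0, Polynomial.eq_C_of_natDegree_eq_zero h2⟩
    have ha : a ≠ 0 := by rintro rfl; simp at hb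
    rw [natDegree_C, pow_zero, aeval_C]
    have : (1:ℤ) ≤ |a| := Int.one_le_abs ha
    have h3 : (1:ℝ) ≤ |(a:ℝ)| := by exact_mod_cast this
    simpa using h3
  · refine le_trans ?_ h
    calc ε ^ b.natDegree ≤ ε ^ 1 := pow_le_pow_of_le_one h0.le h1 h2
      _ = ε := pow_one ε

private theorem aux_multiset (θ : ℝ) (ε : ℝ) (h0 : 0 < ε) (h1 : ε ≤ 1) (f : Multiset ℤ[X])
    (hf : ∀ b ∈ f, Irreducible b) (h : ∀ b ∈ f, ε ≤ |aeval θ b|) :
    ε ^ f.prod.natDegree ≤ |aeval θ f.prod| := by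
  induction f using Multiset.induction_on with
  | empty => simp
  | cons b f ih =>
    have hb0 : b ≠ 0 := (hf b (Multiset.mem_cons_self b f)).ne_zero
    have hf' : ∀ c ∈ f, Irreducible c := fun c hc => hf c (Multiset.mem_cons_of_mem hc)
    have hp0 : f.prod ≠ 0 := by
      intro hz
      rw [Multiset.prod_eq_zero_iff] at hz
      exact (hf' 0 hz).ne_zero rfl
    have ih' := ih hf' (fun c hc => h c (Multiset.mem_cons_of_mem hc))
    have hb := aux_pow_le θ ε h0 h1 b hb0 (h b (Multiset.mem_cons_self b f))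
    rw [Multiset.prod_cons, natDegree_mul hb0 hp0, pow_add, map_mul, abs_mul]
    exact mul_le_mul hb ih' (by positivity) (abs_nonneg _)

theorem exists_irreducible_small (θ : ℝ) (m : ℕ) (ε : ℝ) (h0 : 0 < ε) (h1 : ε ≤ 1) (R : ℤ[X])
    (hR : R ≠ 0) (hm : R.natDegree ≤ m) (hs : |aeval θ R| < ε ^ m) :
    ∃ Q : ℤ[X], Irreducible Q ∧ Q ∣ R ∧ |aeval θ Q| < ε := by
  obtain ⟨f, hf, hfR⟩ := WfDvdMonoid.exists_factors R hR
  by_contra hcon
  push Not at hcon
  have hall : ∀ b ∈ f, ε ≤ |aeval θ b| := fun b hb =>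
    hcon b (hf b hb) ((Multiset.dvd_prod hb).trans hfR.dvd)
  have h2 := aux_multiset θ ε h0 h1 f hf hall
  obtain ⟨u, hu⟩ := hfR
  obtain ⟨c, hc, hcu⟩ := Polynomial.isUnit_iff.mp u.isUnit
  have hu' : (c = 1 ∨ c = -1) := Int.isUnit_iff.mp hc
  have hp0 : f.prod ≠ 0 := by
    rintro hz
    rw [hz, zero_mul] at hu
    exact hR hu.symm
  have hdeg : R.natDegree = f.prod.natDegree := by
    rw [← hu, natDegree_mul hp0 u.ne_zero, ← hcu, natDegree_C, add_zero]
  have habs : |aeval θ R| = |aeval θ f.prod| := by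
    rw [← hu, map_mul, abs_mul, ← hcu, aeval_C]
    rcases hu' with rfl | rfl <;> simp
  rw [habs] at hs
  rw [← hdeg] at h2
  have h3 : ε ^ m ≤ ε ^ R.natDegree := pow_le_pow_of_le_one h0.le h1 hm
  linarith

end Pool.MZDim
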