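import Mathlib

/-! MP_301213_nt, growth of `dim Z_k` (store `MP_301213_nt_paper63.md`), module `GMah` (110).

ONLY MATHLIB. Coefficients of a divisor (Mahler measure).
PROOF. `R = Q * S`, `Q, S ≠ 0`. Map to `ℂ[X]` (`Polynomial.map (Int.castRingHom ℂ)`, injective, so
degrees do not change). `Polynomial.norm_coeff_le_choose_mul_mahlerMeasure_of_one_le_mahlerMeasure n
(Q.map _) (S.map _) (one_le_mahlerMeasure_of_ne_zero hS)` gives
`‖Q.coeff n‖ ≤ (natDegree Q).choose n * (R.map _).mahlerMeasure`;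
`Polynomial.mahlerMeasure_le_sum_norm_coeff` gives `mahlerMeasure ≤ ∑ ‖coeff‖ ≤ (m+1) * B` (at most
`natDegree R + 1 ≤ m + 1` nonzero coefficients), and
`choose (natDegree Q) n ≤ 2 ^ natDegree Q ≤ 2 ^ m` (`Nat.choose_le_two_pow`,
`natDegree_le_of_dvd`). -/

namespace Pool.MZDim

open Polynomial

theorem coeff_le_of_dvd (m : ℕ) (B : ℝ) (hB : 0 ≤ B) (Q R : ℤ[X]) (hR : R ≠ 0) (hd : Q ∣ R)
    (hm : R.natDegree ≤ m) (hc : ∀ n, |(R.coeff n : ℝ)| ≤ B) (n : ℕ) :
    |(Q.coeff n : ℝ)| ≤ 2 ^ m * (m + 1) * B := by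
  obtain ⟨S, rfl⟩ := hd
  have hQ : Q ≠ 0 := left_ne_zero_of_mul hR
  have hS : S ≠ 0 := right_ne_zero_of_mul hR
  have h1 := Polynomial.norm_coeff_le_choose_mul_mahlerMeasure_of_one_le_mahlerMeasure n
    (Q.map (Int.castRingHom ℂ)) (S.map (Int.castRingHom ℂ)) (one_le_mahlerMeasure_of_ne_zero hS)
  have h2 : ‖(Q.map (Int.castRingHom ℂ)).coeff n‖ = |(Q.coeff n : ℝ)| := by
    rw [Polynomial.coeff_map]
    simp [Complex.norm_intCast]
  have hdeg : (Q.map (Int.castRingHom ℂ)).natDegree = Q.natDegree :=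
    Polynomial.natDegree_map_eq_of_injective (RingHom.injective_int (Int.castRingHom ℂ)) Q
  have hdQ : Q.natDegree ≤ m := le_trans (Polynomial.natDegree_le_of_dvd (Dvd.intro S rfl) hR) hm
  have h3 : ((Q.map (Int.castRingHom ℂ)).natDegree.choose n : ℝ) ≤ 2 ^ m := by
    rw [hdeg]
    have : Q.natDegree.choose n ≤ 2 ^ Q.natDegree := Nat.choose_le_two_pow _ _
    have h' : (2:ℕ) ^ Q.natDegree ≤ 2 ^ m := Nat.pow_le_pow_right (by norm_num) hdQ
    exact_mod_cast this.trans h'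
  have h4 : ((Q.map (Int.castRingHom ℂ)) * (S.map (Int.castRingHom ℂ))).mahlerMeasure
      ≤ (m + 1) * B := by
    rw [← Polynomial.map_mul]
    refine (Polynomial.mahlerMeasure_le_sum_norm_coeff _).trans ?_
    rw [Polynomial.sum_over_range' _ (by simp) (m + 1)]
    · refine (Finset.sum_le_card_nsmul _ _ B ?_).trans ?_
      · intro i _
        rw [Polynomial.coeff_map]
        have := hc i
        simpa [Complex.norm_intCast] using this
      · simp [nsmul_eq_mul]
    · have := Polynomial.natDegree_map_eq_of_injective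
        (RingHom.injective_int (Int.castRingHom ℂ)) (Q * S)
      rw [this]; omega
  rw [h2] at h1
  refine h1.trans ?_
  have h5 : 0 ≤ ((Q.map (Int.castRingHom ℂ)) * (S.map (Int.castRingHom ℂ))).mahlerMeasure :=
    Polynomial.mahlerMeasure_nonneg _
  calc _ ≤ 2 ^ m * ((m + 1) * B) := by
        apply mul_le_mul h3 h4 h5 (by positivity)
    _ = _ := by ring

end Pool.MZDim
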