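import Pool.Agent.Lib.MZDim.GDet

/-! MP_301213_nt, growth of `dim Z_k` (store `MP_301213_nt_paper63.md`), module `GRes` (250).

Two non associated irreducible integer polynomials are not both small at `θ` (resultant).
PROOF. Let `a = f.natDegree`, `b = g.natDegree`.
(0) `a ≥ 1`: an irreducible constant `C p` has `|aeval θ (C p)| = |p| ≥ 1 > ε` (`ε < 1`). Same for
`g`.
(1) `Polynomial.resultant f g ≠ 0`: `f, g` are primitive (irreducible of positive degree:
`Irreducible.isPrimitive`), so irreducible over `ℚ`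
(`Polynomial.IsPrimitive.Int.irreducible_iff_irreducible_map_cast`). If the images in `ℚ[X]` are not
coprime, one divides the other (`Irreducible.coprime_iff_not_dvd`, or `isCoprime_or_dvd`), hence
`f ∣ g` in `ℤ[X]` by `Polynomial.IsPrimitive.Int.dvd_iff_map_cast_dvd_map_cast`, and then
`Associated f g` (`Irreducible.dvd_irreducible_iff_associated`), contradiction. So they are coprime
and `Polynomial.resultant_ne_zero` (or `resultant_eq_zero_iff`) over `ℚ` together with
`Polynomial.resultant_map_map` (the degrees are unchanged by the injective map) gives it; so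
`1 ≤ |(resultant f g : ℝ)|`.
(2) Let `A = (Polynomial.sylvester f g a b).map (Int.cast : ℤ → ℝ)`, size `a + b`, all entries at
most `B` in absolute value (coefficients or `0`), `t : Fin (a+b) → ℝ := fun i => θ ^ (i : ℕ)`. By the
definition of `sylvester`: for the column `j = Fin.castAdd b j1` (`j1 : Fin a`)
`(t ᵥ* A) j = ∑ i ∈ Icc j1 (j1+b), θ^i * g.coeff (i - j1) = θ ^ j1 * aeval θ g`, and for
`j = Fin.natAdd a j1` it is `θ ^ j1 * aeval θ f`
(`aeval_eq_sum_range`, reindex; write the column sum as a sum over `Finset.range (a+b)`). Hence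
`|(t ᵥ* A) j| ≤ (1+|θ|)^(2m) * ε`.
(3) `abs_det_mul_le` (GDet) with `i = 0` (`t 0 = 1`, `a + b ≥ 1`):
`1 ≤ |det A| ≤ (a+b) * (a+b)! * B^(a+b-1) * (1+|θ|)^(2m) * ε`, and `a + b ≤ 2m`, `B ≥ 1`,
monotonicity (`Nat.factorial_le`, `pow_le_pow_right₀`). -/

namespace Pool.MZDim

open Polynomial

private theorem gres_shift (θ : ℝ) (N j b : ℕ) (h : j + b < N) (c : ℕ → ℝ) :
    ∑ i ∈ Finset.range N, θ ^ i * (if i ∈ Set.Icc j (j + b) then c (i - j) else 0) =
      θ ^ j * ∑ k ∈ Finset.range (b + 1), c k * θ ^ k := by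
  rw [Finset.mul_sum]
  symm
  refine Finset.sum_of_injOn (fun k => j + k) ?_ ?_ ?_ ?_
  · intro x _ y _ hxy
    exact Nat.add_left_cancel hxy
  · intro k hk
    rw [Finset.mem_coe, Finset.mem_range] at hk ⊢
    show j + k < N
    omega
  · intro i _ hi
    rw [if_neg, mul_zero]
    rintro ⟨h1, h2⟩
    apply hi
    refine ⟨i - j, ?_, ?_⟩
    · rw [Finset.mem_coe, Finset.mem_range]
      omega
    · show j + (i - j) = i
      omega
  · intro k hk
    rw [Finset.mem_range] at hk
    show θ ^ j * (c k * θ ^ k) =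
      θ ^ (j + k) * (if j + k ∈ Set.Icc j (j + b) then c (j + k - j) else 0)
    rw [if_pos ⟨by omega, by omega⟩, Nat.add_sub_cancel_left, pow_add]
    ring

private theorem gres_aeval (θ : ℝ) (g : ℤ[X]) :
    ∑ k ∈ Finset.range (g.natDegree + 1), (g.map (Int.castRingHom ℝ)).coeff k * θ ^ k =
      aeval θ g := by
  rw [aeval_eq_sum_range]
  refine Finset.sum_congr rfl fun k _ => ?_
  rw [coeff_map, eq_intCast, zsmul_eq_mul]

private theorem gres_deg (θ ε : ℝ) (h1 : ε < 1) (f : ℤ[X]) (hf : Irreducible f)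
    (hfe : |aeval θ f| ≤ ε) : f.natDegree ≠ 0 := by
  intro h
  have h2 := eq_C_of_natDegree_eq_zero h
  rw [h2, aeval_C] at hfe
  have h3 : f.coeff 0 ≠ 0 := by
    intro h4
    rw [h4, C_0] at h2
    exact hf.ne_zero h2
  have h4 : (1 : ℤ) ≤ |f.coeff 0| := Int.one_le_abs h3
  have h5 : (1 : ℝ) ≤ |((f.coeff 0 : ℤ) : ℝ)| := by
    rw [← Int.cast_abs]
    exact_mod_cast h4
  rw [algebraMap_int_eq, eq_intCast] at hfe
  linarith

private theorem gres_res (f g : ℤ[X]) (hf : Irreducible f) (hg : Irreducible g)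
    (hfg : ¬ Associated f g) (hf0 : f.natDegree ≠ 0) (hg0 : g.natDegree ≠ 0) :
    resultant f g f.natDegree g.natDegree ≠ 0 := by
  have pf := hf.isPrimitive hf0
  have pg := hg.isPrimitive hg0
  have iF := (IsPrimitive.Int.irreducible_iff_irreducible_map_cast pf).1 hf
  have hinj : Function.Injective (Int.castRingHom ℚ) := Int.cast_injective
  have hc : IsCoprime (f.map (Int.castRingHom ℚ)) (g.map (Int.castRingHom ℚ)) := by
    rw [Irreducible.coprime_iff_not_dvd iF]
    intro h
    have h2 := (IsPrimitive.Int.dvd_iff_map_cast_dvd_map_cast f g pf).2 h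
    exact hfg ((hf.dvd_irreducible_iff_associated hg).1 h2)
  have h3 := resultant_ne_zero _ _ hc
  rw [natDegree_map_eq_of_injective hinj, natDegree_map_eq_of_injective hinj,
    resultant_map_map] at h3
  intro h4
  rw [h4, map_zero] at h3
  exact h3 rfl

theorem one_le_of_not_associated (θ : ℝ) (m : ℕ) (B ε : ℝ) (hB : 1 ≤ B) (h0 : 0 ≤ ε) (h1 : ε < 1)
    (f g : ℤ[X]) (hf : Irreducible f) (hg : Irreducible g) (hfg : ¬ Associated f g)
    (hfm : f.natDegree ≤ m) (hgm : g.natDegree ≤ m)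
    (hfc : ∀ n, |(f.coeff n : ℝ)| ≤ B) (hgc : ∀ n, |(g.coeff n : ℝ)| ≤ B)
    (hfe : |aeval θ f| ≤ ε) (hge : |aeval θ g| ≤ ε) :
    1 ≤ ((2 * m : ℕ) : ℝ) * (2 * m).factorial * B ^ (2 * m - 1) * (1 + |θ|) ^ (2 * m) * ε := by
  have hf0 := gres_deg θ ε h1 f hf hfe
  have hg0 := gres_deg θ ε h1 g hg hge
  have hres := gres_res f g hf hg hfg hf0 hg0
  set a := f.natDegree with ha
  set b := g.natDegree with hb
  set A : Matrix (Fin (a + b)) (Fin (a + b)) ℝ :=
    sylvester (f.map (Int.castRingHom ℝ)) (g.map (Int.castRingHom ℝ)) a b with hA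
  have hdet : A.det = ((resultant f g a b : ℤ) : ℝ) := by
    have h2 := resultant_map_map f g a b (Int.castRingHom ℝ)
    rw [eq_intCast] at h2
    rw [← h2]
    rfl
  have hone : (1 : ℝ) ≤ |A.det| := by
    rw [hdet, ← Int.cast_abs]
    exact_mod_cast Int.one_le_abs hres
  have hB0 : (0 : ℝ) ≤ B := by linarith
  have hθ0 : (0 : ℝ) ≤ |θ| := abs_nonneg θ
  have hθ1 : (1 : ℝ) ≤ 1 + |θ| := by linarith
  have hent : ∀ i j, |A i j| ≤ B := by
    intro i j
    rw [hA]
    induction j using Fin.addCases with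
    | left j1 =>
      rw [sylvester, Matrix.of_apply, Fin.addCases_left]
      split_ifs
      · rw [coeff_map, eq_intCast]
        exact hgc _
      · rw [abs_zero]
        exact hB0
    | right j1 =>
      rw [sylvester, Matrix.of_apply, Fin.addCases_right]
      split_ifs
      · rw [coeff_map, eq_intCast]
        exact hfc _
      · rw [abs_zero]
        exact hB0
  have hpow : ∀ j : ℕ, j ≤ m → ∀ y : ℝ, |y| ≤ ε → |θ ^ j * y| ≤ (1 + |θ|) ^ (2 * m) * ε := by
    intro j hj y hy
    rw [abs_mul, abs_pow]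
    have h2 : |θ| ^ j ≤ (1 + |θ|) ^ (2 * m) :=
      (pow_le_pow_left₀ hθ0 (by linarith) j).trans (pow_le_pow_right₀ hθ1 (by omega))
    exact mul_le_mul h2 hy (abs_nonneg y) (by positivity)
  have hvec : ∀ j, |(Matrix.vecMul (fun i : Fin (a + b) => θ ^ (i : ℕ)) A) j| ≤
      (1 + |θ|) ^ (2 * m) * ε := by
    intro j
    have hexp : (Matrix.vecMul (fun i : Fin (a + b) => θ ^ (i : ℕ)) A) j =
        ∑ i : Fin (a + b), θ ^ (i : ℕ) * A i j := rfl
    rw [hexp, hA]
    induction j using Fin.addCases with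
    | left j1 =>
      have h2 : ∑ i : Fin (a + b), θ ^ (i : ℕ) * sylvester (f.map (Int.castRingHom ℝ))
          (g.map (Int.castRingHom ℝ)) a b i (Fin.castAdd b j1) =
          ∑ i : Fin (a + b), (fun i : ℕ => θ ^ i * (if i ∈ Set.Icc (j1 : ℕ) (j1 + b) then
            (g.map (Int.castRingHom ℝ)).coeff (i - j1) else 0)) (i : ℕ) := by
        refine Finset.sum_congr rfl fun i _ => ?_
        rw [sylvester, Matrix.of_apply, Fin.addCases_left]
      rw [h2, Fin.sum_univ_eq_sum_range (fun i : ℕ => θ ^ i *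
        (if i ∈ Set.Icc (j1 : ℕ) (j1 + b) then
            (g.map (Int.castRingHom ℝ)).coeff (i - j1) else 0)) (a + b),
        gres_shift θ (a + b) j1 b (by have := j1.2; omega)
          (fun k => (g.map (Int.castRingHom ℝ)).coeff k), hb, gres_aeval]
      exact hpow _ (by have := j1.2; omega) _ hge
    | right j1 =>
      have h2 : ∑ i : Fin (a + b), θ ^ (i : ℕ) * sylvester (f.map (Int.castRingHom ℝ))
          (g.map (Int.castRingHom ℝ)) a b i (Fin.natAdd a j1) =
          ∑ i : Fin (a + b), (fun i : ℕ => θ ^ i * (if i ∈ Set.Icc (j1 : ℕ) (j1 + a) then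
            (f.map (Int.castRingHom ℝ)).coeff (i - j1) else 0)) (i : ℕ) := by
        refine Finset.sum_congr rfl fun i _ => ?_
        rw [sylvester, Matrix.of_apply, Fin.addCases_right]
      rw [h2, Fin.sum_univ_eq_sum_range (fun i : ℕ => θ ^ i *
        (if i ∈ Set.Icc (j1 : ℕ) (j1 + a) then
            (f.map (Int.castRingHom ℝ)).coeff (i - j1) else 0)) (a + b),
        gres_shift θ (a + b) j1 a (by have := j1.2; omega)
          (fun k => (f.map (Int.castRingHom ℝ)).coeff k), ha, gres_aeval]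
      exact hpow _ (by have := j1.2; omega) _ hfe
  have hab : 0 < a + b := by omega
  have hmain := abs_det_mul_le A (fun i : Fin (a + b) => θ ^ (i : ℕ)) B
    ((1 + |θ|) ^ (2 * m) * ε) hB0 hent hvec ⟨0, hab⟩
  rw [Fintype.card_fin] at hmain
  have h3 : |(fun i : Fin (a + b) => θ ^ (i : ℕ)) ⟨0, hab⟩| = 1 := by simp
  rw [h3, mul_one] at hmain
  refine (hone.trans hmain).trans ?_
  have h4 : ((a + b : ℕ) : ℝ) ≤ ((2 * m : ℕ) : ℝ) := by
    have : a + b ≤ 2 * m := by omega
    exact_mod_cast this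
  have h5 : (((a + b).factorial : ℕ) : ℝ) ≤ (((2 * m).factorial : ℕ) : ℝ) := by
    have : (a + b).factorial ≤ (2 * m).factorial := Nat.factorial_le (by omega)
    exact_mod_cast this
  have h6 : B ^ (a + b - 1) ≤ B ^ (2 * m - 1) := pow_le_pow_right₀ hB (by omega)
  have h7 : ((a + b : ℕ) : ℝ) * (((a + b).factorial : ℕ) : ℝ) ≤
      ((2 * m : ℕ) : ℝ) * (((2 * m).factorial : ℕ) : ℝ) :=
    mul_le_mul h4 h5 (Nat.cast_nonneg _) (Nat.cast_nonneg _)
  have h8 : ((a + b : ℕ) : ℝ) * (((a + b).factorial : ℕ) : ℝ) * B ^ (a + b - 1) ≤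
      ((2 * m : ℕ) : ℝ) * (((2 * m).factorial : ℕ) : ℝ) * B ^ (2 * m - 1) :=
    mul_le_mul h7 h6 (by positivity) (by positivity)
  have h9 := mul_le_mul_of_nonneg_right h8 (show 0 ≤ (1 + |θ|) ^ (2 * m) * ε by positivity)
  refine h9.trans (le_of_eq ?_)
  ring

end Pool.MZDim
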