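import Pool.Agent.Lib.MZDim.GFac
import Pool.Agent.Lib.MZDim.GMah
import Pool.Agent.Lib.MZDim.GRes

/-! MP_301213_nt, growth of `dim Z_k` (store `MP_301213_nt_paper63.md`), module `GGel` (250):
GELFOND'S CRITERION for fixed degree (4.2).

PROOF. Note `lam > 0` (`m ≥ 1`, `2m-1 ≥ 1`, `a ≥ 0`). For all large `N` pick `R_N`; with
`ε_N = exp (-(lam/m) * N)` (`0 < ε_N ≤ 1`, `ε_N ^ m = exp (-(lam*N))`, for `N ≥ 1` it is `< 1`)
`exists_irreducible_small` gives `Q_N` irreducible, `Q_N ∣ R_N`, `|aeval θ Q_N| < ε_N`;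
`natDegree Q_N ≤ m` (`natDegree_le_of_dvd`), coefficients `≤ 2^m * (m+1) * exp (a*N)`
(`coeff_le_of_dvd`). Choose them as a function `Q : ℕ → ℤ[X]` for `N ≥ N0` (`Classical.choose`, or
`Filter.eventually_atTop` and `choose`). Claim: for large `N` the polynomials `Q N`, `Q (N+1)` are
associated. Otherwise `one_le_of_not_associated` with
`B = 2^m * (m+1) * exp (a*(N+1))` (`≥ 1`), `ε = ε_N` (`ε_(N+1) ≤ ε_N`) gives
`1 ≤ C * exp (a*(N+1)*(2m-1)) * exp (-(lam/m)*N) = C' * exp (-(lam/m - (2m-1)*a) * N)` with constants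
`C, C'` independent of `N`, which tends to `0` because `lam/m > (2m-1)*a`: false for large `N`.
So from some `N1` on `|aeval θ (Q N)|` is constant (associated polynomials in `ℤ[X]` differ by a
sign: units of `ℤ[X]` are `C 1`, `C (-1)`), and it is `< ε_N → 0`: `aeval θ (Q N1) = 0`. Take
`q = Q N1`. -/

namespace Pool.MZDim

open Polynomial

private theorem abs_aeval_associated (θ : ℝ) (p q : ℤ[X]) (h : Associated p q) :
    |aeval θ q| = |aeval θ p| := by
  obtain ⟨u, rfl⟩ := h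
  obtain ⟨r, hr, hru⟩ := Polynomial.isUnit_iff.mp u.isUnit
  rw [← hru, map_mul, abs_mul, aeval_C]
  rcases Int.isUnit_iff.mp hr with h | h <;> simp [h]

theorem gelfond (θ : ℝ) (m : ℕ) (hm : 1 ≤ m) (a lam : ℝ) (ha : 0 ≤ a)
    (hlam : (m : ℝ) * (2 * m - 1) * a < lam) (hl0 : 0 < lam)
    (h : ∀ᶠ N : ℕ in Filter.atTop, ∃ R : ℤ[X], R ≠ 0 ∧ R.natDegree ≤ m ∧
      (∀ n, |(R.coeff n : ℝ)| ≤ Real.exp (a * N)) ∧ |aeval θ R| < Real.exp (-(lam * N))) :
    ∃ q : ℤ[X], q ≠ 0 ∧ q.natDegree ≤ m ∧ aeval θ q = 0 := by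
  have hmr : (1 : ℝ) ≤ m := by exact_mod_cast hm
  have hm0 : (0 : ℝ) < m := by linarith
  obtain ⟨δ, hδd⟩ : ∃ δ : ℝ, δ = lam / m - (2 * m - 1) * a := ⟨_, rfl⟩
  have hδ : 0 < δ := by
    rw [hδd, sub_pos, lt_div_iff₀ hm0]
    linarith
  obtain ⟨κ, hκd⟩ : ∃ κ : ℝ, κ = lam / m := ⟨_, rfl⟩
  have hκ : 0 < κ := by rw [hκd]; positivity
  have hexpm : ∀ N : ℕ, Real.exp (-(κ * N)) ^ m = Real.exp (-(lam * N)) := by
    intro N
    rw [← Real.exp_nat_mul, hκd]
    congr 1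
    field_simp
  rw [Filter.eventually_atTop] at h
  obtain ⟨N0, h⟩ := h
  -- irreducible factors
  have h1 : ∀ N, N0 ≤ N → ∃ Q : ℤ[X], Irreducible Q ∧ Q.natDegree ≤ m ∧
      (∀ n, |(Q.coeff n : ℝ)| ≤ 2 ^ m * (m + 1) * Real.exp (a * N)) ∧
      |aeval θ Q| < Real.exp (-(κ * N)) := by
    intro N hN
    obtain ⟨R, hR0, hRd, hRc, hRs⟩ := h N hN
    have hε1 : Real.exp (-(κ * N)) ≤ 1 := by
      rw [Real.exp_le_one_iff]
      have : 0 ≤ κ * N := by positivity
      linarith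
    obtain ⟨Q, hQ1, hQ2, hQ3⟩ := exists_irreducible_small θ m (Real.exp (-(κ * N)))
      (Real.exp_pos _) hε1 R hR0 hRd (by rw [hexpm]; exact hRs)
    exact ⟨Q, hQ1, (natDegree_le_of_dvd hQ2 hR0).trans hRd,
      coeff_le_of_dvd m _ (Real.exp_pos _).le Q R hR0 hQ2 hRd hRc, hQ3⟩
  choose! Q hQi hQd hQc hQs using h1
  have htend : ∀ κ : ℝ, 0 < κ → Filter.Tendsto (fun N : ℕ => Real.exp (-(κ * N))) Filter.atTop
      (nhds 0) := by
    intro κ hκ
    refine Real.tendsto_exp_atBot.comp ?_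
    refine Filter.tendsto_neg_atTop_atBot.comp ?_
    exact Filter.Tendsto.const_mul_atTop hκ tendsto_natCast_atTop_atTop
  -- the constant
  obtain ⟨K, hK⟩ : ∃ K : ℝ, K = ((2 * m : ℕ) : ℝ) * (2 * m).factorial *
      (2 ^ m * (m + 1) * Real.exp a) ^ (2 * m - 1) * (1 + |θ|) ^ (2 * m) := ⟨_, rfl⟩
  have hsm : ∀ᶠ N : ℕ in Filter.atTop, K * Real.exp (-(δ * N)) < 1 := by
    have := (htend δ hδ).const_mul K
    rw [mul_zero] at this
    exact this.eventually_lt_const one_pos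
  have hass : ∀ᶠ N : ℕ in Filter.atTop, Associated (Q N) (Q (N + 1)) := by
    filter_upwards [hsm, Filter.eventually_ge_atTop N0, Filter.eventually_ge_atTop 1] with N hN1 hN2 hN3
    by_contra hcon
    have hN3r : (1 : ℝ) ≤ N := by exact_mod_cast hN3
    have hbase : (1 : ℝ) ≤ 2 ^ m * (m + 1) := by
      have h2 : (1 : ℝ) ≤ 2 ^ m := one_le_pow₀ (by norm_num)
      nlinarith
    have hBe : 1 ≤ Real.exp (a * (N + 1 : ℕ)) := Real.one_le_exp (by positivity)
    have hmono : Real.exp (a * N) ≤ Real.exp (a * (N + 1 : ℕ)) := by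
      apply Real.exp_le_exp.mpr
      push_cast
      nlinarith
    have hεm : Real.exp (-(κ * (N + 1 : ℕ))) ≤ Real.exp (-(κ * N)) := by
      apply Real.exp_le_exp.mpr
      push_cast
      nlinarith
    have hkey := one_le_of_not_associated θ m (2 ^ m * (m + 1) * Real.exp (a * (N + 1 : ℕ)))
      (Real.exp (-(κ * N))) (by nlinarith) (Real.exp_pos _).le
      (by
        rw [Real.exp_lt_one_iff]
        nlinarith)
      (Q N) (Q (N + 1)) (hQi N hN2) (hQi (N + 1) (by omega)) hcon (hQd N hN2) (hQd (N + 1) (by omega))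
      (fun n => (hQc N hN2 n).trans (mul_le_mul_of_nonneg_left hmono (by positivity)))
      (hQc (N + 1) (by omega)) (hQs N hN2).le ((hQs (N + 1) (by omega)).le.trans hεm)
    have e1 : ((2 * m : ℕ) : ℝ) * (2 * m).factorial *
        (2 ^ m * (m + 1) * Real.exp (a * (N + 1 : ℕ))) ^ (2 * m - 1) * (1 + |θ|) ^ (2 * m) *
        Real.exp (-(κ * N)) = K * Real.exp (-(δ * N)) := by
      have e2 : Real.exp (a * (N + 1 : ℕ)) = Real.exp a * Real.exp (a * N) := by
        rw [← Real.exp_add]; congr 1; push_cast; ring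
      have e3 : Real.exp (a * N) ^ (2 * m - 1) * Real.exp (-(κ * N)) = Real.exp (-(δ * N)) := by
        rw [← Real.exp_nat_mul, ← Real.exp_add]
        congr 1
        rw [hδd, hκd, Nat.cast_sub (by omega)]
        push_cast
        ring
      rw [e2, hK, ← e3, ← mul_assoc (2 ^ m * ((m : ℝ) + 1)) (Real.exp a), mul_pow _ (Real.exp (a * N))]
      ring
    rw [e1] at hkey
    linarith
  obtain ⟨N1, hN1⟩ := Filter.eventually_atTop.mp (hass.and (Filter.eventually_ge_atTop N0))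
  have hN10 : N0 ≤ N1 := (hN1 N1 le_rfl).2
  have hall : ∀ k, Associated (Q N1) (Q (N1 + k)) := by
    intro k
    induction k with
    | zero => exact Associated.refl _
    | succ k ih => exact ih.trans (hN1 (N1 + k) (by omega)).1
  have hle : ∀ k : ℕ, N1 ≤ k → |aeval θ (Q N1)| ≤ Real.exp (-(κ * k)) := by
    intro k hk
    obtain ⟨j, rfl⟩ := Nat.exists_eq_add_of_le hk
    rw [← abs_aeval_associated θ _ _ (hall j)]
    exact (hQs (N1 + j) (by omega)).le
  have hzero : |aeval θ (Q N1)| ≤ 0 := by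
    refine ge_of_tendsto (htend κ hκ) ?_
    filter_upwards [Filter.eventually_ge_atTop N1] with k hk
    exact hle k hk
  exact ⟨Q N1, (hQi N1 hN10).ne_zero, hQd N1 hN10, abs_nonpos_iff.mp hzero⟩

end Pool.MZDim
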