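import Mathlib

/-! MP_301213_nt, growth of `dim Z_k` (store `MP_301213_nt_paper63.md`), module `GL1` (180).

ONLY MATHLIB. Determinants of matrices of integer polynomials: degree and coefficients.
PROOF. Define privately `l1 (p : ℤ[X]) : ℝ := ∑ n ∈ p.support, |(p.coeff n : ℝ)|`. Facts:
(1) `|(p.coeff n : ℝ)| ≤ l1 p` (0 outside the support); (2) `l1 (p + q) ≤ l1 p + l1 q` and
`l1 (∑ p_i) ≤ ∑ l1 p_i` (write `l1 p = ∑ n ∈ range M, |p.coeff n|` for every `M` larger than the
degree); (3) `l1 (p * q) ≤ l1 p * l1 q` (`coeff_mul`, sum over `antidiagonal n` and over `n`; or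
write `q = ∑ C (q.coeff n) * X ^ n` and use (2) with `l1 (p * X ^ n) = l1 p`,
`l1 (C a * p) = |a| * l1 p`), hence `l1 (∏ p_i) ≤ ∏ l1 p_i`; (4) `l1 (-p) = l1 p`.
(5) If `p.natDegree ≤ K` and `|p.coeff n| ≤ B` for all `n` then `l1 p ≤ (K + 1) * B`.
Expand `A.det` with `Matrix.det_apply` (`∑ σ, sign σ • ∏ i, A (σ i) i`): degree
`natDegree_sum_le_of_forall_le`, `natDegree_prod_le`, each product has degree `≤ D * K`;
`l1 A.det ≤ ∑ σ, ∏ i, l1 (A (σ i) i) ≤ D! * ((K + 1) * B) ^ D`. -/

namespace Pool.MZDim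

open Polynomial

theorem natDegree_det_le_mul {D : ℕ} (A : Matrix (Fin D) (Fin D) ℤ[X]) (K : ℕ)
    (hA : ∀ i j, (A i j).natDegree ≤ K) : A.det.natDegree ≤ D * K := by
  rw [Matrix.det_apply]
  refine natDegree_sum_le_of_forall_le _ _ fun σ _ => ?_
  have h1 : (∏ i, A (σ i) i).natDegree ≤ D * K := by
    refine (natDegree_prod_le _ _).trans ?_
    refine (Finset.sum_le_sum fun i _ => hA (σ i) i).trans ?_
    rw [Finset.sum_const, Finset.card_univ, Fintype.card_fin, smul_eq_mul]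
  rcases Int.units_eq_one_or (Equiv.Perm.sign σ) with h | h
  · rw [h, one_smul]
    exact h1
  · rw [h, Units.neg_smul, one_smul, natDegree_neg]
    exact h1

private noncomputable def l1 (p : ℤ[X]) : ℝ := ∑ n ∈ p.support, |(p.coeff n : ℝ)|

private theorem l1_nonneg (p : ℤ[X]) : 0 ≤ l1 p := Finset.sum_nonneg fun _ _ => abs_nonneg _

private theorem l1_eq (p : ℤ[X]) (M : ℕ) (hM : p.natDegree < M) :
    l1 p = ∑ n ∈ Finset.range M, |(p.coeff n : ℝ)| := by
  unfold l1
  refine Finset.sum_subset (fun n hn => ?_) fun n _ hn => ?_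
  · rw [Finset.mem_range]
    exact lt_of_le_of_lt (le_natDegree_of_mem_supp n hn) hM
  · rw [notMem_support_iff.mp hn]
    simp

private theorem coeff_le_l1 (p : ℤ[X]) (n : ℕ) : |(p.coeff n : ℝ)| ≤ l1 p := by
  by_cases hn : n ∈ p.support
  · exact Finset.single_le_sum (f := fun n => |(p.coeff n : ℝ)|) (fun _ _ => abs_nonneg _) hn
  · rw [notMem_support_iff.mp hn]
    simpa using l1_nonneg p

private theorem l1_add (p q : ℤ[X]) : l1 (p + q) ≤ l1 p + l1 q := by
  set M := max p.natDegree q.natDegree + 1 with hM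
  have h1 : p.natDegree < M := by omega
  have h2 : q.natDegree < M := by omega
  have h3 : (p + q).natDegree < M := lt_of_le_of_lt (natDegree_add_le p q) (by omega)
  rw [l1_eq p M h1, l1_eq q M h2, l1_eq (p + q) M h3, ← Finset.sum_add_distrib]
  refine Finset.sum_le_sum fun n _ => ?_
  rw [coeff_add]
  push_cast
  exact abs_add_le _ _

private theorem l1_zero : l1 0 = 0 := by simp [l1]

private theorem l1_sum {ι : Type*} (s : Finset ι) (f : ι → ℤ[X]) :
    l1 (∑ i ∈ s, f i) ≤ ∑ i ∈ s, l1 (f i) := by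
  classical
  induction s using Finset.induction_on with
  | empty => simp [l1_zero]
  | insert a s ha ih =>
    rw [Finset.sum_insert ha, Finset.sum_insert ha]
    exact (l1_add _ _).trans (add_le_add_right ih _)

private theorem l1_mul_mon (p : ℤ[X]) (a : ℤ) (n : ℕ) :
    l1 (p * (C a * X ^ n)) ≤ l1 p * |(a : ℝ)| := by
  have h1 : (p * (C a * X ^ n)).natDegree < n + (p.natDegree + 1) := by
    have h2 := natDegree_mul_le (p := p) (q := C a * X ^ n)
    have h3 := natDegree_C_mul_X_pow_le a n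
    omega
  rw [l1_eq _ _ h1, l1_eq p (p.natDegree + 1) (Nat.lt_succ_self _), Finset.sum_range_add,
    Finset.sum_mul]
  have h4 : p * (C a * X ^ n) = (C a * p) * X ^ n := by ring
  have h5 : ∑ x ∈ Finset.range n, |((p * (C a * X ^ n)).coeff x : ℝ)| = 0 := by
    refine Finset.sum_eq_zero fun x hx => ?_
    rw [h4, coeff_mul_X_pow', if_neg (by have := Finset.mem_range.mp hx; omega)]
    simp
  rw [h5, zero_add]
  refine Finset.sum_le_sum fun x _ => ?_
  rw [h4, add_comm n x, coeff_mul_X_pow, coeff_C_mul]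
  push_cast
  rw [abs_mul, mul_comm]

private theorem l1_mul (p q : ℤ[X]) : l1 (p * q) ≤ l1 p * l1 q := by
  conv_lhs => rw [q.as_sum_support_C_mul_X_pow]
  rw [Finset.mul_sum]
  refine (l1_sum _ _).trans ?_
  unfold l1
  rw [Finset.mul_sum]
  exact Finset.sum_le_sum fun n _ => l1_mul_mon p (q.coeff n) n

private theorem l1_one : l1 1 ≤ 1 := by
  rw [l1_eq 1 1 (by simp)]
  simp

private theorem l1_prod {ι : Type*} (s : Finset ι) (f : ι → ℤ[X]) :
    l1 (∏ i ∈ s, f i) ≤ ∏ i ∈ s, l1 (f i) := by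
  classical
  induction s using Finset.induction_on with
  | empty => simpa using l1_one
  | insert a s ha ih =>
    rw [Finset.prod_insert ha, Finset.prod_insert ha]
    exact (l1_mul _ _).trans (mul_le_mul_of_nonneg_left ih (l1_nonneg _))

private theorem l1_neg (p : ℤ[X]) : l1 (-p) = l1 p := by
  unfold l1
  rw [support_neg]
  refine Finset.sum_congr rfl fun n _ => ?_
  rw [coeff_neg]
  push_cast
  rw [abs_neg]

private theorem l1_le (p : ℤ[X]) (K : ℕ) (B : ℝ) (hK : p.natDegree ≤ K)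
    (hc : ∀ n, |(p.coeff n : ℝ)| ≤ B) : l1 p ≤ (K + 1) * B := by
  rw [l1_eq p (K + 1) (by omega)]
  refine (Finset.sum_le_sum fun n _ => hc n).trans ?_
  rw [Finset.sum_const, Finset.card_range, nsmul_eq_mul]
  push_cast
  exact le_rfl

theorem abs_coeff_det_le {D : ℕ} (A : Matrix (Fin D) (Fin D) ℤ[X]) (K : ℕ) (B : ℝ) (hB : 0 ≤ B)
    (hA : ∀ i j, (A i j).natDegree ≤ K) (hc : ∀ i j n, |((A i j).coeff n : ℝ)| ≤ B) (n : ℕ) :
    |((A.det).coeff n : ℝ)| ≤ D.factorial * ((K + 1) * B) ^ D := by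
  refine (coeff_le_l1 _ n).trans ?_
  rw [Matrix.det_apply]
  refine (l1_sum _ _).trans ?_
  have h1 : ∀ σ ∈ (Finset.univ : Finset (Equiv.Perm (Fin D))),
      l1 (Equiv.Perm.sign σ • ∏ i, A (σ i) i) ≤ ((K + 1) * B) ^ D := by
    intro σ _
    have h2 : l1 (∏ i, A (σ i) i) ≤ ((K + 1) * B) ^ D := by
      refine (l1_prod _ _).trans ?_
      refine (Finset.prod_le_prod (fun i _ => l1_nonneg _)
        fun i _ => l1_le _ K B (hA (σ i) i) (hc (σ i) i)).trans ?_
      rw [Finset.prod_const, Finset.card_univ, Fintype.card_fin]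
    rcases Int.units_eq_one_or (Equiv.Perm.sign σ) with h | h
    · rw [h, one_smul]
      exact h2
    · rw [h, Units.neg_smul, one_smul, l1_neg]
      exact h2
  refine (Finset.sum_le_sum h1).trans ?_
  rw [Finset.sum_const, Finset.card_univ, Fintype.card_perm, Fintype.card_fin, nsmul_eq_mul]

end Pool.MZDim
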