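import Mathlib

/-! MP_301213_nt, growth of `dim Z_k` (store `MP_301213_nt_paper63.md`), module `GNormA` (150).

ONLY MATHLIB. Integral multiplication matrices of a finite dimensional subalgebra of `ℝ`.
PROOF. `D = Module.finrank ℚ E`, `b = Module.finBasis ℚ E : Basis (Fin D) ℚ E`, `ω j = (b j : ℝ)`.
For `i ∈ s` let `M i = Algebra.leftMulMatrix b ⟨e i, he i _⟩ : Matrix (Fin D) (Fin D) ℚ` (zero
matrix for `i ∉ s`); `e i * b j = ∑ k, M i k j • b k` (`Algebra.leftMulMatrix_eq_repr_mul`,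
`Basis.sum_repr`). `q` = product over `i ∈ s`, `k`, `j` of the denominators `(M i k j).den`
(positive), `m i k j = q * M i k j` is an integer (`Rat.mul_den_eq_num`, divisibility of the
product by each denominator). Independence: if `∑ j, (n j : ℝ) * ω j = 0` with integers `n j` then
`∑ j, (n j : ℚ) • b j = 0` in `E` (injectivity of the coercion), so `n j = 0`
(`Fintype.linearIndependent_iff`, `Basis.linearIndependent`). `E` is nontrivial (contains `1`), so
some `ω j ≠ 0` as soon as there is an index: `D ≥ 1` by `Module.finrank_pos`, and `b j ≠ 0`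
(`Basis.ne_zero`). -/

namespace Pool.MZDim

private lemma gna_den {α : Type*} (s : Finset α) (f : α → ℚ) :
    ∃ q : ℕ, 1 ≤ q ∧ ∀ a ∈ s, ∃ z : ℤ, (q : ℚ) * f a = z := by
  classical
  induction s using Finset.induction_on with
  | empty => exact ⟨1, le_rfl, by simp⟩
  | insert a s ha ih =>
    obtain ⟨q, hq, h⟩ := ih
    refine ⟨q * (f a).den, Nat.mul_pos hq (f a).pos, fun c hc => ?_⟩
    rcases Finset.mem_insert.1 hc with rfl | hc
    · refine ⟨q * (f c).num, ?_⟩
      have h1 : f c * ((f c).den : ℚ) = (f c).num := Rat.mul_den_eq_num (f c)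
      push_cast
      rw [← h1]
      ring
    · obtain ⟨z, hz⟩ := h c hc
      refine ⟨z * (f a).den, ?_⟩
      push_cast
      rw [← hz]
      ring

theorem exists_int_matrices {ι : Type*} (s : Finset ι) (E : Subalgebra ℚ ℝ)
    [FiniteDimensional ℚ E] (e : ι → ℝ) (he : ∀ i ∈ s, e i ∈ E) :
    ∃ (ω : Fin (Module.finrank ℚ E) → ℝ) (q : ℕ)
      (m : ι → Matrix (Fin (Module.finrank ℚ E)) (Fin (Module.finrank ℚ E)) ℤ),
      1 ≤ q ∧ (∃ j, ω j ≠ 0) ∧
      (∀ n : Fin (Module.finrank ℚ E) → ℤ, ∑ j, (n j : ℝ) * ω j = 0 → ∀ j, n j = 0) ∧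
      (∀ i ∈ s, ∀ j, ∑ k, ω k * (m i k j : ℝ) = q * e i * ω j) := by
  classical
  let b := Module.finBasis ℚ E
  let M : ι → Matrix (Fin (Module.finrank ℚ E)) (Fin (Module.finrank ℚ E)) ℚ := fun i =>
    if h : i ∈ s then Algebra.leftMulMatrix b ⟨e i, he i h⟩ else 0
  obtain ⟨q, hq, hz⟩ := gna_den (s ×ˢ (Finset.univ : Finset (Fin (Module.finrank ℚ E) ×
    Fin (Module.finrank ℚ E)))) (fun a => M a.1 a.2.1 a.2.2)
  choose! z hz' using hz
  have hinj : Function.Injective E.val := Subtype.val_injective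
  refine ⟨fun j => E.val (b j), q, fun i => Matrix.of fun k j => z (i, k, j), hq, ?_, ?_, ?_⟩
  · have hD : 0 < Module.finrank ℚ E := Module.finrank_pos
    refine ⟨⟨0, hD⟩, fun h => ?_⟩
    have h1 : E.val (b ⟨0, hD⟩) = E.val 0 := by rw [map_zero]; exact h
    exact b.ne_zero _ (hinj h1)
  · intro n hn j
    have h1 : ∑ j, (n j : ℚ) • b j = 0 := by
      apply hinj
      rw [map_sum, map_zero, ← hn]
      refine Finset.sum_congr rfl fun k _ => ?_
      rw [map_smul, Algebra.smul_def]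
      simp
    have h2 := (Fintype.linearIndependent_iff.1 b.linearIndependent) (fun j => (n j : ℚ)) h1 j
    exact_mod_cast h2
  · intro i hi j
    have h1 : (⟨e i, he i hi⟩ : E) * b j = ∑ k, M i k j • b k := by
      have h2 := b.sum_repr ((⟨e i, he i hi⟩ : E) * b j)
      rw [← h2]
      refine Finset.sum_congr rfl fun k _ => ?_
      simp only [M, dif_pos hi, Algebra.leftMulMatrix_eq_repr_mul, h2]
    have h2 := congrArg E.val h1
    rw [map_mul, map_sum] at h2
    have h3 : E.val (⟨e i, he i hi⟩ : E) = e i := rfl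
    rw [h3] at h2
    show ∑ k, E.val (b k) * ((z (i, k, j) : ℤ) : ℝ) = q * e i * E.val (b j)
    rw [mul_assoc, h2, Finset.mul_sum]
    refine Finset.sum_congr rfl fun k _ => ?_
    have h4 := hz' (i, k, j) (Finset.mem_product.2 ⟨hi, Finset.mem_univ _⟩)
    have h5 : ((z (i, k, j) : ℤ) : ℝ) = (q : ℝ) * ((M i k j : ℚ) : ℝ) := by
      have h6 : (((q : ℚ) * M i k j : ℚ) : ℝ) = (((z (i, k, j) : ℤ) : ℚ) : ℝ) := by
        rw [← h4]
      push_cast at h6
      exact h6.symm
    rw [h5, map_smul, Algebra.smul_def]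
    simp only [eq_ratCast]
    ring

end Pool.MZDim
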