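import Pool.Agent.Lib.MZDim.GDet
import Pool.Agent.Lib.MZDim.GL1
import Pool.Agent.Lib.MZDim.GNormA

/-! MP_301213_nt, growth of `dim Z_k` (store `MP_301213_nt_paper63.md`), module `GNorm` (280):
the NORM LEMMA (4.1). -/

namespace Pool.MZDim

open Polynomial Matrix

private theorem norm_core {ι : Type*} (s : Finset ι)
    (e : ι → ℝ) (kk : ι → ℕ) (K : ℕ) (hk : ∀ i ∈ s, kk i ≤ K) (θ : ℝ) (D : ℕ)
    (ω : Fin D → ℝ) (q : ℕ) (m : ι → Matrix (Fin D) (Fin D) ℤ)
    (hq : 1 ≤ q) (j0 : Fin D) (hj0 : ω j0 ≠ 0)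
    (hind : ∀ n : Fin D → ℤ, ∑ j, (n j : ℝ) * ω j = 0 → ∀ j, n j = 0)
    (hm : ∀ i ∈ s, ∀ j, ∑ k, ω k * (m i k j : ℝ) = q * e i * ω j) :
    ∃ C : ℝ, 1 ≤ C ∧ ∀ (z : ι → ℤ) (H : ℝ), 1 ≤ H → (∀ i ∈ s, |(z i : ℝ)| ≤ H) →
      (∑ i ∈ s, (z i : ℝ) * e i * θ ^ kk i) ≠ 0 →
      ∃ R : ℤ[X], R ≠ 0 ∧ R.natDegree ≤ D * K ∧
        (∀ n, |(R.coeff n : ℝ)| ≤ C * H ^ D) ∧
        |aeval θ R| ≤ C * H ^ (D - 1) *
          |∑ i ∈ s, (z i : ℝ) * e i * θ ^ kk i| := by
  set C1 : ℝ := 1 + ∑ i ∈ s, ∑ k, ∑ j, |(m i k j : ℝ)| with hC1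
  have hC1sum : ∀ k j, ∑ i ∈ s, |(m i k j : ℝ)| ≤ C1 := by
    intro k j
    have h1 : ∀ i ∈ s, |(m i k j : ℝ)| ≤ ∑ k, ∑ j, |(m i k j : ℝ)| := by
      intro i _
      calc |(m i k j : ℝ)| ≤ ∑ j, |(m i k j : ℝ)| :=
            Finset.single_le_sum (f := fun j => |(m i k j : ℝ)|) (fun _ _ => abs_nonneg _)
              (Finset.mem_univ j)
        _ ≤ ∑ k, ∑ j, |(m i k j : ℝ)| :=
            Finset.single_le_sum (f := fun k => ∑ j, |(m i k j : ℝ)|)
              (fun _ _ => Finset.sum_nonneg (fun _ _ => abs_nonneg _)) (Finset.mem_univ k)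
    have h2 := Finset.sum_le_sum h1
    rw [hC1]; linarith
  have hC1pos : 1 ≤ C1 := by
    rw [hC1]
    have : 0 ≤ ∑ i ∈ s, ∑ k, ∑ j, |(m i k j : ℝ)| :=
      Finset.sum_nonneg (fun _ _ => Finset.sum_nonneg (fun _ _ =>
        Finset.sum_nonneg (fun _ _ => abs_nonneg _)))
    linarith
  set C2 : ℝ := C1 * (1 + |θ|) ^ K with hC2
  have hth : (1:ℝ) ≤ 1 + |θ| := by linarith [abs_nonneg θ]
  have hC2pos : 1 ≤ C2 := by
    rw [hC2]; exact one_le_mul_of_one_le_of_one_le hC1pos (one_le_pow₀ hth)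
  set Ω : ℝ := ∑ j, |ω j| with hΩ
  have hΩ0 : 0 ≤ Ω := Finset.sum_nonneg (fun _ _ => abs_nonneg _)
  have hω0 : 0 < |ω j0| := abs_pos.mpr hj0
  set CA : ℝ := (D.factorial : ℝ) * ((K + 1) * C1) ^ D with hCA
  set CB : ℝ := (D : ℝ) * D.factorial * C2 ^ (D - 1) * (q * Ω) / |ω j0| with hCB
  have hCA0 : 0 ≤ CA := by rw [hCA]; positivity
  have hCB0 : 0 ≤ CB := by rw [hCB]; positivity
  refine ⟨1 + CA + CB, by linarith, ?_⟩
  intro z H hH hz hP
  have hH0 : (0:ℝ) ≤ H := by linarith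
  set P : ℝ := ∑ i ∈ s, (z i : ℝ) * e i * θ ^ kk i with hPdef
  set A : Matrix (Fin D) (Fin D) ℤ[X] :=
    Matrix.of (fun k j => ∑ i ∈ s, C (z i * m i k j) * X ^ (kk i)) with hA
  have hAkj : ∀ k j, A k j = ∑ i ∈ s, C (z i * m i k j) * X ^ (kk i) := fun k j => rfl
  -- degree
  have hdeg : ∀ k j, (A k j).natDegree ≤ K := by
    intro k j
    rw [hAkj]
    refine natDegree_sum_le_of_forall_le _ _ ?_
    intro i hi
    exact (natDegree_C_mul_X_pow_le _ _).trans (hk i hi)
  -- coefficients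
  have hcoef : ∀ k j n, |((A k j).coeff n : ℝ)| ≤ C1 * H := by
    intro k j n
    rw [hAkj, finsetSum_coeff]
    push_cast
    calc |∑ i ∈ s, (((C (z i * m i k j) * X ^ (kk i) : ℤ[X]).coeff n : ℤ) : ℝ)|
        ≤ ∑ i ∈ s, |(((C (z i * m i k j) * X ^ (kk i) : ℤ[X]).coeff n : ℤ) : ℝ)| :=
          Finset.abs_sum_le_sum_abs _ _
      _ ≤ ∑ i ∈ s, |(m i k j : ℝ)| * H := by
          refine Finset.sum_le_sum ?_
          intro i hi
          rw [coeff_C_mul_X_pow]
          split_ifs with h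
          · push_cast
            rw [abs_mul, mul_comm]
            exact mul_le_mul_of_nonneg_left (hz i hi) (abs_nonneg _)
          · simp only [Int.cast_zero, abs_zero]
            positivity
      _ = (∑ i ∈ s, |(m i k j : ℝ)|) * H := by rw [Finset.sum_mul]
      _ ≤ C1 * H := mul_le_mul_of_nonneg_right (hC1sum k j) hH0
  -- the value matrix
  have hval : ∀ k j, aeval θ (A k j) = ∑ i ∈ s, (z i : ℝ) * (m i k j : ℝ) * θ ^ (kk i) := by
    intro k j
    rw [hAkj, map_sum]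
    refine Finset.sum_congr rfl ?_
    intro i _
    rw [map_mul, map_pow, aeval_X, aeval_C]
    simp
  set B : Matrix (Fin D) (Fin D) ℝ := A.map (aeval θ) with hB
  have hBkj : ∀ k j, B k j = ∑ i ∈ s, (z i : ℝ) * (m i k j : ℝ) * θ ^ (kk i) := by
    intro k j; rw [hB, Matrix.map_apply, hval]
  have hdetB : aeval θ A.det = B.det := by
    rw [hB]
    exact (AlgHom.map_det (aeval θ : ℤ[X] →ₐ[ℤ] ℝ) A)
  have hBbound : ∀ k j, |B k j| ≤ C2 * H := by
    intro k j
    rw [hBkj]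
    calc |∑ i ∈ s, (z i : ℝ) * (m i k j : ℝ) * θ ^ (kk i)|
        ≤ ∑ i ∈ s, |(z i : ℝ) * (m i k j : ℝ) * θ ^ (kk i)| := Finset.abs_sum_le_sum_abs _ _
      _ ≤ ∑ i ∈ s, |(m i k j : ℝ)| * ((1 + |θ|) ^ K * H) := by
          refine Finset.sum_le_sum ?_
          intro i hi
          rw [abs_mul, abs_mul, abs_pow]
          have h1 : |θ| ^ kk i ≤ (1 + |θ|) ^ K :=
            (pow_le_pow_left₀ (abs_nonneg θ) (by linarith) _).trans
              (pow_le_pow_right₀ hth (hk i hi))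
          have h2 := hz i hi
          have h3 : |(z i : ℝ)| * |θ| ^ kk i ≤ H * (1 + |θ|) ^ K :=
            mul_le_mul h2 h1 (by positivity) hH0
          have h4 := mul_le_mul_of_nonneg_left h3 (abs_nonneg (m i k j : ℝ))
          nlinarith [h4]
      _ = (∑ i ∈ s, |(m i k j : ℝ)|) * ((1 + |θ|) ^ K * H) := by rw [Finset.sum_mul]
      _ ≤ C1 * ((1 + |θ|) ^ K * H) :=
          mul_le_mul_of_nonneg_right (hC1sum k j) (by positivity)
      _ = C2 * H := by rw [hC2]; ring
  have hvec : ∀ j, (ω ᵥ* B) j = q * P * ω j := by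
    intro j
    rw [Matrix.vecMul, dotProduct]
    calc ∑ k, ω k * B k j = ∑ k, ∑ i ∈ s, (z i : ℝ) * θ ^ (kk i) * (ω k * (m i k j : ℝ)) := by
          refine Finset.sum_congr rfl ?_
          intro k _
          rw [hBkj, Finset.mul_sum]
          exact Finset.sum_congr rfl (fun i _ => by ring)
      _ = ∑ i ∈ s, (z i : ℝ) * θ ^ (kk i) * (q * e i * ω j) := by
          rw [Finset.sum_comm]
          refine Finset.sum_congr rfl ?_
          intro i hi
          rw [← Finset.mul_sum, hm i hi j]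
      _ = q * P * ω j := by
          rw [hPdef, Finset.mul_sum, Finset.sum_mul]
          exact Finset.sum_congr rfl (fun i _ => by ring)
  refine ⟨A.det, ?_, natDegree_det_le_mul A K hdeg, ?_, ?_⟩
  · -- nonvanishing
    intro h0
    obtain ⟨v, hv0, hv⟩ := Matrix.exists_mulVec_eq_zero_iff.mpr h0
    set φ : ℤ[X] →+* ℝ[X] := Polynomial.mapRingHom (Int.castRingHom ℝ) with hφ
    set Pt : ℝ[X] := ∑ i ∈ s, C ((z i : ℝ) * e i) * X ^ (kk i) with hPt
    have hPtθ : Pt.eval θ = P := by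
      rw [hPt, eval_finsetSum, hPdef]
      refine Finset.sum_congr rfl ?_
      intro i _
      rw [eval_mul, eval_C, eval_pow, eval_X]
    have hPt0 : Pt ≠ 0 := by
      intro h; apply hP; rw [← hPtθ, h, eval_zero]
    have hcol : ∀ j, ∑ k, C (ω k) * φ (A k j) = C (q : ℝ) * Pt * C (ω j) := by
      intro j
      calc ∑ k, C (ω k) * φ (A k j)
          = ∑ k, ∑ i ∈ s, C ((z i : ℝ) * (ω k * (m i k j : ℝ))) * X ^ (kk i) := by
            refine Finset.sum_congr rfl ?_
            intro k _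
            rw [hAkj, map_sum, Finset.mul_sum]
            refine Finset.sum_congr rfl ?_
            intro i _
            rw [map_mul, map_pow, hφ, coe_mapRingHom, map_C, map_X, ← mul_assoc, ← C_mul]
            congr 2
            simp only [eq_intCast, Int.cast_mul]
            ring
        _ = ∑ i ∈ s, C ((z i : ℝ) * (q * e i * ω j)) * X ^ (kk i) := by
            rw [Finset.sum_comm]
            refine Finset.sum_congr rfl ?_
            intro i hi
            rw [← Finset.sum_mul, ← map_sum, ← Finset.mul_sum, hm i hi j]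
        _ = C (q : ℝ) * Pt * C (ω j) := by
            rw [hPt, Finset.mul_sum, Finset.sum_mul]
            refine Finset.sum_congr rfl ?_
            intro i _
            simp only [C_mul]
            ring
    have hsum : C (q : ℝ) * Pt * ∑ j, C (ω j) * φ (v j) = 0 := by
      calc C (q : ℝ) * Pt * ∑ j, C (ω j) * φ (v j)
          = ∑ j, (C (q : ℝ) * Pt * C (ω j)) * φ (v j) := by
            rw [Finset.mul_sum]; exact Finset.sum_congr rfl (fun j _ => by ring)
        _ = ∑ j, ∑ k, C (ω k) * φ (A k j * v j) := by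
            refine Finset.sum_congr rfl ?_
            intro j _
            rw [← hcol j, Finset.sum_mul]
            refine Finset.sum_congr rfl ?_
            intro k _
            rw [map_mul]; ring
        _ = ∑ k, C (ω k) * φ ((A *ᵥ v) k) := by
            rw [Finset.sum_comm]
            refine Finset.sum_congr rfl ?_
            intro k _
            rw [Matrix.mulVec, dotProduct, map_sum, Finset.mul_sum]
        _ = 0 := by
            rw [hv]; simp
    have hqne : (C (q : ℝ) : ℝ[X]) ≠ 0 := by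
      rw [Ne, C_eq_zero]
      exact_mod_cast (by omega : q ≠ 0)
    have hz0 : ∑ j, C (ω j) * φ (v j) = 0 := by
      rcases mul_eq_zero.mp hsum with h | h
      · rcases mul_eq_zero.mp h with h | h
        · exact absurd h hqne
        · exact absurd h hPt0
      · exact h
    apply hv0
    funext j
    ext n
    have hcn : ∑ j, (((v j).coeff n : ℤ) : ℝ) * ω j = 0 := by
      have := congrArg (fun p : ℝ[X] => p.coeff n) hz0
      simp only [finsetSum_coeff, coeff_C_mul, coeff_zero] at this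
      rw [← this]
      refine Finset.sum_congr rfl ?_
      intro j _
      rw [hφ, coe_mapRingHom, coeff_map, eq_intCast]
      ring
    have := hind (fun j => (v j).coeff n) hcn j
    simpa using this
  · intro n
    have h := abs_coeff_det_le A K (C1 * H) (by positivity) hdeg hcoef n
    refine h.trans ?_
    have : (D.factorial : ℝ) * ((K + 1) * (C1 * H)) ^ D = CA * H ^ D := by
      rw [hCA, ← mul_assoc, mul_pow ((K + 1 : ℝ) * C1) H]; ring
    rw [this]
    exact mul_le_mul_of_nonneg_right (by linarith) (by positivity)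
  · have hε : ∀ j, |(ω ᵥ* B) j| ≤ q * |P| * Ω := by
      intro j
      rw [hvec, abs_mul, abs_mul, Nat.abs_cast]
      refine mul_le_mul_of_nonneg_left ?_ (by positivity)
      exact Finset.single_le_sum (f := fun j => |ω j|) (fun _ _ => abs_nonneg _)
        (Finset.mem_univ j)
    have h := abs_det_mul_le B ω (C2 * H) (q * |P| * Ω) (by positivity) hBbound hε j0
    rw [Fintype.card_fin] at h
    rw [hdetB]
    have h2 : |B.det| ≤ ((D : ℝ) * D.factorial * (C2 * H) ^ (D - 1) * (q * |P| * Ω)) / |ω j0| := by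
      rw [le_div_iff₀ hω0]; exact h
    refine h2.trans ?_
    have h3 : ((D : ℝ) * D.factorial * (C2 * H) ^ (D - 1) * (q * |P| * Ω)) / |ω j0|
        = CB * H ^ (D - 1) * |P| := by
      rw [hCB, mul_pow]; ring
    rw [h3]
    have : CB ≤ 1 + CA + CB := by linarith
    exact mul_le_mul_of_nonneg_right (mul_le_mul_of_nonneg_right this (by positivity))
      (abs_nonneg _)

theorem norm_lemma {ι : Type*} (s : Finset ι) (E : Subalgebra ℚ ℝ) [FiniteDimensional ℚ E]
    (e : ι → ℝ) (he : ∀ i ∈ s, e i ∈ E) (kk : ι → ℕ) (K : ℕ) (hk : ∀ i ∈ s, kk i ≤ K) (θ : ℝ) :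
    ∃ C : ℝ, 1 ≤ C ∧ ∀ (z : ι → ℤ) (H : ℝ), 1 ≤ H → (∀ i ∈ s, |(z i : ℝ)| ≤ H) →
      (∑ i ∈ s, (z i : ℝ) * e i * θ ^ kk i) ≠ 0 →
      ∃ R : ℤ[X], R ≠ 0 ∧ R.natDegree ≤ Module.finrank ℚ E * K ∧
        (∀ n, |(R.coeff n : ℝ)| ≤ C * H ^ Module.finrank ℚ E) ∧
        |aeval θ R| ≤ C * H ^ (Module.finrank ℚ E - 1) *
          |∑ i ∈ s, (z i : ℝ) * e i * θ ^ kk i| := by
  obtain ⟨ω, q, m, hq, ⟨j0, hj0⟩, hind, hm⟩ := exists_int_matrices s E e he
  exact norm_core s e kk K hk θ _ ω q m hq j0 hj0 hind hm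

end Pool.MZDim
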