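import Pool.Agent.Lib.MZDim.Defs
import Pool.Agent.Lib.MZDim.GNorm

/-! MP_301213_nt, growth of `dim Z_k` (store `MP_301213_nt_paper63.md`), module `GPoly` (220).

From small linear forms in multiple zeta values to small values of integer polynomials at `π`.
PROOF. (0) `{l : List ℕ | Adm l ∧ l.sum ≤ K}` is finite (`Adm l` : all letters `≥ 2`, so
`l.length ≤ K` and all letters `≤ K`; e.g. subset of the finite set of lists of length `≤ K` with
entries `< K+1`, `List.finite_length_le` for `Fin (K+1)` or induction on `K`: such an `l` is `[]` or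
`a :: l'` with `a ≤ K`, `l'.sum ≤ K - 2`). Let `s` be the corresponding `Finset` (`toFinset`).
(1) `norm_lemma s E (fun l => zv l / π ^ κ l) _ κ K' _ Real.pi` gives `C`. Let `g = finrank ℚ E ≤ D`.
(2) For `N` as in `Forms` and with `C < exp N` take `b`, `z l = b l`, `H = exp (c*N) ≥ 1`:
`∑ l ∈ s, z l * (zv l / π^κ l) * π^κ l = ∑ l ∈ s, b l * zv l = ∑ l ∈ b.support, b l * zv l`
(`Finset.sum_subset`: the support is contained in `s`, outside the support `b l = 0`), nonzero.
So there is `R` with `natDegree ≤ g * K' ≤ D * K'`, coefficients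
`≤ C * exp (c*N)^g ≤ exp N * exp (c*N)^D = exp ((D*c+1)*N)`, and
`|aeval π R| ≤ C * exp (c*N)^(g-1) * exp (-(lam*N)) < exp N * exp (c*N)^D * exp (-(lam*N))
= exp (-((lam - D*c - 1)*N))`. -/

open HofPers Polynomial

namespace Pool.MZDim

theorem finite_words (K : ℕ) : {l : List ℕ | Adm l ∧ l.sum ≤ K}.Finite := by
  have h : ∀ n : ℕ, {l : List ℕ | l.length = n ∧ ∀ a ∈ l, a ≤ K}.Finite := by
    intro n
    induction n with
    | zero =>
      refine (Set.finite_singleton ([] : List ℕ)).subset ?_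
      rintro l ⟨hl, _⟩
      exact List.length_eq_zero_iff.1 hl
    | succ n ih =>
      refine ((Set.finite_le_nat K).image2 (fun a l => a :: l) ih).subset ?_
      rintro l ⟨hl, hl2⟩
      match l, hl, hl2 with
      | a :: l, hl, hl2 =>
        refine ⟨a, hl2 a (by simp), l, ⟨by simpa using hl, fun b hb => hl2 b (by simp [hb])⟩, rfl⟩
  refine ((Set.finite_le_nat K).biUnion (fun n _ => h n)).subset ?_
  rintro l ⟨hl, hs⟩
  have hlen : l.length ≤ l.sum := by
    clear hs
    induction l with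
    | nil => simp
    | cons a l ih =>
      have h1 : 2 ≤ a := hl a (by simp)
      have h2 := ih (fun b hb => hl b (by simp [hb]))
      simp only [List.length_cons, List.sum_cons]
      omega
  simp only [Set.mem_iUnion, Set.mem_ofPred_eq]
  refine ⟨l.length, hlen.trans hs, rfl, fun a ha => ?_⟩
  exact (List.le_sum_of_mem ha).trans hs

theorem forms_poly (K : ℕ) (c lam : ℝ) (hc : 0 ≤ c) (hF : Forms K c lam) (E : Subalgebra ℚ ℝ)
    (hE : FiniteDimensional ℚ E) (D : ℕ) (hD : Module.finrank ℚ E ≤ D) (κ : List ℕ → ℕ) (K' : ℕ)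
    (hκ : ∀ l, Adm l → l.sum ≤ K → κ l ≤ K')
    (hE : ∀ l, Adm l → l.sum ≤ K → zv l / Real.pi ^ κ l ∈ E) :
    ∀ᶠ N : ℕ in Filter.atTop, ∃ R : ℤ[X], R ≠ 0 ∧ R.natDegree ≤ D * K' ∧
      (∀ n, |(R.coeff n : ℝ)| ≤ Real.exp ((D * c + 1) * N)) ∧
      |aeval Real.pi R| < Real.exp (-((lam - D * c - 1) * N)) := by
  classical
  obtain ⟨C, hC1, hC⟩ := norm_lemma (finite_words K).toFinset E
    (fun l => zv l / Real.pi ^ κ l)
    (fun l hl => by
      rw [Set.Finite.mem_toFinset] at hl
      exact hE l hl.1 hl.2) κ K'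
    (fun l hl => by
      rw [Set.Finite.mem_toFinset] at hl
      exact hκ l hl.1 hl.2) Real.pi
  have hexp : ∀ᶠ N : ℕ in Filter.atTop, C < Real.exp N :=
    (Real.tendsto_exp_atTop.comp tendsto_natCast_atTop_atTop).eventually_gt_atTop C
  filter_upwards [hF, hexp] with N hN hCN
  obtain ⟨b, hb1, hb2, hb3, hb4⟩ := hN
  have hH : 1 ≤ Real.exp (c * N) := by
    rw [Real.one_le_exp_iff]
    positivity
  have hpi : Real.pi ≠ 0 := Real.pi_ne_zero
  have hsum : ∑ l ∈ (finite_words K).toFinset, ((b l : ℤ) : ℝ) * (zv l / Real.pi ^ κ l) *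
      Real.pi ^ κ l = ∑ l ∈ b.support, ((b l : ℤ) : ℝ) * zv l := by
    symm
    refine (Finset.sum_subset (fun l hl => ?_) (fun l _ hl => ?_)).trans
      (Finset.sum_congr rfl fun l _ => ?_)
    · rw [Set.Finite.mem_toFinset]
      exact hb1 l hl
    · rw [Finsupp.notMem_support_iff] at hl
      rw [hl]
      simp
    · rw [mul_assoc, div_mul_cancel₀ _ (pow_ne_zero _ hpi)]
  obtain ⟨R, hR0, hR1, hR2, hR3⟩ := hC (fun l => b l) (Real.exp (c * N)) hH (fun l _ => hb2 l) (by
    rw [hsum]
    exact abs_pos.1 hb3)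
  have hC0 : 0 < C := by linarith
  have hpow : ∀ k, k ≤ D → Real.exp (c * N) ^ k ≤ Real.exp (D * c * N) := by
    intro k hk
    calc Real.exp (c * N) ^ k ≤ Real.exp (c * N) ^ D := pow_le_pow_right₀ hH hk
      _ = Real.exp (D * c * N) := by
        rw [← Real.exp_nat_mul]
        congr 1
        ring
  refine ⟨R, hR0, hR1.trans (Nat.mul_le_mul_right _ hD), fun n => ?_, ?_⟩
  · refine (hR2 n).trans ?_
    calc C * Real.exp (c * N) ^ Module.finrank ℚ E ≤ Real.exp N * Real.exp (D * c * N) :=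
          mul_le_mul hCN.le (hpow _ hD) (by positivity) (by positivity)
      _ = Real.exp ((D * c + 1) * N) := by
        rw [← Real.exp_add]
        congr 1
        ring
  · refine hR3.trans_lt ?_
    rw [hsum]
    have h1 : Real.exp (c * N) ^ (Module.finrank ℚ E - 1) ≤ Real.exp (D * c * N) :=
      hpow _ ((Nat.sub_le _ _).trans hD)
    calc C * Real.exp (c * N) ^ (Module.finrank ℚ E - 1) *
          |∑ l ∈ b.support, ((b l : ℤ) : ℝ) * zv l|
        ≤ C * Real.exp (D * c * N) * Real.exp (-(lam * N)) :=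
          mul_le_mul (mul_le_mul_of_nonneg_left h1 hC0.le) hb4 (abs_nonneg _) (by positivity)
      _ < Real.exp N * Real.exp (D * c * N) * Real.exp (-(lam * N)) := by
          refine mul_lt_mul_of_pos_right (mul_lt_mul_of_pos_right hCN ?_) ?_ <;> positivity
      _ = Real.exp (-((lam - D * c - 1) * N)) := by
        rw [← Real.exp_add, ← Real.exp_add]
        congr 1
        ring

end Pool.MZDim
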