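import Pool.Agent.Lib.MZDim.GAdj
import Pool.Agent.Lib.MZDim.GPoly
import Pool.Agent.Lib.MZDim.GGel

/-! MP_301213_nt, growth of `dim Z_k` (store `MP_301213_nt_paper63.md`, lead's linear version),
module `GSmall` (180): a small field cannot contain all `zv l / π ^ |l|`.

PROOF. Suppose `finrank E ≤ D`. Put `c = 12K+4`, `L = 2Δ - 12K - 2`, `m = D*K ≥ 1`.
(1) `forms_poly` with `D`, `κ = List.sum`, `K' = K`: for large `N` there is `R ≠ 0` of degree `≤ m`,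
coefficients `≤ exp (a N)`, `a = D*c+1`, `|aeval π R| < exp (-((L - D*c - 1) N))`. `gelfond` with
`lam = L - D*c - 1`: the condition is `m(2m-1)a < lam`; with `D, K ≥ 1`:
`a = 12DK + 4D + 1 ≤ 17DK`, `m(2m-1) ≤ 2D²K²`, so the left side is `≤ 34 D³K³`, and
`lam = 2Δ - 12K - 3 - 12DK - 4D ≥ 400D³K³ - 31DK ≥ 369D³K³`.
So there is `q ≠ 0` of degree `≤ D*K` with `aeval π q = 0`.
(2) `exists_adjoin E _ π q (D*K)`: `E'` of dimension `≤ D * (D*K)` containing `E` and `π`,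
so `zv l = (zv l / π^(l.sum)) * π^(l.sum) ∈ E'`, i.e. `zv l / π^0 ∈ E'`.
`forms_poly` with `D' = D²K`, `κ = 0`, `K' = 0`: for large `N` there is `R ≠ 0` of degree `0`,
`R = C r`, `r ≠ 0` an integer, `1 ≤ |r| = |aeval π R| < exp (-((L - D²K c - 1) N)) ≤ 1` since
`L - D²Kc - 1 = 2Δ - 12K - 3 - 12D²K² - 4D²K ≥ 400D³K³ - 31D²K² > 0`. Contradiction
(take any `N` satisfying the eventual property: `Filter.Eventually.exists`). -/

open HofPers Polynomial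

namespace Pool.MZDim

private theorem gsmall_num (d k δ : ℝ) (hd : 1 ≤ d) (hk : 1 ≤ k) (h : 200 * d ^ 3 * k ^ 3 ≤ δ) :
    (d * k) * (2 * (d * k) - 1) * (d * (12 * k + 4) + 1) <
      2 * δ - 12 * k - 2 - d * (12 * k + 4) - 1 ∧
    0 < 2 * δ - 12 * k - 2 - d * (12 * k + 4) - 1 ∧
    0 ≤ 2 * δ - 12 * k - 2 - d * (d * k) * (12 * k + 4) - 1 := by
  obtain ⟨u, hu⟩ : ∃ u, u = d * k := ⟨_, rfl⟩
  have h1 : k ≤ u := by rw [hu]; nlinarith
  have h2 : d ≤ u := by rw [hu]; nlinarith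
  have h3 : 1 ≤ u := hd.trans h2
  have h4 : u ≤ u ^ 2 := by nlinarith
  have h5 : u ^ 2 ≤ u ^ 3 := by nlinarith [sq_nonneg u]
  have h6 : 200 * u ^ 3 ≤ δ := by
    have : 200 * u ^ 3 = 200 * d ^ 3 * k ^ 3 := by rw [hu]; ring
    linarith
  have h7 : d * (12 * k + 4) = 12 * u + 4 * d := by rw [hu]; ring
  have h8 : d * (d * k) * (12 * k + 4) ≤ 16 * u ^ 2 := by
    have e : d * (d * k) * (12 * k + 4) = 12 * u ^ 2 + 4 * (d * u) := by rw [hu]; ring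
    rw [e]
    nlinarith
  have h9 : u * (2 * u - 1) * (12 * u + 4 * d + 1) ≤ 34 * u ^ 3 := by
    have e1 : 12 * u + 4 * d + 1 ≤ 17 * u := by linarith
    have e2 : 0 ≤ u * (2 * u - 1) := by nlinarith
    have e3 := mul_le_mul_of_nonneg_left e1 e2
    nlinarith
  rw [← hu, h7]
  refine ⟨by nlinarith, by nlinarith, ?_⟩
  rw [hu] at h8 ⊢
  rw [← hu] at h8 ⊢
  nlinarith

private theorem gsmall_num2 (d k δ : ℝ) (hd : 1 ≤ d) (hk : 2 ≤ k) (h : 25 * d ^ 3 * k ^ 3 ≤ δ) :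
    (d * k) * (2 * (d * k) - 1) * (d * (12 * k + 4) + 1) <
      2 * δ - 12 * k - 2 - d * (12 * k + 4) - 1 ∧
    0 < 2 * δ - 12 * k - 2 - d * (12 * k + 4) - 1 ∧
    0 ≤ 2 * δ - 12 * k - 2 - d * (d * k) * (12 * k + 4) - 1 := by
  obtain ⟨u, hu⟩ : ∃ u, u = d * k := ⟨_, rfl⟩
  have h1 : k ≤ u := by rw [hu]; nlinarith
  have h2 : 2 * d ≤ u := by rw [hu]; nlinarith
  have h3 : 2 ≤ u := by linarith
  have h4 : 2 * u ≤ u ^ 2 := by nlinarith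
  have h5 : 2 * u ^ 2 ≤ u ^ 3 := by nlinarith [sq_nonneg u]
  have h6 : 25 * u ^ 3 ≤ δ := by
    have : 25 * u ^ 3 = 25 * d ^ 3 * k ^ 3 := by rw [hu]; ring
    linarith
  have h7 : d * (12 * k + 4) = 12 * u + 4 * d := by rw [hu]; ring
  have h8 : d * (d * k) * (12 * k + 4) ≤ 14 * u ^ 2 := by
    have e : d * (d * k) * (12 * k + 4) = 12 * u ^ 2 + 4 * (d * u) := by rw [hu]; ring
    rw [e]
    nlinarith
  have h9 : u * (2 * u - 1) * (12 * u + 4 * d + 1) ≤ 28 * u ^ 3 := by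
    have e1 : 12 * u + 4 * d + 1 ≤ 14 * u + 1 := by linarith
    have e2 : 0 ≤ u * (2 * u - 1) := by nlinarith
    have e3 := mul_le_mul_of_nonneg_left e1 e2
    nlinarith
  rw [← hu, h7]
  rw [← hu] at h8
  refine ⟨by linarith, by linarith, by linarith⟩

private theorem gsmall_core (D K Δ : ℕ) (hD : 1 ≤ D) (hK : 1 ≤ K)
    (n1 : ((D : ℝ) * K) * (2 * (D * K) - 1) * (D * (12 * K + 4) + 1) <
      2 * Δ - 12 * K - 2 - D * (12 * K + 4) - 1)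
    (n2 : 0 < 2 * (Δ : ℝ) - 12 * K - 2 - D * (12 * K + 4) - 1)
    (n3 : 0 ≤ 2 * (Δ : ℝ) - 12 * K - 2 - D * (D * K) * (12 * K + 4) - 1)
    (hF : Forms K (12 * (K : ℝ) + 4) (2 * (Δ : ℝ) - 12 * K - 2)) (E : Subalgebra ℚ ℝ)
    (hE : FiniteDimensional ℚ E)
    (hz : ∀ l : List ℕ, Adm l → l.sum ≤ K → zv l / Real.pi ^ l.sum ∈ E) :
    D < Module.finrank ℚ E := by
  by_contra hcon
  have hle : Module.finrank ℚ E ≤ D := not_lt.1 hcon
  have hc : (0 : ℝ) ≤ 12 * (K : ℝ) + 4 := by positivity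
  have f1 := forms_poly K _ _ hc hF E hE D hle List.sum K (fun _ _ h2 => h2)
    (fun l h1 h2 => hz l h1 h2)
  have hm : 1 ≤ D * K := Nat.mul_pos hD hK
  obtain ⟨q, hq0, hqd, hq⟩ := gelfond Real.pi (D * K) hm (D * (12 * (K : ℝ) + 4) + 1)
    (2 * (Δ : ℝ) - 12 * K - 2 - D * (12 * (K : ℝ) + 4) - 1) (by positivity)
    (by push_cast; exact n1) n2 f1
  obtain ⟨E', hE', hfr, hEE, hpi⟩ := exists_adjoin E hE Real.pi q (D * K) hq0 hqd hq
  have hle' : Module.finrank ℚ E' ≤ D * (D * K) := hfr.trans (Nat.mul_le_mul_right _ hle)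
  have f2 := forms_poly K _ _ hc hF E' hE' (D * (D * K)) hle' (fun _ => 0) 0
    (fun _ _ _ => le_rfl) (fun l h1 h2 => by
      have e1 : zv l / Real.pi ^ l.sum ∈ E' := hEE (hz l h1 h2)
      have e2 : Real.pi ^ l.sum ∈ E' := Subalgebra.pow_mem _ hpi _
      have e3 := Subalgebra.mul_mem _ e1 e2
      rw [div_mul_cancel₀ _ (pow_ne_zero _ Real.pi_ne_zero)] at e3
      simpa using e3)
  obtain ⟨N, R, hR0, hRd, -, hR⟩ := f2.exists
  have hRd0 : R.natDegree = 0 := by simpa using hRd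
  obtain ⟨r, hr⟩ := Polynomial.natDegree_eq_zero.1 hRd0
  have hr0 : r ≠ 0 := by
    rintro rfl
    rw [map_zero] at hr
    exact hR0 hr.symm
  have h1 : (1 : ℝ) ≤ |(r : ℝ)| := by
    have : (1 : ℤ) ≤ |r| := Int.one_le_abs hr0
    exact_mod_cast this
  have h2 : aeval Real.pi R = (r : ℝ) := by
    rw [← hr, aeval_C]
    rfl
  rw [h2] at hR
  have h3 : Real.exp (-((2 * (Δ : ℝ) - 12 * K - 2 - ((D * (D * K) : ℕ) : ℝ) *
      (12 * (K : ℝ) + 4) - 1) * N)) ≤ 1 := by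
    rw [Real.exp_le_one_iff]
    push_cast
    have := mul_nonneg n3 (Nat.cast_nonneg (α := ℝ) N)
    linarith
  linarith

theorem not_small_field (D K Δ : ℕ) (hD : 1 ≤ D) (hK : 1 ≤ K) (h : 200 * D ^ 3 * K ^ 3 ≤ Δ)
    (hF : Forms K (12 * (K : ℝ) + 4) (2 * (Δ : ℝ) - 12 * K - 2)) (E : Subalgebra ℚ ℝ)
    (hE : FiniteDimensional ℚ E)
    (hz : ∀ l : List ℕ, Adm l → l.sum ≤ K → zv l / Real.pi ^ l.sum ∈ E) :
    D < Module.finrank ℚ E := by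
  have hd : (1 : ℝ) ≤ D := by exact_mod_cast hD
  have hk : (1 : ℝ) ≤ K := by exact_mod_cast hK
  have hδ : 200 * (D : ℝ) ^ 3 * (K : ℝ) ^ 3 ≤ Δ := by exact_mod_cast h
  obtain ⟨n1, n2, n3⟩ := gsmall_num D K Δ hd hk hδ
  exact gsmall_core D K Δ hD hK n1 n2 n3 hF E hE hz

theorem field_bound_alg (D K Δ : ℕ) (hD : 1 ≤ D) (hK : 2 ≤ K) (h : 25 * D ^ 3 * K ^ 3 ≤ Δ)
    (hF : Forms K (12 * (K : ℝ) + 4) (2 * (Δ : ℝ) - 12 * K - 2)) (E : Subalgebra ℚ ℝ)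
    (hE : FiniteDimensional ℚ E)
    (hz : ∀ l : List ℕ, Adm l → l.sum ≤ K → zv l / Real.pi ^ l.sum ∈ E) :
    D < Module.finrank ℚ E := by
  have hd : (1 : ℝ) ≤ D := by exact_mod_cast hD
  have hk : (2 : ℝ) ≤ K := by exact_mod_cast hK
  have hδ : 25 * (D : ℝ) ^ 3 * (K : ℝ) ^ 3 ≤ Δ := by exact_mod_cast h
  obtain ⟨n1, n2, n3⟩ := gsmall_num2 D K Δ hd hk hδ
  exact gsmall_core D K Δ hD (by omega) n1 n2 n3 hF E hE hz

end Pool.MZDim
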