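import Pool.Agent.Lib.MZDim.YFin
import Pool.Agent.Lib.MZDim.GSmall

/-! Interface of group G (helper93): norms, Gelfond's criterion. Paper section 4, statement (T). -/

open HofPers Finset

namespace Pool.MZDim

theorem field_bound (D K Dl : ℕ) (hD : 1 ≤ D) (hK : 2 ≤ K) (h : 25 * D ^ 3 * K ^ 3 ≤ Dl)
    (hF : Forms K (12 * (K : ℝ) + 4) (2 * (Dl : ℝ) - 12 * K - 2))
    (E : Submodule ℚ ℝ) (h1 : (1 : ℝ) ∈ E) (hE : ∀ x ∈ E, ∀ y ∈ E, x * y ∈ E)
    [Module.Finite ℚ E] (hz : ∀ l : List ℕ, Adm l → l.sum ≤ K → zv l / Real.pi ^ l.sum ∈ E) :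
    D < Module.finrank ℚ E := by
  have hfin : FiniteDimensional ℚ (E.toSubalgebra h1 (fun x y hx hy => hE x hx y hy)) :=
    inferInstanceAs (Module.Finite ℚ E)
  exact field_bound_alg D K Dl hD hK h hF (E.toSubalgebra h1 (fun x y hx hy => hE x hx y hy))
    hfin hz

end Pool.MZDim
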