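import Pool.Agent.Lib.MZDim.GStep

/-! MP_301213_nt, growth of `dim Z_k` (store `MP_301213_nt_paper63.md`, lead's linear version),
module `GLin` (230).

PURE ALGEBRA (only Mathlib and `step_dim` of GStep). LINEAR GROWTH.
PROOF. `d = 0`: `k = 0`, `A 0 = 1` has dimension `1` (it contains `1 ≠ 0`: `Module.finrank_pos` for
a nontrivial finite dimensional space). Let `d ≥ 1` and suppose `finrank (A k) ≤ d` for all
`k ≤ 2*B*d`. CLAIM `P K`, by induction on `K`: there is `E : Subalgebra ℚ ℝ`, finite dimensional,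
with `f = finrank E`, `1 ≤ f ≤ d`, `A K ≤ toSubmodule E`, `toSubmodule E ≤ A (B*f)`.
* `P 0`: `E = ⊥`, `Subalgebra.toSubmodule ⊥ = 1` (`Algebra.toSubmodule_bot`), `= A 0`, `f = 1`
  (`Subalgebra.finrank_bot` or `Subalgebra.bot_eq_...`), `A 0 ≤ A (B*1)` by `hmono`.
* `P K → P (K+1)`: `hT` gives `K + 1 ≤ B*f`. Let `M = Subalgebra.toSubmodule E`, `S = A (K+1)`,
  `U j = M * S^j` (products of submodules; `U 0 = M`). Facts:
  (i) `1 ≤ S` (`A 0 = 1`, `hmono`), so `U j ≤ U (j+1)` (`pow_succ`, `U j = U j * 1 ≤ U j * S`,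
  `Submodule.mul_le_mul_right`/`mul_le_mul'`).
  (ii) `M * M = M` (`Subalgebra.mul_toSubmodule_self`/`Subalgebra.isIdempotentElem_toSubmodule`,
  or `Submodule.mul_le` and `1 ≤ M`), so `M * U j = U j`, i.e. `∀ e ∈ E, ∀ v ∈ U j, e*v ∈ U j`
  (`Submodule.mul_mem_mul`).
  (iii) `S^j ≤ A (j*(K+1))` (induction, `hmul`, `A 0 = 1`), so
  `U j ≤ A (B*f) * A (j*(K+1)) ≤ A (B*f + j*(K+1)) ≤ A ((j+1)*(B*f))` (`hmono`, `K+1 ≤ B*f`);
  so `U j` is finite dimensional (`Submodule.finiteDimensional_of_le`).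
  (iv) If `U i < U (i+1)` for all `i < j` then `(j+1)*f ≤ finrank (U j)` (induction, `step_dim`,
  `finrank (U 0) = f`).
  There is `r` with `U (r+1) = U r` and `U i < U (i+1)` for `i < r`, and `(r+1)*f ≤ d`: first, as
  long as all `i < j` are strict, `(j+1)*f ≤ d` by induction on `j`: `j = 0` is `f ≤ d`; if
  `(j+1)*f ≤ d` and also step `j` is strict then `(j+2)*f ≤ 2*d` (as `f ≤ d`), so
  `U (j+1) ≤ A ((j+2)*(B*f)) ≤ A (2*B*d)` and `(j+2)*f ≤ finrank (U (j+1)) ≤ finrank (A (2*B*d)) ≤ d`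
  (`Submodule.finrank_mono`). So not all steps are strict (take `j = d`, `f ≥ 1`); `r` is the first
  non strict one (`Nat.find`).
  (v) `U (r+i) = U r` for all `i` (`U (r+i+1) = U (r+i) * S = U r * S = U (r+1) = U r`). `F = U r`:
  `F * F = M * S^r * (M * S^r) = M * M * S^(2r) = U (r+r) = F` (`mul_comm`, submodules of a
  commutative algebra form a commutative semiring), `1 ≤ M ≤ F`, `S = 1 * S ≤ M * S ≤ U (r+1) = F`
  (if `r = 0` then `U 1 = U 0`; in general `S ≤ U 1 ≤ U (r+1)`).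
  `E' = F.toSubalgebra` (`Submodule.toSubalgebra F h1 hmul`), `Subalgebra.toSubmodule E' = F`,
  `f' = finrank E' = finrank (U r) ≥ (r+1)*f` by (iv), `F ≤ A ((r+1)*(B*f)) ≤ A (B*f')`, and
  `(r+1)*(B*f) ≤ B*d ≤ 2*B*d` gives `f' ≤ d`.
So `P K` holds for `K = B*d`, and `hT` gives `B*d + 1 ≤ B*f ≤ B*d`, contradiction. -/

namespace Pool.MZDim

private theorem gl_step (A : ℕ → Submodule ℚ ℝ) (hfin : ∀ k, FiniteDimensional ℚ (A k))
    (h0 : A 0 = 1) (hmono : Monotone A) (hmul : ∀ k l, A k * A l ≤ A (k + l)) (B d K : ℕ)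
    (hcon : ∀ k, k ≤ 2 * B * d → Module.finrank ℚ (A k) ≤ d) (E : Subalgebra ℚ ℝ)
    (hE : FiniteDimensional ℚ E) (f : ℕ) (hf : Module.finrank ℚ E = f) (hf1 : 1 ≤ f)
    (hfd : f ≤ d) (hEA : Subalgebra.toSubmodule E ≤ A (B * f)) (hK : K + 1 ≤ B * f) :
    ∃ E' : Subalgebra ℚ ℝ, FiniteDimensional ℚ E' ∧ 1 ≤ Module.finrank ℚ E' ∧
      Module.finrank ℚ E' ≤ d ∧ A (K + 1) ≤ Subalgebra.toSubmodule E' ∧
      Subalgebra.toSubmodule E' ≤ A (B * Module.finrank ℚ E') := by
  classical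
  obtain ⟨M, hM⟩ : ∃ M : Submodule ℚ ℝ, M = Subalgebra.toSubmodule E := ⟨_, rfl⟩
  obtain ⟨S, hS⟩ : ∃ S : Submodule ℚ ℝ, S = A (K + 1) := ⟨_, rfl⟩
  obtain ⟨U, hU⟩ : ∃ U : ℕ → Submodule ℚ ℝ, ∀ j, U j = M * S ^ j := ⟨_, fun _ => rfl⟩
  have h1S : (1 : Submodule ℚ ℝ) ≤ S := by
    rw [hS, ← h0]
    exact hmono (Nat.zero_le _)
  have h1M : (1 : Submodule ℚ ℝ) ≤ M := by
    rw [hM, Submodule.one_le]
    exact E.one_mem
  have hMM : M * M = M := by
    rw [hM]
    exact (Subalgebra.isIdempotentElem_toSubmodule E).eq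
  have hUS : ∀ j, U (j + 1) = U j * S := by
    intro j
    rw [hU, hU, pow_succ, mul_assoc]
  have hUmono : ∀ j, U j ≤ U (j + 1) := by
    intro j
    rw [hUS]
    calc U j = U j * 1 := (mul_one _).symm
      _ ≤ U j * S := mul_le_mul' le_rfl h1S
  have hUM : Monotone U := monotone_nat_of_le_succ hUmono
  have hMU : ∀ j, M * U j = U j := by
    intro j
    rw [hU, ← mul_assoc, hMM]
  have hEU : ∀ j, ∀ e ∈ E, ∀ v ∈ U j, e * v ∈ U j := by
    intro j e he v hv
    rw [← hMU j]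
    refine Submodule.mul_mem_mul ?_ hv
    rw [hM]
    exact he
  have hSj : ∀ j, S ^ j ≤ A (j * (K + 1)) := by
    intro j
    induction j with
    | zero => rw [pow_zero, Nat.zero_mul, h0]
    | succ j ih =>
      rw [pow_succ, Nat.succ_mul]
      refine le_trans (mul_le_mul' ih (le_of_eq hS)) (hmul _ _)
  have hUA : ∀ j, U j ≤ A ((j + 1) * (B * f)) := by
    intro j
    rw [hU]
    refine le_trans (mul_le_mul' (hM ▸ hEA) (hSj j)) (le_trans (hmul _ _) (hmono ?_))
    have := Nat.mul_le_mul_left j hK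
    nlinarith
  have hUfin : ∀ j, FiniteDimensional ℚ (U j) := by
    intro j
    have := hfin ((j + 1) * (B * f))
    exact Submodule.finiteDimensional_of_le (hUA j)
  have hstep : ∀ j, U j < U (j + 1) →
      Module.finrank ℚ (U j) + f ≤ Module.finrank ℚ (U (j + 1)) := by
    intro j hj
    rw [← hf]
    exact step_dim E hE (U j) (U (j + 1)) (hUfin _) hj (hEU j) (hEU (j + 1))
  have hU0 : Module.finrank ℚ (U 0) = f := by
    rw [hU, pow_zero, mul_one, hM, ← hf]
    exact Subalgebra.finrank_toSubmodule E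
  have hgrow : ∀ j, (∀ i < j, U i < U (i + 1)) → (j + 1) * f ≤ Module.finrank ℚ (U j) := by
    intro j
    induction j with
    | zero => intro _; rw [hU0]; omega
    | succ j ih =>
      intro h
      have h1 := ih fun i hi => h i (by omega)
      have h2 := hstep j (h j (by omega))
      calc (j + 1 + 1) * f = (j + 1) * f + f := by ring
        _ ≤ _ := by omega
  have hfr : ∀ j, (j + 1) * f ≤ 2 * d → Module.finrank ℚ (U j) ≤ d := by
    intro j hj
    have h1 : U j ≤ A (2 * B * d) := by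
      refine (hUA j).trans (hmono ?_)
      calc (j + 1) * (B * f) = B * ((j + 1) * f) := by ring
        _ ≤ B * (2 * d) := Nat.mul_le_mul_left _ hj
        _ = 2 * B * d := by ring
    have := hfin (2 * B * d)
    exact (Submodule.finrank_mono h1).trans (hcon _ le_rfl)
  have hsmall : ∀ j, (∀ i < j, U i < U (i + 1)) → (j + 1) * f ≤ d := by
    intro j
    induction j with
    | zero => intro _; omega
    | succ j ih =>
      intro h
      have h1 := ih fun i hi => h i (by omega)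
      have h2 : (j + 1 + 1) * f ≤ 2 * d := by
        calc (j + 1 + 1) * f = (j + 1) * f + f := by ring
          _ ≤ 2 * d := by omega
      exact (hgrow (j + 1) h).trans (hfr (j + 1) h2)
  have hex : ∃ r, ¬ (U r < U (r + 1)) := by
    by_contra hne
    push Not at hne
    have h1 := hsmall d fun i _ => hne i
    have h2 : d + 1 ≤ (d + 1) * f := Nat.le_mul_of_pos_right _ hf1
    omega
  obtain ⟨r, hr, hlt⟩ : ∃ r, ¬ (U r < U (r + 1)) ∧ ∀ i < r, U i < U (i + 1) :=
    ⟨Nat.find hex, Nat.find_spec hex, fun i hi => not_not.1 (Nat.find_min hex hi)⟩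
  have hreq : U (r + 1) = U r := by
    rcases (hUmono r).lt_or_eq with h | h
    · exact absurd h hr
    · exact h.symm
  have hstab : ∀ i, U (r + i) = U r := by
    intro i
    induction i with
    | zero => rfl
    | succ i ih => rw [← add_assoc, hUS, ih, ← hUS, hreq]
  have hFF : U r * U r = U r := by
    have h1 : U r * U r = U (r + r) := by
      rw [hU, hU, mul_mul_mul_comm, hMM, pow_add]
    rw [h1, hstab]
  have h1F : (1 : Submodule ℚ ℝ) ≤ U r := by
    refine h1M.trans (le_trans (le_of_eq ?_) (hUM (Nat.zero_le r)))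
    rw [hU, pow_zero, mul_one]
  have hSF : S ≤ U r := by
    calc S = 1 * S := (one_mul _).symm
      _ ≤ M * S := mul_le_mul' h1M le_rfl
      _ = U 1 := by rw [hU, pow_one]
      _ ≤ U (r + 1) := hUM (by omega)
      _ = U r := hreq
  have hgr := hgrow r hlt
  have hrd := hsmall r hlt
  have hFd : Module.finrank ℚ (U r) ≤ d := hfr r (by omega)
  have hFA : U r ≤ A (B * Module.finrank ℚ (U r)) := by
    refine (hUA r).trans (hmono ?_)
    calc (r + 1) * (B * f) = B * ((r + 1) * f) := by ring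
      _ ≤ _ := Nat.mul_le_mul_left _ hgr
  obtain ⟨E', hE'⟩ : ∃ E' : Subalgebra ℚ ℝ, Subalgebra.toSubmodule E' = U r :=
    ⟨Submodule.toSubalgebra (U r) (Submodule.one_le.1 h1F)
      (fun x y hx hy => hFF ▸ Submodule.mul_mem_mul hx hy), rfl⟩
  have hfr' : Module.finrank ℚ E' = Module.finrank ℚ (U r) := by
    rw [← hE']
    exact (Subalgebra.finrank_toSubmodule E').symm
  have hfd' : FiniteDimensional ℚ E' := by
    have := hUfin r
    rw [← hE'] at this
    exact this
  refine ⟨E', hfd', ?_, ?_, ?_, ?_⟩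
  · rw [hfr']
    refine le_trans ?_ hgr
    exact Nat.mul_pos (Nat.succ_pos r) hf1
  · rw [hfr']
    exact hFd
  · rw [hE', ← hS]
    exact hSF
  · rw [hfr', hE']
    exact hFA

theorem linear_growth (A : ℕ → Submodule ℚ ℝ) (hfin : ∀ k, FiniteDimensional ℚ (A k))
    (h0 : A 0 = 1) (hmono : Monotone A) (hmul : ∀ k l, A k * A l ≤ A (k + l)) (B : ℕ)
    (hB : 1 ≤ B)
    (hT : ∀ (K : ℕ) (E : Subalgebra ℚ ℝ), FiniteDimensional ℚ E →
      A K ≤ Subalgebra.toSubmodule E → K + 1 ≤ B * Module.finrank ℚ E) (d : ℕ) :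
    ∃ k, k ≤ 2 * B * d ∧ d < Module.finrank ℚ (A k) := by
  rcases Nat.eq_zero_or_pos d with rfl | hd
  · refine ⟨0, Nat.zero_le _, ?_⟩
    have := hfin 0
    have h1 : (1 : ℝ) ∈ A 0 := by
      rw [h0]
      exact Submodule.one_le.1 le_rfl
    have : Nontrivial (A 0) := ⟨⟨0, ⟨1, h1⟩, fun e => by
      have := congrArg Subtype.val e
      exact zero_ne_one this⟩⟩
    exact Module.finrank_pos
  by_contra hcon
  push Not at hcon
  have key : ∀ K : ℕ, ∃ E : Subalgebra ℚ ℝ, FiniteDimensional ℚ E ∧ 1 ≤ Module.finrank ℚ E ∧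
      Module.finrank ℚ E ≤ d ∧ A K ≤ Subalgebra.toSubmodule E ∧
      Subalgebra.toSubmodule E ≤ A (B * Module.finrank ℚ E) := by
    intro K
    induction K with
    | zero =>
      refine ⟨⊥, inferInstance, ?_, ?_, ?_, ?_⟩
      · rw [Subalgebra.finrank_bot]
      · rw [Subalgebra.finrank_bot]
        exact hd
      · rw [h0, Algebra.toSubmodule_bot]
      · rw [Algebra.toSubmodule_bot, ← h0]
        exact hmono (Nat.zero_le _)
    | succ K ih =>
      obtain ⟨E, hE, h1, h2, h3, h4⟩ := ih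
      exact gl_step A hfin h0 hmono hmul B d K hcon E hE _ rfl h1 h2 h4 (hT K E hE h3)
  obtain ⟨E, hE, h1, h2, h3, -⟩ := key (B * d)
  have h4 := hT (B * d) E hE h3
  have h5 := Nat.mul_le_mul_left B h2
  omega

end Pool.MZDim
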