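import Mathlib

/-! MP_301213_nt, growth of `dim Z_k` (store `MP_301213_nt_paper63.md`, lead's linear version),
module `GStep` (90).

ONLY MATHLIB. A strict inclusion of subspaces stable under a number field raises the dimension by
at least the degree of the field.
PROOF. Take `w ∈ W`, `w ∉ V` (`SetLike.exists_of_lt`). `w ≠ 0`. Let `X` be the image of
`Subalgebra.toSubmodule E` under the injective map `LinearMap.mulRight ℚ w` (`x ↦ x * w`), so
`X ≤ W` (`hWs`) and `finrank X = finrank E` (`LinearMap.finrank_map_eq'` or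
`LinearEquiv.finrank_eq` of `Submodule.equivMapOfInjective`). `Disjoint V X`: if `e * w ∈ V`, `e ∈ E`,
`e * w ≠ 0`, then `e ≠ 0`, `e⁻¹ ∈ E` (`E` is finite dimensional, so `e` is algebraic over `ℚ`:
`Subalgebra.inv_mem_of_algebraic` for the element `⟨e, _⟩ : E`, with
`Algebra.IsAlgebraic.isAlgebraic` / `IsAlgebraic.of_finite`), so `w = e⁻¹ * (e * w) ∈ V` by `hV`,
contradiction. Then `finrank V + finrank X = finrank (V ⊔ X) ≤ finrank W`
(`Submodule.finrank_sup_add_finrank_inf_eq`, `Submodule.finrank_mono`; `V` is finite dimensional as a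
subspace of `W`: `Submodule.finiteDimensional_of_le`). -/

namespace Pool.MZDim

theorem step_dim (E : Subalgebra ℚ ℝ) (hE : FiniteDimensional ℚ E) (V W : Submodule ℚ ℝ)
    (hW : FiniteDimensional ℚ W) (hVW : V < W) (hV : ∀ e ∈ E, ∀ v ∈ V, e * v ∈ V)
    (hWs : ∀ e ∈ E, ∀ w ∈ W, e * w ∈ W) :
    Module.finrank ℚ V + Module.finrank ℚ E ≤ Module.finrank ℚ W := by
  obtain ⟨w, hwW, hwV⟩ := SetLike.exists_of_lt hVW
  have hw0 : w ≠ 0 := fun h => hwV (h ▸ V.zero_mem)
  have hVfin : FiniteDimensional ℚ V := Submodule.finiteDimensional_of_le hVW.le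
  let L : ℝ →ₗ[ℚ] ℝ := LinearMap.mulRight ℚ w
  have hL : Function.Injective L := by
    intro x y hxy
    exact mul_right_cancel₀ hw0 hxy
  have hXdef : ∀ x, x ∈ (Subalgebra.toSubmodule E).map L ↔ ∃ e ∈ E, e * w = x := by
    intro x
    rw [Submodule.mem_map]
    rfl
  have hXle : (Subalgebra.toSubmodule E).map L ≤ W := by
    intro x hx
    obtain ⟨e, he, rfl⟩ := (hXdef x).1 hx
    exact hWs e he w hwW
  have hXfin : FiniteDimensional ℚ ((Subalgebra.toSubmodule E).map L) :=
    Submodule.finiteDimensional_of_le hXle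
  have hXrank : Module.finrank ℚ ((Subalgebra.toSubmodule E).map L) = Module.finrank ℚ E := by
    have h1 := LinearEquiv.finrank_eq
      (Submodule.equivMapOfInjective L hL (Subalgebra.toSubmodule E))
    rw [← h1]
    rfl
  have hinf : V ⊓ (Subalgebra.toSubmodule E).map L = ⊥ := by
    rw [Submodule.eq_bot_iff]
    rintro x ⟨hxV, hxX⟩
    obtain ⟨e, he, rfl⟩ := (hXdef x).1 hxX
    by_contra hne
    have he0 : e ≠ 0 := by
      rintro rfl
      exact hne (zero_mul _)
    apply hwV
    have halg : IsAlgebraic ℚ (⟨e, he⟩ : E) := Algebra.IsAlgebraic.isAlgebraic _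
    have hinv : e⁻¹ ∈ E := by
      have halg2 : IsAlgebraic ℚ e := (isAlgebraic_algHom_iff E.val Subtype.val_injective).2 halg
      exact Subalgebra.inv_mem_of_algebraic E (x := ⟨e, he⟩) halg2
    have h2 := hV e⁻¹ hinv (e * w) hxV
    rwa [inv_mul_cancel_left₀ he0] at h2
  have h3 := Submodule.finrank_sup_add_finrank_inf_eq V ((Subalgebra.toSubmodule E).map L)
  rw [hinf, finrank_bot, add_zero, hXrank] at h3
  rw [← h3]
  exact Submodule.finrank_mono (sup_le hVW.le hXle)

end Pool.MZDim
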