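import Pool.Agent.Lib.MZDim.GSmall

/-! MP_301213_nt, growth of `dim Z_k` (store `MP_301213_nt_paper63.md`, lead's linear version),
module `GTp` (120): (T') the degree of a field which contains all `zv l / π ^ |l|`, `|l| ≤ K`.

PROOF. `1 ≤ finrank E` (`Module.finrank_pos`). Three cases.
(a) `K ≤ 691`: `K + 1 ≤ 692 * 1`.
(b) `692 ≤ K ≤ 1383`: put `n = (K-2)/6 ≥ 115`, `K' = 6*n+2 ≤ K`, `Δ = 200 * K'^3`. `100*(Δ+1)^3 ≤ 2^n`
for all `n ≥ 115` (below), `hForms n Δ` gives `Forms K' ..`, `not_small_field 1 K' Δ` (the words with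
`l.sum ≤ K'` have `l.sum ≤ K`) gives `2 ≤ finrank E`, `K + 1 ≤ 1384 = 692 * 2`.
(c) `K ≥ 1384`: `n = (K-2)/6 ≥ 230`, `K' = 6*n+2 ≤ K ≤ 6*n+7`, `D = K`,
`Δ = 200 * K^3 * K'^3`. `100*(200 * (6n+7)^3 * (6n+2)^3 + 1)^3 ≤ 2^n` for `n ≥ 230`; then
`K < finrank E`, so `K + 1 ≤ finrank E ≤ 692 * finrank E`.
NUMERICS (natural numbers). Lemma A: `∀ n ≥ 115, 100*(200*(6*n+2)^3+1)^3 ≤ 2^n`: `Nat.le_induction`,
base by `norm_num`, step: `p (n+1) ≤ 2 * p n` because `6(n+1)+2 ≤ (1+1/115)(6n+2)` and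
`(1+1/115)^9 < 1.09 < 2`: e.g. first `115*(6*(n+1)+2) ≤ 116*(6*n+2)`, so
`115^3 * (6(n+1)+2)^3 ≤ 116^3 (6n+2)^3`, then `200*X'+1 ≤ (11/10)*(200*X+1)`-type inequalities
(multiply out with integers) and `(11/10)^3 < 2`. Lemma B: `∀ n ≥ 230,
100*(200*(6*n+7)^3*(6*n+2)^3+1)^3 ≤ 2^n`: the same with `230*(6(n+1)+2) ≤ 231*(6n+2)`,
`230*(6(n+1)+7) ≤ 231*(6n+7)`, `(231/230)^6 < 11/10`, `(11/10)^3 < 2`. -/

open HofPers Polynomial

namespace Pool.MZDim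

private theorem numA : ∀ n : ℕ, 115 ≤ n → 100 * (200 * (6 * n + 2) ^ 3 + 1) ^ 3 ≤ 2 ^ n := by
  intro n hn
  induction n, hn using Nat.le_induction with
  | base => norm_num
  | succ n hn ih =>
    obtain ⟨t, ht⟩ : ∃ t, 6 * n + 2 = 692 + t := ⟨6 * n + 2 - 692, by omega⟩
    have e1 : 6 * (n + 1) + 2 = 698 + t := by omega
    rw [ht] at ih
    rw [e1]
    have h1 : 10 * (200 * (698 + t) ^ 3 + 1) ≤ 11 * (200 * (692 + t) ^ 3 + 1) := by
      nlinarith [Nat.zero_le t, Nat.zero_le (t ^ 2), Nat.zero_le (t ^ 3)]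
    have h2 := Nat.pow_le_pow_left h1 3
    rw [mul_pow, mul_pow] at h2
    rw [pow_succ 2]
    have h3 : (10 : ℕ) ^ 3 = 1000 := by norm_num
    have h4 : (11 : ℕ) ^ 3 = 1331 := by norm_num
    rw [h3, h4] at h2
    omega

private theorem numB : ∀ n : ℕ, 230 ≤ n →
    100 * (200 * ((6 * n + 7) ^ 3 * (6 * n + 2) ^ 3) + 1) ^ 3 ≤ 2 ^ n := by
  intro n hn
  induction n, hn using Nat.le_induction with
  | base => norm_num
  | succ n hn ih =>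
    obtain ⟨t, ht⟩ : ∃ t, 6 * n + 2 = 1382 + t := ⟨6 * n + 2 - 1382, by omega⟩
    have e0 : 6 * n + 7 = 1387 + t := by omega
    have e1 : 6 * (n + 1) + 2 = 1388 + t := by omega
    have e2 : 6 * (n + 1) + 7 = 1393 + t := by omega
    rw [ht, e0] at ih
    rw [e1, e2]
    have k1 : 100 * (1388 + t) ^ 3 ≤ 104 * (1382 + t) ^ 3 := by
      nlinarith [Nat.zero_le t, Nat.zero_le (t ^ 2), Nat.zero_le (t ^ 3)]
    have k2 : 100 * (1393 + t) ^ 3 ≤ 104 * (1387 + t) ^ 3 := by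
      nlinarith [Nat.zero_le t, Nat.zero_le (t ^ 2), Nat.zero_le (t ^ 3)]
    have k3 := Nat.mul_le_mul k2 k1
    have k4 : 10000 * ((1393 + t) ^ 3 * (1388 + t) ^ 3) ≤
        10816 * ((1387 + t) ^ 3 * (1382 + t) ^ 3) := by
      calc _ = 100 * (1393 + t) ^ 3 * (100 * (1388 + t) ^ 3) := by ring
        _ ≤ _ := k3
        _ = _ := by ring
    have h1 : 10 * (200 * ((1393 + t) ^ 3 * (1388 + t) ^ 3) + 1) ≤
        11 * (200 * ((1387 + t) ^ 3 * (1382 + t) ^ 3) + 1) := by omega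
    have h2 := Nat.pow_le_pow_left h1 3
    rw [mul_pow, mul_pow] at h2
    rw [pow_succ 2]
    have h3 : (10 : ℕ) ^ 3 = 1000 := by norm_num
    have h4 : (11 : ℕ) ^ 3 = 1331 := by norm_num
    rw [h3, h4] at h2
    omega

theorem finrank_field_ge
    (hForms : ∀ n Δ : ℕ, 100 * (Δ + 1) ^ 3 ≤ 2 ^ n →
      Forms (6 * n + 2) (12 * ((6 * n + 2 : ℕ) : ℝ) + 4)
        (2 * (Δ : ℝ) - 12 * ((6 * n + 2 : ℕ) : ℝ) - 2))
    (K : ℕ) (E : Subalgebra ℚ ℝ) (hE : FiniteDimensional ℚ E)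
    (hz : ∀ l : List ℕ, Adm l → l.sum ≤ K → zv l / Real.pi ^ l.sum ∈ E) :
    K + 1 ≤ 692 * Module.finrank ℚ E := by
  have hpos : 1 ≤ Module.finrank ℚ E := Module.finrank_pos
  rcases le_or_gt K 691 with h1 | h1
  · omega
  rcases le_or_gt K 1383 with h2 | h2
  · obtain ⟨n, hn⟩ : ∃ n, n = (K - 2) / 6 := ⟨_, rfl⟩
    have hn1 : 115 ≤ n := by omega
    have hn2 : 6 * n + 2 ≤ K := by omega
    have h3 := not_small_field 1 (6 * n + 2) (200 * (6 * n + 2) ^ 3) le_rfl (by omega)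
      (by rw [one_pow, mul_one]) (hForms n (200 * (6 * n + 2) ^ 3) (numA n hn1)) E hE
      (fun l h1 h2 => hz l h1 (h2.trans hn2))
    omega
  · obtain ⟨n, hn⟩ : ∃ n, n = (K - 2) / 6 := ⟨_, rfl⟩
    have hn1 : 230 ≤ n := by omega
    have hn2 : 6 * n + 2 ≤ K := by omega
    have hn3 : K ≤ 6 * n + 7 := by omega
    have hnum : 100 * (200 * K ^ 3 * (6 * n + 2) ^ 3 + 1) ^ 3 ≤ 2 ^ n := by
      refine le_trans ?_ (numB n hn1)
      have e1 : K ^ 3 ≤ (6 * n + 7) ^ 3 := Nat.pow_le_pow_left hn3 3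
      have e2 : 200 * K ^ 3 * (6 * n + 2) ^ 3 ≤ 200 * ((6 * n + 7) ^ 3 * (6 * n + 2) ^ 3) := by
        rw [mul_assoc]
        exact Nat.mul_le_mul_left _ (Nat.mul_le_mul_right _ e1)
      exact Nat.mul_le_mul_left _ (Nat.pow_le_pow_left (Nat.add_le_add_right e2 1) 3)
    have h3 := not_small_field K (6 * n + 2) (200 * K ^ 3 * (6 * n + 2) ^ 3) (by omega) (by omega)
      le_rfl (hForms n _ hnum) E hE (fun l h1 h2 => hz l h1 (h2.trans hn2))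
    omega

end Pool.MZDim
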