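import Pool.Agent.Lib.MZDim.LStp

/-! MODULE LChn (about 100 lines, only LStp). MP_301213_nt, dim Z_k → ∞. The chain E, E V, E V², ... stops early.

`Submodule ℚ ℝ` is a commutative semiring: products, powers, 1 ≤ E means 1 ∈ E (Submodule.one_le), Submodule.mul_le, Submodule.mul_mem_mul,
pow_succ, mul_assoc, Module.Finite (Submodule.FG.mul / FG.pow) for products of finite dimensional subspaces.
PROOF. f ≥ 1 because 1 ∈ E. Suppose the conclusion is false. By induction on r: (r+1) f ≤ d and (r+1) f ≤ finrank (E V^r). r = 0: E V^0 = E.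
Step: by assumption E V^(r+1) ≠ E V^r, and E V^r ≤ E V^(r+1) (1 ≤ V), so <; both are stable under multiplication by E (E E ≤ E); step_finrank gives
finrank (E V^(r+1)) ≥ (r+1) f + f; also (r+2) f ≤ 2 d (as f ≤ d), so hdim gives finrank (E V^(r+1)) ≤ d, hence (r+2) f ≤ d. Then r = d gives
(d+1) f ≤ d, contradiction. -/

open Finset

namespace Pool.MZDim

private theorem lchn_stable (E V : Submodule ℚ ℝ) (hE : ∀ x ∈ E, ∀ y ∈ E, x * y ∈ E) (r : ℕ) :
    ∀ x ∈ E, ∀ y ∈ (E * V ^ r : Submodule ℚ ℝ), x * y ∈ (E * V ^ r : Submodule ℚ ℝ) := by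
  intro x hx y hy
  have h : E * (E * V ^ r) ≤ E * V ^ r := by
    rw [← mul_assoc]
    exact mul_le_mul' (Submodule.mul_le.mpr hE) le_rfl
  exact h (Submodule.mul_mem_mul hx hy)

theorem chain_stops (E V : Submodule ℚ ℝ) [Module.Finite ℚ E] [Module.Finite ℚ V]
    (h1 : (1 : ℝ) ∈ E) (hE : ∀ x ∈ E, ∀ y ∈ E, x * y ∈ E) (hV : (1 : ℝ) ∈ V) (d : ℕ)
    (hfd : Module.finrank ℚ E ≤ d)
    (hdim : ∀ r : ℕ, (r + 1) * Module.finrank ℚ E ≤ 2 * d →
      Module.finrank ℚ (E * V ^ r : Submodule ℚ ℝ) ≤ d) :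
    ∃ r : ℕ, (r + 1) * Module.finrank ℚ E ≤ d ∧
      (r + 1) * Module.finrank ℚ E ≤ Module.finrank ℚ (E * V ^ r : Submodule ℚ ℝ) ∧
      E * V ^ (r + 1) = E * V ^ r := by
  by_contra hcon
  push Not at hcon
  have hEfg : E.FG := Module.Finite.iff_fg.mp inferInstance
  have hVfg : V.FG := Module.Finite.iff_fg.mp inferInstance
  have hfg : ∀ r, (E * V ^ r).FG := fun r => hEfg.mul (hVfg.pow r)
  have hpos : 0 < Module.finrank ℚ E := by
    have : Nontrivial E := ⟨⟨0, ⟨1, h1⟩, fun h => zero_ne_one (congrArg Subtype.val h)⟩⟩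
    exact Module.finrank_pos
  have key : ∀ r : ℕ, (r + 1) * Module.finrank ℚ E ≤ d ∧
      (r + 1) * Module.finrank ℚ E ≤ Module.finrank ℚ (E * V ^ r : Submodule ℚ ℝ) := by
    intro r
    induction r with
    | zero =>
      rw [pow_zero, mul_one, zero_add, one_mul]
      exact ⟨hfd, le_rfl⟩
    | succ r ih =>
      have hne := hcon r ih.1 ih.2
      have hle : E * V ^ r ≤ E * V ^ (r + 1) := by
        rw [pow_succ, ← mul_assoc]
        calc E * V ^ r = E * V ^ r * 1 := (mul_one _).symm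
          _ ≤ E * V ^ r * V := mul_le_mul' le_rfl (Submodule.one_le.mpr hV)
      have hlt : E * V ^ r < E * V ^ (r + 1) := lt_of_le_of_ne hle hne.symm
      have : Module.Finite ℚ (E * V ^ (r + 1) : Submodule ℚ ℝ) :=
        Module.Finite.iff_fg.mpr (hfg (r + 1))
      have hst := step_finrank E (E * V ^ r) (E * V ^ (r + 1)) h1 hE (lchn_stable E V hE r)
        (lchn_stable E V hE (r + 1)) hlt
      have h2 : (r + 1 + 1) * Module.finrank ℚ E ≤ 2 * d := by
        have e : (r + 1 + 1) * Module.finrank ℚ E = (r + 1) * Module.finrank ℚ E +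
          Module.finrank ℚ E := by ring
        have := ih.1
        omega
      have h3 := hdim (r + 1) h2
      have e : (r + 1 + 1) * Module.finrank ℚ E = (r + 1) * Module.finrank ℚ E +
          Module.finrank ℚ E := by ring
      have := ih.2
      exact ⟨by omega, by omega⟩
  have h4 := (key d).1
  have h5 : (d + 1) * 1 ≤ (d + 1) * Module.finrank ℚ E := Nat.mul_le_mul_left _ hpos
  omega

end Pool.MZDim
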