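import Pool.Agent.Lib.MZDim.FormsA
import Pool.Agent.Lib.MZDim.GFin
import Pool.Agent.Lib.MZDim.FibW

/-! MODULE LTwo (about 130 lines). MP_301213_nt, dim Z_k → ∞. Explicit form: dim Y_k ≥ 2 for some k ≤ 304.

PROOF. Suppose finrank (Yk k) ≤ 1 for all k ≤ 304. Then any two elements x, y of Yk k, x ≠ 0, satisfy y = q x with q rational
(finrank_le_one_iff, or `finrank_le_one_iff` / span of x is everything). Let s = zv [3] / π^3, E = span ℚ {1, s}.
π^(2a) ∈ Y_(2a) (induction with Yk_mul, pi_sq_mem_Yk, one_mem_Yk), zv [3] ∈ Y_3 (zv_mem_Yk), zv [3] π^(2a) ∈ Y_(3+2a), all nonzero (zv_pos).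
zv [3]^2 ∈ Y_6, so zv [3]^2 = q π^6, s^2 = q: E is closed under products. For Adm l with l.sum = k ≤ 304: if k is even zv l = q π^k, zv l / π^k = q ∈ E; if k is
odd then k ≥ 3 (an Adm word has sum 0 or ≥ 2) and zv l = q zv [3] π^(k-3), zv l / π^k = q s ∈ E. finrank E ≤ 2 (finrank_span_le_card, or
finrank_span_finset_le_card). forms with A of exists_words_fib 151, w = 151, Dl = 25 * 2^3 * 304^3 (fib_152), field_bound D = 2, K = 304 gives 2 < finrank E,
contradiction. -/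

open HofPers Finset

namespace Pool.MZDim

private theorem two_ratio {k : ℕ} (h : Module.finrank ℚ (Yk k) ≤ 1) {x y : ℝ} (hx : x ∈ Yk k)
    (hx0 : x ≠ 0) (hy : y ∈ Yk k) : ∃ q : ℚ, y = (q : ℝ) * x := by
  obtain ⟨v, hv⟩ := (finrank_le_one_iff (K := ℚ) (V := Yk k)).1 h
  obtain ⟨c1, h1⟩ := hv ⟨x, hx⟩
  obtain ⟨c2, h2⟩ := hv ⟨y, hy⟩
  have h3 : (c1 : ℝ) * (v : ℝ) = x := by
    have := congrArg Subtype.val h1
    rwa [Submodule.coe_smul, Rat.smul_def] at this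
  have h4 : (c2 : ℝ) * (v : ℝ) = y := by
    have := congrArg Subtype.val h2
    rwa [Submodule.coe_smul, Rat.smul_def] at this
  have h5 : (c1 : ℝ) ≠ 0 := by
    intro h6
    rw [h6, zero_mul] at h3
    exact hx0 h3.symm
  refine ⟨c2 / c1, ?_⟩
  rw [← h3, ← h4]
  push_cast
  field_simp

private theorem two_pi (a : ℕ) : Real.pi ^ (2 * a) ∈ Yk (2 * a) := by
  induction a with
  | zero => simpa using one_mem_Yk
  | succ a ih =>
    have h := Yk_mul ih pi_sq_mem_Yk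
    rw [← pow_add] at h
    exact h

private theorem adm_three : Adm [3] := by
  intro a ha
  rw [List.mem_singleton] at ha
  omega

private theorem two_z3 : zv [3] ∈ Yk 3 := by
  simpa using zv_mem_Yk adm_three

private theorem two_odd (a : ℕ) : zv [3] * Real.pi ^ (2 * a) ∈ Yk (3 + 2 * a) :=
  Yk_mul two_z3 (two_pi a)

private theorem adm_sum_ne_one {l : List ℕ} (h : Adm l) : l.sum ≠ 1 := by
  cases l with
  | nil => simp
  | cons a t =>
    have h1 : 2 ≤ a := h a (List.mem_cons_self ..)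
    rw [List.sum_cons]
    omega

theorem exists_two : ∃ k, k ≤ 304 ∧ 2 ≤ Module.finrank ℚ (Yk k) := by
  by_contra hcon
  have h1 : ∀ k, k ≤ 304 → Module.finrank ℚ (Yk k) ≤ 1 := by
    intro k hk
    by_contra h2
    exact hcon ⟨k, hk, by omega⟩
  set s : ℝ := zv [3] / Real.pi ^ 3 with hs
  have hz3 : zv [3] ≠ 0 := (zv_pos adm_three).ne'
  have hpi : Real.pi ≠ 0 := Real.pi_ne_zero
  obtain ⟨q, hq⟩ : ∃ q : ℚ, s * s = q := by
    have e6 : 2 * 3 = 3 + 3 := by norm_num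
    have hp6 : Real.pi ^ (3 + 3) ∈ Yk (3 + 3) := by
      rw [← e6]
      exact two_pi 3
    obtain ⟨q, hq⟩ := two_ratio (h1 (3 + 3) (by norm_num)) hp6 (pow_ne_zero _ hpi)
      (Yk_mul two_z3 two_z3)
    refine ⟨q, ?_⟩
    rw [hs, div_mul_div_comm, hq, ← pow_add, mul_div_assoc, div_self (pow_ne_zero _ hpi), mul_one]
  let E : Submodule ℚ ℝ := Submodule.span ℚ (({1, s} : Finset ℝ) : Set ℝ)
  have hE : ∀ x, x ∈ E ↔ ∃ a b : ℚ, (a : ℝ) + b * s = x := by
    intro x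
    show x ∈ Submodule.span ℚ (({1, s} : Finset ℝ) : Set ℝ) ↔ _
    rw [Finset.coe_insert, Finset.coe_singleton, Submodule.mem_span_pair]
    simp only [Rat.smul_def, mul_one]
  have hE1 : (1 : ℝ) ∈ E := (hE 1).2 ⟨1, 0, by simp⟩
  have hEm : ∀ x ∈ E, ∀ y ∈ E, x * y ∈ E := by
    intro x hx y hy
    obtain ⟨a, b, rfl⟩ := (hE x).1 hx
    obtain ⟨c, d, rfl⟩ := (hE y).1 hy
    refine (hE _).2 ⟨a * c + b * d * q, a * d + b * c, ?_⟩
    push_cast
    linear_combination (b * d : ℝ) * (hq.symm)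
  have : Module.Finite ℚ E := FiniteDimensional.span_finset ℚ ({1, s} : Finset ℝ)
  have hEf : Module.finrank ℚ E ≤ 2 :=
    (finrank_span_finset_le_card ({1, s} : Finset ℝ)).trans Finset.card_le_two
  have hEz : ∀ l : List ℕ, Adm l → l.sum ≤ 2 * 151 + 2 → zv l / Real.pi ^ l.sum ∈ E := by
    intro l hl hk
    have hk' : l.sum ≤ 304 := hk
    rcases Nat.even_or_odd' l.sum with ⟨a, ha | ha⟩
    · have h2 := zv_mem_Yk hl
      obtain ⟨q, hq⟩ := two_ratio (h1 _ hk') (ha ▸ two_pi a : Real.pi ^ (2 * a) ∈ Yk l.sum)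
        (pow_ne_zero _ hpi) h2
      refine (hE _).2 ⟨q, 0, ?_⟩
      rw [hq, ha]
      field_simp
      simp
    · have ha' : l.sum = 3 + 2 * (a - 1) := by
        have := adm_sum_ne_one hl
        omega
      have h2 := zv_mem_Yk hl
      obtain ⟨q, hq⟩ := two_ratio (h1 _ hk')
        (ha' ▸ two_odd (a - 1) : zv [3] * Real.pi ^ (2 * (a - 1)) ∈ Yk l.sum)
        (mul_ne_zero hz3 (pow_ne_zero _ hpi)) h2
      refine (hE _).2 ⟨0, q, ?_⟩
      rw [hq, ha', hs, pow_add]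
      field_simp
      simp
  obtain ⟨A, hA1, hA2⟩ := exists_words_fib 151
  have hF := forms A 151 (25 * 2 ^ 3 * (2 * 151 + 2) ^ 3) hA2 (by rw [hA1]; exact fib_152)
  have h3 := field_bound 2 (2 * 151 + 2) (25 * 2 ^ 3 * (2 * 151 + 2) ^ 3) (by norm_num)
    (by norm_num) le_rfl hF E hE1 hEm hEz
  omega

end Pool.MZDim
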