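import Pool.Agent.Lib.MZDim.LTq
import Pool.Agent.Lib.MZDim.LTwo
import Pool.Agent.Lib.MZDim.GFilt

/-! MP_301213_nt, dim Z_k → ∞: explicit linear lower bound for `dim Y_k`. -/

open HofPers Finset

namespace Pool.MZDim

/-- `U_k = π^{-k} Y_k` -/
noncomputable def Uk (k : ℕ) : Submodule ℚ ℝ :=
  (Yk k).map (LinearMap.mulLeft ℚ ((Real.pi ^ k)⁻¹))

theorem mem_Uk {k : ℕ} {x : ℝ} : x ∈ Uk k ↔ ∃ y ∈ Yk k, (Real.pi ^ k)⁻¹ * y = x := by
  rw [Uk, Submodule.mem_map]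
  simp only [LinearMap.mulLeft_apply]

theorem Uk_fin (k : ℕ) : FiniteDimensional ℚ (Uk k) := by
  unfold Uk
  infer_instance

theorem Uk_finrank (k : ℕ) : Module.finrank ℚ (Uk k) ≤ Module.finrank ℚ (Yk k) :=
  Submodule.finrank_map_le _ _

theorem Yk_zero : Yk 0 = 1 := by
  rw [Submodule.one_eq_span, Yk]
  congr 1
  ext x
  rw [Set.mem_singleton_iff]
  constructor
  · rintro ⟨l, h1, h2, h3⟩
    have hl : l = [] := by
      rcases l with _ | ⟨a, l⟩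
      · rfl
      · exfalso
        have := h1 a (by simp)
        simp at h2
        omega
    subst hl
    rw [← h3, zv_nil]
  · rintro rfl
    exact ⟨[], fun a ha => by simp at ha, rfl, zv_nil⟩

theorem Uk_zero : Uk 0 = 1 := by
  ext x
  rw [mem_Uk, Yk_zero]
  simp

theorem Uk_mul (j k : ℕ) (x y : ℝ) (hx : x ∈ Uk j) (hy : y ∈ Uk k) : x * y ∈ Uk (j + k) := by
  rw [mem_Uk] at hx hy ⊢
  obtain ⟨a, ha, rfl⟩ := hx
  obtain ⟨b, hb, rfl⟩ := hy
  refine ⟨a * b, Yk_mul ha hb, ?_⟩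
  rw [pow_add, mul_inv]
  ring

theorem Uk_le (k : ℕ) : Uk k ≤ Uk (k + 2) := by
  intro x hx
  rw [mem_Uk] at hx ⊢
  obtain ⟨a, ha, rfl⟩ := hx
  refine ⟨a * Real.pi ^ 2, Yk_mul ha pi_sq_mem_Yk, ?_⟩
  have := Real.pi_ne_zero
  rw [pow_add]
  field_simp

theorem exists_dim_lin (d : ℕ) (hd : 1 ≤ d) :
    ∃ k, k ≤ 1096 * d ∧ d < Module.finrank ℚ (Yk k) := by
  have hT : ∀ (K : ℕ) (E : Subalgebra ℚ ℝ), FiniteDimensional ℚ E →
      (∀ j ≤ K, ∀ x ∈ Uk j, x ∈ E) → K + 1 ≤ 274 * Module.finrank ℚ E := by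
    intro K E hE hU
    refine field_ge K (Subalgebra.toSubmodule E) hE E.one_mem (fun x hx y hy => E.mul_mem hx hy)
      (fun l hl hs => ?_)
    refine hU l.sum hs _ ?_
    rw [mem_Uk]
    exact ⟨zv l, zv_mem_Yk hl, by rw [div_eq_inv_mul]⟩
  obtain ⟨k, hk, h⟩ := filt_growth Uk Uk_fin Uk_zero Uk_mul Uk_le 274 (by norm_num) hT d hd
  exact ⟨k, by omega, h.trans_le (Uk_finrank k)⟩

theorem dim_two {k : ℕ} (hk : 306 ≤ k) : 2 ≤ Module.finrank ℚ (Yk k) := by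
  obtain ⟨k', h1, h2⟩ := exists_two
  exact h2.trans (finrank_mono (by omega))

theorem dim_pos {k : ℕ} (hk : 2 ≤ k) : 1 ≤ Module.finrank ℚ (Yk k) := by
  have h0 : 1 ≤ Module.finrank ℚ (Yk 0) := by
    have : Nontrivial (Yk 0) := ⟨⟨1, one_mem_Yk⟩, 0, fun h => one_ne_zero (congrArg Subtype.val h)⟩
    exact Module.finrank_pos
  exact h0.trans (finrank_mono (by omega))

/-- explicit linear growth -/
theorem dim_linear (k : ℕ) (hk : 2 ≤ k) : k < 1098 * Module.finrank ℚ (Yk k) := by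
  by_cases h : k < 1098
  · have := dim_pos hk
    omega
  · obtain ⟨k', h1, h2⟩ := exists_dim_lin (k / 1098) (by omega)
    have h3 : Module.finrank ℚ (Yk k') ≤ Module.finrank ℚ (Yk k) := finrank_mono (by omega)
    omega

end Pool.MZDim
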