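import Pool.Agent.Lib.MZDim.LChn

/-! MODULE LGro (about 130 lines, only LChn). MP_301213_nt, dim Z_k → ∞. Lemma (L) of lead: linear growth.

PROOF. Suppose finrank (A k) ≤ d for all k ≤ 2 B d. Claim P(K): there is E with 1 ∈ E, E E ⊆ E, finite dimensional, A K ≤ E,
finrank E ≤ d, E ≤ A (B * finrank E). P(0): E = A 0 = span {1} (h0; closed under products; finrank 1 ≤ d; A 0 ≤ A (B * 1) by monotonicity).
P(K) → P(K+1): f = finrank E ≥ 1; (hT) gives K + 1 ≤ B f. V = A (K+1) (1 ∈ V as A 0 ≤ A (K+1)). E V^r ≤ A (B f + r (K+1)) ≤ A ((r+1) B f) (induction on r with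
hmul: Submodule.mul_le; monotone). chain_stops applies: for (r+1) f ≤ 2d the space E V^r is inside A (2 B d)..., precisely inside A ((r+1) B f) with
(r+1) B f ≤ 2 B d, so its dimension is ≤ d (Submodule.finrank_mono). Take r from it, U = E V^r, U V = U (E V^(r+1) = E V^r). Then
U V^j = U for all j, U U = E E V^r V^r ≤ E V^r V^r = U V^r = U; 1 ∈ U; A (K+1) = V ≤ E V^r V = U (1 ∈ E, 1 ∈ V^r); U is finite dimensional; (r+1) f ≤ finrank U,
so U ≤ A ((r+1) B f) ≤ A (B finrank U); and finrank U ≤ d because U ≤ A ((r+1) B f), (r+1) B f ≤ B d ≤ 2 B d. So P(K+1).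
Now P(B d) and (hT): B d + 1 ≤ B finrank E ≤ B d, contradiction. -/

open Finset

namespace Pool.MZDim

private theorem lgro_one_pow {V : Submodule ℚ ℝ} (hV : (1 : ℝ) ∈ V) (r : ℕ) : (1 : ℝ) ∈ V ^ r := by
  induction r with
  | zero =>
    rw [pow_zero]
    exact Submodule.one_le.1 le_rfl
  | succ r ih =>
    rw [pow_succ]
    have h := Submodule.mul_mem_mul ih hV
    rwa [one_mul] at h

private theorem lgro_step (A : ℕ → Submodule ℚ ℝ) (hfin : ∀ k, Module.Finite ℚ (A k))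
    (hm : Monotone A) (h1 : ∀ k, (1 : ℝ) ∈ A k)
    (hmul : ∀ k m, ∀ x ∈ A k, ∀ y ∈ A m, x * y ∈ A (k + m)) (B : ℕ)
    (hT : ∀ (K : ℕ) (E : Submodule ℚ ℝ), Module.Finite ℚ E → (1 : ℝ) ∈ E →
      (∀ x ∈ E, ∀ y ∈ E, x * y ∈ E) → A K ≤ E → K + 1 ≤ B * Module.finrank ℚ E)
    (d : ℕ) (hc : ∀ k, k ≤ 2 * B * d → Module.finrank ℚ (A k) ≤ d) (K : ℕ)
    (E : Submodule ℚ ℝ) (hEf : Module.Finite ℚ E) (hE1 : (1 : ℝ) ∈ E)
    (hE : ∀ x ∈ E, ∀ y ∈ E, x * y ∈ E) (hAE : A K ≤ E) (hEd : Module.finrank ℚ E ≤ d)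
    (hEA : E ≤ A (B * Module.finrank ℚ E)) :
    ∃ U : Submodule ℚ ℝ, Module.Finite ℚ U ∧ (1 : ℝ) ∈ U ∧ (∀ x ∈ U, ∀ y ∈ U, x * y ∈ U) ∧
      A (K + 1) ≤ U ∧ Module.finrank ℚ U ≤ d ∧ U ≤ A (B * Module.finrank ℚ U) := by
  set f := Module.finrank ℚ E with hf
  have hK : K + 1 ≤ B * f := hT K E hEf hE1 hE hAE
  have hEE : E * E ≤ E := Submodule.mul_le.2 fun x hx y hy => hE x hx y hy
  set V := A (K + 1) with hVdef
  have hV1 : (1 : ℝ) ∈ V := h1 _
  have hVf : Module.Finite ℚ V := hfin _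
  have hle : ∀ r, E * V ^ r ≤ A (B * f + r * (K + 1)) := by
    intro r
    induction r with
    | zero =>
      rw [pow_zero, mul_one, Nat.zero_mul, Nat.add_zero]
      exact hEA
    | succ r ih =>
      rw [pow_succ, ← mul_assoc]
      refine Submodule.mul_le.2 fun x hx y hy => ?_
      have h2 := hmul _ _ x (ih hx) y hy
      have h3 : B * f + r * (K + 1) + (K + 1) = B * f + (r + 1) * (K + 1) := by ring
      rwa [h3] at h2
  have hle2 : ∀ r, E * V ^ r ≤ A (B * ((r + 1) * f)) := by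
    intro r
    refine (hle r).trans (hm ?_)
    have h2 : r * (K + 1) ≤ r * (B * f) := Nat.mul_le_mul_left r hK
    calc B * f + r * (K + 1) ≤ B * f + r * (B * f) := by omega
      _ = B * ((r + 1) * f) := by ring
  have hdim : ∀ r : ℕ, (r + 1) * f ≤ 2 * d →
      Module.finrank ℚ (E * V ^ r : Submodule ℚ ℝ) ≤ d := by
    intro r hr
    have h2 : B * ((r + 1) * f) ≤ 2 * B * d := by
      calc B * ((r + 1) * f) ≤ B * (2 * d) := Nat.mul_le_mul_left B hr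
        _ = 2 * B * d := by ring
    have := hfin (B * ((r + 1) * f))
    exact (Submodule.finrank_mono (hle2 r)).trans (hc _ h2)
  obtain ⟨r, hr1, hr2, hr3⟩ := chain_stops E V hE1 hE hV1 d hEd hdim
  set U : Submodule ℚ ℝ := E * V ^ r with hU
  have hUV : U * V = U := by
    rw [hU, mul_assoc, ← pow_succ]
    exact hr3
  have hUVj : ∀ j, U * V ^ j = U := by
    intro j
    induction j with
    | zero => rw [pow_zero, mul_one]
    | succ j ih => rw [pow_succ, ← mul_assoc, ih, hUV]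
  have hUU : U * U ≤ U := by
    calc U * U = (E * E) * (V ^ r * V ^ r) := by rw [hU]; ring
      _ ≤ E * (V ^ r * V ^ r) := mul_le_mul' hEE le_rfl
      _ = U * V ^ r := by rw [hU]; ring
      _ = U := hUVj r
  have hU1 : (1 : ℝ) ∈ U := by
    have h2 := Submodule.mul_mem_mul hE1 (lgro_one_pow hV1 r)
    rwa [one_mul] at h2
  have hVU : V ≤ U := by
    intro v hv
    have h2 := Submodule.mul_mem_mul hU1 hv
    rw [hUV, one_mul] at h2
    exact h2
  have hfinA := hfin (B * ((r + 1) * f))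
  refine ⟨U, Submodule.finiteDimensional_of_le (hle2 r), hU1,
    fun x hx y hy => hUU (Submodule.mul_mem_mul hx hy), hVU, hdim r ?_, ?_⟩
  · have h2 : (r + 1) * f ≤ d := hr1
    omega
  exact (hle2 r).trans (hm (Nat.mul_le_mul_left B hr2))

theorem growth (A : ℕ → Submodule ℚ ℝ) (hfin : ∀ k, Module.Finite ℚ (A k))
    (h0 : A 0 = Submodule.span ℚ {(1 : ℝ)}) (hmono : ∀ k, A k ≤ A (k + 1))
    (hmul : ∀ k m, ∀ x ∈ A k, ∀ y ∈ A m, x * y ∈ A (k + m)) (B : ℕ) (hB : 1 ≤ B)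
    (hT : ∀ (K : ℕ) (E : Submodule ℚ ℝ), Module.Finite ℚ E → (1 : ℝ) ∈ E →
      (∀ x ∈ E, ∀ y ∈ E, x * y ∈ E) → A K ≤ E → K + 1 ≤ B * Module.finrank ℚ E)
    (d : ℕ) (hd : 1 ≤ d) : ∃ k, k ≤ 2 * B * d ∧ d < Module.finrank ℚ (A k) := by
  by_contra hcon
  push Not at hcon
  have hm : Monotone A := monotone_nat_of_le_succ hmono
  have h1 : ∀ k, (1 : ℝ) ∈ A k := by
    intro k
    refine hm (Nat.zero_le k) ?_
    rw [h0]
    exact Submodule.mem_span_singleton_self 1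
  have key : ∀ K : ℕ, ∃ E : Submodule ℚ ℝ, Module.Finite ℚ E ∧ (1 : ℝ) ∈ E ∧
      (∀ x ∈ E, ∀ y ∈ E, x * y ∈ E) ∧ A K ≤ E ∧ Module.finrank ℚ E ≤ d ∧
      E ≤ A (B * Module.finrank ℚ E) := by
    intro K
    induction K with
    | zero =>
      refine ⟨A 0, hfin 0, h1 0, fun x hx y hy => hmul 0 0 x hx y hy, le_rfl,
        hcon 0 (Nat.zero_le _), hm (Nat.zero_le _)⟩
    | succ K ih =>
      obtain ⟨E, h2, h3, h4, h5, h6, h7⟩ := ih
      exact lgro_step A hfin hm h1 hmul B hT d hcon K E h2 h3 h4 h5 h6 h7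
  obtain ⟨E, h2, h3, h4, h5, h6, -⟩ := key (B * d)
  have h7 := hT (B * d) E h2 h3 h4 h5
  have h8 : B * Module.finrank ℚ E ≤ B * d := Nat.mul_le_mul_left B h6
  omega

end Pool.MZDim
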