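import Pool.Agent.Lib.MZDim.LTp
import Pool.Agent.Lib.MZDim.LTwo
import Pool.Agent.Lib.MZDim.LGro
import Pool.Agent.Lib.MZDim.AkD

/-! MP_301213_nt, dim Z_k → ∞: linear lower bound for `dim Y_k`. -/

open HofPers Finset

namespace Pool.MZDim

theorem dim_two {k : ℕ} (hk : 306 ≤ k) : 2 ≤ Module.finrank ℚ (Yk k) := by
  obtain ⟨k', h1, h2⟩ := exists_two
  exact h2.trans (finrank_mono (by omega))

theorem dim_pos {k : ℕ} (hk : 2 ≤ k) : 1 ≤ Module.finrank ℚ (Yk k) := by
  have h0 : 1 ≤ Module.finrank ℚ (Yk 0) := by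
    have : Nontrivial (Yk 0) := ⟨⟨1, one_mem_Yk⟩, 0, fun h => one_ne_zero (congrArg Subtype.val h)⟩
    exact Module.finrank_pos
  exact h0.trans (finrank_mono (by omega))

theorem dim_linear : ∃ c : ℝ, 0 < c ∧ ∀ k : ℕ, 2 ≤ k → c * k ≤ Module.finrank ℚ (Yk k) := by
  obtain ⟨B, hB, hT⟩ := exists_B
  have hB' : (1 : ℝ) ≤ B := by exact_mod_cast hB
  have key : ∀ d : ℕ, 1 ≤ d → ∀ m : ℕ, 2 * B * d + 2 ≤ m → d + 1 ≤ 2 * Module.finrank ℚ (Yk m) := by
    intro d hd m hm
    obtain ⟨k, hk, hdk⟩ := growth Ak Ak_fin Ak_zero Ak_mono Ak_mul B hB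
      (fun K E hfin h1 hE hA => hT K E hfin h1 hE
        (fun l hl hs => hA (Submodule.subset_span ⟨l, hl, hs, rfl⟩))) d hd
    rcases k with _ | k
    · exfalso
      rw [Ak_zero] at hdk
      have := finrank_span_singleton (K := ℚ) (one_ne_zero : (1 : ℝ) ≠ 0)
      omega
    · have h1 := Ak_finrank_le k
      have h2 : Module.finrank ℚ (Yk (k + 1)) ≤ Module.finrank ℚ (Yk m) := finrank_mono (by omega)
      have h3 : Module.finrank ℚ (Yk k) ≤ Module.finrank ℚ (Yk m) := finrank_mono (by omega)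
      omega
  refine ⟨1 / (8 * B), by positivity, fun k hk => ?_⟩
  by_cases hkB : k < 2 * B + 2
  · have h1 : (1 : ℝ) ≤ Module.finrank ℚ (Yk k) := by exact_mod_cast dim_pos hk
    refine le_trans ?_ h1
    rw [div_mul_eq_mul_div, div_le_one (by positivity)]
    have : (k : ℝ) < 2 * B + 2 := by exact_mod_cast hkB
    linarith
  · push Not at hkB
    set d := (k - 2) / (2 * B) with hd
    have hBpos : 0 < 2 * B := by omega
    have hd1 : 1 ≤ d := by
      rw [hd, Nat.le_div_iff_mul_le hBpos]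
      omega
    have hd2 : 2 * B * d ≤ k - 2 := Nat.mul_div_le _ _
    have hd3 : k - 2 < 2 * B * (d + 1) := Nat.lt_mul_div_succ _ hBpos
    have h := key d hd1 k (by omega)
    have h4 : (d : ℝ) + 1 ≤ 2 * Module.finrank ℚ (Yk k) := by exact_mod_cast h
    have h5 : (k : ℝ) - 2 ≤ 2 * B * (d + 1) := by
      have h6 : ((k - 2 : ℕ) : ℝ) ≤ ((2 * B * (d + 1) : ℕ) : ℝ) := by exact_mod_cast hd3.le
      rw [Nat.cast_sub hk] at h6
      push_cast at h6
      exact h6
    have hk4 : (4 : ℝ) ≤ k := by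
      have : 4 ≤ k := by omega
      exact_mod_cast this
    rw [div_mul_eq_mul_div, div_le_iff₀ (by positivity)]
    nlinarith

end Pool.MZDim
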