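import Mathlib

/-! MP_301213_nt, dim Z_k → ∞: numerical inequalities for Fibonacci numbers. -/

namespace Pool.MZDim

theorem fib_137 : 100 * (25 * 1 ^ 3 * (2 * 136 + 2) ^ 3 + 1) ^ 3 ≤ Nat.fib (136 + 1) := by
  norm_num

theorem fib_step (w : ℕ) (hw : 266 ≤ w)
    (h : 100 * (25 * (2 * w + 3) ^ 3 * (2 * w + 2) ^ 3 + 1) ^ 3 ≤ Nat.fib (w + 1)) :
    100 * (25 * (2 * (w + 2) + 3) ^ 3 * (2 * (w + 2) + 2) ^ 3 + 1) ^ 3 ≤ Nat.fib (w + 2 + 1) := by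
  have h1 : 100 * (2 * (w + 2) + 3) ≤ 101 * (2 * w + 3) := by omega
  have h2 : 100 * (2 * (w + 2) + 2) ≤ 101 * (2 * w + 2) := by omega
  have h3 : Nat.fib (w + 2 + 1) ≥ 2 * Nat.fib (w + 1) := by
    have e1 : Nat.fib (w + 2 + 1) = Nat.fib (w + 1) + Nat.fib (w + 2) := by
      rw [show w + 2 + 1 = (w + 1) + 2 by ring, Nat.fib_add_two]
    have e2 : Nat.fib (w + 1) ≤ Nat.fib (w + 2) := Nat.fib_mono (by omega)
    omega
  refine le_trans ?_ h3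
  refine le_trans ?_ (Nat.mul_le_mul_left 2 h)
  set a := 2 * w + 3 with ha
  set b := 2 * w + 2 with hb
  set a' := 2 * (w + 2) + 3 with ha'
  set b' := 2 * (w + 2) + 2 with hb'
  have h4 : 100 ^ 3 * a' ^ 3 ≤ 101 ^ 3 * a ^ 3 := by
    rw [← mul_pow, ← mul_pow]; exact Nat.pow_le_pow_left h1 3
  have h5 : 100 ^ 3 * b' ^ 3 ≤ 101 ^ 3 * b ^ 3 := by
    rw [← mul_pow, ← mul_pow]; exact Nat.pow_le_pow_left h2 3
  have h6 : 100 ^ 6 * (a' ^ 3 * b' ^ 3) ≤ 101 ^ 6 * (a ^ 3 * b ^ 3) := by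
    calc 100 ^ 6 * (a' ^ 3 * b' ^ 3) = (100 ^ 3 * a' ^ 3) * (100 ^ 3 * b' ^ 3) := by ring
      _ ≤ (101 ^ 3 * a ^ 3) * (101 ^ 3 * b ^ 3) := Nat.mul_le_mul h4 h5
      _ = 101 ^ 6 * (a ^ 3 * b ^ 3) := by ring
  set X := a ^ 3 * b ^ 3 with hX
  set X' := a' ^ 3 * b' ^ 3 with hX'
  have h7 : 10 * (25 * X' + 1) ≤ 11 * (25 * X + 1) := by
    have hXpos : 1 ≤ X := Nat.one_le_iff_ne_zero.2 (by positivity)
    norm_num at h6
    omega
  have h8 : 10 ^ 3 * (25 * X' + 1) ^ 3 ≤ 11 ^ 3 * (25 * X + 1) ^ 3 := by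
    rw [← mul_pow, ← mul_pow]; exact Nat.pow_le_pow_left h7 3
  have e1 : 25 * a' ^ 3 * b' ^ 3 = 25 * X' := by rw [hX']; ring
  have e2 : 25 * a ^ 3 * b ^ 3 = 25 * X := by rw [hX]; ring
  rw [e1, e2]
  norm_num at h8
  omega

theorem fib_big (w : ℕ) (hw : 266 ≤ w) :
    100 * (25 * (2 * w + 3) ^ 3 * (2 * w + 2) ^ 3 + 1) ^ 3 ≤ Nat.fib (w + 1) := by
  have key : ∀ n : ℕ, (100 * (25 * (2 * (266 + n) + 3) ^ 3 * (2 * (266 + n) + 2) ^ 3 + 1) ^ 3 ≤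
      Nat.fib (266 + n + 1)) ∧
      (100 * (25 * (2 * (267 + n) + 3) ^ 3 * (2 * (267 + n) + 2) ^ 3 + 1) ^ 3 ≤
      Nat.fib (267 + n + 1)) := by
    intro n
    induction n with
    | zero =>
      constructor
      · norm_num
      · norm_num
    | succ n ih =>
      obtain ⟨i1, i2⟩ := ih
      refine ⟨?_, ?_⟩
      · have : 266 + (n + 1) = 267 + n := by omega
        rw [this]; exact i2
      · have : 267 + (n + 1) = 266 + n + 2 := by omega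
        rw [this]
        exact fib_step _ (by omega) i1
  obtain ⟨n, rfl⟩ := Nat.exists_eq_add_of_le hw
  exact (key n).1

end Pool.MZDim
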