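import Mathlib

/-! MODULE LStp (about 80 lines, ONLY MATHLIB). MP_301213_nt, dim Z_k → ∞. Dimension step over a finite dimensional subring of ℝ.

PROOF of inv_mem: for 0 ≠ e ∈ E the ℚ-linear map E → E, x ↦ e x is injective, hence surjective (finite dimension,
LinearMap.injective_iff_surjective), so 1 = e x with x ∈ E.
PROOF of step: choose x ∈ U' with x ∉ U. The ℚ-linear map φ : E → U', e ↦ e x is injective (x ≠ 0) with range R ≤ U', finrank R = finrank E, and
R ⊓ U = ⊥: if e x ∈ U with e ≠ 0 then x = e⁻¹ (e x) ∈ E U ⊆ U, contradiction. So finrank U + finrank R = finrank (U ⊔ R) ≤ finrank U'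
(Submodule.finrank_sup_add_finrank_inf_eq, Submodule.finrank_mono). -/

open Finset

namespace Pool.MZDim

/-- multiplication by an element of `E` on a stable submodule, as a map `E → E` -/
private theorem mul_surj (E : Submodule ℚ ℝ) [Module.Finite ℚ E]
    (hE : ∀ x ∈ E, ∀ y ∈ E, x * y ∈ E) {e : ℝ} (he : e ∈ E) (h0 : e ≠ 0) :
    ∀ y ∈ E, ∃ x ∈ E, e * x = y := by
  let φ : E →ₗ[ℚ] E :=
    { toFun := fun x => ⟨e * x.1, hE e he x.1 x.2⟩
      map_add' := fun x y => by
        apply Subtype.ext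
        simp [mul_add]
      map_smul' := fun a x => by
        apply Subtype.ext
        simp }
  have hinj : Function.Injective φ := by
    intro x y hxy
    have h1 : e * x.1 = e * y.1 := congrArg Subtype.val hxy
    exact Subtype.ext (mul_left_cancel₀ h0 h1)
  have hsurj : Function.Surjective φ := LinearMap.injective_iff_surjective.1 hinj
  intro y hy
  obtain ⟨x, hx⟩ := hsurj ⟨y, hy⟩
  exact ⟨x.1, x.2, congrArg Subtype.val hx⟩

theorem inv_mem (E : Submodule ℚ ℝ) [Module.Finite ℚ E] (h1 : (1 : ℝ) ∈ E)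
    (hE : ∀ x ∈ E, ∀ y ∈ E, x * y ∈ E) {e : ℝ} (he : e ∈ E) : e⁻¹ ∈ E := by
  by_cases h0 : e = 0
  · rw [h0, inv_zero]
    exact E.zero_mem
  · obtain ⟨x, hx, hex⟩ := mul_surj E hE he h0 1 h1
    rw [← eq_inv_of_mul_eq_one_right hex]
    exact hx

theorem step_finrank (E U U' : Submodule ℚ ℝ) [Module.Finite ℚ E] [Module.Finite ℚ U']
    (h1 : (1 : ℝ) ∈ E) (hE : ∀ x ∈ E, ∀ y ∈ E, x * y ∈ E)
    (hU : ∀ x ∈ E, ∀ y ∈ U, x * y ∈ U) (hU' : ∀ x ∈ E, ∀ y ∈ U', x * y ∈ U') (hlt : U < U') :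
    Module.finrank ℚ U + Module.finrank ℚ E ≤ Module.finrank ℚ U' := by
  obtain ⟨hle, x, hx, hxU⟩ := SetLike.lt_iff_le_and_exists.1 hlt
  have hx0 : x ≠ 0 := fun h => hxU (h ▸ U.zero_mem)
  let φ : E →ₗ[ℚ] ℝ :=
    { toFun := fun e => e.1 * x
      map_add' := fun a b => by simp [add_mul]
      map_smul' := fun a b => by simp }
  have hinj : Function.Injective φ := by
    intro a b hab
    have h2 : a.1 * x = b.1 * x := hab
    exact Subtype.ext (mul_right_cancel₀ hx0 h2)
  set R : Submodule ℚ ℝ := LinearMap.range φ with hR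
  have hRle : R ≤ U' := by
    rintro _ ⟨e, rfl⟩
    exact hU' e.1 e.2 x hx
  have hRr : Module.finrank ℚ R = Module.finrank ℚ E := LinearMap.finrank_range_of_inj hinj
  have hinf : U ⊓ R = ⊥ := by
    rw [eq_bot_iff]
    rintro y ⟨hyU, e, rfl⟩
    rw [Submodule.mem_bot]
    show e.1 * x = 0
    by_cases he : e.1 = 0
    · rw [he, zero_mul]
    · exfalso
      apply hxU
      have h3 : e.1⁻¹ * (e.1 * x) ∈ U := hU _ (inv_mem E h1 hE e.2) _ hyU
      rwa [inv_mul_cancel_left₀ he] at h3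
  haveI : Module.Finite ℚ U := Submodule.finiteDimensional_of_le hle
  haveI : Module.Finite ℚ R := Submodule.finiteDimensional_of_le hRle
  have h4 := Submodule.finrank_sup_add_finrank_inf_eq U R
  rw [hinf, finrank_bot, add_zero, hRr] at h4
  rw [← h4]
  exact Submodule.finrank_mono (sup_le hle hRle)

end Pool.MZDim
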