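import Pool.Agent.Lib.MZDim.Defs

/-! MODULE Wrd (about 50 lines). MP_301213_nt, dim Z_k → ∞. The 2^n words of length n with letters 2 and 3.

PROOF. A = image of univ : Finset (Fin n → Bool) under f ↦ List.ofFn (fun i => if f i then 2 else 3); the map is injective
(List.ofFn_injective, then pointwise), card = 2^n (Finset.card_image_of_injective, Fintype.card_fun). Letters are 2 or 3
(List.mem_ofFn); the sum is ∑ i (..) ≤ 3 n (List.sum_ofFn). Or: induction on n with A_{n+1} = A_n.image (2 :: ·) ∪ A_n.image (3 :: ·). -/

open HofPers Finset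

namespace Pool.MZDim

theorem exists_words_A (n : ℕ) : ∃ A : Finset (List ℕ), A.card = 2 ^ n ∧
    ∀ l ∈ A, Adm l ∧ l.sum ≤ 3 * n := by
  classical
  have hinj : Function.Injective
      (fun f : Fin n → Bool => List.ofFn (fun i => if f i then (2 : ℕ) else 3)) := by
    intro f g hfg
    have h1 := List.ofFn_injective hfg
    funext i
    have h2 : (if f i then (2 : ℕ) else 3) = if g i then (2 : ℕ) else 3 := congrFun h1 i
    cases hf : f i <;> cases hg : g i <;> simp [hf, hg] at h2 ⊢
  refine ⟨(Finset.univ : Finset (Fin n → Bool)).image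
    (fun f => List.ofFn (fun i => if f i then (2 : ℕ) else 3)), ?_, ?_⟩
  · rw [Finset.card_image_of_injective _ hinj, Finset.card_univ, Fintype.card_fun,
      Fintype.card_bool, Fintype.card_fin]
  · intro l hl
    rw [Finset.mem_image] at hl
    obtain ⟨f, -, rfl⟩ := hl
    constructor
    · intro x hx
      rw [List.mem_ofFn] at hx
      obtain ⟨i, rfl⟩ := hx
      split_ifs <;> omega
    · rw [List.sum_ofFn]
      have h1 : ∑ i : Fin n, (if f i then (2 : ℕ) else 3) ≤ ∑ _i : Fin n, 3 := by
        refine Finset.sum_le_sum fun i _ => ?_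
        split_ifs <;> omega
      refine h1.trans ?_
      simp [mul_comm]

end Pool.MZDim
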