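import Pool.Agent.Lib.MZDim.FormsA
import Pool.Agent.Lib.MZDim.GFin
import Pool.Agent.Lib.MZDim.Wrd

/-! MODULE LTp (about 90 lines). MP_301213_nt, dim Z_k → ∞. Statement (T').

PROOF. num (private): there is n1 with 100 (25 (6n+8)^3 (6n+2)^3 + 1)^3 ≤ 2^n for all n ≥ n1 (exponential against polynomial of degree 18:
bound the left side by 10^9 (6n+8)^18 ≤ C (n+2)^18; `tendsto_pow_const_div_const_pow_of_one_lt` or isLittleO).
B := 6 n1 + 8. Let E be as in the statement, finite dimensional, f = finrank E ≥ 1 (1 ∈ E). If K + 1 ≤ B: K + 1 ≤ B f. Otherwise K ≥ 6 n1 + 8; put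
n = (K - 2) / 6 ≥ n1, K' = 6n+2 ≤ K < K' + 6. A from exists_words_A n, w = 3n, 2w+2 = K', Dl = 25 (K'+6)^3 K'^3; forms A w Dl, field_bound with
D = K' + 6: K' + 6 < f, so K + 1 ≤ f ≤ B f. -/

open HofPers Finset

namespace Pool.MZDim

private lemma num : ∃ n1 : ℕ, ∀ n : ℕ, n1 ≤ n →
    100 * (25 * (6 * n + 8) ^ 3 * (6 * n + 2) ^ 3 + 1) ^ 3 ≤ 2 ^ n := by
  have h := tendsto_pow_const_div_const_pow_of_one_lt 18 (one_lt_two (α := ℝ))
  have hC : (0 : ℝ) < 1 / (1757600 * 14 ^ 18) := by positivity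
  have h2 := h.eventually_lt_const hC
  rw [Filter.eventually_atTop] at h2
  obtain ⟨n0, hn0⟩ := h2
  refine ⟨max n0 1, fun n hn => ?_⟩
  have h3 := hn0 n (le_trans (le_max_left _ _) hn)
  have hn1 : 1 ≤ n := le_trans (le_max_right _ _) hn
  have h4 : 1757600 * 14 ^ 18 * (n : ℝ) ^ 18 < 2 ^ n := by
    rw [div_lt_div_iff₀ (by positivity) (by positivity)] at h3
    linarith
  have h5 : 1757600 * 14 ^ 18 * n ^ 18 < 2 ^ n := by exact_mod_cast h4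
  have h6 : 6 * n + 8 ≤ 14 * n := by omega
  have h7 : (6 * n + 2) ^ 3 ≤ (6 * n + 8) ^ 3 := Nat.pow_le_pow_left (by omega) 3
  have h8 : 1 ≤ (6 * n + 8) ^ 6 := Nat.one_le_pow _ _ (by omega)
  have h9 : 25 * (6 * n + 8) ^ 3 * (6 * n + 2) ^ 3 + 1 ≤ 26 * (6 * n + 8) ^ 6 := by
    have h10 : 25 * (6 * n + 8) ^ 3 * (6 * n + 2) ^ 3 ≤
        25 * (6 * n + 8) ^ 3 * (6 * n + 8) ^ 3 := Nat.mul_le_mul_left _ h7
    have h11 : 25 * (6 * n + 8) ^ 3 * (6 * n + 8) ^ 3 = 25 * (6 * n + 8) ^ 6 := by ring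
    omega
  calc 100 * (25 * (6 * n + 8) ^ 3 * (6 * n + 2) ^ 3 + 1) ^ 3
      ≤ 100 * (26 * (6 * n + 8) ^ 6) ^ 3 :=
        Nat.mul_le_mul_left _ (Nat.pow_le_pow_left h9 3)
    _ = 1757600 * (6 * n + 8) ^ 18 := by ring
    _ ≤ 1757600 * (14 * n) ^ 18 := Nat.mul_le_mul_left _ (Nat.pow_le_pow_left h6 18)
    _ = 1757600 * 14 ^ 18 * n ^ 18 := by ring
    _ ≤ 2 ^ n := h5.le

theorem exists_B : ∃ B : ℕ, 1 ≤ B ∧ ∀ (K : ℕ) (E : Submodule ℚ ℝ), Module.Finite ℚ E →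
    (1 : ℝ) ∈ E → (∀ x ∈ E, ∀ y ∈ E, x * y ∈ E) →
    (∀ l : List ℕ, Adm l → l.sum ≤ K → zv l / Real.pi ^ l.sum ∈ E) →
    K + 1 ≤ B * Module.finrank ℚ E := by
  obtain ⟨n1, hn1⟩ := num
  refine ⟨6 * n1 + 8, by omega, ?_⟩
  intro K E hfin h1 hE hz
  have hf : 1 ≤ Module.finrank ℚ E := by
    have : Nontrivial E :=
      ⟨⟨1, h1⟩, 0, fun h => one_ne_zero (congrArg Subtype.val h)⟩
    exact Module.finrank_pos
  by_cases hK : K + 1 ≤ 6 * n1 + 8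
  · exact hK.trans (Nat.le_mul_of_pos_right _ hf)
  · obtain ⟨n, hn⟩ : ∃ n, n = (K - 2) / 6 := ⟨_, rfl⟩
    have hn2 : n1 ≤ n := by omega
    have hn3 : 6 * n + 2 ≤ K := by omega
    have hn4 : K < 6 * n + 8 := by omega
    obtain ⟨A, hA1, hA2⟩ := exists_words_A n
    obtain ⟨K', hK'⟩ : ∃ K', K' = 2 * (3 * n) + 2 := ⟨_, rfl⟩
    have hK6 : K' = 6 * n + 2 := by omega
    have hcard : 100 * (25 * (K' + 6) ^ 3 * K' ^ 3 + 1) ^ 3 ≤ A.card := by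
      rw [hA1, hK6]
      exact hn1 n hn2
    have hform := forms A (3 * n) (25 * (K' + 6) ^ 3 * K' ^ 3) hA2 hcard
    rw [← hK'] at hform
    have hb := field_bound (K' + 6) K' (25 * (K' + 6) ^ 3 * K' ^ 3) (by omega) (by omega) le_rfl
      hform E h1 hE (fun l hl hs => hz l hl (by omega))
    have h3 : Module.finrank ℚ E ≤ (6 * n1 + 8) * Module.finrank ℚ E :=
      Nat.le_mul_of_pos_left _ (by omega)
    omega

end Pool.MZDim
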