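import Pool.Agent.Lib.MZDim.FormsA
import Pool.Agent.Lib.MZDim.GFin
import Pool.Agent.Lib.MZDim.FibW
import Pool.Agent.Lib.MZDim.LNum

/-! MP_301213_nt, dim Z_k → ∞: statement (T'), explicit form. -/

open HofPers Finset

namespace Pool.MZDim

theorem field_ge (K : ℕ) (E : Submodule ℚ ℝ) (hfin : Module.Finite ℚ E) (h1 : (1 : ℝ) ∈ E)
    (hE : ∀ x ∈ E, ∀ y ∈ E, x * y ∈ E)
    (hz : ∀ l : List ℕ, Adm l → l.sum ≤ K → zv l / Real.pi ^ l.sum ∈ E) :
    K + 1 ≤ 274 * Module.finrank ℚ E := by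
  have hpos : 1 ≤ Module.finrank ℚ E := by
    have : Nontrivial E := ⟨⟨1, h1⟩, 0, fun h => one_ne_zero (congrArg Subtype.val h)⟩
    exact Module.finrank_pos
  by_cases hK1 : K ≤ 273
  · omega
  by_cases hK2 : K ≤ 547
  · obtain ⟨A, hA1, hA2⟩ := exists_words_fib 136
    have hF := forms A 136 (25 * 1 ^ 3 * (2 * 136 + 2) ^ 3) hA2 (by rw [hA1]; exact fib_137)
    have h2 := field_bound 1 (2 * 136 + 2) (25 * 1 ^ 3 * (2 * 136 + 2) ^ 3) le_rfl (by norm_num)
      le_rfl hF E h1 hE (fun l hl hs => hz l hl (by omega))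
    omega
  · set w := (K - 2) / 2 with hw
    have hw1 : 2 * w + 2 ≤ K := by omega
    have hw2 : K ≤ 2 * w + 3 := by omega
    have hw3 : 266 ≤ w := by omega
    obtain ⟨A, hA1, hA2⟩ := exists_words_fib w
    have hF := forms A w (25 * (2 * w + 3) ^ 3 * (2 * w + 2) ^ 3) hA2
      (by rw [hA1]; exact fib_big w hw3)
    have h2 := field_bound (2 * w + 3) (2 * w + 2) (25 * (2 * w + 3) ^ 3 * (2 * w + 2) ^ 3)
      (by omega) (by omega) le_rfl hF E h1 hE (fun l hl hs => hz l hl (by omega))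
    omega

end Pool.MZDim
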