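import Mathlib

/-! MODULE LinW (about 60 lines, ONLY MATHLIB). MP_301213_nt, dim Z_k → ∞. Linear algebra.

PROOFS.
* exists_words: the family v restricted to the finite set S of indices spans V := span ℚ (v '' S). Choose a subset
  W ⊆ S such that v is linearly independent on W (injective there) and span (v '' W) = span (v '' S):
  `exists_linearIndepOn_extension` / `exists_linearIndependent'` (a maximal linearly independent subfamily), W is
  finite as a subset of S; its cardinality is the dimension of the span (finrank_span_eq_card, or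
  Basis.span + Module.finrank_eq_card_basis). -/

open Finset

namespace Pool.MZDim

theorem exists_words {ι : Type*} (v : ι → ℝ) (S : Set ι) (hS : S.Finite) :
    Module.Finite ℚ (Submodule.span ℚ (v '' S)) ∧
    ∃ W : Finset ι, (∀ l ∈ W, l ∈ S) ∧ LinearIndependent ℚ (fun l : W => v l) ∧
      W.card = Module.finrank ℚ (Submodule.span ℚ (v '' S)) := by
  classical
  have hfin : Module.Finite ℚ (Submodule.span ℚ (v '' S)) :=
    FiniteDimensional.span_of_finite ℚ (hS.image v)
  refine ⟨hfin, ?_⟩
  obtain ⟨b, hb1, hb2, hb3, hb4⟩ := exists_linearIndepOn_extension (K := ℚ) (v := v)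
    (linearIndepOn_empty ℚ v) (Set.empty_subset S)
  have hbf : b.Finite := hS.subset hb1
  refine ⟨hbf.toFinset, fun l hl => hb1 (hbf.mem_toFinset.1 hl), ?_, ?_⟩
  · have h1 : LinearIndependent ℚ (fun x : b => v x) := hb4
    exact h1.comp (fun l : hbf.toFinset => (⟨l.1, hbf.mem_toFinset.1 l.2⟩ : b))
      (fun x y hxy => Subtype.ext (congrArg (fun z : b => (z : ι)) hxy))
  · have h1 : LinearIndependent ℚ (fun x : b => v x) := hb4
    have h2 : Submodule.span ℚ (v '' S) = Submodule.span ℚ (Set.range fun x : b => v x) := by
      apply le_antisymm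
      · rw [Submodule.span_le]
        intro x hx
        have h3 := hb3 hx
        rwa [Set.image_eq_range] at h3
      · apply Submodule.span_mono
        rintro _ ⟨x, rfl⟩
        exact ⟨x, hb1 x.2, rfl⟩
    have : Fintype b := hbf.fintype
    rw [h2, finrank_span_eq_card h1, hbf.card_toFinset, Fintype.card_eq_nat_card]

theorem finrank_mono_of_le {V W : Submodule ℚ ℝ} (h : V ≤ W) [Module.Finite ℚ W] :
    Module.finrank ℚ V ≤ Module.finrank ℚ W :=
  Submodule.finrank_mono h

end Pool.MZDim
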