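import Pool.Agent.Lib.MZDim.Defs

/-! MODULE WBasic (about 150 lines). MP_301213_nt, dim Z_k → ∞. Basic facts about `sR` and `zv`.

Library: HofPers.sR l M = ∑_{j ≤ M} aR l j, aR_nonneg; aR (a :: l) (m+1) = ((m+1)^a)⁻¹ * sR l m and
aR (a :: l) 0 = 0 (empty sum); sR_nil, sR_cons; HofPers.conv_real, summable_aR, adm_reverse.

PROOFS.
* sR_nonneg: sum of aR_nonneg. sR_mono: range (M+1) ⊆ range (M'+1), terms nonnegative.
* zv_nil: HofPers.T_nil.
* zv_eq_tsum_aR (private): for Adm l, Summable (aR l) and zv l = ∑' M, aR l M: this is conv_real with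
  u = l.reverse, v = [] (T_nil = 1, List.reverse_reverse, List.append_nil).
* zv_cons: the series ∑ aR (a :: l) M has term 0 at M = 0 and term sR l m / (m+1)^a at M = m+1:
  Summable.tsum_eq_zero_add and (summable_nat_add_iff 1).2.
* sR_tendsto: HasSum.tendsto_sum_nat of the series ∑ aR l, shifted by one (sR l M = ∑ range (M+1)):
  (tendsto_add_atTop_iff_nat 1).2.
* sR_le_zv: monotone sequence with limit zv l (Monotone.ge_of_tendsto).
* zv_le: induction on l: zv (a :: l) = ∑ sR l M / (M+1)^a ≤ ∑ zv l / (M+1)^2 ≤ 2^length * (π^2/6) and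
  π^2/6 ≤ 2 (hasSum_zeta_two; Real.pi_lt_four is too weak: use Real.pi_lt_d2, π < 3.15), or compare
  ∑ 1/(M+1)^2 ≤ 1 + ∑ 1/(M(M+1)) = 2.
* zv_pos: HofPers.T_pos with adm_reverse. -/

open HofPers Finset Filter Topology

namespace Pool.MZDim

theorem sR_nonneg (l : List ℕ) (M : ℕ) : 0 ≤ sR l M :=
  Finset.sum_nonneg fun j _ => aR_nonneg l j

theorem sR_mono (l : List ℕ) : Monotone (sR l) := by
  intro M M' h
  refine Finset.sum_le_sum_of_subset_of_nonneg ?_ fun j _ _ => aR_nonneg l j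
  intro j hj
  rw [Finset.mem_range] at hj ⊢
  omega

theorem zv_nil : zv [] = 1 := by
  simp [zv, T_nil]

private theorem zv_aR {l : List ℕ} (h : Adm l) :
    (Summable fun M : ℕ => aR l M) ∧ zv l = ∑' M : ℕ, aR l M := by
  have h1 := conv_real (u := l.reverse) (v := []) (adm_reverse h) (by intro a ha; simp at ha)
  simpa [T_nil, zv] using h1

private theorem aR_succ (a : ℕ) (l : List ℕ) (m : ℕ) :
    aR (a :: l) (m + 1) = sR l m / ((m : ℝ) + 1) ^ a := by
  simp only [aR, sR]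
  push_cast
  rw [div_eq_inv_mul]

private theorem aR_zero (a : ℕ) (l : List ℕ) : aR (a :: l) 0 = 0 := by
  simp [aR]

theorem zv_cons {a : ℕ} {l : List ℕ} (h : Adm (a :: l)) :
    (Summable fun M : ℕ => sR l M / ((M : ℝ) + 1) ^ a) ∧
      zv (a :: l) = ∑' M : ℕ, sR l M / ((M : ℝ) + 1) ^ a := by
  obtain ⟨h1, h2⟩ := zv_aR h
  have h3 := (summable_nat_add_iff 1).2 h1
  simp only [aR_succ] at h3
  refine ⟨h3, ?_⟩
  rw [h2, h1.tsum_eq_zero_add, aR_zero, zero_add]
  exact tsum_congr fun m => aR_succ a l m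

theorem sR_tendsto {l : List ℕ} (h : Adm l) : Tendsto (sR l) atTop (𝓝 (zv l)) := by
  obtain ⟨h1, h2⟩ := zv_aR h
  have h3 := h1.hasSum.tendsto_sum_nat
  rw [← h2] at h3
  exact (tendsto_add_atTop_iff_nat 1).2 h3

theorem sR_le_zv {l : List ℕ} (h : Adm l) (M : ℕ) : sR l M ≤ zv l :=
  (sR_mono l).ge_of_tendsto (sR_tendsto h) M

theorem zv_pos {l : List ℕ} (h : Adm l) : 0 < zv l :=
  T_pos (adm_reverse h) 0

theorem zv_le {l : List ℕ} (h : Adm l) : zv l ≤ 2 ^ l.length := by
  induction l with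
  | nil => rw [zv_nil]; simp
  | cons a l ih =>
    have hl : Adm l := h.tail
    have ih' := ih hl
    obtain ⟨h1, h2⟩ := zv_cons h
    have ha : 2 ≤ a := h a (List.mem_cons_self ..)
    have hz := hasSum_zeta_two
    have hz' : Summable fun M : ℕ => 1 / ((M : ℝ) + 1) ^ 2 := by
      have := (summable_nat_add_iff 1).2 hz.summable
      simpa using this
    have hz2 : ∑' M : ℕ, 1 / ((M : ℝ) + 1) ^ 2 = Real.pi ^ 2 / 6 := by
      have h4 := hz.summable.tsum_eq_zero_add
      rw [hz.tsum_eq] at h4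
      rw [h4]
      simp
    have hpi : Real.pi ^ 2 / 6 ≤ 2 := by
      have h5 := Real.pi_lt_d2
      have h6 := Real.pi_pos
      nlinarith
    rw [h2]
    calc ∑' M : ℕ, sR l M / ((M : ℝ) + 1) ^ a
        ≤ ∑' M : ℕ, 2 ^ l.length * (1 / ((M : ℝ) + 1) ^ 2) := by
          refine h1.tsum_le_tsum (fun M => ?_) (hz'.mul_left _)
          have hM : (1 : ℝ) ≤ (M : ℝ) + 1 := by
            have : (0 : ℝ) ≤ M := Nat.cast_nonneg M
            linarith
          have hM0 : (0 : ℝ) < (M : ℝ) + 1 := by linarith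
          have hp : ((M : ℝ) + 1) ^ 2 ≤ ((M : ℝ) + 1) ^ a := pow_le_pow_right₀ hM ha
          have hs : sR l M ≤ 2 ^ l.length := (sR_le_zv hl M).trans ih'
          rw [mul_one_div]
          exact div_le_div₀ (by positivity) hs (by positivity) hp
      _ = 2 ^ l.length * (Real.pi ^ 2 / 6) := by rw [tsum_mul_left, hz2]
      _ ≤ 2 ^ l.length * 2 := by
          exact mul_le_mul_of_nonneg_left hpi (by positivity)
      _ = 2 ^ (a :: l).length := by rw [List.length_cons, pow_succ]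

end Pool.MZDim
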