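import Pool.Agent.Lib.MZDim.BBound
import Pool.Agent.Lib.MZDim.WBasic
import Pool.Agent.Lib.MZDim.Smp
import Pool.Agent.Lib.MZDim.Box

/-! MODULE Pick (about 130 lines). MP_301213_nt, dim Z_k → ∞. The box principle applied to `f_y`.

PROOF. ι = Fin (N+1) × A (A as a Finset type), a (i, l) s = beta N i (s-1) * sR l (s-1) ∈ [0, M0], M0 = 2^L where L is a bound of the
lengths of the words of A (beta_nonneg, beta_le_one, sR_nonneg, sR_le_zv, zv_le), X = ⌊exp N⌋₊, ε = exp(-(dl N)), S = smp (p N) A0,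
|S| ≤ (A0+2) p N, |ι| = (N+1) |A|.
The counting hypothesis of `box`: put n = (N+1)|A|. X ≤ exp N, so
 n X M0 / ε + 1 ≤ 2 n M0 exp N exp(dl N) (n, M0, .. ≥ 1; A nonempty as its card is positive), hence
 LHS ≤ exp( (A0+2) p N ( (1+dl) N + log (2 n M0) ) ) (base ≥ 1, exponent |S| ≤ (A0+2)pN), RHS > exp(N)^n = exp((N+1)|A| N) since X + 1 > exp N.
 By hypothesis (A0+2) p (1+dl) + 1 ≤ |A|; so it suffices that (A0+2) p log(2 (N+1)|A| M0) ≤ N: true for large N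
 (log (C (N+1)) / N → 0: `Real.isLittleO_log_id_atTop`, or log x ≤ 2 sqrt x).
 Strictness: RHS > exp(N)^n strictly (n ≥ 1).
The y of `box` on ι is extended by zero: y i l = if i ≤ N ∧ l ∈ A then y(i,l) else 0; fy A N y (s-1) = the sum over ι
(Finset.sum_range, Finset.sum_coe_sort / sum_attach, Fintype.sum_prod_type). -/

open HofPers Finset Filter Topology

namespace Pool.MZDim

private theorem pick_ev {K c : ℝ} (hK : 0 < K) (hc : 0 < c) :
    ∀ᶠ N : ℕ in atTop, K * Real.log (c * ((N : ℝ) + 1)) ≤ N := by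
  have h1 : ∀ᶠ x : ℝ in atTop, ‖Real.log x‖ ≤ 1 / (2 * K * c) * ‖id x‖ :=
    Real.isLittleO_log_id_atTop.bound (by positivity)
  have h2 : Tendsto (fun N : ℕ => c * ((N : ℝ) + 1)) atTop atTop :=
    Tendsto.const_mul_atTop hc (tendsto_atTop_add_const_right _ _ tendsto_natCast_atTop_atTop)
  filter_upwards [h2.eventually h1, eventually_ge_atTop 1] with N hN hN1
  have h3 : (1 : ℝ) ≤ N := by exact_mod_cast hN1
  rw [id, Real.norm_eq_abs, Real.norm_eq_abs, abs_of_pos (show 0 < c * ((N : ℝ) + 1) by positivity)]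
    at hN
  have h4 := (le_abs_self _).trans hN
  calc K * Real.log (c * ((N : ℝ) + 1)) ≤ K * (1 / (2 * K * c) * (c * ((N : ℝ) + 1))) :=
        mul_le_mul_of_nonneg_left h4 hK.le
    _ = ((N : ℝ) + 1) / 2 := by field_simp
    _ ≤ N := by linarith

private theorem pick_count {N n m dl T A0 p a : ℕ} {M0 : ℝ} (hM0 : 1 ≤ M0) (hN : 1 ≤ N) (ha : 1 ≤ a)
    (hn : n = (N + 1) * a) (hm : m ≤ T * N) (_hT : T = (A0 + 2) * p)
    (hcard : T * (1 + dl) + 1 ≤ a)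
    (hlog : (T : ℝ) * Real.log (2 * a * M0 * ((N : ℝ) + 1)) ≤ N) :
    ((n : ℝ) * ((⌊Real.exp N⌋₊ : ℕ) : ℝ) * M0 / Real.exp (-((dl : ℝ) * N)) + 1) ^ m <
      (((⌊Real.exp N⌋₊ : ℕ) : ℝ) + 1) ^ n := by
  have hNr : (1 : ℝ) ≤ N := by exact_mod_cast hN
  have har : (1 : ℝ) ≤ a := by exact_mod_cast ha
  have hX : ((⌊Real.exp N⌋₊ : ℕ) : ℝ) ≤ Real.exp N := Nat.floor_le (Real.exp_pos _).le
  have hX1 : Real.exp N < ((⌊Real.exp N⌋₊ : ℕ) : ℝ) + 1 := Nat.lt_floor_add_one _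
  have hnr : (n : ℝ) = ((N : ℝ) + 1) * a := by rw [hn]; push_cast; ring
  have hn1 : (1 : ℝ) ≤ n := by
    rw [hnr]
    nlinarith
  set B : ℝ := 2 * a * M0 * ((N : ℝ) + 1) * Real.exp ((1 + dl) * N) with hB
  have hE : (1 : ℝ) ≤ Real.exp ((1 + dl) * N) := Real.one_le_exp (by positivity)
  have hbase : (n : ℝ) * ((⌊Real.exp N⌋₊ : ℕ) : ℝ) * M0 / Real.exp (-((dl : ℝ) * N)) + 1 ≤ B := by
    have h1 : (n : ℝ) * ((⌊Real.exp N⌋₊ : ℕ) : ℝ) * M0 / Real.exp (-((dl : ℝ) * N)) ≤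
        n * M0 * Real.exp ((1 + dl) * N) := by
      rw [Real.exp_neg, div_inv_eq_mul]
      have h2 : Real.exp ((1 + dl) * N) = Real.exp N * Real.exp ((dl : ℝ) * N) := by
        rw [← Real.exp_add]
        congr 1
        ring
      rw [h2]
      calc (n : ℝ) * ((⌊Real.exp N⌋₊ : ℕ) : ℝ) * M0 * Real.exp ((dl : ℝ) * N)
          ≤ n * Real.exp N * M0 * Real.exp ((dl : ℝ) * N) := by gcongr
        _ = n * M0 * (Real.exp N * Real.exp ((dl : ℝ) * N)) := by ring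
    have h3 : (1 : ℝ) ≤ n * M0 * Real.exp ((1 + dl) * N) := by
      have h4 : (1 : ℝ) ≤ n * M0 := by nlinarith
      nlinarith
    have h5 : B = 2 * (n * M0 * Real.exp ((1 + dl) * N)) := by
      rw [hB, hnr]
      ring
    rw [h5]
    linarith
  have hB1 : 1 ≤ B := by
    refine le_trans ?_ hbase
    have : 0 ≤ (n : ℝ) * ((⌊Real.exp N⌋₊ : ℕ) : ℝ) * M0 / Real.exp (-((dl : ℝ) * N)) := by
      positivity
    linarith
  have hc0 : 0 < 2 * (a : ℝ) * M0 * ((N : ℝ) + 1) := by positivity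
  have hBe : B = Real.exp (Real.log (2 * a * M0 * ((N : ℝ) + 1)) + (1 + dl) * N) := by
    rw [Real.exp_add, Real.exp_log hc0]
  have hTN : (0 : ℝ) ≤ (T : ℝ) * N := by positivity
  calc ((n : ℝ) * ((⌊Real.exp N⌋₊ : ℕ) : ℝ) * M0 / Real.exp (-((dl : ℝ) * N)) + 1) ^ m
      ≤ B ^ m := pow_le_pow_left₀ (by positivity) hbase _
    _ ≤ B ^ (T * N) := pow_le_pow_right₀ hB1 hm
    _ = Real.exp (((T * N : ℕ) : ℝ) *
          (Real.log (2 * a * M0 * ((N : ℝ) + 1)) + (1 + dl) * N)) := by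
        rw [hBe, ← Real.exp_nat_mul]
    _ ≤ Real.exp ((n : ℝ) * N) := by
        rw [Real.exp_le_exp]
        have h6 : ((T * (1 + dl) + 1 : ℕ) : ℝ) ≤ a := by exact_mod_cast hcard
        push_cast at h6 ⊢
        have h7 : (N : ℝ) * ((T : ℝ) * Real.log (2 * a * M0 * ((N : ℝ) + 1))) ≤ N * N :=
          mul_le_mul_of_nonneg_left hlog (by linarith)
        have h8 : (N : ℝ) * N * ((T : ℝ) * (1 + dl) + 1) ≤ N * N * a :=
          mul_le_mul_of_nonneg_left h6 (by positivity)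
        have h9 : (N : ℝ) * N * a ≤ n * N := by
          rw [hnr]
          nlinarith
        nlinarith
    _ = Real.exp N ^ n := by rw [← Real.exp_nat_mul]
    _ < (((⌊Real.exp N⌋₊ : ℕ) : ℝ) + 1) ^ n := by
        refine pow_lt_pow_left₀ hX1 (Real.exp_pos _).le ?_
        rintro rfl
        norm_num at hn1

theorem exists_pick (A : Finset (List ℕ)) (hA : ∀ l ∈ A, Adm l) (p A0 dl : ℕ) (hp : 1 ≤ p)
    (hcard : (A0 + 2) * p * (1 + dl) + 1 ≤ A.card) :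
    ∀ᶠ N : ℕ in atTop, ∃ y : ℕ → List ℕ → ℤ, (∃ i ≤ N, ∃ l ∈ A, y i l ≠ 0) ∧
      (∀ i l, |(y i l : ℝ)| ≤ Real.exp N) ∧
      ∀ s ∈ smp (p * N) A0, |fy A N y (s - 1)| ≤ Real.exp (-((dl : ℝ) * N)) := by
  classical
  set M0 : ℝ := 2 ^ (A.sup List.length) with hM0
  have hM1 : 1 ≤ M0 := one_le_pow₀ (by norm_num)
  have ha1 : 1 ≤ A.card := le_trans (Nat.le_add_left _ _) hcard
  have ha1' : (1 : ℝ) ≤ A.card := by exact_mod_cast ha1
  have hK : (0 : ℝ) < (((A0 + 2) * p : ℕ) : ℝ) := by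
    have : 0 < (A0 + 2) * p := Nat.mul_pos (by omega) hp
    exact_mod_cast this
  filter_upwards [pick_ev hK (show (0 : ℝ) < 2 * A.card * M0 by positivity),
    eventually_ge_atTop 1] with N hN hN1
  let a : Fin (N + 1) × A → ℕ → ℝ := fun il s => beta N il.1 (s - 1) * sR il.2 (s - 1)
  have ha0 : ∀ i, ∀ k ∈ smp (p * N) A0, 0 ≤ a i k := fun i k _ =>
    mul_nonneg (beta_nonneg _ _ _) (sR_nonneg _ _)
  have haM : ∀ i, ∀ k ∈ smp (p * N) A0, a i k ≤ M0 := by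
    rintro ⟨i, l, hl⟩ k _
    have h1 : sR l (k - 1) ≤ M0 := by
      refine (sR_le_zv (hA l hl) _).trans ((zv_le (hA l hl)).trans ?_)
      exact pow_le_pow_right₀ (by norm_num) (Finset.le_sup (f := List.length) hl)
    calc a (i, ⟨l, hl⟩) k = beta N i (k - 1) * sR l (k - 1) := rfl
      _ ≤ 1 * M0 := mul_le_mul (beta_le_one _ _ _) h1 (sR_nonneg _ _) (by norm_num)
      _ = M0 := one_mul _
  have hcι : Fintype.card (Fin (N + 1) × A) = (N + 1) * A.card := by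
    rw [Fintype.card_prod, Fintype.card_fin, Fintype.card_coe]
  have hcount := pick_count (N := N) (n := Fintype.card (Fin (N + 1) × A))
    (m := (smp (p * N) A0).card) (dl := dl) (T := (A0 + 2) * p) (A0 := A0) (p := p)
    (a := A.card) (M0 := M0) hM1 hN1 ha1 hcι
    ((card_smp _ _).trans_eq (by ring)) rfl hcard hN
  obtain ⟨y, hy0, hyX, hyS⟩ := box (smp (p * N) A0) a ⌊Real.exp N⌋₊ (M0 := M0)
    (ε := Real.exp (-((dl : ℝ) * N))) (by linarith) (Real.exp_pos _) ha0 haM hcount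
  have hX : ((⌊Real.exp N⌋₊ : ℕ) : ℝ) ≤ Real.exp N := Nat.floor_le (Real.exp_pos _).le
  let Y : ℕ → List ℕ → ℤ := fun i l =>
    if h : i < N + 1 ∧ l ∈ A then y (⟨i, h.1⟩, ⟨l, h.2⟩) else 0
  have hY : ∀ (i : Fin (N + 1)) (l : A), Y i l = y (i, l) := by
    intro i l
    have h : (i : ℕ) < N + 1 ∧ (l : List ℕ) ∈ A := ⟨i.2, l.2⟩
    change (if h : (i : ℕ) < N + 1 ∧ (l : List ℕ) ∈ A then y (⟨i, h.1⟩, ⟨l, h.2⟩) else 0) = _
    rw [dif_pos h]
  refine ⟨Y, ?_, fun i l => ?_, fun s hs => ?_⟩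
  · obtain ⟨⟨i, l⟩, hil⟩ := Function.ne_iff.1 hy0
    refine ⟨i, Nat.lt_succ_iff.1 i.2, l, l.2, ?_⟩
    rw [hY]
    exact hil
  · by_cases h : i < N + 1 ∧ l ∈ A
    · have h1 : Y i l = y (⟨i, h.1⟩, ⟨l, h.2⟩) := dif_pos h
      rw [h1]
      exact (hyX _).trans hX
    · have h1 : Y i l = 0 := dif_neg h
      rw [h1, Int.cast_zero, abs_zero]
      exact (Real.exp_pos _).le
  · have h1 : fy A N Y (s - 1) = ∑ i, (y i : ℝ) * a i s := by
      unfold fy
      rw [Finset.sum_range, Fintype.sum_prod_type]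
      refine Finset.sum_congr rfl fun i _ => ?_
      rw [← Finset.sum_coe_sort A]
      refine Finset.sum_congr rfl fun l _ => ?_
      rw [hY]
    rw [h1]
    exact hyS s hs

end Pool.MZDim
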