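import Pool.Agent.Lib.MZDim.WBasic

/-! MP_301213_nt, dim Z_k → ∞, group R: definitions. -/

open HofPers Finset

namespace Pool.MZDim

/-- `S(l;u) = ∑_{t ≥ 1} h_l(t) / (t+u)^2`, `t = M + 1` -/
noncomputable def Sf (l : List ℕ) (u : ℕ) : ℝ := ∑' M : ℕ, sR l M * (((M : ℝ) + 1 + u) ^ 2)⁻¹

/-- `D(l;u) = ∑_{t ≥ 1} h_l(t) (1/t - 1/(t+u))` -/
noncomputable def Df (l : List ℕ) (u : ℕ) : ℝ :=
  ∑' M : ℕ, sR l M * (((M : ℝ) + 1)⁻¹ - ((M : ℝ) + 1 + u)⁻¹)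

/-- the bound of the representations of `S(l;u)`, `D(l;u)`, `u ≤ n` -/
noncomputable def Bl (n : ℕ) (l : List ℕ) : ℝ :=
  (((n : ℝ) + 2) * ((l.sum : ℝ) + 3) ^ 2) ^ (l.length + 1)

end Pool.MZDim
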