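import Pool.Agent.Lib.MZDim.RW
import Pool.Agent.Lib.MZDim.RRep

/-! MODULE RInd (about 200 lines). MP_301213_nt, dim Z_k → ∞. `Sf l u` and `Df l u` are representable (paper (2.4)).

PROOF. Induction on l, for all u ≤ n.
l = []: Sf [] u = Sf [] 0 - ∑_{v<u} 1/(v+1)^2 (Sf_nil, Finset.sum_range_succ), Sf [] 0 = zv [2] (Sf_zero): rep_zv (weight 2), rep_one n 0 with rep_div_pow (j = 2, v+1 ≤ n),
rep_sum, signs by rep_zmul (-1): bound 1 + u ≤ n + 1 ≤ Bl n [] = (n+2) * 9. Df [] u = ∑_{v<u} 1/(v+1): counter 1, bound n.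
l = c :: l', c ≥ 2, B' = Bl n l' ≥ 1: for 1 ≤ v ≤ n, W2_eq: the increment is in Rep n (l.sum+2) ((c+1)^2 B'):
 the terms zv ((i+1) :: l') (weight i+1+l'.sum) divided by v^(c-i+1): counter l.sum + 2, times the integer ±(c-i): ∑_{i=1}^{c-1} (c-i) ≤ c^2 B';
 Sf l' v / v^c: counter l'.sum + 2 + c, bound B'; c Df l' v / v^(c+1): counter l'.sum + 1 + c + 1, bound c B'. (c^2 + 1 + c ≤ (c+1)^2.)
 Sf l u = zv (2 :: l) - ∑_{v<u} (increment v+1) (Sf_cons): bound 1 + n (c+1)^2 B' ≤ (n+2) (l.sum+3)^2 B' ≤ Bl n l, since c ≤ l.sum, l'.sum ≤ l.sum and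
 Bl n l' = ((n+2)(l'.sum+3)^2)^(length l'+1) ≤ ((n+2)(l.sum+3)^2)^(length l' + 1).
 W1_eq: the increment is in Rep n (l.sum+1) ((c-1) + B'): zv ((i+1) :: l') / v^(c-i): counter l.sum + 1; Df l' v / v^c: counter l'.sum+1+c. -/

open HofPers Finset

namespace Pool.MZDim

private theorem ri_step {n k : ℕ} {F : ℕ → ℝ} {B0 B1 : ℝ} (hB : 0 ≤ B1) (h0 : Rep n k B0 (F 0))
    (hs : ∀ u, u + 1 ≤ n → Rep n k B1 (F (u + 1) - F u)) (u : ℕ) (hu : u ≤ n) :
    Rep n k (B0 + n * B1) (F u) := by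
  have key : ∀ u, u ≤ n → Rep n k (B0 + u * B1) (F u) := by
    intro u
    induction u with
    | zero =>
      intro _
      simpa using h0
    | succ u ih =>
      intro hu
      have h1 := rep_add (ih (by omega)) (hs u hu)
      have e1 : F u + (F (u + 1) - F u) = F (u + 1) := by ring
      rw [e1] at h1
      refine rep_mono h1 le_rfl (le_of_eq ?_)
      push_cast
      ring
  refine rep_mono (key u hu) le_rfl ?_
  have h2 : (u : ℝ) ≤ n := by exact_mod_cast hu
  nlinarith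

private theorem ri_neg {n k : ℕ} {B x : ℝ} (h : Rep n k B x) : Rep n k B (-x) := by
  have h1 := rep_zmul h (-1)
  simpa using h1

private theorem ri_sgn {n k : ℕ} {B x : ℝ} (h : Rep n k B x) (j : ℕ) :
    Rep n k B ((-1) ^ j * x) := by
  have h1 := rep_zmul h ((-1) ^ j)
  simpa using h1

private theorem ri_sgn_nat {n k : ℕ} {B x : ℝ} (h : Rep n k B x) (j m : ℕ) :
    Rep n k (m * B) ((-1) ^ j * (m : ℝ) * x) := by
  have h1 := rep_zmul h ((-1) ^ j * m)
  simpa [abs_mul] using h1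

private theorem ri_Bl_one (n : ℕ) (l : List ℕ) : 1 ≤ Bl n l := by
  unfold Bl
  apply one_le_pow₀
  have h1 : (0 : ℝ) ≤ n := Nat.cast_nonneg n
  have h2 : (0 : ℝ) ≤ (l.sum : ℝ) := Nat.cast_nonneg _
  nlinarith [mul_nonneg h1 (sq_nonneg ((l.sum : ℝ) + 3)), sq_nonneg (l.sum : ℝ)]

private theorem ri_Bl_cons (n c : ℕ) (l : List ℕ) (hc : 1 ≤ c) :
    1 + n * (((c : ℝ) + 1) ^ 2 * Bl n l) ≤ Bl n (c :: l) := by
  have hB := ri_Bl_one n l
  have h1 : (0 : ℝ) ≤ n := Nat.cast_nonneg n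
  have h2 : (0 : ℝ) ≤ (l.sum : ℝ) := Nat.cast_nonneg _
  have h3 : (0 : ℝ) ≤ (c : ℝ) := Nat.cast_nonneg _
  have h4 : (((c :: l).sum : ℕ) : ℝ) = c + l.sum := by
    rw [List.sum_cons]
    push_cast
    ring
  set q : ℝ := ((n : ℝ) + 2) * (((c : ℝ) + l.sum) + 3) ^ 2 with hq
  have h5 : Bl n (c :: l) = q * q ^ (l.length + 1) := by
    unfold Bl
    rw [h4, List.length_cons, pow_succ q (l.length + 1), mul_comm, hq]
  have h6 : Bl n l ≤ q ^ (l.length + 1) := by
    unfold Bl
    apply pow_le_pow_left₀ (by positivity)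
    rw [hq]
    apply mul_le_mul_of_nonneg_left _ (by positivity)
    apply pow_le_pow_left₀ (by positivity)
    linarith
  have h7 : ((n : ℝ) + 1) * ((c : ℝ) + 1) ^ 2 ≤ q := by
    rw [hq]
    apply mul_le_mul (by linarith) _ (by positivity) (by positivity)
    apply pow_le_pow_left₀ (by positivity)
    linarith
  have h8 : (1 : ℝ) ≤ ((c : ℝ) + 1) ^ 2 := by nlinarith
  have h9 : 0 ≤ q := by rw [hq]; positivity
  rw [h5]
  calc 1 + n * (((c : ℝ) + 1) ^ 2 * Bl n l)
      ≤ ((c : ℝ) + 1) ^ 2 * Bl n l + n * (((c : ℝ) + 1) ^ 2 * Bl n l) := by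
        nlinarith [mul_le_mul h8 hB zero_le_one (by positivity)]
    _ = (((n : ℝ) + 1) * ((c : ℝ) + 1) ^ 2) * Bl n l := by ring
    _ ≤ q * q ^ (l.length + 1) := mul_le_mul h7 h6 (by linarith) h9

theorem rep_Sf_Df (n : ℕ) (l : List ℕ) (hl : Adm l) (u : ℕ) (hu : u ≤ n) :
    Rep n (l.sum + 2) (Bl n l) (Sf l u) ∧ Rep n (l.sum + 1) (Bl n l) (Df l u) := by
  induction l generalizing u with
  | nil =>
    have hn : (0 : ℝ) ≤ n := Nat.cast_nonneg n
    have hB : Bl n [] = ((n : ℝ) + 2) * 9 := by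
      unfold Bl
      norm_num
    constructor
    · have h0 : Rep n 2 1 (Sf [] 0) := by
        rw [Sf_zero hl]
        apply rep_zv
        · intro a ha
          simp at ha
          omega
        · simp
      have h1 := ri_step (B1 := 1) zero_le_one h0 (fun u hu => by
        have e1 : Sf [] (u + 1) - Sf [] u = -((((1 : ℝ)) / (((u + 1 : ℕ) : ℝ)) ^ 2)) := by
          have := Sf_nil u
          push_cast
          rw [one_div]
          linarith
        rw [e1]
        apply ri_neg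
        have h2 := rep_div_pow (rep_one n 0) (v := u + 1) (by omega) hu 2
        exact h2) u hu
      refine rep_mono h1 (by simp) ?_
      rw [hB]
      linarith
    · have h0 : Rep n 1 0 (Df [] 0) := by
        rw [Df_zero]
        exact rep_zero n 1
      have h1 := ri_step (B1 := 1) zero_le_one h0 (fun u hu => by
        have e1 : Df [] (u + 1) - Df [] u = ((((1 : ℝ)) / (((u + 1 : ℕ) : ℝ)))) := by
          have := Df_nil u
          push_cast
          rw [one_div]
          linarith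
        rw [e1]
        exact rep_div (rep_one n 0) (v := u + 1) (by omega) hu) u hu
      refine rep_mono h1 (by simp) ?_
      rw [hB]
      linarith
  | cons c l ih =>
    have hl' : Adm l := fun a ha => hl a (List.mem_cons_of_mem _ ha)
    have hc : 2 ≤ c := hl c (List.mem_cons_self ..)
    have hB1 := ri_Bl_one n l
    have hB0 : (0 : ℝ) ≤ Bl n l := by linarith
    have hBc := ri_Bl_cons n c l (by omega)
    have hcR : (2 : ℝ) ≤ c := by exact_mod_cast hc
    have hsum : (c :: l).sum = c + l.sum := List.sum_cons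
    have hzv : ∀ i ∈ Ico 1 c, ∀ v, 1 ≤ v → v ≤ n → ∀ j k, i + 1 + l.sum + j = k →
        Rep n k 1 (zv ((i + 1) :: l) / (v : ℝ) ^ j) := by
      intro i hi v hv1 hv j k hk
      rw [mem_Ico] at hi
      have h1 : Adm ((i + 1) :: l) := by
        intro a ha
        rcases List.mem_cons.1 ha with h | h
        · omega
        · exact hl' a h
      have h2 : Rep n (i + 1 + l.sum) 1 (zv ((i + 1) :: l)) :=
        rep_zv h1 (by rw [List.sum_cons])
      have h3 := rep_div_pow h2 hv1 hv j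
      rw [hk] at h3
      exact h3
    constructor
    · have h0 : Rep n ((c :: l).sum + 2) 1 (Sf (c :: l) 0) := by
        rw [Sf_zero hl]
        apply rep_zv
        · intro a ha
          rcases List.mem_cons.1 ha with h | h
          · omega
          · exact hl a h
        · rw [List.sum_cons, add_comm]
      refine rep_mono (ri_step (B1 := ((c : ℝ) + 1) ^ 2 * Bl n l) (by positivity) h0 ?_ u hu)
        le_rfl hBc
      intro u hu
      have hv1 : 1 ≤ u + 1 := by omega
      have e1 : Sf (c :: l) (u + 1) - Sf (c :: l) u = -(Sf (c :: l) u - Sf (c :: l) (u + 1)) := by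
        ring
      rw [e1, Sf_cons hl u, W2_eq hl hv1]
      apply ri_neg
      obtain ⟨hS, hD⟩ := ih hl' (u + 1) hu
      have a1 : Rep n ((c :: l).sum + 2) (∑ i ∈ Ico 1 c, (c : ℝ))
          (∑ i ∈ Ico 1 c, (-1) ^ (c - 1 - i) * ((c - i : ℕ) : ℝ) *
            (zv ((i + 1) :: l) / ((u + 1 : ℕ) : ℝ) ^ (c - i + 1))) := by
        apply rep_sum
        intro i hi
        have hi' := mem_Ico.1 hi
        have b1 := hzv i hi (u + 1) hv1 hu (c - i + 1) ((c :: l).sum + 2) (by rw [hsum]; omega)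
        have b2 := ri_sgn_nat b1 (c - 1 - i) (c - i)
        refine rep_mono b2 le_rfl ?_
        rw [mul_one]
        have : c - i ≤ c := Nat.sub_le _ _
        exact_mod_cast this
      have a2 := ri_sgn (rep_div_pow hS hv1 hu c) c
      have a3 := ri_sgn_nat (rep_div_pow hD hv1 hu (c + 1)) (c - 1) c
      have a2' : Rep n ((c :: l).sum + 2) (Bl n l)
          ((-1) ^ c * (Sf l (u + 1) / ((u + 1 : ℕ) : ℝ) ^ c)) :=
        rep_mono a2 (by rw [hsum]; omega) le_rfl
      have a3' : Rep n ((c :: l).sum + 2) (c * Bl n l)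
          ((-1) ^ (c - 1) * (c : ℝ) * (Df l (u + 1) / ((u + 1 : ℕ) : ℝ) ^ (c + 1))) :=
        rep_mono a3 (by rw [hsum]; omega) le_rfl
      refine rep_mono (rep_add (rep_add a1 a2') a3') le_rfl ?_
      rw [sum_const, Nat.card_Ico, nsmul_eq_mul]
      have h1 : ((c - 1 : ℕ) : ℝ) ≤ c := by exact_mod_cast Nat.sub_le c 1
      nlinarith [mul_le_mul_of_nonneg_right h1 (by linarith : (0 : ℝ) ≤ c),
        mul_le_mul_of_nonneg_left hB1 (by positivity : (0 : ℝ) ≤ (c : ℝ) * c)]
    · have h0 : Rep n ((c :: l).sum + 1) 0 (Df (c :: l) 0) := by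
        rw [Df_zero]
        exact rep_zero n _
      refine rep_mono (ri_step (B1 := ((c : ℝ) + 1) ^ 2 * Bl n l) (by positivity) h0 ?_ u hu)
        le_rfl (by linarith)
      intro u hu
      have hv1 : 1 ≤ u + 1 := by omega
      rw [Df_cons hl u, W1_eq hl hv1]
      obtain ⟨hS, hD⟩ := ih hl' (u + 1) hu
      have a1 : Rep n ((c :: l).sum + 1) (∑ i ∈ Ico 1 c, (1 : ℝ))
          (∑ i ∈ Ico 1 c, (-1) ^ (c - 1 - i) *
            (zv ((i + 1) :: l) / ((u + 1 : ℕ) : ℝ) ^ (c - i))) := by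
        apply rep_sum
        intro i hi
        have hi' := mem_Ico.1 hi
        have b1 := hzv i hi (u + 1) hv1 hu (c - i) ((c :: l).sum + 1) (by rw [hsum]; omega)
        exact ri_sgn b1 (c - 1 - i)
      have a2 := ri_sgn (rep_div_pow hD hv1 hu c) (c - 1)
      have a2' : Rep n ((c :: l).sum + 1) (Bl n l)
          ((-1) ^ (c - 1) * (Df l (u + 1) / ((u + 1 : ℕ) : ℝ) ^ c)) :=
        rep_mono a2 (by rw [hsum]; omega) le_rfl
      refine rep_mono (rep_add a1 a2') le_rfl ?_
      rw [sum_const, Nat.card_Ico, nsmul_eq_mul, mul_one]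
      have h1 : ((c - 1 : ℕ) : ℝ) ≤ c := by exact_mod_cast Nat.sub_le c 1
      nlinarith [mul_le_mul_of_nonneg_left hB1 (by positivity : (0 : ℝ) ≤ (c : ℝ) * c),
        mul_le_mul_of_nonneg_left hB1 (by positivity : (0 : ℝ) ≤ (c : ℝ))]

end Pool.MZDim
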