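import Pool.Agent.Lib.MZDim.RInd

/-! MODULE RKer (about 90 lines). MP_301213_nt, dim Z_k → ∞. The kernel ∑ h_l(t) / ((t+u)(t+u')).

PROOF. summable_ker: terms ≤ zv l / (M+1)^2. If u = u': (M+1+u)⁻¹ (M+1+u)⁻¹ = ((M+1+u)^2)⁻¹, the sum is Sf l u. If u < u' (the other case by symmetry, mul_comm):
(s+u)⁻¹(s+u')⁻¹ = ((s⁻¹ - (s+u')⁻¹) - (s⁻¹ - (s+u)⁻¹)) / (u'-u), so the sum is (Df l u' - Df l u) / (u'-u) (Summable.tsum_sub, summable_Df):
rep_add, rep_zmul (-1), rep_div with 1 ≤ u' - u ≤ n; counter l.sum + 1 + 1. Bound 2 Bl. -/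

open HofPers Finset

namespace Pool.MZDim

theorem summable_ker {l : List ℕ} (hl : Adm l) (u u' : ℕ) :
    Summable fun M : ℕ => sR l M * (((M : ℝ) + 1 + u)⁻¹ * ((M : ℝ) + 1 + u')⁻¹) := by
  refine Summable.of_nonneg_of_le (fun M => ?_) (fun M => ?_) (summable_Sf hl 0)
  · have := sR_nonneg l M
    positivity
  · have hM : (0 : ℝ) ≤ M := Nat.cast_nonneg M
    have hu : (0 : ℝ) ≤ u := Nat.cast_nonneg u
    have hu' : (0 : ℝ) ≤ u' := Nat.cast_nonneg u'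
    refine mul_le_mul_of_nonneg_left ?_ (sR_nonneg l M)
    rw [Nat.cast_zero, add_zero, sq, mul_inv]
    refine mul_le_mul ?_ ?_ (by positivity) (by positivity)
    · exact inv_anti₀ (by positivity) (by linarith)
    · exact inv_anti₀ (by positivity) (by linarith)

private theorem rk_lt (n : ℕ) (l : List ℕ) (hl : Adm l) (u u' : ℕ) (hlt : u < u') (hu : u ≤ n)
    (hu' : u' ≤ n) : Rep n (l.sum + 2) (2 * Bl n l)
      (∑' M : ℕ, sR l M * (((M : ℝ) + 1 + u)⁻¹ * ((M : ℝ) + 1 + u')⁻¹)) := by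
  have h1 := (rep_Sf_Df n l hl u hu).2
  have h2 := (rep_Sf_Df n l hl u' hu').2
  have h3 := rep_add h2 (rep_zmul h1 (-1))
  have h4 := rep_div h3 (v := u' - u) (by omega) (by omega)
  have e : (∑' M : ℕ, sR l M * (((M : ℝ) + 1 + u)⁻¹ * ((M : ℝ) + 1 + u')⁻¹)) =
      (Df l u' + ((-1 : ℤ) : ℝ) * Df l u) / ((u' - u : ℕ) : ℝ) := by
    have hd : ((u' - u : ℕ) : ℝ) = (u' : ℝ) - u := by
      rw [Nat.cast_sub hlt.le]
    have hne : ((u' : ℝ) - u) ≠ 0 := by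
      have : (u : ℝ) < u' := by exact_mod_cast hlt
      exact (sub_pos.2 this).ne'
    have s := (summable_Df hl u').tsum_sub (summable_Df hl u)
    rw [hd, eq_div_iff hne, Int.cast_neg, Int.cast_one, neg_one_mul, ← sub_eq_add_neg, Df, Df,
      ← s, ← tsum_mul_right]
    refine tsum_congr fun M => ?_
    have hM : (0 : ℝ) ≤ M := Nat.cast_nonneg M
    have hu0 : (0 : ℝ) ≤ u := Nat.cast_nonneg u
    have hu0' : (0 : ℝ) ≤ u' := Nat.cast_nonneg u'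
    have e1 : ((M : ℝ) + 1) ≠ 0 := by positivity
    have e2 : ((M : ℝ) + 1 + u) ≠ 0 := by positivity
    have e3 : ((M : ℝ) + 1 + u') ≠ 0 := by positivity
    have e4 : (((M : ℝ) + 1 + u)⁻¹ * ((M : ℝ) + 1 + u')⁻¹) * ((u' : ℝ) - u) =
        ((M : ℝ) + 1 + u)⁻¹ - ((M : ℝ) + 1 + u')⁻¹ := by
      field_simp
      ring
    rw [mul_assoc, e4]
    ring
  rw [e]
  refine rep_mono h4 (by omega) (le_of_eq ?_)
  simp
  ring

theorem rep_ker (n : ℕ) (l : List ℕ) (hl : Adm l) (u u' : ℕ) (hu : u ≤ n) (hu' : u' ≤ n) :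
    Rep n (l.sum + 2) (2 * Bl n l)
      (∑' M : ℕ, sR l M * (((M : ℝ) + 1 + u)⁻¹ * ((M : ℝ) + 1 + u')⁻¹)) := by
  rcases lt_trichotomy u u' with h | h | h
  · exact rk_lt n l hl u u' h hu hu'
  · subst h
    have h1 := (rep_Sf_Df n l hl u hu).1
    have e : (∑' M : ℕ, sR l M * (((M : ℝ) + 1 + u)⁻¹ * ((M : ℝ) + 1 + u)⁻¹)) = Sf l u := by
      rw [Sf]
      refine tsum_congr fun M => ?_
      rw [sq, mul_inv]
    rw [e]
    refine rep_mono h1 le_rfl ?_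
    have h2 : (0 : ℝ) ≤ Bl n l := by
      unfold Bl
      positivity
    linarith
  · have h1 := rk_lt n l hl u' u h hu' hu
    have e : (∑' M : ℕ, sR l M * (((M : ℝ) + 1 + u)⁻¹ * ((M : ℝ) + 1 + u')⁻¹)) =
        ∑' M : ℕ, sR l M * (((M : ℝ) + 1 + u')⁻¹ * ((M : ℝ) + 1 + u)⁻¹) := by
      refine tsum_congr fun M => ?_
      rw [mul_comm (((M : ℝ) + 1 + u)⁻¹)]
    rw [e]
    exact h1

end Pool.MZDim
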