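import Mathlib

/-! MODULE RPf (about 80 lines, ONLY MATHLIB). MP_301213_nt, dim Z_k → ∞. Partial fractions.

PROOFS. pf_one, by induction on c from c to c+1: multiply the identity for c by s⁻¹:
 s^-(c+1) (s+v)⁻¹ = ∑_{i=1}^{c} (-1)^(c-i) v^-(c-i+1) s^-(i+1) + (-1)^c v^-c (s⁻¹ (s+v)⁻¹), and s⁻¹(s+v)⁻¹ = v⁻¹ s⁻¹ - v⁻¹ (s+v)⁻¹. For c = 0 the
 identity is (s+v)⁻¹ = (s+v)⁻¹. In the sum below i runs over range c with letter i+1 (exponent i+1 of s), coefficient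
 (-1)^(c-1-i) v^-(c-i): Finset.sum_range_succ' or sum_range_succ after reindexing; another way: geometric series, with r = -s/v:
 ∑_{i<c} (-1)^(c-1-i) v^-(c-i) s^-(i+1) = s^-c v^-1 ∑_{j<c} (-s/v)^j (j = c-1-i), Finset.sum_range_reflect and geom_sum_eq. Choose the easiest.
pf_two: the same induction: multiply by s⁻¹ the identity for c; the two last terms give
 (-1)^c v^-c s⁻¹ (s+v)^-2 + (-1)^c c v^-(c+1) s⁻¹ (s+v)⁻¹, with s⁻¹ (s+v)^-2 = v^-2 s⁻¹ - v^-2 (s+v)⁻¹ - v⁻¹ (s+v)^-2. Everything is field_simp; ring. -/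

open Finset

namespace Pool.MZDim

theorem pf_one (c : ℕ) {s v : ℝ} (hs : 0 < s) (hv : 0 < v) :
    (s ^ c)⁻¹ * (s + v)⁻¹ =
      ∑ i ∈ range c, (-1) ^ (c - 1 - i) * (v ^ (c - i))⁻¹ * (s ^ (i + 1))⁻¹ +
      (-1) ^ c * (v ^ c)⁻¹ * (s + v)⁻¹ := by
  have hsv : (s + v) ≠ 0 := (add_pos hs hv).ne'
  have hs0 : s ≠ 0 := hs.ne'
  have hv0 : v ≠ 0 := hv.ne'
  induction c with
  | zero => simp
  | succ c ih =>
    have e1 : (s ^ (c + 1))⁻¹ * (s + v)⁻¹ = s⁻¹ * ((s ^ c)⁻¹ * (s + v)⁻¹) := by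
      rw [pow_succ, mul_inv]
      ring
    rw [e1, ih, Finset.sum_range_succ', mul_add, Finset.mul_sum]
    have e2 : ∀ i ∈ range c, s⁻¹ * ((-1 : ℝ) ^ (c - 1 - i) * (v ^ (c - i))⁻¹ * (s ^ (i + 1))⁻¹) =
        (-1) ^ (c + 1 - 1 - (i + 1)) * (v ^ (c + 1 - (i + 1)))⁻¹ * (s ^ (i + 1 + 1))⁻¹ := by
      intro i _
      have h1 : c + 1 - 1 - (i + 1) = c - 1 - i := by omega
      have h2 : c + 1 - (i + 1) = c - i := by omega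
      rw [h1, h2, pow_succ s (i + 1), mul_inv]
      ring
    rw [Finset.sum_congr rfl e2]
    have e3 : s⁻¹ * (s + v)⁻¹ = v⁻¹ * s⁻¹ - v⁻¹ * (s + v)⁻¹ := by
      field_simp
      ring
    have e4 : s⁻¹ * ((-1 : ℝ) ^ c * (v ^ c)⁻¹ * (s + v)⁻¹) =
        (-1) ^ c * (v ^ c)⁻¹ * (s⁻¹ * (s + v)⁻¹) := by ring
    rw [e4, e3]
    have h3 : c + 1 - 1 - 0 = c := by omega
    have h4 : c + 1 - 0 = c + 1 := by omega
    rw [h3, h4, zero_add, pow_one, pow_succ v c, mul_inv, pow_succ (-1 : ℝ) c]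
    ring

theorem pf_two (c : ℕ) {s v : ℝ} (hs : 0 < s) (hv : 0 < v) :
    (s ^ c)⁻¹ * ((s + v) ^ 2)⁻¹ =
      ∑ i ∈ range c, (-1) ^ (c - 1 - i) * ((c - i : ℕ) : ℝ) * (v ^ (c - i + 1))⁻¹ * (s ^ (i + 1))⁻¹ +
      (-1) ^ c * (v ^ c)⁻¹ * ((s + v) ^ 2)⁻¹ + (-1) ^ c * c * (v ^ (c + 1))⁻¹ * (s + v)⁻¹ := by
  have hsv : (s + v) ≠ 0 := (add_pos hs hv).ne'
  have hs0 : s ≠ 0 := hs.ne'
  have hv0 : v ≠ 0 := hv.ne'
  induction c with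
  | zero => simp
  | succ c ih =>
    have e1 : (s ^ (c + 1))⁻¹ * ((s + v) ^ 2)⁻¹ = s⁻¹ * ((s ^ c)⁻¹ * ((s + v) ^ 2)⁻¹) := by
      rw [pow_succ, mul_inv]
      ring
    rw [e1, ih, Finset.sum_range_succ', mul_add, mul_add, Finset.mul_sum]
    have e2 : ∀ i ∈ range c, s⁻¹ * ((-1 : ℝ) ^ (c - 1 - i) * ((c - i : ℕ) : ℝ) *
        (v ^ (c - i + 1))⁻¹ * (s ^ (i + 1))⁻¹) =
        (-1) ^ (c + 1 - 1 - (i + 1)) * ((c + 1 - (i + 1) : ℕ) : ℝ) *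
          (v ^ (c + 1 - (i + 1) + 1))⁻¹ * (s ^ (i + 1 + 1))⁻¹ := by
      intro i _
      have h1 : c + 1 - 1 - (i + 1) = c - 1 - i := by omega
      have h2 : c + 1 - (i + 1) = c - i := by omega
      rw [h1, h2, pow_succ s (i + 1), mul_inv]
      ring
    rw [Finset.sum_congr rfl e2]
    have e3 : s⁻¹ * (s + v)⁻¹ = v⁻¹ * s⁻¹ - v⁻¹ * (s + v)⁻¹ := by
      field_simp
      ring
    have e5 : s⁻¹ * ((s + v) ^ 2)⁻¹ =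
        v⁻¹ * v⁻¹ * s⁻¹ - v⁻¹ * v⁻¹ * (s + v)⁻¹ - v⁻¹ * ((s + v) ^ 2)⁻¹ := by
      field_simp
      ring
    have e4 : s⁻¹ * ((-1 : ℝ) ^ c * (v ^ c)⁻¹ * ((s + v) ^ 2)⁻¹) =
        (-1) ^ c * (v ^ c)⁻¹ * (s⁻¹ * ((s + v) ^ 2)⁻¹) := by ring
    have e6 : s⁻¹ * ((-1 : ℝ) ^ c * c * (v ^ (c + 1))⁻¹ * (s + v)⁻¹) =
        (-1) ^ c * c * (v ^ (c + 1))⁻¹ * (s⁻¹ * (s + v)⁻¹) := by ring
    rw [e4, e5, e6, e3]
    have h3 : c + 1 - 1 - 0 = c := by omega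
    have h4 : c + 1 - 0 = c + 1 := by omega
    rw [h3, h4, zero_add, pow_one, pow_succ v (c + 1), mul_inv, pow_succ v c, mul_inv,
      pow_succ (-1 : ℝ) c]
    push_cast
    ring

end Pool.MZDim
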