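import Pool.Agent.Lib.MZDim.RDefs

/-! MODULE RTel. MP_301213_nt, dim Z_k → ∞. Abel summation for Sf, Df. -/

open HofPers Finset Filter Topology

namespace Pool.MZDim

private theorem base2 : Summable fun M : ℕ => (((M : ℝ) + 1) ^ 2)⁻¹ := by
  have h := (summable_nat_add_iff 1).2 (Real.summable_nat_pow_inv.2 one_lt_two)
  refine h.congr fun M => ?_
  push_cast
  rfl

private theorem inv_sq_le (M u : ℕ) : (((M : ℝ) + 1 + u) ^ 2)⁻¹ ≤ (((M : ℝ) + 1) ^ 2)⁻¹ := by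
  have hM : (0 : ℝ) ≤ M := Nat.cast_nonneg M
  have hu : (0 : ℝ) ≤ u := Nat.cast_nonneg u
  refine inv_anti₀ (by positivity) ?_
  exact pow_le_pow_left₀ (by positivity) (by linarith) 2

private theorem abel (f g : ℕ → ℝ) (C : ℝ) (hf : ∀ M, |f M| ≤ C) (h0 : f 0 = 0)
    (hg : Tendsto g atTop (𝓝 0)) (s1 : Summable fun M => f M * (g M - g (M + 1)))
    (s2 : Summable fun M => (f (M + 1) - f M) * g (M + 1)) :
    ∑' M, f M * (g M - g (M + 1)) = ∑' M, (f (M + 1) - f M) * g (M + 1) := by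
  have h1 : ∀ n, ∑ M ∈ range n, f M * (g M - g (M + 1)) =
      ∑ M ∈ range n, (f (M + 1) - f M) * g (M + 1) - f n * g n := by
    intro n
    induction n with
    | zero => rw [sum_range_zero, sum_range_zero, h0, zero_mul, sub_zero]
    | succ n ih =>
      rw [sum_range_succ, sum_range_succ, ih]
      ring
  have h2 : Tendsto (fun n => f n * g n) atTop (𝓝 0) := by
    have h3 : Tendsto (fun n => C * |g n|) atTop (𝓝 0) := by
      have h4 := (hg.abs).const_mul C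
      rwa [abs_zero, mul_zero] at h4
    refine squeeze_zero_norm (fun n => ?_) h3
    rw [Real.norm_eq_abs, abs_mul]
    exact mul_le_mul_of_nonneg_right (hf n) (abs_nonneg _)
  have h3 := (s2.hasSum.tendsto_sum_nat).sub h2
  rw [sub_zero] at h3
  have h4 := s1.hasSum.tendsto_sum_nat
  simp only [h1] at h4
  exact tendsto_nhds_unique h4 h3

private theorem tele (g : ℕ → ℝ) (hg : Tendsto g atTop (𝓝 0))
    (s : Summable fun M => g M - g (M + 1)) : ∑' M, (g M - g (M + 1)) = g 0 := by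
  have h1 := s.hasSum.tendsto_sum_nat
  simp only [Finset.sum_range_sub'] at h1
  have h2 := (tendsto_const_nhds (x := g 0)).sub hg
  rw [sub_zero] at h2
  exact tendsto_nhds_unique h1 h2

private theorem lin_tendsto (u : ℕ) : Tendsto (fun M : ℕ => ((M : ℝ) + 1 + u)) atTop atTop := by
  have h := tendsto_natCast_atTop_atTop (R := ℝ)
  have h1 := tendsto_atTop_add_const_right atTop ((1 : ℝ) + u) h
  refine h1.congr fun M => ?_
  ring

private theorem g1_tendsto (u : ℕ) : Tendsto (fun M : ℕ => ((M : ℝ) + 1 + u)⁻¹) atTop (𝓝 0) :=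
  (lin_tendsto u).inv_tendsto_atTop

private theorem g2_tendsto (u : ℕ) :
    Tendsto (fun M : ℕ => (((M : ℝ) + 1 + u) ^ 2)⁻¹) atTop (𝓝 0) := by
  have h := (g1_tendsto u).pow 2
  rw [zero_pow two_ne_zero] at h
  refine h.congr fun M => ?_
  rw [inv_pow]

theorem summable_Sf {l : List ℕ} (hl : Adm l) (u : ℕ) :
    Summable fun M : ℕ => sR l M * (((M : ℝ) + 1 + u) ^ 2)⁻¹ := by
  refine Summable.of_nonneg_of_le (fun M => ?_) (fun M => ?_) (base2.mul_left (zv l))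
  · have := sR_nonneg l M
    positivity
  · exact mul_le_mul (sR_le_zv hl M) (inv_sq_le M u) (by positivity) (zv_pos hl).le

theorem summable_Df {l : List ℕ} (hl : Adm l) (u : ℕ) :
    Summable fun M : ℕ => sR l M * (((M : ℝ) + 1)⁻¹ - ((M : ℝ) + 1 + u)⁻¹) := by
  have hu : (0 : ℝ) ≤ u := Nat.cast_nonneg u
  have key : ∀ M : ℕ, ((M : ℝ) + 1)⁻¹ - ((M : ℝ) + 1 + u)⁻¹ =
      u * (((M : ℝ) + 1)⁻¹ * ((M : ℝ) + 1 + u)⁻¹) := by
    intro M
    have hM : (0 : ℝ) ≤ M := Nat.cast_nonneg M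
    have h1 : ((M : ℝ) + 1) ≠ 0 := by positivity
    have h2 : ((M : ℝ) + 1 + u) ≠ 0 := by positivity
    field_simp
    ring
  refine Summable.of_nonneg_of_le (fun M => ?_) (fun M => ?_) (base2.mul_left (zv l * u))
  · rw [key]
    have := sR_nonneg l M
    positivity
  · rw [key, mul_assoc (zv l)]
    have hM : (0 : ℝ) ≤ M := Nat.cast_nonneg M
    refine mul_le_mul (sR_le_zv hl M) ?_ (by positivity) (zv_pos hl).le
    refine mul_le_mul_of_nonneg_left ?_ hu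
    rw [sq, mul_inv]
    refine mul_le_mul_of_nonneg_left ?_ (by positivity)
    exact inv_anti₀ (by positivity) (by linarith)

theorem Sf_zero {l : List ℕ} (hl : Adm l) : Sf l 0 = zv (2 :: l) := by
  have h : Adm (2 :: l) := by
    intro a ha
    rcases List.mem_cons.1 ha with rfl | ha
    · exact le_rfl
    · exact hl a ha
  rw [(zv_cons h).2, Sf]
  refine tsum_congr fun M => ?_
  rw [Nat.cast_zero, add_zero, div_eq_mul_inv]

theorem Df_zero (l : List ℕ) : Df l 0 = 0 := by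
  rw [Df]
  simp

private theorem adm_nil : Adm [] := fun a ha => absurd ha (by simp)

theorem Sf_nil (u : ℕ) : Sf [] u - Sf [] (u + 1) = (((u : ℝ) + 1) ^ 2)⁻¹ := by
  have s1 := summable_Sf adm_nil u
  have s2 := summable_Sf adm_nil (u + 1)
  rw [Sf, Sf, ← s1.tsum_sub s2]
  have h1 : (fun M : ℕ => sR [] M * (((M : ℝ) + 1 + u) ^ 2)⁻¹ -
      sR [] M * (((M : ℝ) + 1 + (u + 1 : ℕ)) ^ 2)⁻¹) =
      fun M : ℕ => (fun M : ℕ => (((M : ℝ) + 1 + u) ^ 2)⁻¹) M -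
        (fun M : ℕ => (((M : ℝ) + 1 + u) ^ 2)⁻¹) (M + 1) := by
    funext M
    simp only [sR_nil, one_mul]
    push_cast
    congr 3
    ring
  have h2 := s1.sub s2
  rw [h1] at h2
  have h3 := tele (fun M : ℕ => (((M : ℝ) + 1 + u) ^ 2)⁻¹) (g2_tendsto u) h2
  rw [← h1] at h3
  rw [h3, Nat.cast_zero, zero_add, add_comm]

theorem Df_nil (u : ℕ) : Df [] (u + 1) - Df [] u = ((u : ℝ) + 1)⁻¹ := by
  have s1 := summable_Df adm_nil u
  have s2 := summable_Df adm_nil (u + 1)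
  rw [Df, Df, ← s2.tsum_sub s1]
  have h1 : (fun M : ℕ => sR [] M * (((M : ℝ) + 1)⁻¹ - ((M : ℝ) + 1 + (u + 1 : ℕ))⁻¹) -
      sR [] M * (((M : ℝ) + 1)⁻¹ - ((M : ℝ) + 1 + u)⁻¹)) =
      fun M : ℕ => (fun M : ℕ => ((M : ℝ) + 1 + u)⁻¹) M -
        (fun M : ℕ => ((M : ℝ) + 1 + u)⁻¹) (M + 1) := by
    funext M
    simp only [sR_nil, one_mul]
    push_cast
    have h : ((M : ℝ) + 1 + (u + 1)) = (M : ℝ) + 1 + 1 + u := by ring
    rw [h]
    ring
  have h2 := s2.sub s1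
  rw [h1] at h2
  have h3 := tele (fun M : ℕ => ((M : ℝ) + 1 + u)⁻¹) (g1_tendsto u) h2
  rw [← h1] at h3
  rw [h3, Nat.cast_zero, zero_add, add_comm]

private theorem sR_c0 (c : ℕ) (l : List ℕ) : sR (c :: l) 0 = 0 := by
  simp [sR, aR]

private theorem sR_step (c : ℕ) (l : List ℕ) (M : ℕ) :
    sR (c :: l) (M + 1) - sR (c :: l) M = (((M : ℝ) + 1) ^ c)⁻¹ * sR l M := by
  rw [sR_cons]
  ring

theorem Sf_cons {c : ℕ} {l : List ℕ} (hl : Adm (c :: l)) (u : ℕ) :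
    Sf (c :: l) u - Sf (c :: l) (u + 1) =
      ∑' M : ℕ, sR l M * ((((M : ℝ) + 1) ^ c)⁻¹ * (((M : ℝ) + 1 + (u + 1 : ℕ)) ^ 2)⁻¹) := by
  have hl' : Adm l := hl.tail
  have s1 := summable_Sf hl u
  have s2 := summable_Sf hl (u + 1)
  have hg : ∀ M : ℕ, (((M : ℝ) + 1 + (u + 1 : ℕ)) ^ 2)⁻¹ =
      (fun M : ℕ => (((M : ℝ) + 1 + u) ^ 2)⁻¹) (M + 1) := by
    intro M
    push_cast
    congr 2
    ring
  rw [Sf, Sf, ← s1.tsum_sub s2]
  have h1 : (fun M : ℕ => sR (c :: l) M * (((M : ℝ) + 1 + u) ^ 2)⁻¹ -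
      sR (c :: l) M * (((M : ℝ) + 1 + (u + 1 : ℕ)) ^ 2)⁻¹) =
      fun M : ℕ => sR (c :: l) M * ((fun M : ℕ => (((M : ℝ) + 1 + u) ^ 2)⁻¹) M -
        (fun M : ℕ => (((M : ℝ) + 1 + u) ^ 2)⁻¹) (M + 1)) := by
    funext M
    rw [hg]
    ring
  have h2 : (fun M : ℕ => sR l M * ((((M : ℝ) + 1) ^ c)⁻¹ *
      (((M : ℝ) + 1 + (u + 1 : ℕ)) ^ 2)⁻¹)) =
      fun M : ℕ => (sR (c :: l) (M + 1) - sR (c :: l) M) *
        (fun M : ℕ => (((M : ℝ) + 1 + u) ^ 2)⁻¹) (M + 1) := by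
    funext M
    rw [sR_step, hg]
    ring
  have h3 := s1.sub s2
  have h4 : Summable fun M : ℕ => sR l M * ((((M : ℝ) + 1) ^ c)⁻¹ *
      (((M : ℝ) + 1 + (u + 1 : ℕ)) ^ 2)⁻¹) := by
    refine Summable.of_nonneg_of_le (fun M => ?_) (fun M => ?_) (base2.mul_left (zv l))
    · have := sR_nonneg l M
      positivity
    · refine mul_le_mul (sR_le_zv hl' M) ?_ (by positivity) (zv_pos hl').le
      have h5 : (((M : ℝ) + 1) ^ c)⁻¹ ≤ 1 := by
        have hM : (0 : ℝ) ≤ M := Nat.cast_nonneg M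
        exact inv_le_one_of_one_le₀ (one_le_pow₀ (by linarith))
      calc (((M : ℝ) + 1) ^ c)⁻¹ * (((M : ℝ) + 1 + (u + 1 : ℕ)) ^ 2)⁻¹
          ≤ 1 * (((M : ℝ) + 1) ^ 2)⁻¹ :=
            mul_le_mul h5 (inv_sq_le M (u + 1)) (by positivity) zero_le_one
        _ = _ := one_mul _
  rw [h1] at h3 ⊢
  rw [h2] at h4 ⊢
  exact abel _ _ (zv (c :: l)) (fun M => by
    rw [abs_of_nonneg (sR_nonneg _ _)]
    exact sR_le_zv hl M) (sR_c0 c l) (g2_tendsto u) h3 h4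

theorem Df_cons {c : ℕ} {l : List ℕ} (hl : Adm (c :: l)) (u : ℕ) :
    Df (c :: l) (u + 1) - Df (c :: l) u =
      ∑' M : ℕ, sR l M * ((((M : ℝ) + 1) ^ c)⁻¹ * ((M : ℝ) + 1 + (u + 1 : ℕ))⁻¹) := by
  have hl' : Adm l := hl.tail
  have hc : 2 ≤ c := hl c (by simp)
  have s1 := summable_Df hl u
  have s2 := summable_Df hl (u + 1)
  have hg : ∀ M : ℕ, ((M : ℝ) + 1 + (u + 1 : ℕ))⁻¹ =
      (fun M : ℕ => ((M : ℝ) + 1 + u)⁻¹) (M + 1) := by
    intro M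
    push_cast
    congr 1
    ring
  rw [Df, Df, ← s2.tsum_sub s1]
  have h1 : (fun M : ℕ => sR (c :: l) M * (((M : ℝ) + 1)⁻¹ - ((M : ℝ) + 1 + (u + 1 : ℕ))⁻¹) -
      sR (c :: l) M * (((M : ℝ) + 1)⁻¹ - ((M : ℝ) + 1 + u)⁻¹)) =
      fun M : ℕ => sR (c :: l) M * ((fun M : ℕ => ((M : ℝ) + 1 + u)⁻¹) M -
        (fun M : ℕ => ((M : ℝ) + 1 + u)⁻¹) (M + 1)) := by
    funext M
    rw [hg]
    ring
  have h2 : (fun M : ℕ => sR l M * ((((M : ℝ) + 1) ^ c)⁻¹ *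
      ((M : ℝ) + 1 + (u + 1 : ℕ))⁻¹)) =
      fun M : ℕ => (sR (c :: l) (M + 1) - sR (c :: l) M) *
        (fun M : ℕ => ((M : ℝ) + 1 + u)⁻¹) (M + 1) := by
    funext M
    rw [sR_step, hg]
    ring
  have h3 := s2.sub s1
  have h4 : Summable fun M : ℕ => sR l M * ((((M : ℝ) + 1) ^ c)⁻¹ *
      ((M : ℝ) + 1 + (u + 1 : ℕ))⁻¹) := by
    refine Summable.of_nonneg_of_le (fun M => ?_) (fun M => ?_) (base2.mul_left (zv l))
    · have := sR_nonneg l M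
      positivity
    · refine mul_le_mul (sR_le_zv hl' M) ?_ (by positivity) (zv_pos hl').le
      have hM : (0 : ℝ) ≤ M := Nat.cast_nonneg M
      have hu : (0 : ℝ) ≤ ((u + 1 : ℕ) : ℝ) := Nat.cast_nonneg _
      have h5 : (((M : ℝ) + 1) ^ c)⁻¹ ≤ (((M : ℝ) + 1) ^ 2)⁻¹ :=
        inv_anti₀ (by positivity) (pow_le_pow_right₀ (by linarith) hc)
      have h6 : ((M : ℝ) + 1 + (u + 1 : ℕ))⁻¹ ≤ 1 :=
        inv_le_one_of_one_le₀ (by linarith)
      calc (((M : ℝ) + 1) ^ c)⁻¹ * ((M : ℝ) + 1 + (u + 1 : ℕ))⁻¹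
          ≤ (((M : ℝ) + 1) ^ 2)⁻¹ * 1 :=
            mul_le_mul h5 h6 (by positivity) (by positivity)
        _ = _ := mul_one _
  rw [h1] at h3 ⊢
  rw [h2] at h4 ⊢
  exact abel _ _ (zv (c :: l)) (fun M => by
    rw [abs_of_nonneg (sR_nonneg _ _)]
    exact sR_le_zv hl M) (sR_c0 c l) (g1_tendsto u) h3 h4

end Pool.MZDim
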