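import Pool.Agent.Lib.MZDim.RTel
import Pool.Agent.Lib.MZDim.RPf

/-! MODULE RW (about 130 lines). MP_301213_nt, dim Z_k → ∞. The partial fraction expansion of the increments.

PROOFS. W1: pf_one with s = M + 1, v: the term i = 0 is (-1)^(c-1) v^-c s⁻¹ and the last one is (-1)^c v^-c (s+v)⁻¹: together (-1)^(c-1) v^-c (s⁻¹ - (s+v)⁻¹).
So the summand is ∑_{i ∈ Ico 1 c} coefficient_i * (sR l M / (M+1)^(i+1)) + (-1)^(c-1) v^-c (sR l M (s⁻¹ - (s+v)⁻¹)); sum over M term by term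
(Summable.tsum_add, Summable.tsum_finsetSum, tsum_mul_left): the series of sR l M / (M+1)^(i+1), i ≥ 1, is zv ((i+1) :: l) (zv_cons, Adm), the last one is Df l v.
W2: the same with pf_two: the term i = 0 is (-1)^(c-1) c v^-(c+1) s⁻¹, cancelled against (-1)^c c v^-(c+1) (s+v)⁻¹. c ≥ 2 from Adm (c :: l). -/

open HofPers Finset Filter Topology

namespace Pool.MZDim

private theorem rw_hasSum {l : List ℕ} (hl : Adm l) {i : ℕ} (hi : 1 ≤ i) :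
    HasSum (fun M : ℕ => sR l M / ((M : ℝ) + 1) ^ (i + 1)) (zv ((i + 1) :: l)) := by
  have h : Adm ((i + 1) :: l) := by
    intro a ha
    rcases List.mem_cons.1 ha with rfl | ha
    · omega
    · exact hl a ha
  obtain ⟨h1, h2⟩ := zv_cons h
  rw [h2]
  exact h1.hasSum

private theorem rw_Df {l : List ℕ} (hl : Adm l) (v : ℕ) :
    HasSum (fun M : ℕ => sR l M * (((M : ℝ) + 1)⁻¹ - ((M : ℝ) + 1 + v)⁻¹)) (Df l v) :=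
  (summable_Df hl v).hasSum

private theorem rw_Sf {l : List ℕ} (hl : Adm l) (v : ℕ) :
    HasSum (fun M : ℕ => sR l M * (((M : ℝ) + 1 + v) ^ 2)⁻¹) (Sf l v) :=
  (summable_Sf hl v).hasSum

theorem W1_eq {c : ℕ} {l : List ℕ} (hl : Adm (c :: l)) {v : ℕ} (hv : 1 ≤ v) :
    ∑' M : ℕ, sR l M * ((((M : ℝ) + 1) ^ c)⁻¹ * ((M : ℝ) + 1 + v)⁻¹) =
      ∑ i ∈ Ico 1 c, (-1) ^ (c - 1 - i) * (zv ((i + 1) :: l) / (v : ℝ) ^ (c - i)) +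
      (-1) ^ (c - 1) * (Df l v / (v : ℝ) ^ c) := by
  have hc : 2 ≤ c := hl c (List.mem_cons_self ..)
  have hl' : Adm l := hl.tail
  have hv0 : (0 : ℝ) < v := by exact_mod_cast hv
  have h1 : HasSum (fun M : ℕ => ∑ i ∈ Ico 1 c, ((-1) ^ (c - 1 - i) * (((v : ℝ) ^ (c - i))⁻¹)) *
      (sR l M / ((M : ℝ) + 1) ^ (i + 1))) (∑ i ∈ Ico 1 c,
        ((-1) ^ (c - 1 - i) * (((v : ℝ) ^ (c - i))⁻¹)) * zv ((i + 1) :: l)) :=
    hasSum_sum fun i hi => (rw_hasSum hl' (Finset.mem_Ico.1 hi).1).mul_left _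
  have h2 := (rw_Df hl' v).mul_left ((-1) ^ (c - 1) * ((v : ℝ) ^ c)⁻¹)
  have h3 := h1.add h2
  have h4 : (fun M : ℕ => sR l M * ((((M : ℝ) + 1) ^ c)⁻¹ * ((M : ℝ) + 1 + v)⁻¹)) =
      fun M : ℕ => ∑ i ∈ Ico 1 c, ((-1) ^ (c - 1 - i) * (((v : ℝ) ^ (c - i))⁻¹)) *
      (sR l M / ((M : ℝ) + 1) ^ (i + 1)) + (-1) ^ (c - 1) * ((v : ℝ) ^ c)⁻¹ *
      (sR l M * (((M : ℝ) + 1)⁻¹ - ((M : ℝ) + 1 + v)⁻¹)) := by
    funext M
    have hM : (0 : ℝ) < (M : ℝ) + 1 := by positivity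
    rw [pf_one c hM hv0, Finset.range_eq_Ico, Finset.sum_eq_sum_Ico_succ_bot (by omega)]
    obtain ⟨k, rfl⟩ : ∃ k, c = k + 1 := ⟨c - 1, by omega⟩
    have h5 : ∑ i ∈ Ico 1 (k + 1), ((-1) ^ (k + 1 - 1 - i) * (((v : ℝ) ^ (k + 1 - i))⁻¹)) *
        (sR l M / ((M : ℝ) + 1) ^ (i + 1)) = sR l M * ∑ i ∈ Ico (0 + 1) (k + 1),
        (-1) ^ (k + 1 - 1 - i) * ((v : ℝ) ^ (k + 1 - i))⁻¹ * (((M : ℝ) + 1) ^ (i + 1))⁻¹ := by
      rw [Finset.mul_sum]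
      refine Finset.sum_congr rfl fun i _ => ?_
      rw [div_eq_mul_inv]
      ring
    rw [h5]
    simp only [Nat.add_sub_cancel, Nat.sub_zero, zero_add, pow_one]
    ring
  rw [h4, h3.tsum_eq]
  congr 1
  · refine Finset.sum_congr rfl fun i _ => ?_
    rw [div_eq_mul_inv]
    ring
  · rw [div_eq_mul_inv]
    ring

theorem W2_eq {c : ℕ} {l : List ℕ} (hl : Adm (c :: l)) {v : ℕ} (hv : 1 ≤ v) :
    ∑' M : ℕ, sR l M * ((((M : ℝ) + 1) ^ c)⁻¹ * (((M : ℝ) + 1 + v) ^ 2)⁻¹) =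
      ∑ i ∈ Ico 1 c, (-1) ^ (c - 1 - i) * ((c - i : ℕ) : ℝ) *
        (zv ((i + 1) :: l) / (v : ℝ) ^ (c - i + 1)) +
      (-1) ^ c * (Sf l v / (v : ℝ) ^ c) +
      (-1) ^ (c - 1) * (c : ℝ) * (Df l v / (v : ℝ) ^ (c + 1)) := by
  have hc : 2 ≤ c := hl c (List.mem_cons_self ..)
  have hl' : Adm l := hl.tail
  have hv0 : (0 : ℝ) < v := by exact_mod_cast hv
  have h1 : HasSum (fun M : ℕ => ∑ i ∈ Ico 1 c, ((-1) ^ (c - 1 - i) * ((c - i : ℕ) : ℝ) *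
      (((v : ℝ) ^ (c - i + 1))⁻¹)) *
      (sR l M / ((M : ℝ) + 1) ^ (i + 1))) (∑ i ∈ Ico 1 c,
        ((-1) ^ (c - 1 - i) * ((c - i : ℕ) : ℝ) * (((v : ℝ) ^ (c - i + 1))⁻¹)) *
          zv ((i + 1) :: l)) :=
    hasSum_sum fun i hi => (rw_hasSum hl' (Finset.mem_Ico.1 hi).1).mul_left _
  have h2 := (rw_Df hl' v).mul_left ((-1) ^ (c - 1) * (c : ℝ) * ((v : ℝ) ^ (c + 1))⁻¹)
  have h2' := (rw_Sf hl' v).mul_left ((-1) ^ c * ((v : ℝ) ^ c)⁻¹)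
  have h3 := (h1.add h2').add h2
  have h4 : (fun M : ℕ => sR l M * ((((M : ℝ) + 1) ^ c)⁻¹ * (((M : ℝ) + 1 + v) ^ 2)⁻¹)) =
      fun M : ℕ => ∑ i ∈ Ico 1 c, ((-1) ^ (c - 1 - i) * ((c - i : ℕ) : ℝ) *
      (((v : ℝ) ^ (c - i + 1))⁻¹)) * (sR l M / ((M : ℝ) + 1) ^ (i + 1)) +
      (-1) ^ c * ((v : ℝ) ^ c)⁻¹ * (sR l M * (((M : ℝ) + 1 + v) ^ 2)⁻¹) +
      (-1) ^ (c - 1) * (c : ℝ) * ((v : ℝ) ^ (c + 1))⁻¹ *
      (sR l M * (((M : ℝ) + 1)⁻¹ - ((M : ℝ) + 1 + v)⁻¹)) := by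
    funext M
    have hM : (0 : ℝ) < (M : ℝ) + 1 := by positivity
    rw [pf_two c hM hv0, Finset.range_eq_Ico, Finset.sum_eq_sum_Ico_succ_bot (by omega)]
    obtain ⟨k, rfl⟩ : ∃ k, c = k + 1 := ⟨c - 1, by omega⟩
    have h5 : ∑ i ∈ Ico 1 (k + 1), ((-1) ^ (k + 1 - 1 - i) * ((k + 1 - i : ℕ) : ℝ) *
        (((v : ℝ) ^ (k + 1 - i + 1))⁻¹)) *
        (sR l M / ((M : ℝ) + 1) ^ (i + 1)) = sR l M * ∑ i ∈ Ico (0 + 1) (k + 1),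
        (-1) ^ (k + 1 - 1 - i) * ((k + 1 - i : ℕ) : ℝ) * ((v : ℝ) ^ (k + 1 - i + 1))⁻¹ *
        (((M : ℝ) + 1) ^ (i + 1))⁻¹ := by
      rw [Finset.mul_sum]
      refine Finset.sum_congr rfl fun i _ => ?_
      rw [div_eq_mul_inv]
      ring
    rw [h5]
    simp only [Nat.add_sub_cancel, Nat.sub_zero, zero_add, pow_one]
    ring
  rw [h4, h3.tsum_eq]
  congr 1
  · congr 1
    · refine Finset.sum_congr rfl fun i _ => ?_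
      rw [div_eq_mul_inv]
      ring
    · rw [div_eq_mul_inv]
      ring
  · rw [div_eq_mul_inv]
    ring

end Pool.MZDim
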