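import Pool.Agent.Lib.MZDim.Defs

/-! MODULE RevI (about 60 lines). MP_301213_nt, dim Z_k → ∞. `zv` is the multiple zeta value in the convention of
the frozen statement S16469 (decreasing variables, the head of the list is the exponent of the largest one).

PROOF. HofPers.real_tsum l.reverse: ∑' over strictly increasing m : Fin l.reverse.length → ℕ, all 0 < m i, of
∏ i, ((m i)^(l.reverse.get i))⁻¹ equals T l.reverse 0 = zv l. Reindex with the equivalence between
{m : Fin l.length → ℕ // StrictAnti m ∧ ∀ i, 0 < m i} and {m : Fin l.reverse.length → ℕ // StrictMono m ∧ ∀ i, 0 < m i},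
m ↦ m ∘ (i ↦ Fin.rev (Fin.cast (List.length_reverse) i)) (inverse of the same shape); the product is reindexed by the same
bijection of the indices (Fin.revPerm, finCongr; Equiv.prod_comp or Fintype.prod_equiv): the letter is
l.reverse.get i = l.get (rev i) (List.getElem_reverse). No admissibility is needed (both sides are the same tsum).
Equiv.tsum_eq. -/

open HofPers Finset Filter Topology

namespace Pool.MZDim

private def revi_e (l : List ℕ) : Fin l.length ≃ Fin l.reverse.length :=
  Fin.revPerm.trans (finCongr (List.length_reverse (as := l)).symm)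

private lemma revi_anti (l : List ℕ) {i j : Fin l.length} (h : i < j) : revi_e l j < revi_e l i := by
  have h1 : (i : ℕ) < j := h
  have h2 : (j : ℕ) < l.length := j.2
  show ((revi_e l j : Fin _) : ℕ) < ((revi_e l i : Fin _) : ℕ)
  simp only [revi_e, Equiv.trans_apply, Fin.revPerm_apply, finCongr_apply, Fin.val_cast,
    Fin.val_rev]
  omega

private lemma revi_anti' (l : List ℕ) {i j : Fin l.reverse.length} (h : i < j) :
    (revi_e l).symm j < (revi_e l).symm i := by
  by_contra hc
  rw [not_lt] at hc
  rcases hc.lt_or_eq with h1 | h1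
  · have := revi_anti l h1
    rw [Equiv.apply_symm_apply, Equiv.apply_symm_apply] at this
    exact absurd this (not_lt.2 h.le)
  · have := (revi_e l).symm.injective h1
    exact absurd this h.ne

private def revi_E (l : List ℕ) :
    {m : Fin l.reverse.length → ℕ // StrictMono m ∧ ∀ i, 0 < m i} ≃
      {m : Fin l.length → ℕ // StrictAnti m ∧ ∀ i, 0 < m i} where
  toFun m := ⟨fun i => m.1 (revi_e l i), fun i j h => m.2.1 (revi_anti l h), fun i => m.2.2 _⟩
  invFun m := ⟨fun i => m.1 ((revi_e l).symm i), fun i j h => m.2.1 (revi_anti' l h),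
    fun i => m.2.2 _⟩
  left_inv m := by
    apply Subtype.ext
    funext i
    simp
  right_inv m := by
    apply Subtype.ext
    funext i
    simp

theorem zv_eq_tsum (l : List ℕ) :
    ∑' m : {m : Fin l.length → ℕ // StrictAnti m ∧ ∀ i, 0 < m i},
      ∏ i, ((m.1 i : ℝ) ^ (l.get i))⁻¹ = zv l := by
  rw [zv, ← real_tsum l.reverse, ← (revi_E l).tsum_eq]
  refine tsum_congr fun m => ?_
  rw [← (revi_e l).prod_comp]
  refine Finset.prod_congr rfl fun i _ => ?_
  have h : l.reverse.get (revi_e l i) = l.get i := by
    rw [List.get_eq_getElem, List.get_eq_getElem, List.getElem_reverse]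
    congr 1
    have h2 : (i : ℕ) < l.length := i.2
    simp only [revi_e, Equiv.trans_apply, Fin.revPerm_apply, finCongr_apply, Fin.val_cast,
      Fin.val_rev]
    omega
  rw [h]
  rfl

end Pool.MZDim
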