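import Pool.Agent.Lib.MZDim.WBasic
import Pool.Agent.Lib.MZDim.Stuf

/-! MODULE YMul (about 60 lines). MP_301213_nt, dim Z_k → ∞. `Y_k Y_l ⊆ Y_{k+l}`.

PROOF. zv_mul: from `stuffle` let M → ∞ (sR_tendsto; the sum over the finite list L tends to the sum of the
limits: `tendsto_list_sum` or induction on L; uniqueness of limits): zv l * zv l' = (L.map zv).sum.
Yk_mul: Submodule.span_induction twice (or Submodule.mul_le / span_mul_span: Yk k * Yk l = span of the products of
generators, `Submodule.span_mul_span`, then Submodule.span_le): a product of generators is (L.map zv).sum, a sum of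
members of Yk (k+l) (list_sum_mem / Submodule.sum_mem by induction on L). -/

open HofPers Finset Filter Topology

namespace Pool.MZDim

theorem zv_mul (l l' : List ℕ) (hl : Adm l) (hl' : Adm l') :
    ∃ L : List (List ℕ), (∀ g ∈ L, Adm g ∧ g.sum = l.sum + l'.sum) ∧
      zv l * zv l' = (L.map zv).sum := by
  obtain ⟨L, hL1, hL2⟩ := stuffle l l' hl hl'
  refine ⟨L, hL1, ?_⟩
  have h1 : Tendsto (fun M => sR l M * sR l' M) atTop (𝓝 (zv l * zv l')) :=
    (sR_tendsto hl).mul (sR_tendsto hl')
  have h2 : Tendsto (fun M => (L.map fun g => sR g M).sum) atTop (𝓝 (L.map zv).sum) :=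
    tendsto_list_sum L fun g hg => sR_tendsto (hL1 g hg).1
  simp only [hL2] at h1
  exact tendsto_nhds_unique h1 h2

private theorem ymul_list {k : ℕ} (L : List (List ℕ)) (h : ∀ g ∈ L, Adm g ∧ g.sum = k) :
    (L.map zv).sum ∈ Yk k := by
  induction L with
  | nil => exact zero_mem _
  | cons g L ih =>
    rw [List.map_cons, List.sum_cons]
    refine add_mem (Submodule.subset_span ⟨g, (h g (List.mem_cons_self)).1,
      (h g (List.mem_cons_self)).2, rfl⟩) (ih fun g' hg' => h g' (List.mem_cons_of_mem _ hg'))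

theorem Yk_mul {k m : ℕ} {x y : ℝ} (hx : x ∈ Yk k) (hy : y ∈ Yk m) : x * y ∈ Yk (k + m) := by
  unfold Yk at hx hy
  induction hx using Submodule.span_induction with
  | mem x h =>
    obtain ⟨l, hl, rfl, rfl⟩ := h
    induction hy using Submodule.span_induction with
    | mem y h' =>
      obtain ⟨l', hl', rfl, rfl⟩ := h'
      obtain ⟨L, hL1, hL2⟩ := zv_mul l l' hl hl'
      rw [hL2]
      exact ymul_list L hL1
    | zero => rw [mul_zero]; exact zero_mem _
    | add a b _ _ h1 h2 => rw [mul_add]; exact add_mem h1 h2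
    | smul c a _ h1 => rw [mul_smul_comm]; exact Submodule.smul_mem _ _ h1
  | zero => rw [zero_mul]; exact zero_mem _
  | add a b _ _ h1 h2 => rw [add_mul]; exact add_mem h1 h2
  | smul c a _ h1 => rw [smul_mul_assoc]; exact Submodule.smul_mem _ _ h1

end Pool.MZDim
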