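import Pool.Agent.Lib.MZDim.LDim
import Pool.Agent.Lib.MZDim.RevI
import Pool.Agent.Lib.MZDim.LinW

/-! MP_301213_nt, dim Z_k → ∞: final assembly for the spaces of the problem. -/

open HofPers Finset

namespace Pool.MZDim

/-- The multiple zeta value of `s` (decreasing variables, as in the frozen statement). -/
noncomputable def mzv (s : List ℕ) : ℝ :=
  ∑' m : {m : Fin s.length → ℕ // StrictAnti m ∧ ∀ i, 0 < m i},
    ∏ i, ((m.1 i : ℝ) ^ (s.get i))⁻¹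

theorem mzv_eq (s : List ℕ) : mzv s = zv s := zv_eq_tsum s

theorem words_finite_one (k : ℕ) : {s : List ℕ | (∀ a ∈ s, 1 ≤ a) ∧ s.sum = k}.Finite := by
  refine Set.Finite.subset (Set.finite_range fun c : Composition k => c.blocks) ?_
  rintro s ⟨h1, h2⟩
  exact ⟨⟨s, fun {i} hi => h1 i hi, h2⟩, rfl⟩

/-- all convergent words of weight `k` -/
def wd (k : ℕ) : Set (List ℕ) := {s | (∀ a ∈ s, 1 ≤ a) ∧ (∀ a ∈ s.head?, 2 ≤ a) ∧ s.sum = k}

theorem wd_finite (k : ℕ) : (wd k).Finite :=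
  (words_finite_one k).subset fun _ hs => ⟨hs.1, hs.2.2⟩

/-- the space `Z_k` -/
noncomputable def Zk (k : ℕ) : Submodule ℚ ℝ := Submodule.span ℚ (mzv '' wd k)

instance finite_Zk (k : ℕ) : Module.Finite ℚ (Zk k) := (exists_words mzv (wd k) (wd_finite k)).1

theorem Yk_eq (k : ℕ) : Yk k = Submodule.span ℚ (mzv '' {s : List ℕ | Adm s ∧ s.sum = k}) := by
  unfold Yk
  congr 1
  ext x
  constructor
  · rintro ⟨l, h1, h2, h3⟩
    exact ⟨l, ⟨h1, h2⟩, by rw [mzv_eq]; exact h3⟩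
  · rintro ⟨l, ⟨h1, h2⟩, h3⟩
    exact ⟨l, h1, h2, by rw [← mzv_eq]; exact h3⟩

theorem Yk_le (k : ℕ) : Yk k ≤ Zk k := by
  rw [Yk_eq]
  refine Submodule.span_mono (Set.image_mono ?_)
  rintro s ⟨h1, h2⟩
  refine ⟨fun a ha => (h1 a ha).trans' one_le_two, fun a ha => ?_, h2⟩
  exact h1 a (List.mem_of_mem_head? ha)

theorem adm_finite (k : ℕ) : {s : List ℕ | Adm s ∧ s.sum = k}.Finite := words_finite k

theorem main (k : ℕ) (hk : 2 ≤ k) :
    (k < 1098 * Module.finrank ℚ (Zk k) ∧ (306 ≤ k → 2 ≤ Module.finrank ℚ (Zk k))) ∧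
    (∃ W : Finset (List ℕ), (∀ s ∈ W, (∀ a ∈ s, 2 ≤ a) ∧ s.sum = k) ∧
      LinearIndependent ℚ (fun s : W => mzv s) ∧
      k < 1098 * W.card ∧ (306 ≤ k → 2 ≤ W.card)) ∧
    (Submodule.span ℚ (mzv '' {s : List ℕ | (∀ a ∈ s, a = 2 ∨ a = 3) ∧ s.sum = k}) = Zk k →
      ∃ W : Finset (List ℕ), (∀ s ∈ W, (∀ a ∈ s, a = 2 ∨ a = 3) ∧ s.sum = k) ∧
        LinearIndependent ℚ (fun s : W => mzv s) ∧
        k < 1098 * W.card ∧ (306 ≤ k → 2 ≤ W.card)) := by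
  have h3 := dim_linear k hk
  have h2 : Module.finrank ℚ (Yk k) ≤ Module.finrank ℚ (Zk k) := finrank_mono_of_le (Yk_le k)
  have h4 : k < 1098 * Module.finrank ℚ (Zk k) := by omega
  have h5 : 306 ≤ k → 2 ≤ Module.finrank ℚ (Yk k) := fun h => dim_two h
  have h6 : 306 ≤ k → 2 ≤ Module.finrank ℚ (Zk k) := fun h => (h5 h).trans h2
  refine ⟨⟨h4, h6⟩, ?_, fun hH => ?_⟩
  · obtain ⟨-, W, hW1, hW2, hW3⟩ := exists_words mzv _ (adm_finite k)
    rw [← Yk_eq] at hW3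
    exact ⟨W, fun s hs => hW1 s hs, hW2, by rw [hW3]; exact h3, by rw [hW3]; exact h5⟩
  · have hfin : {s : List ℕ | (∀ a ∈ s, a = 2 ∨ a = 3) ∧ s.sum = k}.Finite := by
      refine (adm_finite k).subset ?_
      rintro s ⟨hs1, hs2⟩
      refine ⟨fun a ha => ?_, hs2⟩
      rcases hs1 a ha with h | h <;> omega
    obtain ⟨-, W, hW1, hW2, hW3⟩ := exists_words mzv _ hfin
    rw [hH] at hW3
    exact ⟨W, fun s hs => hW1 s hs, hW2, by rw [hW3]; exact h4, by rw [hW3]; exact h6⟩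

end Pool.MZDim
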