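import Mathlib

/-! MODULE Zer (about 120 lines, ONLY MATHLIB). MP_301213_nt, dim Z_k → ∞. Schwarz lemma with many zeros.

PROOF. Induction on the finite set S of zeros. The claim for S: for every g as in the hypotheses (any B ≥ 0).
Inductive statement (easier): for every finite set S ⊂ ball c R and g differentiable on an open set U ⊇ closedBall c R with
g = 0 on S there is h differentiable on U with g z = (∏ x ∈ S, (z - x)) * h z on U. S = insert x S': apply the induction hypothesis
to S': g = ∏_{S'} * h, and h x = 0 because g x = 0 and x ∉ S' (product ≠ 0); then h z = (z - x) * dslope h x z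
(`sub_smul_dslope`, h x = 0), and dslope h x is differentiable on U (`Complex.differentiableOn_dslope`, U a neighbourhood of x).
Then on the sphere ‖h z‖ = ‖g z‖ / ∏ ‖z - x‖ ≤ B / r^|S|, so by the maximum principle
(`Complex.norm_le_of_forall_mem_frontier_norm_le` on ball c R, frontier_ball, closure_ball; DiffContOnCl from differentiability on U ⊇ closedBall)
‖h z‖ ≤ B / r^|S| on the closed ball, and ‖g z‖ = ∏ ‖z - x‖ * ‖h z‖. -/

open Finset Filter Topology

namespace Pool.MZDim

private theorem zer_factor {c : ℂ} {R : ℝ} {U : Set ℂ} (hU : IsOpen U)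
    (hsub : Metric.closedBall c R ⊆ U) (S : Finset ℂ) :
    ∀ g : ℂ → ℂ, DifferentiableOn ℂ g U → (∀ x ∈ S, x ∈ Metric.ball c R) → (∀ x ∈ S, g x = 0) →
    ∃ h : ℂ → ℂ, DifferentiableOn ℂ h U ∧ ∀ z, g z = (∏ x ∈ S, (z - x)) * h z := by
  classical
  induction S using Finset.induction_on with
  | empty => intro g hg _ _; exact ⟨g, hg, fun z => by simp⟩
  | insert x S hx ih =>
    intro g hg hS h0
    obtain ⟨h, hh, hgh⟩ := ih g hg (fun y hy => hS y (mem_insert_of_mem hy))
      (fun y hy => h0 y (mem_insert_of_mem hy))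
    have hx0 : h x = 0 := by
      have h2 := h0 x (mem_insert_self x S)
      rw [hgh x] at h2
      rcases mul_eq_zero.1 h2 with h1 | h1
      · exfalso
        rw [Finset.prod_eq_zero_iff] at h1
        obtain ⟨y, hy, hxy⟩ := h1
        rw [sub_eq_zero] at hxy
        exact hx (hxy ▸ hy)
      · exact h1
    refine ⟨dslope h x, ?_, fun z => ?_⟩
    · exact (Complex.differentiableOn_dslope (hU.mem_nhds (hsub
        (Metric.ball_subset_closedBall (hS x (mem_insert_self x S)))))).2 hh
    · rw [hgh z, prod_insert hx]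
      have h3 := sub_smul_dslope h x z
      rw [hx0, sub_zero, smul_eq_mul] at h3
      rw [← h3]; ring

theorem schwarz_zeros {c : ℂ} {R : ℝ} (hR : 0 < R) {U : Set ℂ} (hU : IsOpen U)
    (hsub : Metric.closedBall c R ⊆ U) {g : ℂ → ℂ} (hg : DifferentiableOn ℂ g U)
    (S : Finset ℂ) (hS : ∀ x ∈ S, x ∈ Metric.ball c R) (h0 : ∀ x ∈ S, g x = 0)
    {B r : ℝ} (hr : 0 < r) (hB : ∀ z ∈ Metric.sphere c R, ‖g z‖ ≤ B)
    (hSr : ∀ x ∈ S, ∀ z ∈ Metric.sphere c R, r ≤ ‖z - x‖)
    {z : ℂ} (hz : z ∈ Metric.closedBall c R) :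
    ‖g z‖ ≤ B / r ^ S.card * ∏ x ∈ S, ‖z - x‖ := by
  obtain ⟨h, hh, hgh⟩ := zer_factor hU hsub S g hg hS h0
  have hpos : 0 < r ^ S.card := pow_pos hr _
  have hn : ∀ w, ‖g w‖ = (∏ x ∈ S, ‖w - x‖) * ‖h w‖ := by
    intro w
    rw [hgh w, norm_mul, norm_prod]
  have hsph : ∀ w ∈ Metric.sphere c R, ‖h w‖ ≤ B / r ^ S.card := by
    intro w hw
    rw [le_div_iff₀ hpos]
    have h1 : r ^ S.card ≤ ∏ x ∈ S, ‖w - x‖ := by
      rw [← prod_const]
      exact prod_le_prod (fun _ _ => hr.le) fun x hx => hSr x hx w hw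
    have h2 := hB w hw
    rw [hn w] at h2
    calc ‖h w‖ * r ^ S.card ≤ ‖h w‖ * ∏ x ∈ S, ‖w - x‖ :=
          mul_le_mul_of_nonneg_left h1 (norm_nonneg _)
      _ = (∏ x ∈ S, ‖w - x‖) * ‖h w‖ := mul_comm _ _
      _ ≤ B := h2
  have hcl : closure (Metric.ball c R) = Metric.closedBall c R := closure_ball c hR.ne'
  have hd : DiffContOnCl ℂ h (Metric.ball c R) := by
    apply DifferentiableOn.diffContOnCl
    rw [hcl]
    exact hh.mono hsub
  have hmax : ‖h z‖ ≤ B / r ^ S.card := by
    refine Complex.norm_le_of_forall_mem_frontier_norm_le Metric.isBounded_ball hd ?_ ?_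
    · intro w hw
      rw [frontier_ball c hR.ne'] at hw
      exact hsph w hw
    · rw [hcl]
      exact hz
  rw [hn z, mul_comm]
  exact mul_le_mul_of_nonneg_right hmax (prod_nonneg fun _ _ => norm_nonneg _)

end Pool.MZDim
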